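import Pool.Agent.DKP.St

/-!
# Few points on an auxiliary curve
-/

set_option autoImplicit false

open Finset Filter Topology Polynomial

namespace Pool.Agent.DKP

namespace LinAux

/-! ### `YY` and polynomials -/

theorem YY_map {R S : Type} [CommRing R] [CommRing S] (f : R →+* S) (s x : R) :
    ∀ m : ℕ, f (YY s x m) = YY (f s) (f x) m
  | 0 => by simp [YY]
  | 1 => by
    simp only [YY, map_add, map_mul]
    rw [map_ofNat]
  | (m + 2) => by
    simp only [YY, map_add, map_mul, YY_map f s x (m + 1), YY_map f s x m]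
    rw [map_ofNat]

/-- the polynomial `YY s X m` -/
noncomputable def wP (s : ℝ) (m : ℕ) : ℝ[X] := YY (C s) X m

theorem wP_eval (s : ℝ) (m : ℕ) (x : ℝ) : (wP s m).eval x = YY s x m := by
  have := YY_map (evalRingHom x) (C s) X m
  simpa [wP] using this

/-- the polynomial `FF s X m` -/
noncomputable def FP (s : ℝ) (m : ℕ) : ℝ[X] := 2 * wP s m ^ 2 - (X - 1) ^ 2 + 2

theorem FP_eval (s : ℝ) (m : ℕ) (x : ℝ) : (FP s m).eval x = FF s x m := by
  simp [FP, FF, wP_eval]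

/-! ### functions on the curve -/

/-- functions of the form `A(x) + B(x) Y` on the curve `Y² = F(x)` -/
def Good (F : ℝ[X]) (f : ℝ → ℝ → ℝ) : Prop :=
  ∃ A B : ℝ[X], ∀ x Y : ℝ, Y ^ 2 = F.eval x → f x Y = A.eval x + B.eval x * Y

theorem Good.const (F : ℝ[X]) (c : ℝ) : Good F (fun _ _ => c) :=
  ⟨C c, 0, fun x Y _ => by simp⟩

theorem Good.fst (F A : ℝ[X]) : Good F (fun x _ => A.eval x) :=
  ⟨A, 0, fun x Y _ => by simp⟩

theorem Good.snd (F : ℝ[X]) : Good F (fun _ Y => Y) :=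
  ⟨0, 1, fun x Y _ => by simp⟩

theorem Good.add {F : ℝ[X]} {f g : ℝ → ℝ → ℝ} (hf : Good F f) (hg : Good F g) :
    Good F (fun x Y => f x Y + g x Y) := by
  obtain ⟨A, B, h⟩ := hf
  obtain ⟨A', B', h'⟩ := hg
  refine ⟨A + A', B + B', fun x Y hY => ?_⟩
  show f x Y + g x Y = _
  rw [h x Y hY, h' x Y hY, eval_add, eval_add]
  ring

theorem Good.mul {F : ℝ[X]} {f g : ℝ → ℝ → ℝ} (hf : Good F f) (hg : Good F g) :
    Good F (fun x Y => f x Y * g x Y) := by
  obtain ⟨A, B, h⟩ := hf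
  obtain ⟨A', B', h'⟩ := hg
  refine ⟨A * A' + F * (B * B'), A * B' + B * A', fun x Y hY => ?_⟩
  show f x Y * g x Y = _
  rw [h x Y hY, h' x Y hY]
  simp only [eval_add, eval_mul]
  linear_combination (B.eval x * B'.eval x) * hY

theorem Good.pow {F : ℝ[X]} {f : ℝ → ℝ → ℝ} (hf : Good F f) : ∀ n : ℕ,
    Good F (fun x Y => f x Y ^ n)
  | 0 => by simpa using Good.const F 1
  | (n + 1) => by
    simp only [pow_succ]
    exact (Good.pow hf n).mul hf

theorem Good.sum {F : ℝ[X]} {ι : Type} (s : Finset ι) {f : ι → ℝ → ℝ → ℝ}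
    (hf : ∀ i ∈ s, Good F (f i)) : Good F (fun x Y => ∑ i ∈ s, f i x Y) := by
  classical
  induction s using Finset.induction_on with
  | empty => simpa using Good.const F 0
  | insert a s ha ih =>
    simp only [Finset.sum_insert ha]
    exact (hf a (mem_insert_self a s)).add (ih fun i hi => hf i (mem_insert_of_mem hi))

/-! ### limits -/

theorem YY_lim (s : ℝ) : ∀ m : ℕ,
    Tendsto (fun x : ℝ => YY s x m / x ^ m) atTop (𝓝 (2 ^ m))
  | 0 => by simp [YY]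
  | 1 => by
    have h : Tendsto (fun x : ℝ => 2 + s * x⁻¹) atTop (𝓝 (2 + s * 0)) :=
      tendsto_const_nhds.add (tendsto_const_nhds.mul tendsto_inv_atTop_zero)
    simp only [mul_zero, add_zero] at h
    rw [pow_one]
    refine h.congr' ?_
    filter_upwards [eventually_gt_atTop (0 : ℝ)] with x hx
    simp only [YY, pow_one]
    field_simp
  | (m + 2) => by
    have h1 := YY_lim s (m + 1)
    have h2 := YY_lim s m
    have h3 : Tendsto (fun x : ℝ => (x⁻¹) ^ 2) atTop (𝓝 (0 ^ 2)) := tendsto_inv_atTop_zero.pow 2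
    have h : Tendsto (fun x : ℝ => 2 * (YY s x (m + 1) / x ^ (m + 1)) +
        (YY s x m / x ^ m) * (x⁻¹) ^ 2) atTop (𝓝 (2 * 2 ^ (m + 1) + 2 ^ m * 0 ^ 2)) :=
      (tendsto_const_nhds.mul h1).add (h2.mul h3)
    have e : (2 : ℝ) * 2 ^ (m + 1) + 2 ^ m * 0 ^ 2 = 2 ^ (m + 2) := by ring
    rw [e] at h
    refine h.congr' ?_
    filter_upwards [eventually_gt_atTop (0 : ℝ)] with x hx
    simp only [YY]
    field_simp
    ring

theorem FF_lim (s : ℝ) {m : ℕ} (hm : 2 ≤ m) :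
    Tendsto (fun x : ℝ => FF s x m / x ^ (2 * m)) atTop (𝓝 (2 * (2 ^ m) ^ 2)) := by
  have h1 := (YY_lim s m).pow 2
  have h2 : Tendsto (fun x : ℝ => (x⁻¹) ^ (2 * m - 2)) atTop (𝓝 (0 ^ (2 * m - 2))) :=
    tendsto_inv_atTop_zero.pow _
  rw [zero_pow (by omega)] at h2
  have h3 : Tendsto (fun x : ℝ => x⁻¹) atTop (𝓝 0) := tendsto_inv_atTop_zero
  have h : Tendsto (fun x : ℝ => 2 * (YY s x m / x ^ m) ^ 2 -
      ((1 - x⁻¹) ^ 2 - 2 * x⁻¹ ^ 2) * (x⁻¹) ^ (2 * m - 2)) atTop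
      (𝓝 (2 * (2 ^ m) ^ 2 - ((1 - 0) ^ 2 - 2 * 0 ^ 2) * 0)) :=
    (tendsto_const_nhds.mul h1).sub ((((tendsto_const_nhds.sub h3).pow 2).sub
      (tendsto_const_nhds.mul (h3.pow 2))).mul h2)
  have e : (2 : ℝ) * (2 ^ m) ^ 2 - ((1 - 0) ^ 2 - 2 * 0 ^ 2) * 0 = 2 * (2 ^ m) ^ 2 := by ring
  rw [e] at h
  refine h.congr' ?_
  filter_upwards [eventually_gt_atTop (0 : ℝ)] with x hx
  obtain ⟨t, ht⟩ : ∃ t, 2 * m = t + 2 := ⟨2 * m - 2, by omega⟩
  have hxm : x ^ (2 * m) = (x ^ m) ^ 2 := by rw [← pow_mul, mul_comm]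
  have e1 : ((1 - x⁻¹) ^ 2 - 2 * x⁻¹ ^ 2) * (x⁻¹) ^ (2 * m - 2) =
      ((x - 1) ^ 2 - 2) / x ^ (2 * m) := by
    have hu : x⁻¹ * x = 1 := inv_mul_cancel₀ hx.ne'
    have hut : (x⁻¹) ^ t * x ^ t = 1 := by rw [← mul_pow, hu, one_pow]
    rw [ht, Nat.add_sub_cancel, eq_div_iff (by positivity)]
    calc ((1 - x⁻¹) ^ 2 - 2 * x⁻¹ ^ 2) * x⁻¹ ^ t * x ^ (t + 2)
        = ((x - x⁻¹ * x) ^ 2 - 2 * (x⁻¹ * x) ^ 2) * ((x⁻¹) ^ t * x ^ t) := by ring
      _ = (x - 1) ^ 2 - 2 := by rw [hu, hut]; ring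
  rw [e1, FF, hxm, div_pow, ← mul_div_assoc, ← sub_div]
  congr 1
  ring

/-- if `P(x)/x^n` tends to a nonzero limit, `n` is the degree of `P` -/
theorem natDegree_of_lim {P : ℝ[X]} {n : ℕ} {L : ℝ} (hL : L ≠ 0)
    (h : Tendsto (fun x : ℝ => P.eval x / x ^ n) atTop (𝓝 L)) : P ≠ 0 ∧ P.natDegree = n := by
  have hP : P ≠ 0 := by
    rintro rfl
    simp only [eval_zero, zero_div] at h
    exact hL (tendsto_nhds_unique h tendsto_const_nhds)
  refine ⟨hP, ?_⟩
  have h' : Tendsto (fun x : ℝ => P.eval x / (X ^ n : ℝ[X]).eval x) atTop (𝓝 L) := by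
    simpa using h
  have hd : (X ^ n : ℝ[X]).degree = n := by simp
  rcases lt_trichotomy P.natDegree n with hlt | heq | hgt
  · exfalso
    have h1 : P.degree < (X ^ n : ℝ[X]).degree := by
      rw [hd, Polynomial.degree_eq_natDegree hP]
      exact_mod_cast hlt
    exact hL (tendsto_nhds_unique h' (Polynomial.div_tendsto_atTop_zero_of_degree_lt P _ h1))
  · exact heq
  · exfalso
    have h1 : (X ^ n : ℝ[X]).degree < P.degree := by
      rw [hd, Polynomial.degree_eq_natDegree hP]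
      exact_mod_cast hgt
    have h2 := Polynomial.abs_div_tendsto_atTop_atTop_of_degree_gt P _ h1 (by simp)
    exact not_tendsto_atTop_of_tendsto_nhds h'.abs h2

theorem irr {P Q : ℚ} (h : P ≠ 0 ∨ Q ≠ 0) : (P : ℝ) + Q * √2 ≠ 0 := by
  intro h0
  have hQ : Q = 0 := by
    by_contra hQ
    have hQ' : (Q : ℝ) ≠ 0 := by exact_mod_cast hQ
    have : √2 = ((-P / Q : ℚ) : ℝ) := by
      push_cast
      field_simp
      linarith
    exact irrational_sqrt_two ⟨-P / Q, this.symm⟩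
  subst hQ
  rcases h with h | h
  · apply h
    have : (P : ℝ) = 0 := by simpa using h0
    exact_mod_cast this
  · exact h rfl

/-- The limit of the auxiliary function. -/
theorem aux_lim {M J m : ℕ} (hMm : M ≤ m) (φ : Fin M × Fin 2 × Fin (J + 1) → ℚ)
    (p₀ : Fin M × Fin 2 × Fin (J + 1)) (h₀ : φ p₀ ≠ 0)
    (hmax : ∀ p, φ p ≠ 0 → (p.1 : ℕ) + m * (p.2.1 + p.2.2) ≤ p₀.1 + m * (p₀.2.1 + p₀.2.2))
    (fa fb : ℝ → ℝ) (β r : ℝ) (hr : r = √2 ∨ r = -√2) (hβ : β ≠ 0)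
    (ha : Tendsto (fun x => fa x / x ^ m) atTop (𝓝 (r * β)))
    (hb : Tendsto (fun x => fb x / x ^ m) atTop (𝓝 β)) :
    ∃ L : ℝ, L ≠ 0 ∧ Tendsto (fun x : ℝ => (∑ p, (φ p : ℝ) * x ^ (p.1 : ℕ) *
      fa x ^ (p.2.1 : ℕ) * fb x ^ (p.2.2 : ℕ)) / x ^ ((p₀.1 : ℕ) + m * (p₀.2.1 + p₀.2.2)))
      atTop (𝓝 L) := by
  classical
  set D : ℕ := (p₀.1 : ℕ) + m * (p₀.2.1 + p₀.2.2) with hD
  have hterm : ∀ p : Fin M × Fin 2 × Fin (J + 1), Tendsto (fun x : ℝ => ((φ p : ℝ) *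
      x ^ (p.1 : ℕ) * fa x ^ (p.2.1 : ℕ) * fb x ^ (p.2.2 : ℕ)) / x ^ D) atTop
      (𝓝 (if (p.1 : ℕ) + m * (p.2.1 + p.2.2) = D then
        (φ p : ℝ) * (r * β) ^ (p.2.1 : ℕ) * β ^ (p.2.2 : ℕ) else 0)) := by
    intro p
    by_cases hp : φ p = 0
    · simp [hp]
    have hle := hmax p hp
    obtain ⟨t, ht⟩ := Nat.exists_eq_add_of_le hle
    have h1 : Tendsto (fun x : ℝ => (x⁻¹) ^ t) atTop (𝓝 (0 ^ t)) :=
      tendsto_inv_atTop_zero.pow t
    have h2 : Tendsto (fun x : ℝ => (φ p : ℝ) * (fa x / x ^ m) ^ (p.2.1 : ℕ) *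
        (fb x / x ^ m) ^ (p.2.2 : ℕ) * (x⁻¹) ^ t) atTop
        (𝓝 ((φ p : ℝ) * (r * β) ^ (p.2.1 : ℕ) * β ^ (p.2.2 : ℕ) * 0 ^ t)) :=
      ((tendsto_const_nhds.mul (ha.pow _)).mul (hb.pow _)).mul h1
    have e : (φ p : ℝ) * (r * β) ^ (p.2.1 : ℕ) * β ^ (p.2.2 : ℕ) * 0 ^ t =
        if (p.1 : ℕ) + m * (p.2.1 + p.2.2) = D then
        (φ p : ℝ) * (r * β) ^ (p.2.1 : ℕ) * β ^ (p.2.2 : ℕ) else 0 := by
      split_ifs with hif
      · have : t = 0 := by omega
        rw [this, pow_zero, mul_one]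
      · have : t ≠ 0 := by omega
        rw [zero_pow this, mul_zero]
    rw [e] at h2
    refine h2.congr' ?_
    filter_upwards [eventually_gt_atTop (0 : ℝ)] with x hx
    rw [ht, pow_add, pow_add, mul_add, pow_add, pow_mul, pow_mul, inv_pow, div_pow, div_pow]
    field_simp
  have hsum := tendsto_finsetSum (Finset.univ : Finset (Fin M × Fin 2 × Fin (J + 1)))
    (fun p _ => hterm p)
  simp only [← Finset.sum_div] at hsum
  refine ⟨_, ?_, hsum⟩
  -- the limit is not zero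
  set t : ℕ := (p₀.2.1 : ℕ) + p₀.2.2 with ht
  have hord : ∀ p : Fin M × Fin 2 × Fin (J + 1), (p.1 : ℕ) + m * (p.2.1 + p.2.2) = D →
      (p.1 : ℕ) = p₀.1 ∧ (p.2.1 : ℕ) + p.2.2 = t := by
    intro p hp
    have h1 : (p.1 : ℕ) < m := lt_of_lt_of_le p.1.2 hMm
    have h2 : (p₀.1 : ℕ) < m := lt_of_lt_of_le p₀.1.2 hMm
    have h3 : (p.1 : ℕ) = p₀.1 := by
      have e1 := congrArg (· % m) hp
      simp only [hD, Nat.add_mul_mod_self_left] at e1
      rwa [Nat.mod_eq_of_lt h1, Nat.mod_eq_of_lt h2] at e1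
    refine ⟨h3, ?_⟩
    rw [hD, h3] at hp
    have h4 : m * ((p.2.1 : ℕ) + p.2.2) = m * t := by omega
    exact Nat.eq_of_mul_eq_mul_left (by omega) h4
  set P : ℚ := ∑ p : Fin M × Fin 2 × Fin (J + 1),
    if (p.1 : ℕ) + m * (p.2.1 + p.2.2) = D ∧ p.2.1 = 0 then φ p else 0 with hP
  set Q : ℚ := ∑ p : Fin M × Fin 2 × Fin (J + 1),
    if (p.1 : ℕ) + m * (p.2.1 + p.2.2) = D ∧ p.2.1 = 1 then φ p else 0 with hQ
  have huniq : ∀ p : Fin M × Fin 2 × Fin (J + 1), (p.1 : ℕ) + m * (p.2.1 + p.2.2) = D →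
      p.2.1 = p₀.2.1 → p = p₀ := by
    intro p hp he
    obtain ⟨h1, h2⟩ := hord p hp
    have h3 : (p.2.1 : ℕ) = p₀.2.1 := by rw [he]
    have h4 : (p.2.2 : ℕ) = p₀.2.2 := by omega
    exact Prod.ext (Fin.ext h1) (Prod.ext he (Fin.ext h4))
  have hPQ : P ≠ 0 ∨ Q ≠ 0 := by
    have hc : p₀.2.1 = 0 ∨ p₀.2.1 = 1 := by
      rcases p₀.2.1 with ⟨v, hv⟩
      interval_cases v
      · left; rfl
      · right; rfl
    rcases hc with hc | hc
    · left
      have : P = φ p₀ := by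
        rw [hP, Finset.sum_eq_single p₀]
        · rw [if_pos ⟨rfl, hc⟩]
        · intro p _ hp
          rw [if_neg]
          rintro ⟨h1, h2⟩
          exact hp (huniq p h1 (h2.trans hc.symm))
        · intro h
          exact absurd (Finset.mem_univ _) h
      rw [this]
      exact h₀
    · right
      have : Q = φ p₀ := by
        rw [hQ, Finset.sum_eq_single p₀]
        · rw [if_pos ⟨rfl, hc⟩]
        · intro p _ hp
          rw [if_neg]
          rintro ⟨h1, h2⟩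
          exact hp (huniq p h1 (h2.trans hc.symm))
        · intro h
          exact absurd (Finset.mem_univ _) h
      rw [this]
      exact h₀
  have hL : (∑ p : Fin M × Fin 2 × Fin (J + 1),
      if (p.1 : ℕ) + m * (p.2.1 + p.2.2) = D then
        (φ p : ℝ) * (r * β) ^ (p.2.1 : ℕ) * β ^ (p.2.2 : ℕ) else 0) =
      β ^ t * ((P : ℝ) + Q * r) := by
    rw [hP, hQ]
    push_cast
    rw [Finset.sum_mul, ← Finset.sum_add_distrib, Finset.mul_sum]
    refine Finset.sum_congr rfl fun p _ => ?_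
    by_cases hp : (p.1 : ℕ) + m * (p.2.1 + p.2.2) = D
    · have h2 := (hord p hp).2
      have hc : p.2.1 = 0 ∨ p.2.1 = 1 := by
        rcases p.2.1 with ⟨v, hv⟩
        interval_cases v
        · left; rfl
        · right; rfl
      rcases hc with hc | hc
      · have h01 : ¬ (p.2.1 = 1) := by rw [hc]; decide
        have h3 : (p.2.1 : ℕ) = 0 := by rw [hc]; rfl
        have h4 : (p.2.2 : ℕ) = t := by omega
        rw [if_pos hp, if_pos ⟨hp, hc⟩, if_neg (fun h => h01 h.2), h3, h4]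
        push_cast
        ring
      · have h01 : ¬ (p.2.1 = 0) := by rw [hc]; decide
        have h3 : (p.2.1 : ℕ) = 1 := by rw [hc]; rfl
        have h4 : t = (p.2.2 : ℕ) + 1 := by omega
        rw [if_pos hp, if_neg (fun h => h01 h.2), if_pos ⟨hp, hc⟩, h3, h4]
        push_cast
        ring
    · rw [if_neg hp, if_neg (fun h => hp h.1), if_neg (fun h => hp h.1)]
      simp
  rw [hL]
  refine mul_ne_zero (pow_ne_zero _ hβ) ?_
  rcases hr with rfl | rfl
  · exact irr hPQ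
  · have := irr (P := P) (Q := -Q) (by simpa using hPQ)
    push_cast at this
    rw [mul_neg]
    rwa [neg_mul] at this

/-- `(3 + 2√2)^n = c + d √2` -/
theorem unit_pow : ∀ n : ℕ, ∃ c d : ℤ, c ^ 2 - 2 * d ^ 2 = 1 ∧
    (3 + 2 * √2) ^ n = (c : ℝ) + d * √2
  | 0 => ⟨1, 0, by norm_num, by simp⟩
  | (n + 1) => by
    obtain ⟨c, d, h1, h2⟩ := unit_pow n
    refine ⟨3 * c + 4 * d, 2 * c + 3 * d, by linear_combination h1, ?_⟩
    rw [pow_succ, h2]
    push_cast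
    have h3 : √2 * √2 = 2 := Real.mul_self_sqrt (by norm_num)
    linear_combination (2 * (d : ℝ)) * h3

/-- coordinates of a label -/
theorem lab_coord {k : ℕ} {s : ℤ} {m x n : ℕ} {a b c d : ℤ} (h : Lab k s m x n a b)
    (h1 : c ^ 2 - 2 * d ^ 2 = 1) (h2 : (3 + 2 * √2) ^ n = (c : ℝ) + d * √2) :
    a = c * YY s (2 * (k : ℤ) + 1) m - 2 * d * x ∧ b = c * x - d * YY s (2 * (k : ℤ) + 1) m := by
  have h3 : √2 * √2 = 2 := Real.mul_self_sqrt (by norm_num)
  have h1' : (c : ℝ) ^ 2 - 2 * (d : ℝ) ^ 2 = 1 := by exact_mod_cast h1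
  unfold Lab at h
  rw [h2] at h
  set y : ℤ := YY s (2 * (k : ℤ) + 1) m with hy
  have h4 : (((a - (c * y - 2 * d * x) : ℤ) : ℚ) : ℝ) +
      (((b - (c * x - d * y) : ℤ) : ℚ) : ℝ) * √2 = 0 := by
    push_cast
    linear_combination (-((c : ℝ) - d * √2)) * h + (-(a : ℝ) - b * √2) * h1' +
      ((d : ℝ) * d * (a + b * √2) - d * x) * h3
  have h5 : ¬ (((a - (c * y - 2 * d * x) : ℤ) : ℚ) ≠ 0 ∨ ((b - (c * x - d * y) : ℤ) : ℚ) ≠ 0) :=
    fun h => irr h h4
  push Not at h5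
  obtain ⟨h6, h7⟩ := h5
  have h6' : a - (c * y - 2 * d * x) = 0 := by exact_mod_cast h6
  have h7' : b - (c * x - d * y) = 0 := by exact_mod_cast h7
  exact ⟨by linarith, by linarith⟩

/-- the auxiliary function on the curve -/
theorem good_aux (M J m : ℕ) (s : ℝ) (c d : ℤ) (φ : Fin M × Fin 2 × Fin (J + 1) → ℚ) :
    Good (FP s m) (fun x Y => ∑ p, (φ p : ℝ) * x ^ (p.1 : ℕ) *
      ((c : ℝ) * YY s x m - d * Y) ^ (p.2.1 : ℕ) *
      (-(d : ℝ) * YY s x m + (c / 2) * Y) ^ (p.2.2 : ℕ)) := by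
  have hx : Good (FP s m) (fun x _ => x) := by
    have := Good.fst (FP s m) X
    simpa using this
  have hw : Good (FP s m) (fun x _ => YY s x m) := by
    have := Good.fst (FP s m) (wP s m)
    simpa only [wP_eval] using this
  have hY := Good.snd (FP s m)
  have hc := fun c : ℝ => Good.const (FP s m) c
  have ha : Good (FP s m) (fun x Y => (c : ℝ) * YY s x m - d * Y) := by
    have := ((hc c).mul hw).add ((hc (-d)).mul hY)
    simpa only [neg_mul, ← sub_eq_add_neg] using this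
  have hb : Good (FP s m) (fun x Y => -(d : ℝ) * YY s x m + (c / 2) * Y) :=
    ((hc (-d)).mul hw).add ((hc (c / 2)).mul hY)
  exact Good.sum _ fun p _ => (((hc (φ p)).mul (hx.pow _)).mul (ha.pow _)).mul (hb.pow _)

/-- The norm of the auxiliary function. -/
theorem norm_poly {M J m : ℕ} (s : ℝ) {c d : ℤ} (hcd : c ^ 2 - 2 * d ^ 2 = 1)
    (φ : Fin M × Fin 2 × Fin (J + 1) → ℚ) (hM : 2 ≤ M) (hMm : M ≤ m) (hφ : φ ≠ 0) :
    ∃ E : ℝ[X], E ≠ 0 ∧ E.natDegree ≤ 2 * M + 2 * m * (J + 1) ∧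
      ∀ x Y : ℝ, Y ^ 2 = FF s x m → (∑ p, (φ p : ℝ) * x ^ (p.1 : ℕ) *
      ((c : ℝ) * YY s x m - d * Y) ^ (p.2.1 : ℕ) *
      (-(d : ℝ) * YY s x m + (c / 2) * Y) ^ (p.2.2 : ℕ)) = 0 → E.eval x = 0 := by
  classical
  obtain ⟨A, B, hAB⟩ := good_aux M J m s c d φ
  have hm : 2 ≤ m := hM.trans hMm
  -- a maximiser of the order
  have hne : (Finset.univ.filter fun p : Fin M × Fin 2 × Fin (J + 1) => φ p ≠ 0).Nonempty := by
    by_contra h
    rw [Finset.not_nonempty_iff_eq_empty, Finset.filter_eq_empty_iff] at h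
    apply hφ
    funext p
    simpa using h (Finset.mem_univ p)
  obtain ⟨p₀, hp₀, hmax⟩ := Finset.exists_max_image _
    (fun p : Fin M × Fin 2 × Fin (J + 1) => (p.1 : ℕ) + m * (p.2.1 + p.2.2)) hne
  have h₀ : φ p₀ ≠ 0 := (Finset.mem_filter.1 hp₀).2
  have hmax' : ∀ p, φ p ≠ 0 → (p.1 : ℕ) + m * (p.2.1 + p.2.2) ≤
      p₀.1 + m * (p₀.2.1 + p₀.2.2) := fun p hp =>
    hmax p (Finset.mem_filter.2 ⟨Finset.mem_univ p, hp⟩)
  -- limits
  have hc0 : c ≠ 0 := by
    rintro rfl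
    have : 0 ≤ d ^ 2 := sq_nonneg d
    omega
  have hw := YY_lim s m
  have hF := FF_lim s hm
  have hs2 : √2 * √2 = 2 := Real.mul_self_sqrt (by norm_num)
  have hsF : Tendsto (fun x : ℝ => √(FF s x m) / x ^ m) atTop (𝓝 (√2 * 2 ^ m)) := by
    have h1 := (Real.continuous_sqrt.tendsto _).comp hF
    have e : √(2 * (2 ^ m) ^ 2) = √2 * 2 ^ m := by
      rw [Real.sqrt_mul (by norm_num), Real.sqrt_sq (by positivity)]
    rw [e] at h1
    refine h1.congr' ?_
    filter_upwards [eventually_gt_atTop (0 : ℝ)] with x hx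
    have hxm : x ^ (2 * m) = (x ^ m) ^ 2 := by rw [← pow_mul, mul_comm]
    simp only [Function.comp]
    rw [hxm, Real.sqrt_div' _ (by positivity), Real.sqrt_sq (by positivity)]
  have hβ : ∀ r : ℝ, r = √2 ∨ r = -√2 → (2 : ℝ) ^ m * (-d + c / 2 * r) ≠ 0 := by
    intro r hr
    refine mul_ne_zero (by positivity) ?_
    rcases hr with rfl | rfl
    · have := irr (P := -d) (Q := c / 2) (Or.inr (by
        have : (c : ℚ) ≠ 0 := by exact_mod_cast hc0
        positivity))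
      push_cast at this
      exact this
    · have := irr (P := -d) (Q := -(c / 2)) (Or.inr (by
        have : (c : ℚ) ≠ 0 := by exact_mod_cast hc0
        rw [neg_ne_zero]
        positivity))
      push_cast at this
      intro h
      apply this
      linear_combination h
  have hlim : ∀ r : ℝ, r = √2 ∨ r = -√2 → ∃ L : ℝ, L ≠ 0 ∧
      Tendsto (fun x : ℝ => (∑ p, (φ p : ℝ) * x ^ (p.1 : ℕ) *
      ((c : ℝ) * YY s x m - d * (r / √2 * √(FF s x m))) ^ (p.2.1 : ℕ) *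
      (-(d : ℝ) * YY s x m + (c / 2) * (r / √2 * √(FF s x m))) ^ (p.2.2 : ℕ)) /
        x ^ ((p₀.1 : ℕ) + m * (p₀.2.1 + p₀.2.2))) atTop (𝓝 L) := by
    intro r hr
    have hr2 : r * r = 2 := by
      rcases hr with rfl | rfl
      · exact hs2
      · rw [neg_mul_neg, hs2]
    have hs0 : √2 ≠ 0 := by positivity
    refine aux_lim hMm φ p₀ h₀ hmax' _ _ ((2 : ℝ) ^ m * (-d + c / 2 * r)) r hr (hβ r hr) ?_ ?_
    · have h1 : Tendsto (fun x : ℝ => (c : ℝ) * (YY s x m / x ^ m) -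
          d * (r / √2) * (√(FF s x m) / x ^ m)) atTop
          (𝓝 (c * 2 ^ m - d * (r / √2) * (√2 * 2 ^ m))) :=
        (tendsto_const_nhds.mul hw).sub (tendsto_const_nhds.mul hsF)
      have e : (c : ℝ) * 2 ^ m - d * (r / √2) * (√2 * 2 ^ m) =
          r * ((2 : ℝ) ^ m * (-d + c / 2 * r)) := by
        have : (d : ℝ) * (r / √2) * (√2 * 2 ^ m) = d * r * 2 ^ m := by
          field_simp
        rw [this]
        linear_combination (-(c : ℝ) / 2 * 2 ^ m) * hr2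
      rw [e] at h1
      refine h1.congr fun x => ?_
      ring
    · have h1 : Tendsto (fun x : ℝ => -(d : ℝ) * (YY s x m / x ^ m) +
          c / 2 * (r / √2) * (√(FF s x m) / x ^ m)) atTop
          (𝓝 (-(d : ℝ) * 2 ^ m + c / 2 * (r / √2) * (√2 * 2 ^ m))) :=
        (tendsto_const_nhds.mul hw).add (tendsto_const_nhds.mul hsF)
      have e : -(d : ℝ) * 2 ^ m + c / 2 * (r / √2) * (√2 * 2 ^ m) =
          (2 : ℝ) ^ m * (-d + c / 2 * r) := by
        field_simp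
      rw [e] at h1
      refine h1.congr fun x => ?_
      ring
  obtain ⟨L1, hL1, hlim1⟩ := hlim (√2) (Or.inl rfl)
  obtain ⟨L2, hL2, hlim2⟩ := hlim (-√2) (Or.inr rfl)
  set D : ℕ := (p₀.1 : ℕ) + m * (p₀.2.1 + p₀.2.2) with hD
  have hE : Tendsto (fun x : ℝ => (A ^ 2 - FP s m * B ^ 2).eval x / x ^ (2 * D)) atTop
      (𝓝 (L1 * L2)) := by
    refine (hlim1.mul hlim2).congr' ?_
    have hpos : ∀ᶠ x : ℝ in atTop, 0 < FF s x m / x ^ (2 * m) :=
      hF.eventually (lt_mem_nhds (by positivity))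
    filter_upwards [hpos, eventually_gt_atTop (0 : ℝ)] with x hx hx0
    have hs0 : √2 ≠ 0 := by positivity
    have hFx : 0 ≤ FF s x m := by
      by_contra hneg
      push Not at hneg
      exact absurd hx (not_lt.2 (div_nonpos_of_nonpos_of_nonneg hneg.le (by positivity)))
    have hsq : √(FF s x m) ^ 2 = FF s x m := Real.sq_sqrt hFx
    have e1 := hAB x (√2 / √2 * √(FF s x m)) (by
      rw [div_self hs0, one_mul, hsq, FP_eval])
    have e2 := hAB x (-√2 / √2 * √(FF s x m)) (by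
      rw [neg_div, div_self hs0, neg_mul, one_mul, neg_sq, hsq, FP_eval])
    simp only at e1 e2
    rw [e1, e2, div_self hs0, neg_div, div_self hs0]
    have hx2 : x ^ (2 * D) = x ^ D * x ^ D := by rw [← pow_add]; congr 1; omega
    rw [hx2, div_mul_div_comm]
    congr 1
    simp only [eval_sub, eval_mul, eval_pow, FP_eval]
    linear_combination (-(B.eval x) ^ 2) * hsq
  obtain ⟨hE0, hEd⟩ := natDegree_of_lim (mul_ne_zero hL1 hL2) hE
  refine ⟨A ^ 2 - FP s m * B ^ 2, hE0, ?_, ?_⟩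
  · rw [hEd, hD]
    have h1 : (p₀.1 : ℕ) < M := p₀.1.2
    have h2 : (p₀.2.1 : ℕ) < 2 := p₀.2.1.2
    have h3 : (p₀.2.2 : ℕ) < J + 1 := p₀.2.2.2
    have h4 : m * ((p₀.2.1 : ℕ) + p₀.2.2) ≤ m * (J + 1) := Nat.mul_le_mul_left m (by omega)
    nlinarith
  · intro x Y hY h
    have e1 := hAB x Y (by rw [hY, FP_eval])
    simp only at e1
    rw [h] at e1
    simp only [eval_sub, eval_mul, eval_pow, FP_eval]
    rw [← hY]
    linear_combination (-(A.eval x) + B.eval x * Y) * e1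

end LinAux

open LinAux in
theorem t_Lin : StmtLin := by
  intro M J m n s φ T hM hMm hφ hT
  classical
  obtain ⟨c, d, hcd, hun⟩ := unit_pow n
  obtain ⟨E, hE0, hEd, hE⟩ := norm_poly (s : ℝ) hcd φ hM hMm hφ
  refine le_trans ?_ hEd
  have hroot : ∀ k ∈ T, (2 * (k : ℝ) + 1) ∈ E.roots.toFinset := by
    intro k hk
    obtain ⟨x, a, b, hsol, hlab, hsum⟩ := hT k hk
    rw [Multiset.mem_toFinset, mem_roots hE0, IsRoot.def]
    obtain ⟨ha, hb⟩ := lab_coord hlab hcd hun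
    have hy : ((YY s (2 * (k : ℤ) + 1) m : ℤ) : ℝ) = YY (s : ℝ) (2 * (k : ℝ) + 1) m := by
      have := YY_map (Int.castRingHom ℝ) s (2 * (k : ℤ) + 1) m
      simpa using this
    have heq : YY (s : ℝ) (2 * (k : ℝ) + 1) m ^ 2 - 2 * (x : ℝ) ^ 2 = 2 * (k : ℝ) ^ 2 - 1 := by
      rw [← hy]
      exact_mod_cast hsol.heq
    refine hE (2 * k + 1) (2 * x) ?_ ?_
    · unfold FF
      linear_combination (-2 : ℝ) * heq
    · have h1 : (((∑ i, φ i * (2 * (k : ℚ) + 1) ^ (i.1 : ℕ) * (a : ℚ) ^ (i.2.1 : ℕ) *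
          (b : ℚ) ^ (i.2.2 : ℕ) : ℚ)) : ℝ) = 0 := by
        rw [hsum]; simp
      push_cast at h1
      rw [← h1]
      refine Finset.sum_congr rfl fun p _ => ?_
      have e1 : (c : ℝ) * YY (s : ℝ) (2 * (k : ℝ) + 1) m - d * (2 * x) = a := by
        rw [← hy, ha]
        push_cast
        ring
      have e2 : -(d : ℝ) * YY (s : ℝ) (2 * (k : ℝ) + 1) m + c / 2 * (2 * x) = b := by
        rw [← hy, hb]
        push_cast
        ring
      rw [e1, e2]
  calc T.card = (T.image fun k : ℕ => 2 * (k : ℝ) + 1).card := by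
        rw [Finset.card_image_of_injective]
        intro i j hij
        simp only at hij
        have : (i : ℝ) = j := by linarith
        exact_mod_cast this
    _ ≤ E.roots.toFinset.card := Finset.card_le_card (by
        intro z hz
        obtain ⟨k, hk, rfl⟩ := Finset.mem_image.1 hz
        exact hroot k hk)
    _ ≤ Multiset.card E.roots := Multiset.toFinset_card_le _
    _ ≤ E.natDegree := card_roots' E

end Pool.Agent.DKP
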