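import Pool.Agent.DKP.St
import Pool.Agent.DKP.Lin

/-!
# Analytic continuation of the coordinates `a`, `b`
-/

set_option autoImplicit false

open Finset

namespace Pool.Agent.DKP

namespace AnAux

/-- the normalised terms of the recurrence are near `1` -/
theorem rho_bound {s z : ℂ} {m : ℕ} (hs : ‖s‖ = 1) (hm : 1 ≤ m) (hz : 75 * (m : ℝ) ≤ ‖z‖) :
    ∀ j : ℕ, j ≤ m → ‖YY s z j / (2 * z) ^ j - 1‖ ≤ 1 / (150 * m) + j / (20000 * (m : ℝ) ^ 2)
  | 0, _ => by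
    simp only [YY, pow_zero, div_one, sub_self, norm_zero]
    positivity
  | 1, _ => by
    have hm' : (1 : ℝ) ≤ m := by exact_mod_cast hm
    have hz0 : (0 : ℝ) < ‖z‖ := by nlinarith
    have hz1 : z ≠ 0 := norm_pos_iff.1 hz0
    have e : YY s z 1 / (2 * z) ^ 1 - 1 = s / (2 * z) := by
      simp only [YY, pow_one]
      field_simp
      ring
    rw [e, norm_div, hs, norm_mul]
    have h2 : ‖(2 : ℂ)‖ = 2 := by simp
    rw [h2]
    have h3 : 1 / (2 * ‖z‖) ≤ 1 / (150 * (m : ℝ)) := by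
      apply one_div_le_one_div_of_le
      · positivity
      · linarith
    have h4 : (0 : ℝ) ≤ (1 : ℕ) / (20000 * (m : ℝ) ^ 2) := by positivity
    linarith
  | (j + 2), hj => by
    have h1 := rho_bound hs hm hz (j + 1) (by omega)
    have h2 := rho_bound hs hm hz j (by omega)
    have hm' : (1 : ℝ) ≤ m := by exact_mod_cast hm
    have hz0 : (0 : ℝ) < ‖z‖ := by nlinarith
    have hz1 : z ≠ 0 := norm_pos_iff.1 hz0
    have e : YY s z (j + 2) / (2 * z) ^ (j + 2) - 1 =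
        (YY s z (j + 1) / (2 * z) ^ (j + 1) - 1) + YY s z j / (2 * z) ^ j / (4 * z ^ 2) := by
      simp only [YY]
      field_simp
      ring
    have hjm : (j : ℝ) ≤ m := by exact_mod_cast (by omega : j ≤ m)
    have h3 : ‖YY s z j / (2 * z) ^ j‖ ≤ 101 / 100 := by
      have h4 : ‖YY s z j / (2 * z) ^ j‖ ≤ ‖YY s z j / (2 * z) ^ j - 1‖ + 1 := by
        have := norm_add_le (YY s z j / (2 * z) ^ j - 1) 1
        simpa using this
      have h5 : 1 / (150 * (m : ℝ)) ≤ 1 / 150 := by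
        apply one_div_le_one_div_of_le (by norm_num)
        linarith
      have h6 : (j : ℝ) / (20000 * (m : ℝ) ^ 2) ≤ 1 / 20000 := by
        rw [div_le_div_iff₀ (by positivity) (by norm_num)]
        nlinarith
      linarith
    have h7 : ‖YY s z j / (2 * z) ^ j / (4 * z ^ 2)‖ ≤ 1 / (20000 * (m : ℝ) ^ 2) := by
      rw [norm_div, norm_mul, norm_pow]
      have h8 : ‖(4 : ℂ)‖ = 4 := by simp
      rw [h8, div_le_div_iff₀ (by positivity) (by positivity)]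
      have h9 : (75 * (m : ℝ)) ^ 2 ≤ ‖z‖ ^ 2 := pow_le_pow_left₀ (by positivity) hz 2
      calc ‖YY s z j / (2 * z) ^ j‖ * (20000 * (m : ℝ) ^ 2)
          ≤ 101 / 100 * (20000 * (m : ℝ) ^ 2) :=
            mul_le_mul_of_nonneg_right h3 (by positivity)
        _ ≤ 1 * (4 * ‖z‖ ^ 2) := by nlinarith [sq_nonneg (m : ℝ)]
    rw [e]
    refine (norm_add_le _ _).trans ?_
    have e2 : ((j + 2 : ℕ) : ℝ) / (20000 * (m : ℝ) ^ 2) =
        ((j + 1 : ℕ) : ℝ) / (20000 * (m : ℝ) ^ 2) + 1 / (20000 * (m : ℝ) ^ 2) := by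
      push_cast
      ring
    rw [e2]
    linarith

/-- `κ = FF/(2 (2z)^(2m))` -/
noncomputable def kap (s : ℂ) (m : ℕ) (z : ℂ) : ℂ := FF s z m / (2 * (2 * z) ^ (2 * m))

/-- `h(z) = y + √2 x` -/
noncomputable def hh (s : ℂ) (m : ℕ) (z : ℂ) : ℂ :=
  (2 * z) ^ m * (YY s z m / (2 * z) ^ m + kap s m z ^ (1 / 2 : ℂ))

theorem rho_bound' {s z : ℂ} {m : ℕ} (hs : ‖s‖ = 1) (hm : 2 ≤ m) (hz : 75 * (m : ℝ) ≤ ‖z‖) :
    ‖YY s z m / (2 * z) ^ m - 1‖ ≤ 1 / 100 := by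
  have h := rho_bound hs (by omega) hz m le_rfl
  have hm' : (2 : ℝ) ≤ m := by exact_mod_cast hm
  have h5 : 1 / (150 * (m : ℝ)) ≤ 1 / 150 := by
    apply one_div_le_one_div_of_le (by norm_num)
    linarith
  have h6 : (m : ℝ) / (20000 * (m : ℝ) ^ 2) ≤ 1 / 20000 := by
    rw [div_le_div_iff₀ (by positivity) (by norm_num)]
    nlinarith
  linarith

theorem kap_bound {s z : ℂ} {m : ℕ} (hs : ‖s‖ = 1) (hm : 2 ≤ m) (hz : 75 * (m : ℝ) ≤ ‖z‖) :
    ‖kap s m z - 1‖ ≤ 1 / 40 := by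
  have h1 := rho_bound' hs hm hz
  have hm' : (2 : ℝ) ≤ m := by exact_mod_cast hm
  have hz0 : (150 : ℝ) ≤ ‖z‖ := by nlinarith
  have hz1 : z ≠ 0 := norm_pos_iff.1 (by linarith)
  set ρ : ℂ := YY s z m / (2 * z) ^ m with hρ
  have e : kap s m z - 1 = (ρ - 1) * (ρ + 1) - ((z - 1) ^ 2 - 2) / (2 * (2 * z) ^ (2 * m)) := by
    have hp : ((2 * z) ^ m) ≠ 0 := pow_ne_zero _ (mul_ne_zero two_ne_zero hz1)
    have e1 : (2 * z) ^ (2 * m) = ((2 * z) ^ m) ^ 2 := pow_mul' _ _ _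
    have e2 : YY s z m = ρ * (2 * z) ^ m := by rw [hρ]; field_simp
    rw [kap, FF, e1, e2]
    field_simp
    ring
  have h2 : ‖ρ + 1‖ ≤ 201 / 100 := by
    have : ρ + 1 = (ρ - 1) + 2 := by ring
    rw [this]
    refine (norm_add_le _ _).trans ?_
    have h2 : ‖(2 : ℂ)‖ = 2 := by simp
    rw [h2]
    linarith
  have h3 : ‖((z - 1) ^ 2 - 2) / (2 * (2 * z) ^ (2 * m))‖ ≤ 1 / 1000 := by
    rw [norm_div, norm_mul, norm_pow, norm_mul]
    have h2 : ‖(2 : ℂ)‖ = 2 := by simp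
    rw [h2]
    have h4 : ‖(z - 1) ^ 2 - 2‖ ≤ 2 * ‖z‖ ^ 2 := by
      have h5 : ‖(z - 1) ^ 2 - 2‖ ≤ ‖(z - 1) ^ 2‖ + ‖(2 : ℂ)‖ := norm_sub_le _ _
      rw [norm_pow, h2] at h5
      have h6 : ‖z - 1‖ ≤ ‖z‖ + 1 := by
        have := norm_sub_le z 1
        simpa using this
      have h7 : ‖z - 1‖ ^ 2 ≤ (‖z‖ + 1) ^ 2 := pow_le_pow_left₀ (norm_nonneg _) h6 2
      nlinarith
    have h5 : (2 * ‖z‖) ^ 4 ≤ (2 * ‖z‖) ^ (2 * m) :=
      pow_le_pow_right₀ (by linarith) (by omega)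
    rw [div_le_div_iff₀ (by positivity) (by norm_num)]
    have h6 : (0 : ℝ) < ‖z‖ ^ 2 := by positivity
    have h7 : (150 : ℝ) ^ 2 ≤ ‖z‖ ^ 2 := pow_le_pow_left₀ (by norm_num) hz0 2
    calc ‖(z - 1) ^ 2 - 2‖ * 1000 ≤ 2 * ‖z‖ ^ 2 * 1000 :=
          mul_le_mul_of_nonneg_right h4 (by norm_num)
      _ ≤ 1 * (2 * (2 * ‖z‖) ^ 4) := by nlinarith
      _ ≤ 1 * (2 * (2 * ‖z‖) ^ (2 * m)) := by linarith
  rw [e]
  refine (norm_sub_le _ _).trans ?_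
  rw [norm_mul]
  have h4 : ‖ρ - 1‖ * ‖ρ + 1‖ ≤ 1 / 100 * (201 / 100) :=
    mul_le_mul h1 h2 (norm_nonneg _) (by norm_num)
  linarith

theorem slit {w : ℂ} (h : ‖w - 1‖ ≤ 1 / 40) : w ∈ Complex.slitPlane := by
  left
  have h1 := Complex.abs_re_le_norm (w - 1)
  have h2 : |(w - 1).re| ≤ 1 / 40 := h1.trans h
  rw [Complex.sub_re, Complex.one_re] at h2
  have := abs_le.1 h2
  linarith [this.1]

theorem sqrt_bound {w : ℂ} (h : ‖w - 1‖ ≤ 1 / 40) : ‖w ^ (1 / 2 : ℂ) - 1‖ ≤ 1 / 40 := by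
  have hw : w ≠ 0 := Complex.slitPlane_ne_zero (slit h)
  set r : ℂ := w ^ (1 / 2 : ℂ) with hr
  have hr2 : r * r = w := by
    rw [hr, ← Complex.cpow_add _ _ hw]
    norm_num
  have hre : 0 ≤ r.re := by
    rw [hr, Complex.cpow_def_of_ne_zero hw, Complex.exp_re]
    refine mul_nonneg (Real.exp_nonneg _) (Real.cos_nonneg_of_mem_Icc ?_)
    have him : (Complex.log w * (1 / 2 : ℂ)).im = w.arg / 2 := by
      have : (1 / 2 : ℂ) = ((1 / 2 : ℝ) : ℂ) := by push_cast; rfl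
      rw [this, Complex.im_mul_ofReal, Complex.log_im]
      ring
    rw [him]
    have h1 := Complex.neg_pi_lt_arg w
    have h2 := Complex.arg_le_pi w
    constructor <;> linarith
  have h1 : 1 ≤ ‖r + 1‖ := by
    have h2 := Complex.re_le_norm (r + 1)
    rw [Complex.add_re, Complex.one_re] at h2
    linarith
  have h2 : (r - 1) * (r + 1) = w - 1 := by linear_combination hr2
  have h3 : ‖r - 1‖ * ‖r + 1‖ ≤ 1 / 40 := by rw [← norm_mul, h2]; exact h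
  nlinarith [norm_nonneg (r - 1)]

theorem hh_bound {s z : ℂ} {m : ℕ} (hs : ‖s‖ = 1) (hm : 2 ≤ m) (hz : 75 * (m : ℝ) ≤ ‖z‖) :
    39 / 20 * (2 * ‖z‖) ^ m ≤ ‖hh s m z‖ ∧ ‖hh s m z‖ ≤ 41 / 20 * (2 * ‖z‖) ^ m := by
  have h1 := rho_bound' hs hm hz
  have h2 := sqrt_bound (kap_bound hs hm hz)
  set ρ : ℂ := YY s z m / (2 * z) ^ m with hρ
  set r : ℂ := kap s m z ^ (1 / 2 : ℂ) with hr
  have e : ‖hh s m z‖ = (2 * ‖z‖) ^ m * ‖ρ + r‖ := by
    rw [hh, norm_mul, norm_pow, norm_mul]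
    have h2 : ‖(2 : ℂ)‖ = 2 := by simp
    rw [h2]
  have h3 : ‖(ρ + r) - 2‖ ≤ 7 / 200 := by
    have : (ρ + r) - 2 = (ρ - 1) + (r - 1) := by ring
    rw [this]
    refine (norm_add_le _ _).trans ?_
    linarith
  have h2' : ‖(2 : ℂ)‖ = 2 := by simp
  have h4 : ‖ρ + r‖ ≤ 41 / 20 := by
    have : ρ + r = ((ρ + r) - 2) + 2 := by ring
    rw [this]
    refine (norm_add_le _ _).trans ?_
    rw [h2']
    linarith
  have h5 : 39 / 20 ≤ ‖ρ + r‖ := by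
    have h6 : ‖(2 : ℂ)‖ ≤ ‖ρ + r‖ + ‖(ρ + r) - 2‖ := by
      have : (2 : ℂ) = (ρ + r) - ((ρ + r) - 2) := by ring
      calc ‖(2 : ℂ)‖ = ‖(ρ + r) - ((ρ + r) - 2)‖ := by rw [← this]
        _ ≤ _ := norm_sub_le _ _
    rw [h2'] at h6
    linarith
  rw [e]
  have h6 : (0 : ℝ) ≤ (2 * ‖z‖) ^ m := by positivity
  constructor <;> nlinarith

theorem YY_diff (s : ℂ) : ∀ m : ℕ, Differentiable ℂ (fun z : ℂ => YY s z m)
  | 0 => by simp only [YY]; exact differentiable_const _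
  | 1 => by
    simp only [YY]
    exact ((differentiable_const _).mul differentiable_id).add (differentiable_const _)
  | (m + 2) => by
    simp only [YY]
    exact (((differentiable_const _).mul differentiable_id).mul (YY_diff s (m + 1))).add
      (YY_diff s m)

theorem hh_diff {s z : ℂ} {m : ℕ} (hs : ‖s‖ = 1) (hm : 2 ≤ m) (hz : 75 * (m : ℝ) ≤ ‖z‖) :
    DifferentiableAt ℂ (hh s m) z := by
  have hm' : (2 : ℝ) ≤ m := by exact_mod_cast hm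
  have hz1 : z ≠ 0 := norm_pos_iff.1 (by nlinarith)
  have hY : DifferentiableAt ℂ (fun z : ℂ => YY s z m) z := (YY_diff s m) z
  have h2z : DifferentiableAt ℂ (fun z : ℂ => 2 * z) z :=
    (differentiableAt_const _).mul differentiableAt_id
  have hk : DifferentiableAt ℂ (kap s m) z := by
    unfold kap FF
    refine DifferentiableAt.div ?_ ((differentiableAt_const _).mul (h2z.pow _))
      (mul_ne_zero two_ne_zero (pow_ne_zero _ (mul_ne_zero two_ne_zero hz1)))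
    exact (((differentiableAt_const _).mul (hY.pow 2)).sub
      ((differentiableAt_id.sub (differentiableAt_const _)).pow 2)).add
      (differentiableAt_const _)
  unfold hh
  refine (h2z.pow m).mul ((hY.div (h2z.pow m)
    (pow_ne_zero _ (mul_ne_zero two_ne_zero hz1))).add ?_)
  exact hk.cpow (differentiableAt_const _) (slit (kap_bound hs hm hz))

/-- value at a solution -/
theorem hh_at {k : ℕ} {s : ℤ} {m x : ℕ} (h : Sol k s m x) :
    hh (s : ℂ) m (2 * k + 1) =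
      (((YY s (2 * (k : ℤ) + 1) m : ℤ) : ℝ) + x * √2 : ℝ) := by
  set N : ℝ := 2 * k + 1 with hN
  have hN0 : (0 : ℝ) < N := by positivity
  have hzN : (2 * (k : ℂ) + 1) = (N : ℂ) := by rw [hN]; push_cast; rfl
  set y : ℝ := ((YY s (2 * (k : ℤ) + 1) m : ℤ) : ℝ) with hy
  have hyc : YY (s : ℂ) (2 * k + 1) m = (y : ℂ) := by
    have := LinAux.YY_map (Int.castRingHom ℂ) s (2 * (k : ℤ) + 1) m
    rw [hy]
    push_cast
    simpa using this.symm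
  have hs2 : √2 ^ 2 = 2 := Real.sq_sqrt (by norm_num)
  have heq : y ^ 2 - 2 * (x : ℝ) ^ 2 = 2 * (k : ℝ) ^ 2 - 1 := by
    rw [hy]
    exact_mod_cast h.heq
  have hFF : FF (s : ℂ) (2 * k + 1) m = ((4 * (x : ℝ) ^ 2 : ℝ) : ℂ) := by
    have heqc : (y : ℂ) ^ 2 - 2 * (x : ℂ) ^ 2 = 2 * (k : ℂ) ^ 2 - 1 := by exact_mod_cast heq
    rw [FF, hyc]
    push_cast
    linear_combination (2 : ℂ) * heqc
  have hkap : kap (s : ℂ) m (2 * k + 1) = (((x * √2 / (2 * N) ^ m) ^ 2 : ℝ) : ℂ) := by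
    rw [kap, hFF, hzN]
    have e : ((x * √2 / (2 * N) ^ m) ^ 2 : ℝ) = 4 * (x : ℝ) ^ 2 / (2 * (2 * N) ^ (2 * m)) := by
      have e1 : (2 * N) ^ (2 * m) = ((2 * N) ^ m) ^ 2 := pow_mul' _ _ _
      rw [e1, div_pow, mul_pow, hs2]
      field_simp
      ring
    rw [e]
    push_cast
    rfl
  have hsq : (kap (s : ℂ) m (2 * k + 1)) ^ (1 / 2 : ℂ) = ((x * √2 / (2 * N) ^ m : ℝ) : ℂ) := by
    rw [hkap]
    have h12 : (1 / 2 : ℂ) = ((1 / 2 : ℝ) : ℂ) := by push_cast; rfl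
    rw [h12, ← Complex.ofReal_cpow (by positivity), ← Real.sqrt_eq_rpow,
      Real.sqrt_sq (by positivity)]
  rw [hh, hsq, hyc, hzN]
  push_cast
  have : (2 * (N : ℂ)) ^ m ≠ 0 := by
    have : (N : ℂ) ≠ 0 := by exact_mod_cast hN0.ne'
    exact pow_ne_zero _ (mul_ne_zero two_ne_zero this)
  field_simp


theorem ball_norm {N : ℝ} {m : ℕ} (hN : 0 < N) (z : ℂ)
    (hz : z ∈ Metric.closedBall (N : ℂ) (N / (8 * m))) :
    N - N / (8 * m) ≤ ‖z‖ ∧ ‖z‖ ≤ N + N / (8 * m) := by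
  rw [Metric.mem_closedBall, dist_eq_norm] at hz
  have hNn : ‖(N : ℂ)‖ = N := by
    rw [Complex.norm_real, Real.norm_eq_abs, abs_of_pos hN]
  have h1 : ‖(N : ℂ)‖ ≤ ‖z‖ + ‖z - N‖ := by
    have : (N : ℂ) = z - (z - N) := by ring
    calc ‖(N : ℂ)‖ = ‖z - (z - N)‖ := by rw [← this]
      _ ≤ _ := norm_sub_le _ _
  have h2 : ‖z‖ ≤ ‖(N : ℂ)‖ + ‖z - N‖ := by
    have : z = N + (z - N) := by ring
    calc ‖z‖ = ‖N + (z - N)‖ := by rw [← this]
      _ ≤ _ := norm_add_le _ _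
  rw [hNn] at h1 h2
  constructor <;> linarith

theorem frac_bound {N : ℝ} {m : ℕ} (hm : 2 ≤ m) (h80 : 80 * (m : ℝ) ≤ N) :
    0 < N / (8 * (m : ℝ)) ∧ N / (8 * (m : ℝ)) ≤ N / 16 := by
  have hm' : (2 : ℝ) ≤ m := by exact_mod_cast hm
  have hN : 0 < N := by linarith
  refine ⟨by positivity, ?_⟩
  apply div_le_div_of_nonneg_left hN.le (by norm_num) (by linarith)

theorem ball75 {N : ℝ} {m : ℕ} (hm : 2 ≤ m) (h80 : 80 * (m : ℝ) ≤ N) (z : ℂ)
    (hz : z ∈ Metric.closedBall (N : ℂ) (N / (8 * m))) : 75 * (m : ℝ) ≤ ‖z‖ := by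
  have hm' : (2 : ℝ) ≤ m := by exact_mod_cast hm
  have h1 := (ball_norm (by linarith) z hz).1
  have h2 := (frac_bound hm h80).2
  linarith

theorem exp_bound : Real.exp (1 / 8) ≤ 114 / 100 := by
  by_contra hlt
  push Not at hlt
  have h1 : ((114 : ℝ) / 100) ^ 8 < Real.exp (1 / 8) ^ 8 :=
    pow_lt_pow_left₀ hlt (by norm_num) (by norm_num)
  rw [← Real.exp_nat_mul] at h1
  have h2 := Real.exp_one_lt_d9
  norm_num at h1
  linarith

theorem pow_up {N : ℝ} {m : ℕ} (hm : 2 ≤ m) (h80 : 80 * (m : ℝ) ≤ N) (z : ℂ)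
    (hz : z ∈ Metric.closedBall (N : ℂ) (N / (8 * m))) :
    (2 * ‖z‖) ^ m ≤ 114 / 100 * (2 * N) ^ m := by
  have hm' : (2 : ℝ) ≤ m := by exact_mod_cast hm
  have hN : 0 < N := by linarith
  have h1 := ball_norm hN z hz
  have h3 : 2 * ‖z‖ ≤ (2 * N) * (1 + 1 / (8 * m)) := by
    have e : (2 * N) * (1 + 1 / (8 * (m : ℝ))) = 2 * (N + N / (8 * m)) := by ring
    rw [e]
    linarith
  have h4 : (2 * ‖z‖) ^ m ≤ ((2 * N) * (1 + 1 / (8 * m))) ^ m :=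
    pow_le_pow_left₀ (by positivity) h3 m
  have h5 : (1 + 1 / (8 * (m : ℝ))) ^ m ≤ 114 / 100 := by
    have h6 : 1 + 1 / (8 * (m : ℝ)) ≤ Real.exp (1 / (8 * m)) := by
      have := Real.add_one_le_exp (1 / (8 * (m : ℝ)))
      linarith
    calc (1 + 1 / (8 * (m : ℝ))) ^ m ≤ Real.exp (1 / (8 * m)) ^ m :=
          pow_le_pow_left₀ (by positivity) h6 m
      _ = Real.exp (1 / 8) := by
          rw [← Real.exp_nat_mul]
          congr 1
          field_simp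
      _ ≤ _ := exp_bound
  rw [mul_pow (2 * N) (1 + 1 / (8 * (m : ℝ)))] at h4
  calc (2 * ‖z‖) ^ m ≤ (2 * N) ^ m * (1 + 1 / (8 * m)) ^ m := h4
    _ ≤ (2 * N) ^ m * (114 / 100) := mul_le_mul_of_nonneg_left h5 (by positivity)
    _ = _ := by ring

theorem pow_low {N : ℝ} {m : ℕ} (hm : 2 ≤ m) (h80 : 80 * (m : ℝ) ≤ N) (z : ℂ)
    (hz : z ∈ Metric.closedBall (N : ℂ) (N / (8 * m))) :
    7 / 8 * (2 * N) ^ m ≤ (2 * ‖z‖) ^ m := by
  have hm' : (2 : ℝ) ≤ m := by exact_mod_cast hm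
  have hN : 0 < N := by linarith
  have h1 := ball_norm hN z hz
  have h18 : 1 / (8 * (m : ℝ)) ≤ 1 / 16 := by
    apply one_div_le_one_div_of_le (by norm_num)
    linarith
  have h3 : (2 * N) * (1 - 1 / (8 * m)) ≤ 2 * ‖z‖ := by
    have e : (2 * N) * (1 - 1 / (8 * (m : ℝ))) = 2 * (N - N / (8 * m)) := by ring
    rw [e]
    linarith
  have h4 : ((2 * N) * (1 - 1 / (8 * m))) ^ m ≤ (2 * ‖z‖) ^ m :=
    pow_le_pow_left₀ (mul_nonneg (by positivity) (by linarith)) h3 m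
  have h5 : 7 / 8 ≤ (1 - 1 / (8 * (m : ℝ))) ^ m := by
    have h6 := one_add_mul_le_pow (a := -(1 / (8 * (m : ℝ)))) (by linarith) m
    have h7 : 1 + (m : ℝ) * -(1 / (8 * m)) = 7 / 8 := by
      field_simp
      norm_num
    rw [h7] at h6
    exact h6
  rw [mul_pow (2 * N) (1 - 1 / (8 * (m : ℝ)))] at h4
  calc 7 / 8 * (2 * N) ^ m = (2 * N) ^ m * (7 / 8) := by ring
    _ ≤ (2 * N) ^ m * (1 - 1 / (8 * m)) ^ m :=
        mul_le_mul_of_nonneg_left h5 (by positivity)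
    _ ≤ _ := h4

/-- `g = h/E` -/
noncomputable def gg (s : ℂ) (m : ℕ) (E : ℝ) (z : ℂ) : ℂ := hh s m z / (E : ℂ)

/-- `P(z) = ((z-1)²-2)/2` -/
noncomputable def PP (z : ℂ) : ℂ := ((z - 1) ^ 2 - 2) / 2

theorem gg_norm (s : ℂ) (m : ℕ) {E : ℝ} (hE : 0 < E) (z : ℂ) :
    ‖gg s m E z‖ = ‖hh s m z‖ / E := by
  rw [gg, norm_div, Complex.norm_real, Real.norm_eq_abs, abs_of_pos hE]

theorem comp {N : ℝ} {m : ℕ} {s : ℂ} (hs : ‖s‖ = 1) (hm : 2 ≤ m) (h80 : 80 * (m : ℝ) ≤ N)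
    {E : ℝ} (hE : 0 < E) (z : ℂ) (hz : z ∈ Metric.closedBall (N : ℂ) (N / (8 * m))) :
    832 / 1000 * ‖gg s m E N‖ ≤ ‖gg s m E z‖ ∧ ‖gg s m E z‖ ≤ 12 / 10 * ‖gg s m E N‖ := by
  have hm' : (2 : ℝ) ≤ m := by exact_mod_cast hm
  have hN : 0 < N := by linarith
  have hNn : ‖(N : ℂ)‖ = N := by
    rw [Complex.norm_real, Real.norm_eq_abs, abs_of_pos hN]
  have hNmem : (N : ℂ) ∈ Metric.closedBall (N : ℂ) (N / (8 * m)) :=
    Metric.mem_closedBall_self (frac_bound hm h80).1.le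
  have hgN := hh_bound hs hm (ball75 hm h80 N hNmem)
  rw [hNn] at hgN
  have h2 := hh_bound hs hm (ball75 hm h80 z hz)
  have hup := pow_up hm h80 z hz
  have hlo := pow_low hm h80 z hz
  have hNm : (0 : ℝ) < (2 * N) ^ m := by positivity
  rw [gg_norm s m hE z, gg_norm s m hE N, ← mul_div_assoc, ← mul_div_assoc]
  constructor
  · apply div_le_div_of_nonneg_right _ hE.le
    linarith [h2.1, hgN.2]
  · apply div_le_div_of_nonneg_right _ hE.le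
    linarith [h2.2, hgN.1]

theorem PP_bound {N : ℝ} {m : ℕ} (hm : 2 ≤ m) (h80 : 80 * (m : ℝ) ≤ N) (z : ℂ)
    (hz : z ∈ Metric.closedBall (N : ℂ) (N / (8 * m))) : ‖PP z‖ ≤ 58 / 100 * N ^ 2 := by
  have hm' : (2 : ℝ) ≤ m := by exact_mod_cast hm
  have hN : 160 ≤ N := by linarith
  have h1 := (ball_norm (by linarith) z hz).2
  have h3 := (frac_bound hm h80).2
  have h2 : ‖z‖ ≤ 17 / 16 * N := by linarith
  have h2' : ‖(2 : ℂ)‖ = 2 := by simp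
  rw [PP, norm_div, h2']
  have h5 : ‖(z - 1) ^ 2 - 2‖ ≤ ‖(z - 1) ^ 2‖ + ‖(2 : ℂ)‖ := norm_sub_le _ _
  rw [norm_pow, h2'] at h5
  have h6 : ‖z - 1‖ ≤ ‖z‖ + 1 := by
    have := norm_sub_le z 1
    simpa using this
  have h7 : ‖z - 1‖ ^ 2 ≤ (17 / 16 * N + 1) ^ 2 :=
    pow_le_pow_left₀ (norm_nonneg _) (by linarith) 2
  rw [div_le_iff₀ (by norm_num)]
  nlinarith

/-- values at a solution -/
theorem val {k : ℕ} {s : ℤ} {m x n : ℕ} {a b : ℤ} (hS : Sol k s m x)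
    (hL : Lab k s m x n a b) :
    gg (s : ℂ) m ((3 + 2 * √2) ^ n) (2 * k + 1) = ((a + b * √2 : ℝ) : ℂ) ∧
      PP (2 * k + 1) = ((a + b * √2 : ℝ) : ℂ) * ((a - b * √2 : ℝ) : ℂ) := by
  have h1 := hh_at hS
  have hL' := hL
  unfold Lab at hL
  have hE0 : (0 : ℝ) < (3 + 2 * √2) ^ n := by positivity
  constructor
  · rw [gg, h1, hL, Complex.ofReal_mul]
    have : (((3 + 2 * √2) ^ n : ℝ) : ℂ) ≠ 0 := by exact_mod_cast hE0.ne'
    rw [mul_div_assoc, div_self this, mul_one]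
  · obtain ⟨c, d, hcd, hun⟩ := LinAux.unit_pow n
    obtain ⟨ha, hb⟩ := LinAux.lab_coord hL' hcd hun
    have e : a ^ 2 - 2 * b ^ 2 = 2 * (k : ℤ) ^ 2 - 1 := by
      rw [ha, hb]
      linear_combination (2 * (k : ℤ) ^ 2 - 1) * hcd + (c ^ 2 - 2 * d ^ 2) * hS.heq
    have hs2 : √2 ^ 2 = 2 := Real.sq_sqrt (by norm_num)
    have e' : (a : ℝ) ^ 2 - 2 * (b : ℝ) ^ 2 = 2 * (k : ℝ) ^ 2 - 1 := by exact_mod_cast e
    have e2 : ((a : ℝ) + b * √2) * (a - b * √2) = 2 * (k : ℝ) ^ 2 - 1 := by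
      linear_combination e' - (b : ℝ) ^ 2 * hs2
    rw [← Complex.ofReal_mul, e2, PP]
    push_cast
    ring

/-- size at the centre -/
theorem centre {k₀ : ℕ} {s : ℤ} {m x₀ n : ℕ} {a₀ b₀ : ℤ} (hS₀ : Sol k₀ s m x₀)
    (hL₀ : LabN k₀ s m x₀ n a₀ b₀) {N : ℝ} (hN : N = 2 * k₀ + 1) (h160 : 160 ≤ N) :
    7 / 10 * N ≤ ‖gg (s : ℂ) m ((3 + 2 * √2) ^ n) N‖ ∧
      ‖gg (s : ℂ) m ((3 + 2 * √2) ^ n) N‖ ≤ 583 / 100 * (7072 / 10000) * N := by
  have hNc : (2 * (k₀ : ℂ) + 1) = (N : ℂ) := by rw [hN]; push_cast; rfl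
  have hg0 : ‖gg (s : ℂ) m ((3 + 2 * √2) ^ n) N‖ = a₀ + b₀ * √2 := by
    have h1 := (val hS₀ hL₀.lab).1
    rw [hNc] at h1
    rw [h1, Complex.norm_real, Real.norm_eq_abs, abs_of_nonneg]
    exact (Real.sqrt_nonneg _).trans hL₀.h1
  have hk₀ : (k₀ : ℝ) = (N - 1) / 2 := by rw [hN]; ring
  have hP0 : 2 * (k₀ : ℝ) ^ 2 - 1 = (N - 1) ^ 2 / 2 - 1 := by rw [hk₀]; ring
  rw [hg0]
  constructor
  · refine le_trans ?_ hL₀.h1
    apply Real.le_sqrt_of_sq_le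
    rw [hP0]
    nlinarith
  · refine hL₀.h2.le.trans ?_
    have h1 : √(2 * (k₀ : ℝ) ^ 2 - 1) ≤ 7072 / 10000 * N := by
      apply Real.sqrt_le_iff.2
      constructor
      · positivity
      · rw [hP0]
        nlinarith
    have h2 : 3 + 2 * √2 ≤ 583 / 100 := by
      have : √2 ≤ 1415 / 1000 := by
        apply Real.sqrt_le_iff.2
        norm_num
      linarith
    calc (3 + 2 * √2) * √(2 * (k₀ : ℝ) ^ 2 - 1) ≤ 583 / 100 * (7072 / 10000 * N) :=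
          mul_le_mul h2 h1 (Real.sqrt_nonneg _) (by norm_num)
      _ = _ := by ring

theorem gg_diff {N : ℝ} {m : ℕ} {s : ℂ} (hs : ‖s‖ = 1) (hm : 2 ≤ m) (h80 : 80 * (m : ℝ) ≤ N)
    (E : ℝ) (z : ℂ) (hz : z ∈ Metric.closedBall (N : ℂ) (N / (8 * m))) :
    DifferentiableAt ℂ (gg s m E) z :=
  (hh_diff hs hm (ball75 hm h80 z hz)).div_const _

theorem PP_diff (z : ℂ) : DifferentiableAt ℂ PP z :=
  (((differentiableAt_id.sub (differentiableAt_const _)).pow 2).sub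
    (differentiableAt_const _)).div_const _

/-- final bounds -/
theorem fin_bound {k₀ : ℕ} {s : ℤ} {m x₀ n : ℕ} {a₀ b₀ : ℤ} (hS₀ : Sol k₀ s m x₀)
    (hL₀ : LabN k₀ s m x₀ n a₀ b₀) {N : ℝ} (hN : N = 2 * k₀ + 1) (h80 : 80 * (m : ℝ) ≤ N)
    (z : ℂ) (hz : z ∈ Metric.closedBall (N : ℂ) (N / (8 * m))) :
    gg (s : ℂ) m ((3 + 2 * √2) ^ n) z ≠ 0 ∧
      ‖gg (s : ℂ) m ((3 + 2 * √2) ^ n) z‖ ≤ 5 * N ∧
      ‖PP z / gg (s : ℂ) m ((3 + 2 * √2) ^ n) z‖ ≤ N := by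
  have hm : 2 ≤ m := hS₀.hm
  have hm' : (2 : ℝ) ≤ m := by exact_mod_cast hm
  have hs : ‖(s : ℂ)‖ = 1 := by
    rcases hS₀.hs with ⟨h, -⟩ | ⟨h, -⟩ <;> simp [h]
  have h160 : 160 ≤ N := by linarith
  have hc := centre hS₀ hL₀ hN h160
  have h1 := comp hs hm h80 (E := (3 + 2 * √2) ^ n) (by positivity) z hz
  have h2 := PP_bound hm h80 z hz
  have h3 : 58 / 100 * N ≤ ‖gg (s : ℂ) m ((3 + 2 * √2) ^ n) z‖ := by linarith [h1.1, hc.1]
  have h4 : 0 < ‖gg (s : ℂ) m ((3 + 2 * √2) ^ n) z‖ := by linarith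
  refine ⟨norm_pos_iff.1 h4, by linarith [h1.2, hc.2], ?_⟩
  rw [norm_div, div_le_iff₀ h4]
  nlinarith

end AnAux

open AnAux in
theorem t_An : StmtAn := by
  intro k₀ s m x₀ n a₀ b₀ hS₀ hL₀ h80
  have hm : 2 ≤ m := hS₀.hm
  have hm' : (2 : ℝ) ≤ m := by exact_mod_cast hm
  have hs : ‖(s : ℂ)‖ = 1 := by
    rcases hS₀.hs with ⟨h, -⟩ | ⟨h, -⟩ <;> simp [h]
  obtain ⟨N, hN⟩ : ∃ N : ℝ, N = 2 * k₀ + 1 := ⟨_, rfl⟩
  have h80' : 80 * (m : ℝ) ≤ N := by rw [hN]; exact_mod_cast h80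
  have hNc : (2 * (k₀ : ℂ) + 1) = (N : ℂ) := by rw [hN]; push_cast; rfl
  have hR := (frac_bound hm h80').1
  have hfb := fin_bound hS₀ hL₀ hN h80'
  have hs2' : (1 : ℝ) ≤ √2 := by
    apply Real.le_sqrt_of_sq_le
    norm_num
  have hcl : closure (Metric.ball (N : ℂ) (N / (8 * m))) =
      Metric.closedBall (N : ℂ) (N / (8 * m)) := closure_ball _ hR.ne'
  set g : ℂ → ℂ := gg (s : ℂ) m ((3 + 2 * √2) ^ n) with hg
  have hgd : ∀ z ∈ Metric.closedBall (N : ℂ) (N / (8 * m)), DifferentiableAt ℂ g z :=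
    fun z hz => gg_diff hs hm h80' _ z hz
  have hg'd : ∀ z ∈ Metric.closedBall (N : ℂ) (N / (8 * m)),
      DifferentiableAt ℂ (fun z => PP z / g z) z := fun z hz =>
    (PP_diff z).div (hgd z hz) (hfb z hz).1
  rw [← hN, hNc]
  refine ⟨fun z => (g z + PP z / g z) / 2, fun z => (g z - PP z / g z) / (2 * (√2 : ℂ)),
    ?_, ?_, ?_, ?_⟩
  · apply DifferentiableOn.diffContOnCl
    rw [hcl]
    intro z hz
    exact (((hgd z hz).add (hg'd z hz)).div_const _).differentiableWithinAt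
  · apply DifferentiableOn.diffContOnCl
    rw [hcl]
    intro z hz
    exact (((hgd z hz).sub (hg'd z hz)).div_const _).differentiableWithinAt
  · intro z hz
    obtain ⟨-, h1, h2⟩ := hfb z (Metric.sphere_subset_closedBall hz)
    have hN0 : 0 < N := by linarith
    have h2' : ‖(2 : ℂ)‖ = 2 := by simp
    constructor
    · rw [norm_div, h2', div_le_iff₀ (by norm_num)]
      refine (norm_add_le _ _).trans ?_
      linarith
    · rw [norm_div, norm_mul, h2', Complex.norm_real, Real.norm_eq_abs,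
        abs_of_pos (by positivity), div_le_iff₀ (by positivity)]
      refine (norm_sub_le _ _).trans ?_
      nlinarith
  · intro k x a b hk hS hL
    have hN0 : 0 < N := by linarith
    obtain ⟨h1, h2⟩ := val hS hL
    rw [← hg] at h1
    have hmem : (2 * (k : ℂ) + 1) ∈ Metric.closedBall (N : ℂ) (N / (8 * m)) := by
      rw [Metric.mem_closedBall, dist_eq_norm]
      have e : (2 * (k : ℂ) + 1) - N = ((2 * (k : ℝ) - 2 * k₀ : ℝ) : ℂ) := by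
        rw [hN]; push_cast; ring
      rw [e, Complex.norm_real, Real.norm_eq_abs]
      refine hk.trans ?_
      apply div_le_div_of_nonneg_left hN0.le (by positivity) (by linarith)
    have h3 := (hfb _ hmem).1
    rw [h1] at h3
    have h4 : PP (2 * k + 1) / g (2 * k + 1) = ((a - b * √2 : ℝ) : ℂ) := by
      rw [h1, h2]
      field_simp
    have hs0 : (√2 : ℂ) ≠ 0 := by
      exact_mod_cast (by positivity : √2 ≠ (0 : ℝ))
    constructor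
    · simp only
      rw [h4, h1]
      push_cast
      ring
    · simp only
      rw [h4, h1]
      push_cast
      field_simp
      ring

end Pool.Agent.DKP
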