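import Pool.Agent.DKP.St

/-!
# Dyadic blocks
-/

set_option autoImplicit false

open Finset

namespace Pool.Agent.DKP

namespace BlockAux

theorem log_al_le (k Z : ℕ) (h : 2 * k + 1 < 2 * Z) :
    Real.log (al k) ≤ 2 * Real.log (2 * Z) := by
  have hk : (2 * (k : ℝ) + 1) + 1 ≤ 2 * Z := by exact_mod_cast h
  have hk0 : (0 : ℝ) ≤ k := Nat.cast_nonneg k
  have h1 : √((2 * (k : ℝ) + 1) ^ 2 + 1) ≤ 2 * k + 2 := by
    rw [Real.sqrt_le_left (by positivity)]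
    nlinarith
  have h2 : 0 < al k := by
    unfold al
    positivity
  have h3 : al k ≤ (2 * (Z : ℝ)) ^ 2 := by
    unfold al
    nlinarith
  calc Real.log (al k) ≤ Real.log ((2 * (Z : ℝ)) ^ 2) := Real.log_le_log h2 h3
    _ = 2 * Real.log (2 * Z) := by rw [Real.log_pow]; norm_num

theorem bounds (C0 : ℝ) (hC0 : 0 < C0)
    (hI : ∀ (k : ℕ) (s : ℤ) (m x : ℕ), ¬ Deg k → Sol k s m x →
      (m : ℝ) ≤ C0 * Real.log (2 * k + 1) ^ 2) (hL : StmtLam) (δ : ℝ) (hδ : 0 < δ) :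
    ∃ A B : ℝ, 0 < A ∧ 0 < B ∧ ∀ (Z : ℕ), 1 ≤ Z → ∀ (k : ℕ) (s : ℤ) (m x : ℕ),
      2 * k + 1 < 2 * Z → ¬ Deg k → Sol k s m x → (m : ℝ) ≤ A * (Z : ℝ) ^ (2 * δ) ∧
        ∀ (n : ℕ) (a b : ℤ), LabN k s m x n a b → (n : ℝ) ≤ B * (Z : ℝ) ^ (3 * δ) := by
  set K : ℝ := 2 ^ δ / δ with hKdef
  have hK : 0 < K := by positivity
  refine ⟨C0 * K ^ 2, 2 * K * (C0 * K ^ 2 + 1), by positivity, by positivity, ?_⟩
  intro Z hZ k s m x hkZ hD hS
  have hz : (1 : ℝ) ≤ Z := by exact_mod_cast hZ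
  have hz0 : (0 : ℝ) < Z := by linarith
  have hl : Real.log (2 * (Z : ℝ)) ≤ K * (Z : ℝ) ^ δ := by
    have h := Real.log_le_rpow_div (x := 2 * (Z : ℝ)) (by positivity) hδ
    rw [Real.mul_rpow (by norm_num) hz0.le] at h
    calc Real.log (2 * (Z : ℝ)) ≤ 2 ^ δ * (Z : ℝ) ^ δ / δ := h
      _ = K * (Z : ℝ) ^ δ := by rw [hKdef]; ring
  have hkz : (2 * (k : ℝ) + 1) ≤ 2 * Z := by exact_mod_cast hkZ.le
  have hk0 : (0 : ℝ) ≤ k := Nat.cast_nonneg k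
  have hl1 : Real.log (2 * k + 1) ≤ Real.log (2 * (Z : ℝ)) :=
    Real.log_le_log (by positivity) hkz
  have hl0 : 0 ≤ Real.log (2 * k + 1) := Real.log_nonneg (by linarith)
  have e2 : ((Z : ℝ) ^ δ) ^ 2 = (Z : ℝ) ^ (2 * δ) := by
    rw [← Real.rpow_natCast, ← Real.rpow_mul hz0.le]
    congr 1
    push_cast
    ring
  have e3 : (Z : ℝ) ^ (2 * δ) * (Z : ℝ) ^ δ = (Z : ℝ) ^ (3 * δ) := by
    rw [← Real.rpow_add hz0]
    congr 1
    ring
  have h1 : (1 : ℝ) ≤ (Z : ℝ) ^ (2 * δ) := Real.one_le_rpow hz (by positivity)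
  have hm : (m : ℝ) ≤ C0 * K ^ 2 * (Z : ℝ) ^ (2 * δ) := by
    refine (hI k s m x hD hS).trans ?_
    have h2 : Real.log (2 * k + 1) ^ 2 ≤ (K * (Z : ℝ) ^ δ) ^ 2 :=
      pow_le_pow_left₀ hl0 (hl1.trans hl) 2
    calc C0 * Real.log (2 * k + 1) ^ 2 ≤ C0 * (K * (Z : ℝ) ^ δ) ^ 2 :=
          mul_le_mul_of_nonneg_left h2 hC0.le
      _ = C0 * K ^ 2 * (Z : ℝ) ^ (2 * δ) := by rw [mul_pow, e2]; ring
  refine ⟨hm, fun n a b hN => ?_⟩
  have h3 := (hL k s m x n a b hS hN).2.2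
  have h4 : Real.log (al k) ≤ 2 * (K * (Z : ℝ) ^ δ) :=
    (log_al_le k Z hkZ).trans (mul_le_mul_of_nonneg_left hl (by norm_num))
  have hzd : (0 : ℝ) ≤ (Z : ℝ) ^ δ := by positivity
  calc (n : ℝ) ≤ (m + 1) * Real.log (al k) := h3
    _ ≤ (m + 1) * (2 * (K * (Z : ℝ) ^ δ)) := mul_le_mul_of_nonneg_left h4 (by positivity)
    _ ≤ ((C0 * K ^ 2 + 1) * (Z : ℝ) ^ (2 * δ)) * (2 * (K * (Z : ℝ) ^ δ)) := by
        apply mul_le_mul_of_nonneg_right _ (by positivity)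
        rw [add_mul, one_mul]
        exact add_le_add hm h1
    _ = 2 * K * (C0 * K ^ 2 + 1) * ((Z : ℝ) ^ (2 * δ) * (Z : ℝ) ^ δ) := by ring
    _ = _ := by rw [e3]

theorem exists_J (M : ℕ) (ε : ℝ) (hM : 2 ≤ M) (hε : 0 < ε) :
    ∃ J : ℕ, ((M + J : ℕ) : ℝ) / (2 * M * (J + 1) - 1) ≤ 1 / (2 * (M : ℝ)) + ε / 4 := by
  refine ⟨⌈2 / ε⌉₊, ?_⟩
  have hM1 : (2 : ℝ) ≤ M := by exact_mod_cast hM
  have hJ : 2 / ε ≤ (⌈2 / ε⌉₊ : ℝ) := Nat.le_ceil _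
  push_cast
  generalize ((⌈2 / ε⌉₊ : ℕ) : ℝ) = J at hJ
  have hJ1 : 2 ≤ ε * J := by
    rw [div_le_iff₀ hε] at hJ
    linarith
  have hJ0 : 0 ≤ J := le_trans (by positivity) hJ
  have h1 : 0 < 2 * (M : ℝ) * (J + 1) - 1 := by nlinarith
  rw [div_le_iff₀ h1]
  have h2 : (1 / (2 * (M : ℝ)) + ε / 4) * (2 * M * (J + 1) - 1) =
      (J + 1) - 1 / (2 * M) + ε / 4 * (2 * M * (J + 1) - 1) := by
    field_simp
  rw [h2]
  have h3 : 1 / (2 * (M : ℝ)) ≤ 1 / 4 := by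
    apply one_div_le_one_div_of_le (by norm_num)
    linarith
  have h4 : ε * J * M ≥ 2 * M := mul_le_mul_of_nonneg_right hJ1 (by linarith)
  have h5 : 0 ≤ ε * (2 * (M : ℝ) - 1) := by
    apply mul_nonneg hε.le
    linarith
  nlinarith

/-- one value of `(s, m, n)` -/
theorem one_triple (hShort : StmtShort) (M J m n ℓ Z : ℕ) (s : ℤ) (T : Finset ℕ) (hM : 2 ≤ M)
    (hm : M ≤ m) (hZ : 80 * m ≤ Z) (hℓ : 1 ≤ ℓ)
    (hnum : 64 * (2 * M * (J + 1) : ℝ) * m * ℓ *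
      (8 * Z : ℝ) ^ (((M + J : ℕ) : ℝ) / (2 * M * (J + 1) - 1)) < Z)
    (hT : ∀ k ∈ T, Z ≤ 2 * k + 1 ∧ 2 * k + 1 < 2 * Z ∧
      ∃ (x : ℕ) (a b : ℤ), Sol k s m x ∧ LabN k s m x n a b) :
    T.card ≤ (2 * M + 2 * m * (J + 1)) * (2 * Z / ℓ + 1) := by
  have h1 : ∀ k ∈ T, (2 * k + 1) / ℓ ∈ range (2 * Z / ℓ + 1) := by
    intro k hk
    rw [mem_range]
    exact Nat.lt_succ_of_le (Nat.div_le_div_right (hT k hk).2.1.le)
  have h2 := card_le_mul_card_image_of_maps_to (f := fun k => (2 * k + 1) / ℓ) h1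
    (2 * M + 2 * m * (J + 1)) ?_
  · rwa [card_range] at h2
  intro g hg
  refine hShort M J m n ℓ Z s _ hM hm hZ hℓ hnum ?_ ?_
  · intro k hk
    exact hT k (mem_filter.1 hk).1
  · intro k hk k' hk'
    have e1 := (mem_filter.1 hk).2
    have e2 := (mem_filter.1 hk').2
    have a1 := Nat.div_add_mod (2 * k + 1) ℓ
    have a2 := Nat.div_add_mod (2 * k' + 1) ℓ
    have b1 := Nat.mod_lt (2 * k + 1) hℓ
    have b2 := Nat.mod_lt (2 * k' + 1) hℓ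
    rw [e1] at a1
    rw [e2] at a2
    generalize (2 * k + 1) % ℓ = r1 at a1 b1
    generalize (2 * k' + 1) % ℓ = r2 at a2 b2
    generalize ℓ * g = u at a1 a2
    rw [abs_le]
    constructor <;> omega

theorem union_bound (hShort : StmtShort) (M J ℓ Z a b : ℕ) (T : Finset ℕ) (hM : 2 ≤ M)
    (hZ : 80 * a ≤ Z) (hℓ : 1 ≤ ℓ)
    (hnum : 64 * (2 * M * (J + 1) : ℝ) * a * ℓ *
      (8 * Z : ℝ) ^ (((M + J : ℕ) : ℝ) / (2 * M * (J + 1) - 1)) < Z)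
    (hT : ∀ k ∈ T, Z ≤ 2 * k + 1 ∧ 2 * k + 1 < 2 * Z ∧
      ∃ (s : ℤ) (m n x : ℕ) (c d : ℤ), M ≤ m ∧ m ≤ a ∧ n ≤ b ∧ Sol k s m x ∧
        LabN k s m x n c d) :
    T.card ≤ 2 * ((a + 1) * (b + 1)) * ((2 * M + 2 * a * (J + 1)) * (2 * Z / ℓ + 1)) := by
  classical
  set I : Finset (ℤ × ℕ × ℕ) := ({1, -1} : Finset ℤ) ×ˢ (range (a + 1) ×ˢ range (b + 1)) with hI
  let R : ℤ × ℕ × ℕ → Finset ℕ := fun i => T.filter fun k =>
    M ≤ i.2.1 ∧ ∃ (x : ℕ) (c d : ℤ), Sol k i.1 i.2.1 x ∧ LabN k i.1 i.2.1 x i.2.2 c d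
  have hsub : T ⊆ I.biUnion R := by
    intro k hk
    obtain ⟨-, -, s, m, n, x, c, d, h1, h2, h3, h4, h5⟩ := hT k hk
    rw [mem_biUnion]
    refine ⟨(s, m, n), ?_, ?_⟩
    · rw [hI, mem_product, mem_product, mem_range, mem_range]
      refine ⟨?_, Nat.lt_succ_of_le h2, Nat.lt_succ_of_le h3⟩
      rcases h4.hs with ⟨rfl, -⟩ | ⟨rfl, -⟩
      · exact mem_insert_self _ _
      · exact mem_insert_of_mem (mem_singleton_self _)
    · rw [mem_filter]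
      exact ⟨hk, h1, x, c, d, h4, h5⟩
  have hR : ∀ i ∈ I, (R i).card ≤ (2 * M + 2 * a * (J + 1)) * (2 * Z / ℓ + 1) := by
    rintro ⟨s, m, n⟩ hi
    rw [hI, mem_product, mem_product, mem_range, mem_range] at hi
    obtain ⟨-, hm, -⟩ := hi
    have hma : m ≤ a := Nat.lt_succ_iff.1 hm
    rcases (R (s, m, n)).eq_empty_or_nonempty with h0 | ⟨k, hk⟩
    · rw [h0, card_empty]
      exact Nat.zero_le _
    have hMm : M ≤ m := (mem_filter.1 hk).2.1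
    have h1 := one_triple hShort M J m n ℓ Z s (R (s, m, n)) hM hMm
      ((Nat.mul_le_mul_left 80 hma).trans hZ) hℓ ?_ ?_
    · refine h1.trans (Nat.mul_le_mul_right _ ?_)
      exact Nat.add_le_add_left (Nat.mul_le_mul_right _ (Nat.mul_le_mul_left 2 hma)) _
    · refine lt_of_le_of_lt ?_ hnum
      have hma' : (m : ℝ) ≤ a := by exact_mod_cast hma
      gcongr
    · intro k hk
      obtain ⟨hk1, hk2⟩ := mem_filter.1 hk
      exact ⟨(hT k hk1).1, (hT k hk1).2.1, hk2.2⟩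
  refine (card_le_card hsub).trans ((card_biUnion_le_card_mul I R _ hR).trans ?_)
  apply Nat.mul_le_mul_right
  rw [hI, card_product, card_product, card_range, card_range]
  exact Nat.mul_le_mul_right _ card_le_two

end BlockAux

open BlockAux in
theorem t_Block : StmtIndex → StmtG → StmtLam → StmtShort → StmtBlock := by
  intro hIdx hG hL hShort M ε0 hM hε0
  obtain ⟨C0, hC0, hI⟩ := hIdx
  obtain ⟨ε, hε, hε8, hεε⟩ : ∃ ε : ℝ, 0 < ε ∧ ε ≤ 1 / 8 ∧ ε ≤ ε0 :=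
    ⟨min ε0 (1 / 8), lt_min hε0 (by norm_num), min_le_right _ _, min_le_left _ _⟩
  obtain ⟨J, hJ⟩ := exists_J M ε hM hε
  obtain ⟨A, B, hA, hB, hAB⟩ := bounds C0 hC0 hI hL (ε / 40) (by positivity)
  have hM1 : (2 : ℝ) ≤ M := by exact_mod_cast hM
  have hJ0 : (0 : ℝ) ≤ J := Nat.cast_nonneg J
  obtain ⟨D, hD1, hD2, hD3⟩ : ∃ D : ℝ, 1 ≤ D ∧ 80 * A ≤ D ∧
      64 * (2 * M * (J + 1) : ℝ) * A * 8 ≤ D :=
    ⟨max 1 (max (80 * A) (64 * (2 * M * (J + 1) : ℝ) * A * 8)), le_max_left _ _,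
      le_max_of_le_right (le_max_left _ _), le_max_of_le_right (le_max_right _ _)⟩
  have hC1 : 0 < 2 * ((A + 1) * (B + 1)) * ((2 * M + 2 * A * (J + 1)) * 5) := by positivity
  have hC2 : 0 < D ^ (5 / ε) := by positivity
  refine ⟨2 * ((A + 1) * (B + 1)) * ((2 * M + 2 * A * (J + 1)) * 5) + D ^ (5 / ε),
    by positivity, ?_⟩
  intro Z T hZ hT
  have hz : (1 : ℝ) ≤ Z := by exact_mod_cast hZ
  have hz0 : (0 : ℝ) < Z := by linarith
  have hM4 : 1 / (2 * (M : ℝ)) ≤ 1 / 4 := by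
    apply one_div_le_one_div_of_le (by norm_num)
    linarith
  have hM0 : 0 < 1 / (2 * (M : ℝ)) := by positivity
  have hfin1 : (1 : ℝ) ≤ (Z : ℝ) ^ (1 / (2 * (M : ℝ)) + ε0) :=
    Real.one_le_rpow hz (by positivity)
  by_cases hbig : D < (Z : ℝ) ^ (ε / 5)
  swap
  · -- the trivial bound
    have h1 : T.card ≤ Z := by
      have h2 : T ⊆ range Z := by
        intro k hk
        have := (hT k hk).2.1
        rw [mem_range]
        omega
      have h3 := card_le_card h2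
      rwa [card_range] at h3
    have h2 : (Z : ℝ) ≤ D ^ (5 / ε) := by
      have h3 : ((Z : ℝ) ^ (ε / 5)) ^ (5 / ε) = Z := by
        rw [← Real.rpow_mul hz0.le]
        have : ε / 5 * (5 / ε) = 1 := by field_simp
        rw [this, Real.rpow_one]
      rw [← h3]
      exact Real.rpow_le_rpow (by positivity) (not_lt.1 hbig) (by positivity)
    calc (T.card : ℝ) ≤ Z := by exact_mod_cast h1
      _ ≤ D ^ (5 / ε) := h2
      _ ≤ (2 * ((A + 1) * (B + 1)) * ((2 * M + 2 * A * (J + 1)) * 5) + D ^ (5 / ε)) * 1 := by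
          linarith
      _ ≤ _ := mul_le_mul_of_nonneg_left hfin1 (by positivity)
  -- the main case
  set z : ℝ := (Z : ℝ) with hzdef
  set θ : ℝ := 1 - 1 / (2 * (M : ℝ)) - ε / 2 with hθ
  have hθ0 : 0 < θ := by rw [hθ]; linarith
  have hzθ : 1 ≤ z ^ θ := Real.one_le_rpow hz hθ0.le
  set ℓ : ℕ := ⌊z ^ θ⌋₊ with hℓdef
  have hℓ1 : 1 ≤ ℓ := Nat.le_floor (by exact_mod_cast hzθ)
  have hℓ1' : (1 : ℝ) ≤ ℓ := by exact_mod_cast hℓ1
  have hℓle : (ℓ : ℝ) ≤ z ^ θ := Nat.floor_le (by positivity)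
  have hℓge : z ^ θ ≤ 2 * ℓ := by
    have := Nat.lt_floor_add_one (z ^ θ)
    rw [← hℓdef] at this
    linarith
  have hp2 : 1 ≤ z ^ (2 * (ε / 40)) := Real.one_le_rpow hz (by positivity)
  have hp3 : 1 ≤ z ^ (3 * (ε / 40)) := Real.one_le_rpow hz (by positivity)
  set a : ℕ := ⌊A * z ^ (2 * (ε / 40))⌋₊ with ha
  set b : ℕ := ⌊B * z ^ (3 * (ε / 40))⌋₊ with hb
  have hale : (a : ℝ) ≤ A * z ^ (2 * (ε / 40)) := Nat.floor_le (by positivity)
  have hble : (b : ℝ) ≤ B * z ^ (3 * (ε / 40)) := Nat.floor_le (by positivity)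
  have key := union_bound hShort M J ℓ Z a b T hM ?_ hℓ1 ?_ ?_
  · -- final computation
    have e1 : (a : ℝ) + 1 ≤ (A + 1) * z ^ (2 * (ε / 40)) := by
      rw [add_mul, one_mul]
      exact add_le_add hale hp2
    have e2 : (b : ℝ) + 1 ≤ (B + 1) * z ^ (3 * (ε / 40)) := by
      rw [add_mul, one_mul]
      exact add_le_add hble hp3
    have e3 : 2 * (M : ℝ) + 2 * a * (J + 1) ≤ (2 * M + 2 * A * (J + 1)) * z ^ (2 * (ε / 40)) := by
      have h1 : 2 * (M : ℝ) ≤ 2 * M * z ^ (2 * (ε / 40)) :=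
        le_mul_of_one_le_right (by positivity) hp2
      have h2 : 2 * (a : ℝ) * (J + 1) ≤ 2 * (A * z ^ (2 * (ε / 40))) * (J + 1) := by gcongr
      calc 2 * (M : ℝ) + 2 * a * (J + 1) ≤
          2 * M * z ^ (2 * (ε / 40)) + 2 * (A * z ^ (2 * (ε / 40))) * (J + 1) := add_le_add h1 h2
        _ = _ := by ring
    have hzsplit : z ^ θ * z ^ (1 - θ) = z := by
      rw [← Real.rpow_add hz0]
      have : θ + (1 - θ) = 1 := by ring
      rw [this, Real.rpow_one]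
    have hz1θ : 1 ≤ z ^ (1 - θ) := Real.one_le_rpow hz (by rw [hθ]; linarith)
    have e4 : ((2 * Z / ℓ : ℕ) : ℝ) + 1 ≤ 5 * z ^ (1 - θ) := by
      have h1 : ((2 * Z / ℓ : ℕ) : ℝ) ≤ ((2 * Z : ℕ) : ℝ) / ℓ := Nat.cast_div_le
      have h2 : ((2 * Z : ℕ) : ℝ) / ℓ ≤ 4 * z ^ (1 - θ) := by
        rw [div_le_iff₀ (by linarith)]
        push_cast
        rw [← hzdef]
        calc 2 * z = 2 * (z ^ θ * z ^ (1 - θ)) := by rw [hzsplit]
          _ ≤ 2 * ((2 * ℓ) * z ^ (1 - θ)) := by gcongr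
          _ = 4 * z ^ (1 - θ) * ℓ := by ring
      linarith
    have hexp : z ^ (2 * (ε / 40)) * z ^ (3 * (ε / 40)) * (z ^ (2 * (ε / 40)) * z ^ (1 - θ)) ≤
        z ^ (1 / (2 * (M : ℝ)) + ε0) := by
      rw [← Real.rpow_add hz0, ← Real.rpow_add hz0, ← Real.rpow_add hz0]
      apply Real.rpow_le_rpow_of_exponent_le hz
      rw [hθ]
      linarith
    calc (T.card : ℝ) ≤
        ((2 * ((a + 1) * (b + 1)) * ((2 * M + 2 * a * (J + 1)) * (2 * Z / ℓ + 1)) : ℕ) : ℝ) := by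
          exact_mod_cast key
      _ = 2 * (((a : ℝ) + 1) * ((b : ℝ) + 1)) *
          ((2 * (M : ℝ) + 2 * a * (J + 1)) * (((2 * Z / ℓ : ℕ) : ℝ) + 1)) := by push_cast; ring
      _ ≤ 2 * (((A + 1) * z ^ (2 * (ε / 40))) * ((B + 1) * z ^ (3 * (ε / 40)))) *
          (((2 * M + 2 * A * (J + 1)) * z ^ (2 * (ε / 40))) * (5 * z ^ (1 - θ))) := by gcongr
      _ = 2 * ((A + 1) * (B + 1)) * ((2 * M + 2 * A * (J + 1)) * 5) *
          (z ^ (2 * (ε / 40)) * z ^ (3 * (ε / 40)) * (z ^ (2 * (ε / 40)) * z ^ (1 - θ))) := by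
          ring
      _ ≤ 2 * ((A + 1) * (B + 1)) * ((2 * M + 2 * A * (J + 1)) * 5) *
          z ^ (1 / (2 * (M : ℝ)) + ε0) := mul_le_mul_of_nonneg_left hexp hC1.le
      _ ≤ _ := by
          apply mul_le_mul_of_nonneg_right _ (by positivity)
          linarith
  · -- `80 a ≤ Z`
    have h1 : (80 : ℝ) * a ≤ z := by
      calc (80 : ℝ) * a ≤ 80 * (A * z ^ (2 * (ε / 40))) := by gcongr
        _ = 80 * A * z ^ (2 * (ε / 40)) := by ring
        _ ≤ z ^ (ε / 5) * z ^ (2 * (ε / 40)) := by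
            apply mul_le_mul_of_nonneg_right (hD2.trans hbig.le) (by positivity)
        _ = z ^ (ε / 5 + 2 * (ε / 40)) := (Real.rpow_add hz0 _ _).symm
        _ ≤ z ^ (1 : ℝ) := Real.rpow_le_rpow_of_exponent_le hz (by linarith)
        _ = z := Real.rpow_one z
    have h2 : ((80 * a : ℕ) : ℝ) ≤ (Z : ℝ) := by
      rw [Nat.cast_mul]
      exact h1
    exact Nat.cast_le.mp h2
  · -- the numerical condition
    have h8 : (8 * z) ^ (((M + J : ℕ) : ℝ) / (2 * M * (J + 1) - 1)) ≤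
        8 * z ^ (1 / (2 * (M : ℝ)) + ε / 4) := by
      calc (8 * z) ^ (((M + J : ℕ) : ℝ) / (2 * M * (J + 1) - 1)) ≤
          (8 * z) ^ (1 / (2 * (M : ℝ)) + ε / 4) :=
            Real.rpow_le_rpow_of_exponent_le (by linarith) hJ
        _ = 8 ^ (1 / (2 * (M : ℝ)) + ε / 4) * z ^ (1 / (2 * (M : ℝ)) + ε / 4) :=
            Real.mul_rpow (by norm_num) hz0.le
        _ ≤ 8 ^ (1 : ℝ) * z ^ (1 / (2 * (M : ℝ)) + ε / 4) := by
            apply mul_le_mul_of_nonneg_right _ (by positivity)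
            exact Real.rpow_le_rpow_of_exponent_le (by norm_num) (by linarith)
        _ = _ := by rw [Real.rpow_one]
    have hJ1 : (0 : ℝ) ≤ 2 * M * (J + 1) := by positivity
    calc 64 * (2 * M * (J + 1) : ℝ) * a * ℓ *
        (8 * z) ^ (((M + J : ℕ) : ℝ) / (2 * M * (J + 1) - 1)) ≤
        64 * (2 * M * (J + 1) : ℝ) * (A * z ^ (2 * (ε / 40))) * z ^ θ *
          (8 * z ^ (1 / (2 * (M : ℝ)) + ε / 4)) := by gcongr
      _ = (64 * (2 * M * (J + 1) : ℝ) * A * 8) *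
          (z ^ (2 * (ε / 40)) * z ^ θ * z ^ (1 / (2 * (M : ℝ)) + ε / 4)) := by ring
      _ = (64 * (2 * M * (J + 1) : ℝ) * A * 8) * z ^ (1 - ε / 5) := by
          rw [← Real.rpow_add hz0, ← Real.rpow_add hz0]
          congr 2
          rw [hθ]
          ring
      _ ≤ D * z ^ (1 - ε / 5) := mul_le_mul_of_nonneg_right hD3 (by positivity)
      _ < z ^ (ε / 5) * z ^ (1 - ε / 5) := mul_lt_mul_of_pos_right hbig (by positivity)
      _ = z := by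
          rw [← Real.rpow_add hz0]
          have : ε / 5 + (1 - ε / 5) = 1 := by ring
          rw [this, Real.rpow_one]
  · intro k hk
    obtain ⟨h1, h2, h3, s, m, x, h4, h5⟩ := hT k hk
    obtain ⟨n, c, d, h6⟩ := hG k s m x h4
    obtain ⟨h7, h8⟩ := hAB Z hZ k s m x h2 h3 h4
    exact ⟨h1, h2, s, m, n, x, c, d, h5, Nat.le_floor h7, Nat.le_floor (h8 n c d h6), h4, h6⟩

end Pool.Agent.DKP
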