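import Pool.Agent.DKP.St
import Pool.Agent.PSX.Pell

/-!
# Classification of the extensions
-/

set_option autoImplicit false

namespace Pool.Agent.DKP

namespace ClassAux

open Pool.Agent.PSX

theorem W_eq (N : ℤ) : ∀ j : ℕ, W N j = YY 1 N j
  | 0 => rfl
  | 1 => rfl
  | (j + 2) => by simp only [W, YY, W_eq N (j + 1), W_eq N j]

theorem V_eq' (N : ℤ) : ∀ j : ℕ, V N j = YY (-1) N j
  | 0 => rfl
  | 1 => by simp only [V, YY]; ring
  | (j + 2) => by simp only [V, YY, V_eq' N (j + 1), V_eq' N j]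

end ClassAux

open ClassAux in
theorem t_Class : StmtClass := by
  intro k d hk h hd
  have hk' : (0 : ℤ) < k := by exact_mod_cast hk
  obtain ⟨y, x, hy, hx, hyd, hxd, hc⟩ := PSX.shape hk' h
  obtain ⟨x', rfl⟩ := Int.eq_ofNat_of_zero_le hx
  rcases hc with ⟨j, hj, rfl⟩ | ⟨j, hj, rfl⟩
  · refine ⟨1, j, x', ⟨hk, Or.inl ⟨rfl, hj⟩, ?_, ?_⟩, ?_⟩
    · by_contra hlt
      have hj0 : j = 0 := by
        rcases hj with ⟨t, ht⟩
        omega
      subst hj0
      simp only [PSX.W] at hyd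
      exact h.2.1 (by linarith)
    · rw [← W_eq]
      linear_combination hyd - 2 * hxd
    · rw [← W_eq]
      linear_combination (-1 : ℤ) * hyd
  · refine ⟨-1, j, x', ⟨hk, Or.inr ⟨rfl, hj⟩, ?_, ?_⟩, ?_⟩
    · by_contra hlt
      have hj0 : j = 1 := by
        rcases hj with ⟨t, ht⟩
        omega
      subst hj0
      simp only [PSX.V] at hyd
      apply hd
      have e : 2 * (d - (8 * (k : ℤ) ^ 2 + 4 * k + 1)) = 0 := by
        linear_combination (-1 : ℤ) * hyd
      omega
    · rw [← V_eq']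
      linear_combination hyd - 2 * hxd
    · rw [← V_eq']
      linear_combination (-1 : ℤ) * hyd

end Pool.Agent.DKP
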