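import Pool.Agent.DKP.St

/-!
# MP_a79b85_nt (DKP): divided differences of an analytic function (module DD)
-/

set_option autoImplicit false

open Finset Complex

namespace Pool.Agent.DKP

namespace DDw

/-- partial fractions -/
theorem pf {n : ℕ} (x : Fin (n + 1) → ℂ) (hx : Function.Injective x) (z : ℂ)
    (hz : ∀ i, z ≠ x i) :
    ∏ j, (z - x j)⁻¹ = ∑ i, (∏ j ∈ univ.erase i, (x i - x j)⁻¹) * (z - x i)⁻¹ := by
  have h1 := Lagrange.eval_interpolate_not_at_node (s := (univ : Finset (Fin (n + 1))))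
    (v := x) (x := z) (1 : Fin (n + 1) → ℂ) (fun i _ => hz i)
  rw [Lagrange.interpolate_one (hx.injOn) univ_nonempty, Lagrange.eval_nodal,
    Polynomial.eval_one] at h1
  have h2 : ∏ i, (z - x i) ≠ 0 := prod_ne_zero_iff.mpr fun i _ => sub_ne_zero.mpr (hz i)
  rw [prod_inv_distrib]
  refine inv_eq_of_mul_eq_one_right ?_
  rw [h1]
  simp [Lagrange.nodalWeight]

end DDw

theorem t_DD : StmtDD := by
  intro n f c r θ M x hθ hθr hf hM hx hxθ
  have hr : 0 < r := lt_of_le_of_lt hθ hθr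
  have hd : ∀ z ∈ Metric.sphere c r, ∀ i, r - θ ≤ ‖z - x i‖ := by
    intro z hz i
    have h1 : dist z c = r := hz
    have h2 : dist z c ≤ dist z (x i) + dist (x i) c := dist_triangle _ _ _
    have h3 := hxθ i
    rw [← dist_eq_norm]
    linarith
  have hne : ∀ z ∈ Metric.sphere c r, ∀ i, z ≠ x i := by
    intro z hz i h
    have h1 := hd z hz i
    rw [h, sub_self, norm_zero] at h1
    linarith
  have hball : ∀ i, x i ∈ Metric.ball c r := fun i =>
    Metric.mem_ball.mpr (lt_of_le_of_lt (hxθ i) hθr)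
  have hcont : ContinuousOn f (Metric.sphere c r) :=
    hf.continuousOn_ball.mono Metric.sphere_subset_closedBall
  have hint : ∀ i, CircleIntegrable
      (fun z => (∏ j ∈ univ.erase i, (x i - x j)⁻¹) * ((z - x i)⁻¹ • f z)) c r := by
    intro i
    refine ContinuousOn.circleIntegrable hr.le ?_
    have h0 : ContinuousOn (fun z : ℂ => (z - x i)⁻¹) (Metric.sphere c r) := by
      refine ContinuousOn.inv₀ (by fun_prop) ?_
      intro z hz
      exact sub_ne_zero.mpr (hne z hz i)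
    exact continuousOn_const.mul (h0.smul hcont)
  have h1 : (∮ z in C(c, r), (∏ j, (z - x j)⁻¹) * f z) =
      (2 * Real.pi * I : ℂ) * ∑ i, f (x i) * ∏ j ∈ univ.erase i, (x i - x j)⁻¹ := by
    have h2 : (∮ z in C(c, r), (∏ j, (z - x j)⁻¹) * f z) =
        ∮ z in C(c, r), ∑ i, (∏ j ∈ univ.erase i, (x i - x j)⁻¹) * ((z - x i)⁻¹ • f z) := by
      refine circleIntegral.integral_congr hr.le fun z hz => ?_
      show (∏ j, (z - x j)⁻¹) * f z = _
      rw [DDw.pf x hx z (hne z hz), sum_mul]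
      refine sum_congr rfl fun i _ => ?_
      rw [smul_eq_mul, mul_assoc]
    rw [h2, circleIntegral.integral_fun_sum (fun i _ => hint i), mul_sum]
    refine sum_congr rfl fun i _ => ?_
    rw [circleIntegral.integral_const_mul, hf.circleIntegral_sub_inv_smul (hball i), smul_eq_mul]
    ring
  have h3 : ∑ i, f (x i) * ∏ j ∈ univ.erase i, (x i - x j)⁻¹ =
      (2 * Real.pi * I : ℂ)⁻¹ • ∮ z in C(c, r), (∏ j, (z - x j)⁻¹) * f z := by
    rw [h1, smul_eq_mul, inv_mul_cancel_left₀ Complex.two_pi_I_ne_zero]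
  rw [h3]
  have hM0 : 0 ≤ M := by
    have hz : c + r ∈ Metric.sphere c r := by simp [abs_of_pos hr]
    exact le_trans (norm_nonneg _) (hM _ hz)
  have hrθ : 0 < r - θ := by linarith
  have h4 : ∀ z ∈ Metric.sphere c r, ‖(∏ j, (z - x j)⁻¹) * f z‖ ≤ M / (r - θ) ^ (n + 1) := by
    intro z hz
    rw [norm_mul, norm_prod]
    have h5 : ∏ j, ‖(z - x j)⁻¹‖ ≤ ∏ _j : Fin (n + 1), (r - θ)⁻¹ := by
      refine prod_le_prod (fun _ _ => norm_nonneg _) fun j _ => ?_
      rw [norm_inv]
      exact inv_anti₀ hrθ (hd z hz j)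
    rw [prod_const, card_univ, Fintype.card_fin, inv_pow] at h5
    calc (∏ j, ‖(z - x j)⁻¹‖) * ‖f z‖ ≤ ((r - θ) ^ (n + 1))⁻¹ * M :=
          mul_le_mul h5 (hM z hz) (norm_nonneg _) (by positivity)
      _ = M / (r - θ) ^ (n + 1) := by rw [div_eq_mul_inv, mul_comm]
  refine le_trans (circleIntegral.norm_two_pi_i_inv_smul_integral_le_of_norm_le_const hr.le h4) ?_
  rw [← mul_div_assoc, mul_comm r M]

end Pool.Agent.DKP
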