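import Pool.Agent.DKP.St

set_option autoImplicit false

open Finset

namespace Pool.Agent.DKP

namespace DataH

theorem e2_cases (i : Fin 4) : e2 i = √2 ∨ e2 i = -√2 := by
  fin_cases i <;> simp [e2]

theorem eD_cases (k : ℕ) (i : Fin 4) :
    eD k i = √((2 * (k : ℝ) + 1) ^ 2 + 1) ∨ eD k i = -√((2 * (k : ℝ) + 1) ^ 2 + 1) := by
  fin_cases i <;> simp [eD]

theorem s2 : √2 * √2 = (2 : ℝ) := Real.mul_self_sqrt (by norm_num)

theorem s2_lo : (1.41 : ℝ) < √2 := by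
  rw [Real.lt_sqrt (by norm_num)]; norm_num

theorem s2_hi : √2 < (1.42 : ℝ) := by
  rw [Real.sqrt_lt' (by norm_num)]; norm_num

theorem irr2 (p q : ℤ) (h : (p : ℝ) = q * √2) : p = 0 ∧ q = 0 := by
  by_cases hq : q = 0
  · subst hq
    simp only [Int.cast_zero, zero_mul, Int.cast_eq_zero] at h
    exact ⟨h, rfl⟩
  · exfalso
    have hq' : (q : ℝ) ≠ 0 := by exact_mod_cast hq
    have h1 : √2 = ((p / q : ℚ) : ℝ) := by
      push_cast
      rw [h]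
      field_simp
    exact irrational_sqrt_two ⟨_, h1.symm⟩

theorem pow_eps (n : ℕ) :
    ∃ c d : ℤ, (3 + 2 * √2 : ℝ) ^ n = c + d * √2 ∧ c ^ 2 - 2 * d ^ 2 = 1 := by
  induction n with
  | zero => exact ⟨1, 0, by simp, by norm_num⟩
  | succ n ih =>
    obtain ⟨c, d, h1, h2⟩ := ih
    refine ⟨3 * c + 4 * d, 2 * c + 3 * d, ?_, ?_⟩
    · rw [pow_succ, h1]
      push_cast
      linear_combination (2 * (d : ℝ)) * s2
    · linear_combination h2

theorem norm_eq {k : ℕ} {s : ℤ} {m x n : ℕ} {a b : ℤ} (hS : Sol k s m x)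
    (hL : Lab k s m x n a b) : (a : ℝ) ^ 2 - 2 * (b : ℝ) ^ 2 = 2 * (k : ℝ) ^ 2 - 1 := by
  obtain ⟨c, d, h1, h2⟩ := pow_eps n
  unfold Lab at hL
  rw [h1] at hL
  have h6 := hS.heq
  generalize YY s (2 * (k : ℤ) + 1) m = y at hL h6
  have h3 := irr2 (y - (a * c + 2 * b * d)) (a * d + b * c - x) (by
    push_cast
    linear_combination hL + ((b : ℝ) * d) * s2)
  obtain ⟨h4, h5⟩ := h3
  have h7 : a ^ 2 - 2 * b ^ 2 = 2 * (k : ℤ) ^ 2 - 1 := by
    have e1 : y = a * c + 2 * b * d := by linarith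
    have e2 : (x : ℤ) = a * d + b * c := by linarith
    rw [e1, e2] at h6
    linear_combination h6 - (a ^ 2 - 2 * b ^ 2) * h2
  exact_mod_cast h7

theorem eps_inv : (3 - 2 * √2 : ℝ) = (3 + 2 * √2)⁻¹ := by
  have h0 : (3 + 2 * √2 : ℝ) ≠ 0 := by have := s2_lo; positivity
  field_simp
  linear_combination (-4 : ℝ) * s2

theorem eps_le : (3 + 2 * √2 : ℝ) ≤ Real.exp 2 := by
  have h1 : Real.exp 2 = Real.exp 1 * Real.exp 1 := by
    rw [← Real.exp_add]; norm_num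
  have h2 := Real.exp_one_gt_d9
  have h3 := s2_hi
  rw [h1]
  nlinarith

theorem mem_pow (k : ℕ) (r : ℤ) : (fun i => (3 - 2 * e2 i) ^ r : Fin 4 → ℝ) ∈ OO k := by
  have he : e2 ∈ OO k := Subring.subset_closure (by simp)
  obtain ⟨j, hj | hj⟩ := Int.eq_nat_or_neg r
  · have h1 : (fun i => (3 - 2 * e2 i) ^ r : Fin 4 → ℝ) = ((3 : Fin 4 → ℝ) - 2 * e2) ^ j := by
      funext i
      simp [hj]
    rw [h1]
    exact pow_mem (sub_mem (ofNat_mem _ 3) (mul_mem (ofNat_mem _ 2) he)) j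
  · have h1 : (fun i => (3 - 2 * e2 i) ^ r : Fin 4 → ℝ) = ((3 : Fin 4 → ℝ) + 2 * e2) ^ j := by
      funext i
      simp only [hj, zpow_neg, zpow_natCast, Pi.pow_apply, Pi.add_apply, Pi.mul_apply,
        Pi.ofNat_apply]
      rw [← inv_pow]
      congr 1
      rcases e2_cases i with h | h
      · rw [h, eps_inv, inv_inv]
      · rw [h]
        have := eps_inv
        rw [show (3 + 2 * -√2 : ℝ) = 3 - 2 * √2 by ring, this]
        congr 1
        ring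
    rw [h1]
    exact pow_mem (add_mem (ofNat_mem _ 3) (mul_mem (ofNat_mem _ 2) he)) j

theorem eD_mem (k : ℕ) : eD k ∈ OO k := Subring.subset_closure (by simp)

theorem e2_mem (k : ℕ) : e2 ∈ OO k := Subring.subset_closure (by simp)

theorem tu_mem (k a1 a2 : ℕ) : tu k a1 a2 ∈ OO k := by
  have h1 : tu k a1 a2 = (((2 * k + 1 : ℕ) : Fin 4 → ℝ) + eD k) ^ a1 *
      (fun i => (3 - 2 * e2 i) ^ ((a2 : ℕ) : ℤ) : Fin 4 → ℝ) := by
    funext i
    simp [tu]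
  rw [h1]
  exact mul_mem (pow_mem (add_mem (natCast_mem _ _) (eD_mem k)) _) (mem_pow k _)

theorem tv_mem (k : ℕ) (s : ℤ) (r1 : ℕ) (r2 : ℤ) : tv k s r1 r2 ∈ OO k := by
  have h1 : tv k s r1 r2 = (((2 * k + 1 : ℕ) : Fin 4 → ℝ) + eD k + (s : Fin 4 → ℝ)) *
      (((2 * k + 1 : ℕ) : Fin 4 → ℝ) + eD k) ^ r1 *
      (fun i => (3 - 2 * e2 i) ^ r2 : Fin 4 → ℝ) := by
    funext i
    simp [tv]
  rw [h1]
  exact mul_mem (mul_mem (add_mem (add_mem (natCast_mem _ _) (eD_mem k)) (intCast_mem _ _))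
    (pow_mem (add_mem (natCast_mem _ _) (eD_mem k)) _)) (mem_pow k _)

theorem tw_mem (k : ℕ) (a b : ℤ) : tw k a b ∈ OO k := by
  have h1 : tw k a b = eD k * ((a : Fin 4 → ℝ) + (b : Fin 4 → ℝ) * e2) := by
    funext i
    simp [tw]
  rw [h1]
  exact mul_mem (eD_mem k) (add_mem (intCast_mem _ _) (mul_mem (intCast_mem _ _) (e2_mem k)))

/-- facts on `√D` and `α` -/
theorem al_facts (k : ℕ) (hk : 1 ≤ k) :
    6 ≤ al k ∧ 1 ≤ √((2 * (k : ℝ) + 1) ^ 2 + 1) ∧ √((2 * (k : ℝ) + 1) ^ 2 + 1) ≤ al k ∧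
    2 * (k : ℝ) + 1 < √((2 * (k : ℝ) + 1) ^ 2 + 1) ∧
    (√((2 * (k : ℝ) + 1) ^ 2 + 1) - (2 * (k : ℝ) + 1)) * al k = 1 ∧
    √(2 * (k : ℝ) ^ 2 - 1) ≤ al k ∧ 1 ≤ √(2 * (k : ℝ) ^ 2 - 1) := by
  have hk' : (1 : ℝ) ≤ k := by exact_mod_cast hk
  have h1 : 2 * (k : ℝ) + 1 < √((2 * (k : ℝ) + 1) ^ 2 + 1) := by
    rw [Real.lt_sqrt (by positivity)]
    linarith
  have h2 : √((2 * (k : ℝ) + 1) ^ 2 + 1) * √((2 * (k : ℝ) + 1) ^ 2 + 1) =
      (2 * (k : ℝ) + 1) ^ 2 + 1 := Real.mul_self_sqrt (by positivity)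
  have h3 : al k = (2 * k + 1) + √((2 * (k : ℝ) + 1) ^ 2 + 1) := rfl
  have h4 : √(2 * (k : ℝ) ^ 2 - 1) ≤ √((2 * (k : ℝ) + 1) ^ 2 + 1) := by
    apply Real.sqrt_le_sqrt
    nlinarith
  refine ⟨by rw [h3]; linarith, by linarith, by rw [h3]; linarith, h1, ?_, by rw [h3]; linarith, ?_⟩
  · rw [h3]
    linear_combination h2
  · rw [Real.one_le_sqrt]
    nlinarith

theorem base_le (k : ℕ) (hk : 1 ≤ k) (i : Fin 4) : |2 * (k : ℝ) + 1 + eD k i| ≤ al k := by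
  obtain ⟨h1, h2, h3, h4, h5, -, -⟩ := al_facts k hk
  have h3' : al k = (2 * k + 1) + √((2 * (k : ℝ) + 1) ^ 2 + 1) := rfl
  have hk' : (1 : ℝ) ≤ k := by exact_mod_cast hk
  rw [abs_le]
  rcases eD_cases k i with h | h <;> rw [h] <;> constructor <;> linarith

theorem log_eps : 0 < Real.log (3 + 2 * √2) ∧ Real.log (3 + 2 * √2) ≤ 2 := by
  have h := s2_lo
  refine ⟨Real.log_pos (by linarith), ?_⟩
  rw [Real.log_le_iff_le_exp (by linarith)]
  exact eps_le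

theorem log_eps' : Real.log (3 - 2 * √2) = -Real.log (3 + 2 * √2) := by
  rw [eps_inv, Real.log_inv]

theorem t_pos (i : Fin 4) : 0 < 3 - 2 * e2 i ∧ |Real.log (3 - 2 * e2 i)| ≤ 2 := by
  have h1 := s2_lo
  have h2 := s2_hi
  obtain ⟨h3, h4⟩ := log_eps
  rcases e2_cases i with h | h
  · rw [h]
    refine ⟨by linarith, ?_⟩
    rw [log_eps', abs_neg, abs_of_pos h3]
    exact h4
  · rw [h, show (3 - 2 * -√2 : ℝ) = 3 + 2 * √2 by ring]
    exact ⟨by linarith, by rw [abs_of_pos h3]; exact h4⟩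

theorem zp_le (i : Fin 4) (r : ℤ) : |(3 - 2 * e2 i) ^ r| ≤ Real.exp (2 * |(r : ℝ)|) := by
  obtain ⟨h1, h2⟩ := t_pos i
  have h3 : 0 < (3 - 2 * e2 i) ^ r := zpow_pos h1 r
  rw [abs_of_pos h3, ← Real.log_le_iff_le_exp h3, Real.log_zpow]
  calc (r : ℝ) * Real.log (3 - 2 * e2 i) ≤ |(r : ℝ) * Real.log (3 - 2 * e2 i)| := le_abs_self _
    _ = |(r : ℝ)| * |Real.log (3 - 2 * e2 i)| := abs_mul _ _
    _ ≤ |(r : ℝ)| * 2 := mul_le_mul_of_nonneg_left h2 (abs_nonneg _)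
    _ = 2 * |(r : ℝ)| := by ring

theorem al_le_exp (k : ℕ) (hk : 1 ≤ k) (H : ℕ) (hH : Real.log (al k) ≤ H) :
    al k ≤ Real.exp H ∧ 2 ≤ H := by
  obtain ⟨h1, -⟩ := al_facts k hk
  have h2 : al k ≤ Real.exp H := by
    rw [← Real.log_le_iff_le_exp (by linarith)]
    exact hH
  refine ⟨h2, ?_⟩
  by_contra hc
  have h3 : (H : ℝ) ≤ 1 := by exact_mod_cast (by omega : H ≤ 1)
  have h4 : Real.exp H ≤ Real.exp 1 := Real.exp_le_exp.mpr h3
  have h5 := Real.exp_one_lt_d9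
  linarith

theorem tu_le (k : ℕ) (hk : 1 ≤ k) (H : ℕ) (hH : Real.log (al k) ≤ H) (a1 a2 : ℕ) (i : Fin 4) :
    |tu k a1 a2 i| ≤ Real.exp (a1 * H + 2 * a2) := by
  obtain ⟨h1, h2⟩ := al_le_exp k hk H hH
  unfold tu
  rw [abs_mul, abs_pow, Real.exp_add]
  apply mul_le_mul _ _ (abs_nonneg _) (Real.exp_pos _).le
  · rw [Real.exp_nat_mul]
    exact pow_le_pow_left₀ (abs_nonneg _) ((base_le k hk i).trans h1) _
  · have h3 := zp_le i (a2 : ℤ)
    simpa using h3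

theorem tv_le (k : ℕ) (hk : 1 ≤ k) (H : ℕ) (hH : Real.log (al k) ≤ H) (s : ℤ) (hs : s = 1 ∨ s = -1)
    (r1 : ℕ) (r2 : ℤ) (i : Fin 4) :
    |tv k s r1 r2 i| ≤ Real.exp ((H + 1) + r1 * H + 2 * |(r2 : ℝ)|) := by
  obtain ⟨h1, h2⟩ := al_le_exp k hk H hH
  obtain ⟨g1, -⟩ := al_facts k hk
  unfold tv
  rw [abs_mul, abs_mul, abs_pow, Real.exp_add, Real.exp_add]
  apply mul_le_mul _ (zp_le i r2) (abs_nonneg _) (by positivity)
  apply mul_le_mul _ _ (by positivity) (by positivity)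
  · have h3 : |(s : ℝ)| = 1 := by
      rcases hs with h | h <;> rw [h] <;> simp
    have h4 : |2 * (k : ℝ) + 1 + eD k i + s| ≤ al k + 1 := by
      calc |2 * (k : ℝ) + 1 + eD k i + s| ≤ |2 * (k : ℝ) + 1 + eD k i| + |(s : ℝ)| := abs_add_le _ _
        _ ≤ al k + 1 := by rw [h3]; linarith [base_le k hk i]
    rw [Real.exp_add]
    have h5 := Real.exp_one_gt_d9
    have h6 : 0 < Real.exp H := Real.exp_pos _
    nlinarith
  · rw [Real.exp_nat_mul]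
    exact pow_le_pow_left₀ (abs_nonneg _) ((base_le k hk i).trans h1) _

theorem tw_le (k : ℕ) (hk : 1 ≤ k) (H : ℕ) (hH : Real.log (al k) ≤ H) {s : ℤ} {m x n : ℕ}
    {a b : ℤ} (hS : Sol k s m x) (hL : LabN k s m x n a b) (i : Fin 4) :
    |tw k a b i| ≤ Real.exp (2 * H + 2) := by
  obtain ⟨h1, h2⟩ := al_le_exp k hk H hH
  obtain ⟨g1, g2, g3, g4, g5, g6, g7⟩ := al_facts k hk
  have hP := norm_eq hS hL.lab
  have hP' : √(2 * (k : ℝ) ^ 2 - 1) * √(2 * (k : ℝ) ^ 2 - 1) = 2 * (k : ℝ) ^ 2 - 1 := by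
    apply Real.mul_self_sqrt
    have hk' : (1 : ℝ) ≤ k := by exact_mod_cast hk
    nlinarith
  have l1 := hL.h1
  have l2 := hL.h2
  set P := √(2 * (k : ℝ) ^ 2 - 1) with hPdef
  have e0 := s2_lo
  have h3 : |(a : ℝ) + b * e2 i| ≤ (3 + 2 * √2) * P := by
    rcases e2_cases i with h | h
    · rw [h, abs_of_nonneg (by linarith)]
      exact l2.le
    · rw [h]
      have h4 : ((a : ℝ) + b * √2) * ((a : ℝ) + b * -√2) = P * P := by
        rw [hP', ← hP]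
        linear_combination (-(b : ℝ) ^ 2) * s2
      have h5 : 0 < (a : ℝ) + b * √2 := by linarith
      have h6 : 0 < (a : ℝ) + b * -√2 := by
        by_contra hc
        have : ((a : ℝ) + b * √2) * ((a : ℝ) + b * -√2) ≤ 0 :=
          mul_nonpos_of_nonneg_of_nonpos h5.le (not_lt.mp hc)
        nlinarith
      rw [abs_of_pos h6]
      have h7 : (a : ℝ) + b * -√2 ≤ P := by
        by_contra hc
        rw [not_le] at hc
        nlinarith
      nlinarith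
  have h8 : |eD k i| ≤ al k := by
    rcases eD_cases k i with h | h
    · rw [h, abs_of_nonneg (by linarith)]; exact g3
    · rw [h, abs_neg, abs_of_nonneg (by linarith)]; exact g3
  unfold tw
  rw [abs_mul, Real.exp_add, two_mul, Real.exp_add, mul_assoc]
  apply mul_le_mul (h8.trans h1) _ (abs_nonneg _) (Real.exp_pos _).le
  refine h3.trans ?_
  rw [mul_comm (Real.exp (H : ℝ))]
  exact mul_le_mul eps_le (g6.trans h1) (by linarith) (Real.exp_pos _).le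

/-- Dirichlet's theorem for `ξ ≥ 0`, with a natural number -/
theorem dirichlet (ξ : ℝ) (hξ : 0 ≤ ξ) (T : ℕ) (hT : 1 ≤ T) :
    ∃ a1 a2 : ℕ, 1 ≤ a1 ∧ a1 ≤ T ∧ |(a1 : ℝ) * ξ - a2| ≤ 1 / (T + 1) := by
  obtain ⟨a1, ha1, ha1T, hap⟩ := Real.exists_nat_abs_mul_sub_round_le ξ hT
  have h0 : 0 ≤ round ((a1 : ℝ) * ξ) := by
    rw [round_eq]
    apply Int.floor_nonneg.mpr
    positivity
  refine ⟨a1, (round ((a1 : ℝ) * ξ)).toNat, ha1, ha1T, ?_⟩
  have h1 : (((round ((a1 : ℝ) * ξ)).toNat : ℕ) : ℝ) = ((round ((a1 : ℝ) * ξ) : ℤ) : ℝ) := by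
    exact_mod_cast congrArg (fun z : ℤ => (z : ℝ)) (Int.toNat_of_nonneg h0)
  rw [h1]
  exact hap

/-- the bound for `r2` -/
theorem r2_le (ξ : ℝ) (hξ : 0 ≤ ξ) (m n H T a1 a2 : ℕ) (hξm : m * ξ = n) (hξ1 : ξ ≤ 3 / 2 * H)
    (ha1 : 1 ≤ a1) (hT : 1 ≤ T) (hap : |(a1 : ℝ) * ξ - a2| ≤ 1 / (T + 1)) :
    |(((n : ℤ) - (m / a1 : ℕ) * (a2 : ℤ) : ℤ) : ℝ)| ≤
      3 / 2 * ((a1 : ℝ) - 1) * H + ((m / (a1 * T) : ℕ) + 1) := by
  have h1 : a1 * (m / a1) + m % a1 = m := Nat.div_add_mod m a1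
  have h1' : (a1 : ℝ) * ((m / a1 : ℕ) : ℝ) + ((m % a1 : ℕ) : ℝ) = m := by exact_mod_cast h1
  have h2 : m % a1 ≤ a1 - 1 := by
    have := Nat.mod_lt m (by omega : a1 > 0)
    omega
  have h2' : ((m % a1 : ℕ) : ℝ) ≤ (a1 : ℝ) - 1 := by
    have : ((m % a1 : ℕ) : ℝ) + 1 ≤ (a1 : ℝ) := by
      exact_mod_cast (by omega : m % a1 + 1 ≤ a1)
    linarith
  have h3 : m / a1 ≤ T * (m / (a1 * T) + 1) := by
    rw [← Nat.div_div_eq_div_mul, mul_add, mul_one]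
    have := Nat.div_add_mod (m / a1) T
    have := Nat.mod_lt (m / a1) (by omega : T > 0)
    omega
  have h3' : ((m / a1 : ℕ) : ℝ) ≤ (T : ℝ) * (((m / (a1 * T) : ℕ) : ℝ) + 1) := by
    exact_mod_cast h3
  set q : ℝ := ((m / a1 : ℕ) : ℝ) with hq
  set d : ℝ := ((m / (a1 * T) : ℕ) : ℝ) with hd
  set r : ℝ := ((m % a1 : ℕ) : ℝ) with hr
  have hr0 : 0 ≤ r := Nat.cast_nonneg _
  have hq0 : 0 ≤ q := Nat.cast_nonneg _
  have hd0 : 0 ≤ d := Nat.cast_nonneg _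
  have h4 : (((n : ℤ) - (m / a1 : ℕ) * (a2 : ℤ) : ℤ) : ℝ) = r * ξ + q * ((a1 : ℝ) * ξ - a2) := by
    simp only [Int.cast_sub, Int.cast_mul, Int.cast_natCast]
    rw [← hq, ← hξm, ← h1']
    ring
  rw [h4]
  have hT' : (1 : ℝ) ≤ T := by exact_mod_cast hT
  have h5 : |q * ((a1 : ℝ) * ξ - a2)| ≤ d + 1 := by
    rw [abs_mul, abs_of_nonneg hq0]
    calc q * |(a1 : ℝ) * ξ - a2| ≤ q * (1 / (T + 1)) := mul_le_mul_of_nonneg_left hap hq0
      _ ≤ (T * (d + 1)) * (1 / (T + 1)) := mul_le_mul_of_nonneg_right h3' (by positivity)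
      _ ≤ d + 1 := by
        rw [mul_one_div, div_le_iff₀ (by positivity)]
        nlinarith
  have h6 : |r * ξ| ≤ 3 / 2 * ((a1 : ℝ) - 1) * H := by
    rw [abs_of_nonneg (by positivity)]
    calc r * ξ ≤ ((a1 : ℝ) - 1) * (3 / 2 * H) := by
          apply mul_le_mul h2' hξ1 hξ
          linarith
      _ = _ := by ring
  calc |r * ξ + q * ((a1 : ℝ) * ξ - a2)| ≤ |r * ξ| + |q * ((a1 : ℝ) * ξ - a2)| := abs_add_le _ _
    _ ≤ _ := by linarith

end DataH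

open DataH in
theorem t_Data : StmtLam → StmtRing → StmtData := by
  intro hLam hRing k s m x n a b H T hDeg hS hL hH hT
  obtain ⟨hL0, hL1, hLn⟩ := hLam k s m x n a b hS hL
  have hk := hS.hk
  have hm := hS.hm
  obtain ⟨g1, g2, g3, g4, g5, g6, g7⟩ := al_facts k hk
  obtain ⟨f1, f2⟩ := al_le_exp k hk H hH
  have hs : s = 1 ∨ s = -1 := by
    rcases hS.hs with h | h
    exacts [Or.inl h.1, Or.inr h.1]
  have hmR : (2 : ℝ) ≤ m := by exact_mod_cast hm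
  have hHR : (2 : ℝ) ≤ H := by exact_mod_cast f2
  have hal : 0 < al k := by linarith
  obtain ⟨ξ, hξ⟩ : ∃ ξ : ℝ, ξ = n / m := ⟨_, rfl⟩
  have hξ0 : 0 ≤ ξ := by rw [hξ]; positivity
  have hξm : m * ξ = n := by rw [hξ]; field_simp
  have hξ1 : ξ ≤ 3 / 2 * H := by
    rw [hξ, div_le_iff₀ (by linarith)]
    calc (n : ℝ) ≤ (m + 1) * Real.log (al k) := hLn
      _ ≤ (m + 1) * H := mul_le_mul_of_nonneg_left hH (by positivity)
      _ ≤ 3 / 2 * H * m := by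
        have := mul_le_mul_of_nonneg_right hmR (by positivity : (0 : ℝ) ≤ 1 / 2 * H)
        linarith
  obtain ⟨a1, a2, ha1, ha1T, hap⟩ := dirichlet ξ hξ0 T hT
  have ha1R : (1 : ℝ) ≤ a1 := by exact_mod_cast ha1
  have hTR : (1 : ℝ) ≤ T := by exact_mod_cast hT
  have ha2 : (a2 : ℝ) ≤ 3 / 2 * a1 * H + 1 / 2 := by
    have h1 := (abs_le.mp hap).1
    have h2 : (1 : ℝ) / (T + 1) ≤ 1 / 2 := by
      apply one_div_le_one_div_of_le <;> linarith
    have h3 : (a1 : ℝ) * ξ ≤ a1 * (3 / 2 * H) := mul_le_mul_of_nonneg_left hξ1 (by positivity)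
    linarith
  have hr2 := r2_le ξ hξ0 m n H T a1 a2 hξm hξ1 ha1 hT hap
  have hdm : a1 * (m / a1) + m % a1 = m := Nat.div_add_mod m a1
  have hdmR : (a1 : ℝ) * ((m / a1 : ℕ) : ℝ) + ((m % a1 : ℕ) : ℝ) = m := by exact_mod_cast hdm
  have hr1 : ((m % a1 : ℕ) : ℝ) ≤ (a1 : ℝ) - 1 := by
    have h1 := Nat.mod_lt m (by omega : a1 > 0)
    have : ((m % a1 : ℕ) : ℝ) + 1 ≤ (a1 : ℝ) := by
      exact_mod_cast (by omega : m % a1 + 1 ≤ a1)
    linarith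
  have hr2eq : (((n : ℤ) - (m / a1 : ℕ) * (a2 : ℤ) : ℤ) : ℝ) = n - ((m / a1 : ℕ) : ℝ) * a2 := by
    simp only [Int.cast_sub, Int.cast_mul, Int.cast_natCast]
  obtain ⟨r1, hr1d⟩ : ∃ r1 : ℕ, r1 = m % a1 := ⟨_, rfl⟩
  obtain ⟨r2, hr2d⟩ : ∃ r2 : ℤ, r2 = (n : ℤ) - (m / a1 : ℕ) * (a2 : ℤ) := ⟨_, rfl⟩
  rw [← hr2d] at hr2 hr2eq
  rw [← hr1d] at hr1 hdmR
  obtain ⟨d, hd⟩ : ∃ d : ℕ, d = m / (a1 * T) := ⟨_, rfl⟩
  rw [← hd] at hr2
  have hr10 : (0 : ℝ) ≤ r1 := Nat.cast_nonneg _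
  have hd0 : (0 : ℝ) ≤ d := Nat.cast_nonneg _
  -- logarithms
  obtain ⟨le0, le2⟩ := log_eps
  have e0 := s2_lo
  have e1 := s2_hi
  have hlal : 1 ≤ Real.log (al k) := by
    rw [Real.le_log_iff_exp_le hal]
    have := Real.exp_one_lt_d9
    linarith
  have hsR : (s : ℝ) = 1 ∨ (s : ℝ) = -1 := by
    rcases hs with h | h <;> rw [h] <;> simp
  have hals : 0 < al k + s := by
    rcases hsR with h | h <;> rw [h] <;> linarith
  have hg : √(2 * (k : ℝ) ^ 2 - 1) ≤ (a : ℝ) + b * √2 := hL.h1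
  have hg' : (a : ℝ) + b * √2 < (3 + 2 * √2) * √(2 * (k : ℝ) ^ 2 - 1) := hL.h2
  have hgpos : 0 < (a : ℝ) + b * √2 := by linarith
  have hsD : 0 < √((2 * (k : ℝ) + 1) ^ 2 + 1) := by linarith
  have heD0 : eD k 0 = √((2 * (k : ℝ) + 1) ^ 2 + 1) := by simp [eD]
  have he20 : e2 0 = √2 := by simp [e2]
  have hale : 2 * (k : ℝ) + 1 + eD k 0 = al k := by rw [heD0]; rfl
  have hu0 : tu k a1 a2 0 = al k ^ a1 * (3 - 2 * √2) ^ a2 := by
    unfold tu
    rw [hale, he20]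
  have hv0 : tv k s r1 r2 0 = (al k + s) * al k ^ r1 * (3 - 2 * √2) ^ r2 := by
    unfold tv
    rw [hale, he20]
  have hw0 : tw k a b 0 = √((2 * (k : ℝ) + 1) ^ 2 + 1) * (a + b * √2) := by
    unfold tw
    rw [heD0, he20]
  have ht0 : 0 < 3 - 2 * √2 := by linarith
  have hu0p : 0 < tu k a1 a2 0 := by rw [hu0]; positivity
  have hv0p : 0 < tv k s r1 r2 0 := by rw [hv0]; positivity
  have hw0p : 0 < tw k a b 0 := by rw [hw0]; positivity
  have hlu : Real.log (tu k a1 a2 0) = a1 * Real.log (al k) - a2 * Real.log (3 + 2 * √2) := by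
    rw [hu0, Real.log_mul (by positivity) (by positivity), Real.log_pow, Real.log_pow, log_eps']
    ring
  have hlv : Real.log (tv k s r1 r2 0) =
      Real.log (al k + s) + r1 * Real.log (al k) - r2 * Real.log (3 + 2 * √2) := by
    rw [hv0, Real.log_mul (by positivity) (by positivity),
      Real.log_mul (by positivity) (by positivity), Real.log_pow, Real.log_zpow, log_eps']
    ring
  have hlw1 : 0 ≤ Real.log (tw k a b 0) := by
    apply Real.log_nonneg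
    rw [hw0]
    exact one_le_mul_of_one_le_of_one_le g2 (by linarith)
  have hBw : ∀ i, |tw k a b i| ≤ Real.exp (2 * H + 2) := tw_le k hk H hH hS hL
  have hBv : ∀ i, |tv k s r1 r2 i| ≤ Real.exp ((H + 1) + r1 * H + 2 * |(r2 : ℝ)|) :=
    tv_le k hk H hH s hs r1 r2
  have hBu : ∀ i, |tu k a1 a2 i| ≤ Real.exp (a1 * H + 2 * a2) := tu_le k hk H hH a1 a2
  have hlw2 : Real.log (tw k a b 0) ≤ 2 * H + 2 := by
    rw [Real.log_le_iff_le_exp hw0p]
    exact (le_abs_self _).trans (hBw 0)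
  have hlv2 : Real.log (tv k s r1 r2 0) ≤ (H + 1) + r1 * H + 2 * |(r2 : ℝ)| := by
    rw [Real.log_le_iff_le_exp hv0p]
    exact (le_abs_self _).trans (hBv 0)
  have hlals : 0 ≤ Real.log (al k + s) := by
    apply Real.log_nonneg
    rcases hsR with h | h <;> rw [h] <;> linarith
  have hr2log : (r2 : ℝ) * Real.log (3 + 2 * √2) ≤ 2 * |(r2 : ℝ)| := by
    calc (r2 : ℝ) * Real.log (3 + 2 * √2) ≤ |(r2 : ℝ)| * Real.log (3 + 2 * √2) :=
          mul_le_mul_of_nonneg_right (le_abs_self _) le0.le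
      _ ≤ |(r2 : ℝ)| * 2 := mul_le_mul_of_nonneg_left le2 (abs_nonneg _)
      _ = 2 * |(r2 : ℝ)| := by ring
  have hlv1 : -(2 * |(r2 : ℝ)|) ≤ Real.log (tv k s r1 r2 0) := by
    rw [hlv]
    have : 0 ≤ (r1 : ℝ) * Real.log (al k) := by positivity
    linarith
  have hr1H : (r1 : ℝ) * H ≤ (a1 - 1) * H := mul_le_mul_of_nonneg_right hr1 (by positivity)
  have haH : (H : ℝ) ≤ a1 * H := le_mul_of_one_le_left (by positivity) ha1R
  have hcast : (((11 * a1 * H + 2 * d + 2 : ℕ)) : ℝ) = 11 * a1 * H + 2 * d + 2 := by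
    push_cast
    ring
  obtain ⟨Q, hQ⟩ : ∃ Q : ℝ, Q = a1 * H := ⟨_, rfl⟩
  have hr2' : |(r2 : ℝ)| ≤ 3 / 2 * Q - 3 / 2 * H + (d + 1) := by
    refine hr2.trans (le_of_eq ?_)
    rw [hQ]
    ring
  have hr1H' : (r1 : ℝ) * H ≤ Q - H := by
    refine hr1H.trans (le_of_eq ?_)
    rw [hQ]
    ring
  have haH' : (H : ℝ) ≤ Q := by rw [hQ]; exact haH
  have hQ11 : (11 * a1 * H : ℝ) = 11 * Q := by rw [hQ]; ring
  have hBB : (H + 1 : ℝ) + r1 * H + 2 * |(r2 : ℝ)| ≤ 11 * a1 * H + 2 * d + 2 := by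
    rw [hQ11]
    linarith
  have hBB2 : (2 * H + 2 : ℝ) ≤ 11 * a1 * H + 2 * d + 2 := by
    rw [hQ11]
    linarith
  have hBB3 : 2 * |(r2 : ℝ)| + (2 * H + 2 : ℝ) ≤ 11 * a1 * H + 2 * d + 2 := by
    rw [hQ11]
    linarith
  refine ⟨a1, tu k a1 a2, tv k s r1 r2, tw k a b, ha1, ha1T, tu_mem k a1 a2, tv_mem k s r1 r2,
    tw_mem k a b, hu0p, ?_, hv0p, hw0p, ?_, ?_, ?_⟩
  · -- `u 0 ≠ 1`
    intro h1
    by_cases h2 : tu k a1 a2 - 1 = 0
    · have h3 : tu k a1 a2 2 = 1 := by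
        have := congrFun h2 2
        simp only [Pi.sub_apply, Pi.one_apply, Pi.zero_apply] at this
        linarith
      have heD2 : eD k 2 = -√((2 * (k : ℝ) + 1) ^ 2 + 1) := by simp [eD]
      have he22 : e2 2 = √2 := by simp [e2]
      have h4 : |tu k a1 a2 2| < 1 := by
        unfold tu
        rw [heD2, he22, abs_mul, abs_pow, abs_pow, abs_of_pos ht0]
        have h5 : |2 * (k : ℝ) + 1 + -√((2 * (k : ℝ) + 1) ^ 2 + 1)| < 1 := by
          have h6 : √((2 * (k : ℝ) + 1) ^ 2 + 1) - (2 * (k : ℝ) + 1) < 1 := by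
            by_contra hc
            rw [not_lt] at hc
            have := mul_le_mul_of_nonneg_right hc hal.le
            rw [g5] at this
            linarith
          rw [abs_lt]
          constructor <;> linarith
        have h7 : |2 * (k : ℝ) + 1 + -√((2 * (k : ℝ) + 1) ^ 2 + 1)| ^ a1 < 1 :=
          pow_lt_one₀ (abs_nonneg _) h5 (by omega)
        have h8 : (3 - 2 * √2) ^ a2 ≤ 1 := pow_le_one₀ ht0.le (by linarith)
        calc _ ≤ |2 * (k : ℝ) + 1 + -√((2 * (k : ℝ) + 1) ^ 2 + 1)| ^ a1 * 1 :=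
              mul_le_mul_of_nonneg_left h8 (by positivity)
          _ < 1 := by rw [mul_one]; exact h7
      rw [h3] at h4
      simp at h4
    · have h3 := hRing k hDeg (tu k a1 a2 - 1) (sub_mem (tu_mem k a1 a2) (one_mem _)) h2
      have h4 : ∏ i, (tu k a1 a2 - 1) i = 0 := by
        apply Finset.prod_eq_zero (Finset.mem_univ 0)
        simp [h1]
      rw [h4] at h3
      simp at h3
      linarith
  · intro i
    rw [← hd]
    refine ⟨(hBu i).trans (Real.exp_le_exp.mpr ?_), (hBv i).trans (Real.exp_le_exp.mpr ?_),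
      (hBw i).trans (Real.exp_le_exp.mpr ?_)⟩
    · push_cast
      have h7 : (7 * a1 * H : ℝ) = 7 * Q := by rw [hQ]; ring
      have h8 : (3 / 2 * a1 * H : ℝ) = 3 / 2 * Q := by rw [hQ]; ring
      rw [h7, ← hQ]
      rw [h8] at ha2
      linarith
    · rw [hcast]
      exact hBB
    · rw [hcast]
      exact hBB2
  · rw [← hd, hcast, Real.log_div hv0p.ne' hw0p.ne', abs_le]
    constructor <;> linarith
  · rw [Real.log_div hv0p.ne' hw0p.ne', hlu, hlv, hw0, Real.log_mul hsD.ne' hgpos.ne']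
    unfold Lam
    rw [Real.log_div hals.ne' (mul_pos hsD hgpos).ne', Real.log_mul hsD.ne' hgpos.ne', hr2eq]
    linear_combination (Real.log (al k)) * hdmR

end Pool.Agent.DKP
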