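import Pool.Agent.DKP.St

/-!
# The linear form in logarithms is small (MP_a79b85_nt)
-/

set_option autoImplicit false

namespace Pool.Agent.DKP

namespace LamAux

/-- ring homomorphisms -/
theorem YY_map {R S : Type} [CommRing R] [CommRing S] (f : R →+* S) (s x : R) :
    ∀ m, f (YY s x m) = YY (f s) (f x) m
  | 0 => by simp [YY]
  | 1 => by simp only [YY, map_add, map_mul, map_ofNat]
  | m + 2 => by
    have h1 := YY_map f s x (m + 1)
    have h0 := YY_map f s x m
    simp only [YY, map_add, map_mul, map_ofNat, h1, h0]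

/-- closed form -/
theorem closed (N r s : ℝ) (hr : r ^ 2 = N ^ 2 + 1) (m : ℕ) :
    2 * r * YY s N m = (N + r + s) * (N + r) ^ m - (N - r + s) * (N - r) ^ m ∧
      2 * r * YY s N (m + 1) =
        (N + r + s) * (N + r) ^ (m + 1) - (N - r + s) * (N - r) ^ (m + 1) := by
  induction m with
  | zero =>
    constructor
    · simp only [YY]
      ring
    · simp only [YY]
      ring
  | succ m ih =>
    refine ⟨ih.2, ?_⟩
    have h1 : (N + r) ^ 2 = 2 * N * (N + r) + 1 := by linear_combination hr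
    have h2 : (N - r) ^ 2 = 2 * N * (N - r) + 1 := by linear_combination hr
    have h3 : YY s N (m + 1 + 1) = 2 * N * YY s N (m + 1) + YY s N m := rfl
    rw [h3]
    linear_combination 2 * N * ih.2 + ih.1 - (N + r + s) * (N + r) ^ m * h1 +
      (N - r + s) * (N - r) ^ m * h2

/-- the small term -/
theorem small_bd (α β s : ℝ) (m : ℕ) (hα : 1 < α) (hαβ : α * β = -1)
    (hs : (s = 1 ∧ Even m) ∨ (s = -1 ∧ Odd m)) :
    0 < (β + s) * β ^ m ∧ (β + s) * β ^ m ≤ 2 / α ^ m := by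
  have hα0 : 0 < α := by linarith
  have hβ : β = -(1 / α) := by
    field_simp
    linarith
  have hinv : 1 / α < 1 := by
    rw [div_lt_one hα0]
    exact hα
  have hinv0 : 0 < 1 / α := by positivity
  have hβ0 : β < 0 := by linarith
  have hβ1 : -1 < β := by linarith
  have hpos : 0 < (β + s) * β ^ m := by
    rcases hs with ⟨rfl, he⟩ | ⟨rfl, ho⟩
    · exact mul_pos (by linarith) (he.pow_pos hβ0.ne)
    · exact mul_pos_of_neg_of_neg (by linarith) (ho.pow_neg hβ0)
  refine ⟨hpos, ?_⟩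
  have h1 : (β + s) * β ^ m = |β + s| * (1 / α) ^ m := by
    have h2 : |β| = 1 / α := by
      rw [abs_of_neg hβ0]
      linarith
    rw [← abs_of_pos hpos, abs_mul, abs_pow, h2]
  have h3 : |β + s| ≤ 2 := by
    rw [abs_le]
    rcases hs with ⟨rfl, _⟩ | ⟨rfl, _⟩ <;> constructor <;> linarith
  rw [h1, one_div, inv_pow, div_eq_mul_inv]
  exact mul_le_mul_of_nonneg_right h3 (by positivity)

/-- the main estimate -/
theorem main_bd (N r s α β y x P ξ q t : ℝ) (m : ℕ) (hN : 3 ≤ N) (hr : r ^ 2 = N ^ 2 + 1)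
    (hr0 : 0 < r) (hαd : α = N + r) (hβd : β = N - r) (hq : q = α ^ m) (ht : t = α + s)
    (hm : 2 ≤ m) (hs : (s = 1 ∧ Even m) ∨ (s = -1 ∧ Odd m))
    (hA : 2 * r * y = t * q - (β + s) * β ^ m) (hx : 0 ≤ x) (hP : 1 ≤ P)
    (hP2 : 2 * P ≤ (N - 1) ^ 2) (hξ : ξ = y + x) (hyx : y ^ 2 - x ^ 2 = P) :
    6 < α ∧ 0 < t ∧ 0 < q ∧ 0 < y ∧ 0 < ξ ∧ ξ ≤ α * q ∧ r * ξ / (t * q) < 1 ∧
      1 - r * ξ / (t * q) ≤ α ^ 2 / q ^ 2 ∧ α ^ 2 / q ^ 2 ≤ 1 / 2 := by
  have hrN : N < r := by
    nlinarith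
  have hα6 : 6 < α := by linarith
  have hαβ : α * β = -1 := by
    rw [hαd, hβd]
    linear_combination -hr
  obtain ⟨hsm0, hsm1⟩ := small_bd α β s m (by linarith) hαβ hs
  rw [← hq] at hsm1
  set sm := (β + s) * β ^ m with hsm
  have hs1 : -1 ≤ s ∧ s ≤ 1 := by
    rcases hs with ⟨rfl, _⟩ | ⟨rfl, _⟩ <;> constructor <;> norm_num
  have ht5 : α - 1 ≤ t := by linarith [hs1.1]
  have ht6 : t ≤ α + 1 := by linarith [hs1.2]
  have ht0 : 0 < t := by linarith
  have hqα : α ^ 2 ≤ q := by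
    rw [hq]
    exact pow_le_pow_right₀ (by linarith) hm
  have hq36 : 36 < q := by nlinarith
  have hq0 : 0 < q := by linarith
  have hsm2 : sm ≤ 2 := by
    refine hsm1.trans ?_
    rw [div_le_iff₀ hq0]
    linarith
  have htq : 180 < t * q := by nlinarith
  have htq0 : 0 < t * q := by linarith
  have hy1 : t * q / 2 ≤ 2 * r * y := by
    rw [hA]
    linarith
  have hy0 : 0 < y := by
    by_contra hc
    push Not at hc
    have : 2 * r * y ≤ 0 := mul_nonpos_of_nonneg_of_nonpos (by linarith) hc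
    linarith
  have hξ0 : 0 < ξ := by linarith
  have hprod : ξ * (y - x) = P := by
    rw [hξ]
    linear_combination hyx
  have hξ' : y - x = P / ξ := by
    rw [eq_div_iff hξ0.ne', mul_comm]
    exact hprod
  have hξ'0 : 0 < P / ξ := by positivity
  have hrξ : r * ξ = t * q - (sm + r * (P / ξ)) := by
    rw [← hξ', hξ]
    linear_combination hA
  have hle : sm + r * (P / ξ) ≤ t * α ^ 2 / q := by
    have e1 : ξ * (4 * r) ≥ t * q := by nlinarith
    have e2 : r * (P / ξ) ≤ 4 * r ^ 2 * P / (t * q) := by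
      rw [← mul_div_assoc, div_le_div_iff₀ hξ0 htq0]
      have : 0 ≤ r * P := by positivity
      nlinarith
    have e3 : 4 * r ^ 2 * P ≤ α ^ 2 * t ^ 2 / 2 := by
      have f1 : 4 * r ^ 2 ≤ 2 * α ^ 2 := by
        rw [hr]
        nlinarith
      have f2 : 4 * P ≤ t ^ 2 := by
        have : 2 * N - 2 ≤ t := by linarith
        nlinarith
      have f3 : 0 ≤ α ^ 2 := by positivity
      nlinarith
    have e4 : 2 * t ≤ α ^ 2 * t ^ 2 / 2 := by
      have : 36 ≤ α ^ 2 := by nlinarith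
      have : 5 ≤ t := by linarith
      nlinarith
    have e5 : 2 / q + 4 * r ^ 2 * P / (t * q) ≤ t * α ^ 2 / q := by
      rw [div_add_div _ _ hq0.ne' htq0.ne', div_le_div_iff₀ (by positivity) hq0]
      have : 2 * (t * q) + q * (4 * r ^ 2 * P) ≤ q * (t ^ 2 * α ^ 2) := by nlinarith
      nlinarith [mul_le_mul_of_nonneg_right this hq0.le]
    linarith
  have h12 : α ^ 2 / q ^ 2 ≤ 1 / 2 := by
    rw [div_le_div_iff₀ (by positivity) (by norm_num)]
    nlinarith
  refine ⟨hα6, ht0, hq0, hy0, hξ0, ?_, ?_, ?_, h12⟩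
  · have h1 : ξ ≤ 2 * y := by linarith
    have h2 : 2 * r * y ≤ t * q := by linarith
    have h3 : t * q ≤ r * α * q := by
      have : t ≤ r * α := by nlinarith
      exact mul_le_mul_of_nonneg_right this hq0.le
    have h4 : r * (2 * y) ≤ r * (α * q) := by nlinarith
    exact h1.trans (le_of_mul_le_mul_left h4 hr0)
  · rw [div_lt_one htq0, hrξ]
    have : 0 < r * (P / ξ) := mul_pos hr0 hξ'0
    linarith
  · rw [hrξ, sub_div, div_self htq0.ne', sub_sub_cancel, div_le_iff₀ htq0]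
    refine hle.trans (le_of_eq ?_)
    field_simp

end LamAux

open LamAux in
theorem t_Lam : StmtLam := by
  intro k s m x n a b hS hL
  obtain ⟨hk, hs, hm, heq⟩ := hS
  obtain ⟨hlab, hg1, -⟩ := hL
  unfold Lab at hlab
  have hk1 : (1 : ℝ) ≤ k := by exact_mod_cast hk
  set N : ℝ := 2 * (k : ℝ) + 1 with hNd
  have hN : 3 ≤ N := by linarith
  set r : ℝ := √(N ^ 2 + 1) with hrd
  have hr : r ^ 2 = N ^ 2 + 1 := Real.sq_sqrt (by positivity)
  have hr0 : 0 < r := Real.sqrt_pos.2 (by positivity)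
  have hal : al k = N + r := rfl
  have hYr : ((YY s (2 * (k : ℤ) + 1) m : ℤ) : ℝ) = YY (s : ℝ) N m := by
    have h := YY_map (Int.castRingHom ℝ) s (2 * (k : ℤ) + 1) m
    simp only [eq_intCast] at h
    rw [h, hNd]
    push_cast
    rfl
  set y : ℝ := YY (s : ℝ) N m with hy
  have hsR : ((s : ℝ) = 1 ∧ Even m) ∨ ((s : ℝ) = -1 ∧ Odd m) := by
    rcases hs with ⟨rfl, h⟩ | ⟨rfl, h⟩
    · exact Or.inl ⟨by norm_num, h⟩
    · exact Or.inr ⟨by norm_num, h⟩
  have hA := (closed N r s hr m).1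
  rw [← hy] at hA
  have heqR : y ^ 2 - 2 * (x : ℝ) ^ 2 = 2 * (k : ℝ) ^ 2 - 1 := by
    rw [← hYr]
    exact_mod_cast heq
  have h2 : √(2 : ℝ) ^ 2 = 2 := Real.sq_sqrt (by norm_num)
  have hx0 : 0 ≤ (x : ℝ) * √2 := by positivity
  rw [hYr] at hlab
  obtain ⟨hα6, ht0, hq0, hy0, hξ0, hξ1, hR1, hR2, hR3⟩ :=
    main_bd N r s (N + r) (N - r) y (x * √2) (2 * (k : ℝ) ^ 2 - 1) (y + x * √2) ((N + r) ^ m)
      (N + r + s) m hN hr hr0 rfl rfl rfl rfl hm hsR hA hx0 (by nlinarith)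
      (by rw [hNd]; nlinarith) rfl (by rw [mul_pow, h2]; linarith)
  set ξ : ℝ := y + x * √2 with hξ
  set α : ℝ := N + r with hα
  set g : ℝ := a + b * √2 with hg
  have hP1 : 1 ≤ √(2 * (k : ℝ) ^ 2 - 1) := by
    rw [Real.one_le_sqrt]
    nlinarith
  have hg1' : 1 ≤ g := hP1.trans hg1
  have hg0 : 0 < g := by linarith
  have hε0 : (0 : ℝ) < 3 + 2 * √2 := by positivity
  have hα0 : 0 < α := by linarith
  have hLam : Lam k s m n a b = -Real.log (r * ξ / ((α + s) * α ^ m)) := by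
    have e1 : Lam k s m n a b = m * Real.log α - n * Real.log (3 + 2 * √2) +
      Real.log ((α + s) / (r * g)) := rfl
    rw [e1, hlab, Real.log_div ht0.ne' (by positivity), Real.log_mul hr0.ne' hg0.ne',
      Real.log_div (by positivity) (by positivity), Real.log_mul hr0.ne' (by positivity),
      Real.log_mul hg0.ne' (by positivity), Real.log_mul ht0.ne' (by positivity),
      Real.log_pow, Real.log_pow]
    ring
  set R : ℝ := r * ξ / ((α + s) * α ^ m) with hR
  have hR0 : 0 < R := by positivity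
  refine ⟨?_, ?_, ?_⟩
  · rw [hLam, neg_pos]
    exact Real.log_neg hR0 hR1
  · rw [hLam, hal]
    have e1 : α ^ (2 - 2 * (m : ℤ)) = α ^ 2 / (α ^ m) ^ 2 := by
      rw [zpow_sub₀ hα0.ne', ← pow_mul, mul_comm m 2]
      norm_cast
    rw [e1]
    have e2 := Real.one_sub_inv_le_log_of_pos hR0
    have e3 : R⁻¹ ≤ 1 + 2 * (α ^ 2 / (α ^ m) ^ 2) := by
      rw [inv_le_iff_one_le_mul₀ hR0]
      have : 0 ≤ α ^ 2 / (α ^ m) ^ 2 := by positivity
      nlinarith
    linarith
  · have e1 : (3 + 2 * √2) ^ n ≤ α ^ (m + 1) := by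
      have : (3 + 2 * √2) ^ n ≤ ξ := by
        rw [hlab]
        exact le_mul_of_one_le_left (by positivity) hg1'
      calc (3 + 2 * √2) ^ n ≤ ξ := this
        _ ≤ α * α ^ m := hξ1
        _ = α ^ (m + 1) := by ring
    have e2 : (1 : ℝ) ≤ Real.log (3 + 2 * √2) := by
      rw [Real.le_log_iff_exp_le hε0]
      have h3 := Real.exp_one_lt_d9
      have h4 : 0 ≤ √(2 : ℝ) := Real.sqrt_nonneg 2
      linarith
    have e3 := Real.log_le_log (by positivity) e1
    rw [Real.log_pow, Real.log_pow] at e3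
    push_cast at e3
    rw [hal]
    have e4 : (n : ℝ) ≤ n * Real.log (3 + 2 * √2) :=
      le_mul_of_one_le_right (Nat.cast_nonneg n) e2
    linarith

end Pool.Agent.DKP
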