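import Pool.Agent.DKP.St
import Pool.Agent.DKP.Lam

/-!
# The degenerate case: the index is at most two (MP_a79b85_nt)
-/

set_option autoImplicit false

namespace Pool.Agent.DKP

namespace DegIdxAux

open LamAux

/-- Both sides are conjugate in `ℤ[√2]`. -/
theorem conj (N t s : ℤ) (w : ℝ) (hw : w ^ 2 = 2) (m : ℕ) :
    ∃ A B : ℤ, ((N : ℝ) + t * w + s) * ((N : ℝ) + t * w) ^ m = A + B * w ∧
      ((N : ℝ) - t * w + s) * ((N : ℝ) - t * w) ^ m = A - B * w := by
  induction m with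
  | zero =>
    refine ⟨N + s, t, ?_, ?_⟩
    · push_cast
      ring
    · push_cast
      ring
  | succ m ih =>
    obtain ⟨A, B, hA, hB⟩ := ih
    refine ⟨N * A + 2 * t * B, N * B + t * A, ?_, ?_⟩
    · rw [pow_succ, ← mul_assoc, hA]
      push_cast
      linear_combination (B : ℝ) * t * hw
    · rw [pow_succ, ← mul_assoc, hB]
      push_cast
      linear_combination (B : ℝ) * t * hw

end DegIdxAux

open LamAux DegIdxAux in
theorem t_DegIdx : ∀ (k : ℕ) (s : ℤ) (m x : ℕ), Deg k → Sol k s m x → m ≤ 2 := by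
  intro k s m x hdeg hS
  by_contra hm3
  push Not at hm3
  obtain ⟨t, ht⟩ := hdeg
  obtain ⟨hk, hs, hm, heq⟩ := hS
  have hk1 : (1 : ℝ) ≤ k := by exact_mod_cast hk
  set N : ℝ := 2 * (k : ℝ) + 1 with hNd
  have hN : 3 ≤ N := by linarith
  set w : ℝ := √2 with hwd
  have hw : w ^ 2 = 2 := Real.sq_sqrt (by norm_num)
  have hw0 : 0 < w := Real.sqrt_pos.2 (by norm_num)
  set r : ℝ := t * w with hrd
  have htR : N ^ 2 + 1 = 2 * (t : ℝ) ^ 2 := by
    rw [hNd]
    exact_mod_cast ht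
  have hr : r ^ 2 = N ^ 2 + 1 := by
    rw [hrd, mul_pow, hw, htR]
    ring
  have ht0 : (0 : ℝ) < t := by
    rcases Nat.eq_zero_or_pos t with h | h
    · subst h
      exfalso
      norm_num at htR
      nlinarith
    · exact_mod_cast h
  have hr0 : 0 < r := mul_pos ht0 hw0
  have hrN : N < r := by nlinarith
  have hYr : ((YY s (2 * (k : ℤ) + 1) m : ℤ) : ℝ) = YY (s : ℝ) N m := by
    have h := YY_map (Int.castRingHom ℝ) s (2 * (k : ℤ) + 1) m
    simp only [eq_intCast] at h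
    rw [h, hNd]
    push_cast
    rfl
  set Y : ℤ := YY s (2 * (k : ℤ) + 1) m with hYd
  set y : ℝ := YY (s : ℝ) N m with hy
  have hsR : ((s : ℝ) = 1 ∧ Even m) ∨ ((s : ℝ) = -1 ∧ Odd m) := by
    rcases hs with ⟨rfl, h⟩ | ⟨rfl, h⟩
    · exact Or.inl ⟨by norm_num, h⟩
    · exact Or.inr ⟨by norm_num, h⟩
  have hs1 : -1 ≤ (s : ℝ) := by
    rcases hsR with ⟨h, _⟩ | ⟨h, _⟩ <;> rw [h] <;> norm_num
  have hA := (closed N r s hr m).1
  rw [← hy] at hA
  have heqR : y ^ 2 - 2 * (x : ℝ) ^ 2 = 2 * (k : ℝ) ^ 2 - 1 := by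
    rw [← hYr]
    exact_mod_cast heq
  -- the integer
  obtain ⟨A, B, h1, h2⟩ := conj (2 * (k : ℤ) + 1) t s w hw m
  have hcast : ((2 * (k : ℤ) + 1 : ℤ) : ℝ) = N := by
    rw [hNd]
    push_cast
    rfl
  have hcast2 : ((t : ℤ) : ℝ) * w = r := by
    rw [hrd]
    push_cast
    rfl
  rw [hcast, hcast2] at h1 h2
  have hB : (B : ℝ) = t * y := by
    rw [h1, h2, hrd] at hA
    have : w * ((B : ℝ) - t * y) = 0 := by linarith
    rcases mul_eq_zero.1 this with h | h
    · exact absurd h hw0.ne'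
    · linarith
  have hz : (((A - 2 * t * x : ℤ)) : ℝ) = (N - r + s) * (N - r) ^ m + r * (y - x * w) := by
    rw [h2, hB, hrd]
    push_cast
    linear_combination (t : ℝ) * x * hw
  -- estimates
  have hαβ : (N + r) * (N - r) = -1 := by linear_combination -hr
  have hα6 : 6 < N + r := by linarith
  obtain ⟨hsm0, hsm1⟩ := small_bd (N + r) (N - r) s m (by linarith) hαβ hsR
  have hα2 : 2 * N ≤ N + r := by linarith
  have hq3 : (N + r) ^ 3 ≤ (N + r) ^ m := pow_le_pow_right₀ (by linarith) (by omega)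
  set q : ℝ := (N + r) ^ m with hq
  have hq216 : 216 < (N + r) ^ 3 := by
    have : (6 : ℝ) ^ 3 < (N + r) ^ 3 := pow_lt_pow_left₀ hα6 (by norm_num) (by norm_num)
    linarith
  have hq0 : 0 < q := by linarith
  have hsm2 : (N - r + s) * (N - r) ^ m < 1 / 10 := by
    refine hsm1.trans_lt ?_
    rw [div_lt_iff₀ hq0]
    linarith
  have hN8 : 8 * N ^ 3 ≤ q := by
    have : (2 * N) ^ 3 ≤ (N + r) ^ 3 := pow_le_pow_left₀ (by linarith) hα2 3
    nlinarith
  have h5 : 8 * N ^ 3 * (2 * N - 1) ≤ (N + r + s) * q := by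
    have e1 : 2 * N - 1 ≤ N + r + s := by linarith
    have e2 : 0 ≤ 8 * N ^ 3 := by positivity
    calc 8 * N ^ 3 * (2 * N - 1) ≤ 8 * N ^ 3 * (N + r + s) :=
          mul_le_mul_of_nonneg_left e1 e2
      _ ≤ q * (N + r + s) := mul_le_mul_of_nonneg_right hN8 (by linarith)
      _ = (N + r + s) * q := by ring
  have h6 : 8 * N ^ 3 * (2 * N - 1) - 1 ≤ 2 * r * y := by
    rw [hA]
    linarith
  have hN4 : 13 * N ^ 4 ≤ 8 * N ^ 3 * (2 * N - 1) - 1 := by
    have e1 : 27 ≤ N ^ 3 := by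
      have : (3 : ℝ) ^ 3 ≤ N ^ 3 := pow_le_pow_left₀ (by norm_num) hN 3
      linarith
    nlinarith
  have hy0 : 0 < y := by
    by_contra hc
    push Not at hc
    have e1 : 2 * r * y ≤ 0 := mul_nonpos_of_nonneg_of_nonpos (by linarith) hc
    have e2 : 0 < 13 * N ^ 4 := by positivity
    linarith
  have hxw : 0 ≤ (x : ℝ) * w := by positivity
  set ξ : ℝ := y + x * w with hξ
  have hξ0 : 0 < ξ := by linarith
  have hprod : ξ * (y - x * w) = 2 * (k : ℝ) ^ 2 - 1 := by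
    rw [hξ]
    linear_combination heqR - (x : ℝ) ^ 2 * hw
  set P : ℝ := 2 * (k : ℝ) ^ 2 - 1 with hP
  have hP0 : 0 < P := by
    rw [hP]
    nlinarith
  have hP1 : 2 * P ≤ N ^ 2 := by
    rw [hP, hNd]
    nlinarith
  have hξ'0 : 0 < y - x * w := by
    by_contra hc
    push Not at hc
    have : ξ * (y - x * w) ≤ 0 := mul_nonpos_of_nonneg_of_nonpos hξ0.le hc
    linarith
  have h7 : r * (y - x * w) < 9 / 10 := by
    by_contra hc
    push Not at hc
    -- `(9/10) ξ ≤ r P`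
    have e1 : 9 / 10 * ξ ≤ r * P := by
      have := mul_le_mul_of_nonneg_right hc hξ0.le
      calc 9 / 10 * ξ ≤ r * (y - x * w) * ξ := this
        _ = r * (ξ * (y - x * w)) := by ring
        _ = r * P := by rw [hprod]
    have e2 : 9 / 10 * (2 * r * ξ) ≤ 2 * r ^ 2 * P := by
      have := mul_le_mul_of_nonneg_left e1 (by linarith : (0 : ℝ) ≤ 2 * r)
      linarith
    have e3 : 2 * r * y ≤ 2 * r * ξ :=
      mul_le_mul_of_nonneg_left (by linarith) (by linarith)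
    have e4 : 2 * r ^ 2 * P ≤ (N ^ 2 + 1) * N ^ 2 := by
      rw [hr]
      have := mul_le_mul_of_nonneg_left hP1 (by positivity : (0 : ℝ) ≤ N ^ 2 + 1)
      linarith
    have e5 : N ^ 2 ≤ N ^ 4 := by
      have : (1 : ℝ) ≤ N ^ 2 := by nlinarith
      nlinarith [mul_nonneg (sub_nonneg.2 this) (sq_nonneg N)]
    have e6 : 0 < N ^ 4 := by positivity
    have e7 : (N ^ 2 + 1) * N ^ 2 = N ^ 4 + N ^ 2 := by ring
    linarith
  have hz0 : (0 : ℝ) < ((A - 2 * t * x : ℤ) : ℝ) := by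
    rw [hz]
    have := mul_pos hr0 hξ'0
    linarith
  have hz1 : ((A - 2 * t * x : ℤ) : ℝ) < 1 := by
    rw [hz]
    linarith
  have hz0' : (0 : ℤ) < A - 2 * t * x := by exact_mod_cast hz0
  have hz1' : A - 2 * t * x < (1 : ℤ) := by exact_mod_cast hz1
  omega

end Pool.Agent.DKP
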