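import Pool.Agent.DKP.St2

/-!
# Module Dvc: divisors of a fixed element with bounded conjugates
-/

set_option autoImplicit false

open NumberField IsDedekindDomain Polynomial

namespace Pool.Agent.DKP

namespace LDvc

variable (K : Type) [Field K] [NumberField K]

/-- units modulo `ℓ`-th powers are finite -/
theorem units_reps (ℓ : ℕ) (hℓ : 0 < ℓ) : ∃ U0 : Finset (𝓞 K)ˣ, ∀ u : (𝓞 K)ˣ,
    ∃ u0 ∈ U0, ∃ η : (𝓞 K)ˣ, u = u0 * η ^ ℓ := by
  classical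
  set H : Subgroup (𝓞 K)ˣ := (powMonoidHom ℓ : (𝓞 K)ˣ →* (𝓞 K)ˣ).range with hH
  have : Group.FG (𝓞 K)ˣ := (Group.fg_iff_monoid_fg (G := (𝓞 K)ˣ)).2 inferInstance
  have : Finite ((𝓞 K)ˣ ⧸ H) := by
    refine CommGroup.finite_of_fg_isMulTorsion (G := (𝓞 K)ˣ ⧸ H) ?_
    intro q
    rw [isOfFinOrder_iff_pow_eq_one]
    refine ⟨ℓ, hℓ, ?_⟩
    induction q using QuotientGroup.induction_on with
    | H u =>
      rw [← QuotientGroup.mk_pow, QuotientGroup.eq_one_iff]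
      exact ⟨u, rfl⟩
  have : Fintype ((𝓞 K)ˣ ⧸ H) := Fintype.ofFinite _
  refine ⟨Finset.univ.image (fun q : (𝓞 K)ˣ ⧸ H => q.out), fun u => ?_⟩
  refine ⟨(QuotientGroup.mk u : (𝓞 K)ˣ ⧸ H).out, Finset.mem_image_of_mem _ (Finset.mem_univ _), ?_⟩
  have h1 : (QuotientGroup.mk ((QuotientGroup.mk u : (𝓞 K)ˣ ⧸ H).out) : (𝓞 K)ˣ ⧸ H) =
      QuotientGroup.mk u := QuotientGroup.out_eq' _
  rw [QuotientGroup.eq] at h1
  obtain ⟨η, hη⟩ := h1
  refine ⟨η, ?_⟩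
  have h2 : η ^ ℓ = ((QuotientGroup.mk u : (𝓞 K)ˣ ⧸ H).out)⁻¹ * u := hη
  rw [h2, mul_inv_cancel_left]

/-- finitely many divisors up to `ℓ`-th powers of units -/
theorem reps (κ : 𝓞 K) (hκ : κ ≠ 0) (ℓ : ℕ) (hℓ : 0 < ℓ) : ∃ Z : Finset (𝓞 K),
    (∀ z ∈ Z, z ≠ 0) ∧ ∀ z : 𝓞 K, z ∣ κ → ∃ z0 ∈ Z, ∃ η : (𝓞 K)ˣ, z = z0 * (η : 𝓞 K) ^ ℓ := by
  classical
  obtain ⟨U0, hU0⟩ := units_reps K ℓ hℓ
  have hfin := Ideal.finite_setOfPred_absNorm_le (S := 𝓞 K) (Ideal.absNorm (Ideal.span {κ}))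
  set I0 : Finset (Ideal (𝓞 K)) := hfin.toFinset with hI0
  set g : Ideal (𝓞 K) → 𝓞 K := fun I =>
    if h : ∃ a : 𝓞 K, a ≠ 0 ∧ Ideal.span {a} = I then h.choose else 1 with hg
  have hg0 : ∀ I, g I ≠ 0 := by
    intro I
    simp only [hg]
    split_ifs with h
    · exact h.choose_spec.1
    · exact one_ne_zero
  refine ⟨(I0 ×ˢ U0).image fun p => g p.1 * (p.2 : 𝓞 K), ?_, ?_⟩
  · intro z hz
    obtain ⟨p, -, rfl⟩ := Finset.mem_image.1 hz
    exact mul_ne_zero (hg0 _) (Units.ne_zero _)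
  · intro z hz
    have hz0 : z ≠ 0 := by
      rintro rfl
      exact hκ (zero_dvd_iff.1 hz)
    have hI : Ideal.span {z} ∈ I0 := by
      rw [hI0, Set.Finite.mem_toFinset, Set.mem_ofPred_eq]
      refine Nat.le_of_dvd (Nat.pos_of_ne_zero ?_) ?_
      · rw [Ne, Ideal.absNorm_eq_zero_iff, Ideal.span_singleton_eq_bot]
        exact hκ
      · exact Ideal.absNorm_dvd_absNorm_of_le (Ideal.span_singleton_le_span_singleton.2 hz)
    have hex : ∃ a : 𝓞 K, a ≠ 0 ∧ Ideal.span {a} = Ideal.span {z} := ⟨z, hz0, rfl⟩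
    have hga : Ideal.span {g (Ideal.span {z})} = Ideal.span {z} := by
      have e : g (Ideal.span {z}) = hex.choose := by
        simp only [hg]
        rw [dif_pos hex]
      rw [e]
      exact hex.choose_spec.2
    obtain ⟨u, hu⟩ := Ideal.span_singleton_eq_span_singleton.1 hga
    obtain ⟨u0, hu0, η, hη⟩ := hU0 u
    refine ⟨g (Ideal.span {z}) * (u0 : 𝓞 K), Finset.mem_image.2 ⟨(Ideal.span {z}, u0),
      Finset.mem_product.2 ⟨hI, hu0⟩, rfl⟩, η, ?_⟩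
    have h3 : (u : 𝓞 K) = (u0 : 𝓞 K) * (η : 𝓞 K) ^ ℓ := by
      rw [hη, Units.val_mul, Units.val_pow_eq_pow_val]
    rw [h3, ← mul_assoc] at hu
    exact hu.symm

/-- the number of integers with bounded conjugates -/
theorem count : ∃ (n : ℕ) (A : ℝ), 0 < A ∧ ∀ (R : ℝ) (S : Finset (𝓞 K)), 1 ≤ R →
    (∀ η ∈ S, ∀ σ : K →+* ℂ, ‖σ (η : K)‖ ≤ R) → (S.card : ℝ) ≤ A * R ^ n := by
  classical
  set b := RingOfIntegers.basis K with hb
  set D : ℝ := ∑ i, ∑ σ : K →ₐ[ℚ] ℂ, ‖σ ((b i : 𝓞 K) : K)‖ with hD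
  have hD0 : 0 ≤ D := Finset.sum_nonneg fun i _ => Finset.sum_nonneg fun σ _ => norm_nonneg _
  refine ⟨Fintype.card (Module.Free.ChooseBasisIndex ℤ (𝓞 K)), (2 * D + 1) ^ Fintype.card
    (Module.Free.ChooseBasisIndex ℤ (𝓞 K)), by positivity, ?_⟩
  intro R S hR hS
  set f : 𝓞 K → (Module.Free.ChooseBasisIndex ℤ (𝓞 K) → ℤ) := fun η i =>
    Algebra.trace ℤ (𝓞 K) (η * b i) with hf
  have hfinj : Function.Injective f := by
    intro η η' h
    have h1 : ∀ i, Algebra.traceForm ℚ K ((η : K) - η') (integralBasis K i) = 0 := by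
      intro i
      have h2 := congrFun h i
      simp only [hf] at h2
      have h3 : ((Algebra.trace ℤ (𝓞 K) (η * b i) : ℤ) : ℚ) =
          ((Algebra.trace ℤ (𝓞 K) (η' * b i) : ℤ) : ℚ) := by rw [h2]
      rw [Algebra.coe_trace_int, Algebra.coe_trace_int] at h3
      rw [Algebra.traceForm_apply, sub_mul, map_sub, integralBasis_apply, sub_eq_zero]
      simpa using h3
    have h4 : ((Algebra.traceForm ℚ K).dualBasis (traceForm_nondegenerate ℚ K)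
        (integralBasis K)).repr ((η : K) - η') = 0 := by
      ext i
      rw [LinearMap.BilinForm.dualBasis_repr_apply, h1]
      rfl
    have h5 : (η : K) - η' = 0 :=
      (LinearEquiv.map_eq_zero_iff _).1 h4
    exact RingOfIntegers.ext (sub_eq_zero.1 h5)
  have hbound : ∀ η ∈ S, ∀ i, |((f η i : ℤ) : ℝ)| ≤ D * R := by
    intro η hη i
    have h1 : ((f η i : ℤ) : ℂ) = ∑ σ : K →ₐ[ℚ] ℂ, σ ((η * b i : 𝓞 K) : K) := by
      have h2 := trace_eq_sum_embeddings (K := ℚ) (L := K) ℂ (x := ((η * b i : 𝓞 K) : K))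
      rw [← h2, ← Algebra.coe_trace_int]
      simp [hf]
    have h3 : |((f η i : ℤ) : ℝ)| = ‖((f η i : ℤ) : ℂ)‖ := by
      rw [Complex.norm_intCast]
    rw [h3, h1]
    calc ‖∑ σ : K →ₐ[ℚ] ℂ, σ ((η * b i : 𝓞 K) : K)‖
        ≤ ∑ σ : K →ₐ[ℚ] ℂ, ‖σ ((η * b i : 𝓞 K) : K)‖ := norm_sum_le _ _
      _ ≤ ∑ σ : K →ₐ[ℚ] ℂ, ‖σ ((b i : 𝓞 K) : K)‖ * R := by
          refine Finset.sum_le_sum fun σ _ => ?_
          have e : ((η * b i : 𝓞 K) : K) = (η : K) * ((b i : 𝓞 K) : K) := rfl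
          rw [e, map_mul, norm_mul, mul_comm]
          exact mul_le_mul_of_nonneg_left (hS η hη (σ : K →+* ℂ)) (norm_nonneg _)
      _ = (∑ σ : K →ₐ[ℚ] ℂ, ‖σ ((b i : 𝓞 K) : K)‖) * R := by rw [Finset.sum_mul]
      _ ≤ D * R := by
          refine mul_le_mul_of_nonneg_right ?_ (by linarith)
          exact Finset.single_le_sum (f := fun i => ∑ σ : K →ₐ[ℚ] ℂ, ‖σ ((b i : 𝓞 K) : K)‖)
            (fun i _ => Finset.sum_nonneg fun σ _ => norm_nonneg _) (Finset.mem_univ i)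
  set m : ℕ := ⌊D * R⌋₊ with hm
  have hDR : 0 ≤ D * R := mul_nonneg hD0 (by linarith)
  have hsub : S.image f ⊆ Fintype.piFinset fun _ => Finset.Icc (-(m : ℤ)) m := by
    intro v hv
    obtain ⟨η, hη, rfl⟩ := Finset.mem_image.1 hv
    rw [Fintype.mem_piFinset]
    intro i
    have h1 := hbound η hη i
    have h2 : ((|f η i| : ℤ) : ℝ) ≤ D * R := by
      rw [Int.cast_abs]
      exact h1
    have h3 : |f η i| ≤ (m : ℤ) := by
      rw [hm]
      have h4 : ((|f η i|).toNat : ℝ) ≤ D * R := by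
        have h5 : (((|f η i|).toNat : ℤ) : ℝ) ≤ D * R := by
          rw [Int.toNat_of_nonneg (abs_nonneg _)]
          exact h2
        exact_mod_cast h5
      have h6 := Nat.le_floor h4
      have h7 : ((|f η i|).toNat : ℤ) = |f η i| := Int.toNat_of_nonneg (abs_nonneg _)
      omega
    rw [Finset.mem_Icc]
    exact abs_le.1 h3
  have hcard : S.card ≤ (2 * m + 1) ^ Fintype.card (Module.Free.ChooseBasisIndex ℤ (𝓞 K)) := by
    rw [← Finset.card_image_of_injective S hfinj]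
    refine (Finset.card_le_card hsub).trans ?_
    rw [Fintype.card_piFinset, Finset.prod_const, Finset.card_univ, Int.card_Icc]
    refine le_of_eq ?_
    congr 1
    omega
  calc (S.card : ℝ) ≤ ((2 * m + 1 : ℕ) : ℝ) ^ Fintype.card
          (Module.Free.ChooseBasisIndex ℤ (𝓞 K)) := by exact_mod_cast hcard
    _ ≤ ((2 * D + 1) * R) ^ Fintype.card (Module.Free.ChooseBasisIndex ℤ (𝓞 K)) := by
        refine pow_le_pow_left₀ (by positivity) ?_ _
        have h1 : (m : ℝ) ≤ D * R := Nat.floor_le hDR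
        push_cast
        nlinarith
    _ = _ := mul_pow _ _ _

end LDvc

open LDvc

theorem t_Dvc : StmtDvc := by
  classical
  intro K _ _ κ ε hκ hε
  obtain ⟨n, A, hA, hcount⟩ := count K
  obtain ⟨ℓ0, hℓ0⟩ := exists_nat_ge ((n : ℝ) / ε)
  set ℓ : ℕ := ℓ0 + 1 with hℓdef
  have hℓ : 0 < ℓ := Nat.succ_pos _
  have hℓR : (0 : ℝ) < ℓ := by exact_mod_cast hℓ
  have hnl : (n : ℝ) / ℓ ≤ ε := by
    rw [div_le_iff₀ hℓR]
    rw [div_le_iff₀ hε] at hℓ0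
    rw [hℓdef]
    push_cast
    nlinarith
  obtain ⟨Z, hZ0, hZ⟩ := reps K κ hκ ℓ hℓ
  -- a lower bound for the conjugates of the representatives
  obtain ⟨c, hc0, hc⟩ : ∃ c : ℝ, 0 < c ∧ ∀ z0 ∈ Z, ∀ σ : K →+* ℂ, c ≤ ‖σ (z0 : K)‖ := by
    set W : Finset ℝ := insert 1 ((Z ×ˢ (Finset.univ : Finset (K →+* ℂ))).image
      fun p => ‖p.2 (p.1 : K)‖) with hW
    have hWne : W.Nonempty := Finset.insert_nonempty _ _
    refine ⟨W.min' hWne, ?_, fun z0 hz0 σ => ?_⟩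
    · rw [Finset.lt_min'_iff]
      intro w hw
      rw [hW, Finset.mem_insert] at hw
      rcases hw with rfl | hw
      · exact one_pos
      · obtain ⟨p, hp, rfl⟩ := Finset.mem_image.1 hw
        rw [norm_pos_iff]
        intro h
        rw [map_eq_zero] at h
        exact hZ0 p.1 (Finset.mem_product.1 hp).1 (RingOfIntegers.ext h)
    · refine Finset.min'_le _ _ ?_
      rw [hW]
      refine Finset.mem_insert_of_mem (Finset.mem_image.2 ⟨(z0, σ), ?_, rfl⟩)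
      exact Finset.mem_product.2 ⟨hz0, Finset.mem_univ _⟩
  set C2 : ℝ := max 1 (c⁻¹ ^ ((ℓ : ℝ)⁻¹)) with hC2
  have hC21 : 1 ≤ C2 := le_max_left _ _
  refine ⟨Z.card * (A * C2 ^ n) + 1, by positivity, ?_⟩
  intro B T hB hT
  set R : ℝ := C2 * B ^ ((ℓ : ℝ)⁻¹) with hR
  have hBℓ : 1 ≤ B ^ ((ℓ : ℝ)⁻¹) := Real.one_le_rpow hB (by positivity)
  have hR1 : 1 ≤ R := one_le_mul_of_one_le_of_one_le hC21 hBℓ
  have hcov : T ⊆ Z.biUnion fun z0 => T.filter fun z =>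
      ∃ η : (𝓞 K)ˣ, z = z0 * (η : 𝓞 K) ^ ℓ := by
    intro z hz
    obtain ⟨z0, hz0, η, hη⟩ := hZ z (hT z hz).1
    exact Finset.mem_biUnion.2 ⟨z0, hz0, Finset.mem_filter.2 ⟨hz, η, hη⟩⟩
  have hfib : ∀ z0 ∈ Z, ((T.filter fun z => ∃ η : (𝓞 K)ˣ, z = z0 * (η : 𝓞 K) ^ ℓ).card : ℝ) ≤
      A * R ^ n := by
    intro z0 hz0
    set T0 := T.filter fun z => ∃ η : (𝓞 K)ˣ, z = z0 * (η : 𝓞 K) ^ ℓ with hT0
    have hex : ∀ z ∈ T0, ∃ η : 𝓞 K, z = z0 * η ^ ℓ := by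
      intro z hz
      obtain ⟨η, hη⟩ := (Finset.mem_filter.1 hz).2
      exact ⟨η, hη⟩
    set e : 𝓞 K → 𝓞 K := fun z => if h : ∃ η : 𝓞 K, z = z0 * η ^ ℓ then h.choose else 0 with he
    have he' : ∀ z ∈ T0, z = z0 * (e z) ^ ℓ := by
      intro z hz
      have h := hex z hz
      have h1 : e z = h.choose := by
        simp only [he]
        rw [dif_pos h]
      rw [h1]
      exact h.choose_spec
    have hinj : Set.InjOn e T0 := by
      intro z hz w hw h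
      rw [he' z hz, he' w hw, h]
    rw [← Finset.card_image_of_injOn hinj]
    refine hcount R _ hR1 ?_
    intro η hη σ
    obtain ⟨z, hz, rfl⟩ := Finset.mem_image.1 hη
    have h1 : ‖σ (z : K)‖ ≤ B := (hT z (Finset.mem_filter.1 hz).1).2 σ
    have h2 : ‖σ (z : K)‖ = ‖σ (z0 : K)‖ * ‖σ ((e z : 𝓞 K) : K)‖ ^ ℓ := by
      have e2 : (z : K) = (z0 : K) * ((e z : 𝓞 K) : K) ^ ℓ := by
        conv_lhs => rw [he' z hz]
        rfl
      rw [e2, map_mul, norm_mul, map_pow, norm_pow]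
    have h3 : ‖σ ((e z : 𝓞 K) : K)‖ ^ ℓ ≤ c⁻¹ * B := by
      have h4 := hc z0 hz0 σ
      have h5 : c * ‖σ ((e z : 𝓞 K) : K)‖ ^ ℓ ≤ B :=
        (mul_le_mul_of_nonneg_right h4 (by positivity)).trans (h2 ▸ h1)
      rw [inv_mul_eq_div, le_div_iff₀ hc0]
      linarith
    have h6 : ‖σ ((e z : 𝓞 K) : K)‖ ≤ (c⁻¹ * B) ^ ((ℓ : ℝ)⁻¹) := by
      rw [Real.le_rpow_inv_iff_of_pos (norm_nonneg _) (by positivity) hℓR, Real.rpow_natCast]
      exact h3
    refine h6.trans ?_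
    rw [Real.mul_rpow (by positivity) (by linarith), hR]
    exact mul_le_mul_of_nonneg_right (le_max_right _ _) (by positivity)
  have hRn : R ^ n ≤ C2 ^ n * B ^ ε := by
    rw [hR, mul_pow]
    refine mul_le_mul_of_nonneg_left ?_ (by positivity)
    rw [← Real.rpow_natCast, ← Real.rpow_mul (by linarith)]
    refine Real.rpow_le_rpow_of_exponent_le hB ?_
    rw [inv_mul_eq_div]
    exact hnl
  have hBε : 1 ≤ B ^ ε := Real.one_le_rpow hB hε.le
  calc (T.card : ℝ) ≤ ((Z.biUnion fun z0 => T.filter fun z =>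
        ∃ η : (𝓞 K)ˣ, z = z0 * (η : 𝓞 K) ^ ℓ).card : ℝ) := by
          exact_mod_cast Finset.card_le_card hcov
    _ ≤ ∑ z0 ∈ Z, ((T.filter fun z => ∃ η : (𝓞 K)ˣ, z = z0 * (η : 𝓞 K) ^ ℓ).card : ℝ) := by
          exact_mod_cast Finset.card_biUnion_le
    _ ≤ ∑ _z0 ∈ Z, A * R ^ n := Finset.sum_le_sum hfib
    _ = Z.card * (A * R ^ n) := by rw [Finset.sum_const, nsmul_eq_mul]
    _ ≤ Z.card * (A * (C2 ^ n * B ^ ε)) := by
          refine mul_le_mul_of_nonneg_left (mul_le_mul_of_nonneg_left hRn hA.le) (by positivity)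
    _ ≤ (Z.card * (A * C2 ^ n) + 1) * B ^ ε := by
          rw [add_mul, one_mul]
          have : (Z.card : ℝ) * (A * (C2 ^ n * B ^ ε)) = Z.card * (A * C2 ^ n) * B ^ ε := by ring
          linarith

end Pool.Agent.DKP
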