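import Pool.Agent.DKP.St

set_option autoImplicit false

open Finset

namespace Pool.Agent.DKP

namespace FewAux

lemma sep1 {N1 t1 N2 t2 : ℤ} (hN1 : 0 < N1) (h12 : N1 < N2) (ht1 : 0 < t1) (ht2 : 0 < t2)
    (e1 : N1 ^ 2 + 1 = 2 * t1 ^ 2) (e2 : N2 ^ 2 + 1 = 2 * t2 ^ 2) : 2 * N1 < N2 := by
  have d : 2 * ((N2 * t1 - N1 * t2) * (N2 * t1 + N1 * t2)) = N2 ^ 2 - N1 ^ 2 := by
    linear_combination (-N2 ^ 2) * e1 + N1 ^ 2 * e2
  have hN2 : 0 < N2 := hN1.trans h12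
  have hs : 0 < N2 * t1 + N1 * t2 := by positivity
  have hd : 0 < N2 ^ 2 - N1 ^ 2 := by nlinarith
  have h1 : 0 < N2 * t1 - N1 * t2 := by
    by_contra hcon
    push Not at hcon
    nlinarith
  have h2 : 2 * (N2 * t1 + N1 * t2) ≤ N2 ^ 2 - N1 ^ 2 := by
    have h3 : 1 ≤ N2 * t1 - N1 * t2 := h1
    nlinarith
  have b1 : N1 < 2 * t1 := by nlinarith
  have b2 : N2 < 2 * t2 := by nlinarith
  have c1 : N1 * N2 < 2 * t1 * N2 := mul_lt_mul_of_pos_right b1 hN2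
  have c2 : N2 * N1 < 2 * t2 * N1 := mul_lt_mul_of_pos_right b2 hN1
  by_contra hcon
  push Not at hcon
  nlinarith [mul_nonneg hN2.le (sub_nonneg.2 hcon)]

lemma sep2 {U1 v1 U2 v2 : ℤ} (hU1 : 0 < U1) (h12 : U1 < U2) (hv1 : 0 < v1) (hv2 : 0 < v2)
    (e1 : U1 ^ 2 + 3 = 7 * v1 ^ 2) (e2 : U2 ^ 2 + 3 = 7 * v2 ^ 2) : 11 * U1 < 5 * U2 := by
  have d : 7 * ((U2 * v1 - U1 * v2) * (U2 * v1 + U1 * v2)) = 3 * (U2 ^ 2 - U1 ^ 2) := by
    linear_combination (-U2 ^ 2) * e1 + U1 ^ 2 * e2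
  have hU2 : 0 < U2 := hU1.trans h12
  have hs : 0 < U2 * v1 + U1 * v2 := by positivity
  have hd : 0 < U2 ^ 2 - U1 ^ 2 := by nlinarith
  have h1 : 0 < U2 * v1 - U1 * v2 := by
    by_contra hcon
    push Not at hcon
    nlinarith
  have h2 : 7 * (U2 * v1 + U1 * v2) ≤ 3 * (U2 ^ 2 - U1 ^ 2) := by
    have h3 : 1 ≤ U2 * v1 - U1 * v2 := h1
    nlinarith
  have b : ∀ U v : ℤ, 0 < U → 0 < v → U ^ 2 + 3 = 7 * v ^ 2 → 377 * U < 1000 * v := by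
    intro U v _ hv e
    have : (377 * U) ^ 2 < (1000 * v) ^ 2 := by nlinarith
    exact lt_of_pow_lt_pow_left₀ 2 (by positivity) this
  have b1 := b U1 v1 hU1 hv1 e1
  have b2 := b U2 v2 hU2 hv2 e2
  have c1 : 377 * U1 * U2 < 1000 * v1 * U2 := mul_lt_mul_of_pos_right b1 hU2
  have c2 : 377 * U2 * U1 < 1000 * v2 * U1 := mul_lt_mul_of_pos_right b2 hU1
  by_contra hcon
  push Not at hcon
  nlinarith [mul_nonneg hU2.le (sub_nonneg.2 hcon), mul_nonneg hU1.le (sub_nonneg.2 hcon),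
    mul_pos hU1 hU1]

lemma first {Z k1 k2 : ℕ} (h1 : Z ≤ 2 * k1 + 1 ∧ 2 * k1 + 1 < 2 * Z ∧ Deg k1)
    (h2 : Z ≤ 2 * k2 + 1 ∧ 2 * k2 + 1 < 2 * Z ∧ Deg k2) (hlt : k1 < k2) : False := by
  obtain ⟨a1, -, t1, e1⟩ := h1
  obtain ⟨-, b2, t2, e2⟩ := h2
  have e1' : (2 * (k1 : ℤ) + 1) ^ 2 + 1 = 2 * (t1 : ℤ) ^ 2 := by exact_mod_cast e1
  have e2' : (2 * (k2 : ℤ) + 1) ^ 2 + 1 = 2 * (t2 : ℤ) ^ 2 := by exact_mod_cast e2
  have hpos : ∀ (N : ℤ) (t : ℕ), N ^ 2 + 1 = 2 * (t : ℤ) ^ 2 → 0 < (t : ℤ) := by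
    intro N t e
    rcases Nat.eq_zero_or_pos t with h | h
    · exfalso
      rw [h] at e
      push_cast at e
      nlinarith [sq_nonneg N]
    · exact_mod_cast h
  have := sep1 (N1 := 2 * (k1 : ℤ) + 1) (N2 := 2 * (k2 : ℤ) + 1) (by positivity) (by omega)
    (hpos _ t1 e1') (hpos _ t2 e2') e1' e2'
  omega

lemma second {Z k1 k2 : ℕ} (h1 : Z ≤ 2 * k1 + 1 ∧ 2 * k1 + 1 < 2 * Z ∧ 1 ≤ k1 ∧
    IsSquare (7 * k1 ^ 2 + 4 * k1 + 1)) (h2 : Z ≤ 2 * k2 + 1 ∧ 2 * k2 + 1 < 2 * Z ∧ 1 ≤ k2 ∧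
    IsSquare (7 * k2 ^ 2 + 4 * k2 + 1)) (hlt : k1 < k2) : False := by
  obtain ⟨a1, -, -, v1, e1⟩ := h1
  obtain ⟨-, b2, -, v2, e2⟩ := h2
  have e1' : 7 * (k1 : ℤ) ^ 2 + 4 * k1 + 1 = (v1 : ℤ) * v1 := by exact_mod_cast e1
  have e2' : 7 * (k2 : ℤ) ^ 2 + 4 * k2 + 1 = (v2 : ℤ) * v2 := by exact_mod_cast e2
  have hpos : ∀ (k v : ℕ), 7 * (k : ℤ) ^ 2 + 4 * k + 1 = (v : ℤ) * v → 0 < (v : ℤ) := by
    intro k v e
    rcases Nat.eq_zero_or_pos v with h | h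
    · exfalso
      rw [h] at e
      push_cast at e
      have : (0 : ℤ) ≤ k := by positivity
      nlinarith [sq_nonneg (k : ℤ)]
    · exact_mod_cast h
  have := sep2 (U1 := 7 * (k1 : ℤ) + 2) (U2 := 7 * (k2 : ℤ) + 2) (by positivity) (by omega)
    (hpos _ v1 e1') (hpos _ v2 e2') (by linear_combination 7 * e1')
    (by linear_combination 7 * e2')
  omega

end FewAux

open FewAux in
theorem t_Few : StmtFew := by
  constructor
  · intro Z T hT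
    have : T.card ≤ 1 := by
      rw [Finset.card_le_one]
      intro a ha b hb
      rcases lt_trichotomy a b with h | h | h
      · exact (first (hT a ha) (hT b hb) h).elim
      · exact h
      · exact (first (hT b hb) (hT a ha) h).elim
    omega
  · intro Z T hT
    have : T.card ≤ 1 := by
      rw [Finset.card_le_one]
      intro a ha b hb
      rcases lt_trichotomy a b with h | h | h
      · exact (second (hT a ha) (hT b hb) h).elim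
      · exact h
      · exact (second (hT b hb) (hT a ha) h).elim
    omega

end Pool.Agent.DKP
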