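import Pool.Agent.DKP.St2

set_option autoImplicit false

open Polynomial

namespace Pool.Agent.DKP

namespace Fixed46

lemma eval_YY (s N : ℤ) (m : ℕ) :
    (YY (C s) X m : ℤ[X]).eval N = YY s N m ∧
      (YY (C s) X (m + 1) : ℤ[X]).eval N = YY s N (m + 1) := by
  induction m with
  | zero => simp [YY]
  | succ m ih =>
    refine ⟨ih.2, ?_⟩
    have h1 : (YY (C s) X (m + 2) : ℤ[X]) = 2 * X * YY (C s) X (m + 1) + YY (C s) X m := rfl
    have h2 : YY s N (m + 2) = 2 * N * YY s N (m + 1) + YY s N m := rfl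
    change (YY (C s) X (m + 2) : ℤ[X]).eval N = YY s N (m + 2)
    rw [h1, h2, eval_add, eval_mul, eval_mul, ih.1, ih.2]
    simp

lemma eval_FF (s N : ℤ) (m : ℕ) : (FF (C s) X m : ℤ[X]).eval N = FF s N m := by
  simp only [FF, eval_add, eval_sub, eval_mul, eval_pow, (eval_YY s N m).1]
  simp

lemma deg_YY (s : ℤ) (m : ℕ) :
    ((YY (C s) X m : ℤ[X]).natDegree ≤ m ∧ (YY (C s) X m : ℤ[X]).coeff m = 2 ^ m) ∧
    ((YY (C s) X (m + 1) : ℤ[X]).natDegree ≤ m + 1 ∧
      (YY (C s) X (m + 1) : ℤ[X]).coeff (m + 1) = 2 ^ (m + 1)) := by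
  induction m with
  | zero =>
    refine ⟨⟨by simp [YY], by simp [YY]⟩, ?_, ?_⟩
    · have h : (YY (C s) X (0 + 1) : ℤ[X]) = C 2 * X + C s := by simp [YY]
      rw [h]
      exact natDegree_linear_le
    · have h : (YY (C s) X (0 + 1) : ℤ[X]) = C 2 * X + C s := by simp [YY]
      rw [h, coeff_add, coeff_C_mul, coeff_X, coeff_C]
      simp
  | succ m ih =>
    refine ⟨ih.2, ?_⟩
    have h1 : (YY (C s) X (m + 1 + 1) : ℤ[X]) =
        C 2 * (X * YY (C s) X (m + 1)) + YY (C s) X m := by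
      have : (YY (C s) X (m + 2) : ℤ[X]) = 2 * X * YY (C s) X (m + 1) + YY (C s) X m := rfl
      rw [show m + 1 + 1 = m + 2 from rfl, this]
      have h2 : (C 2 : ℤ[X]) = 2 := rfl
      rw [h2]; ring
    rw [h1]
    constructor
    · refine (natDegree_add_le _ _).trans (max_le ?_ ?_)
      · refine (natDegree_C_mul_le _ _).trans ?_
        refine (natDegree_mul_le).trans ?_
        have := ih.2.1
        have h3 := natDegree_X_le (R := ℤ)
        omega
      · have := ih.1.1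
        omega
    · rw [coeff_add, coeff_C_mul, coeff_X_mul, ih.2.2,
        coeff_eq_zero_of_natDegree_lt (lt_of_le_of_lt ih.1.1 (by omega))]
      ring

lemma deg_FF (s : ℤ) (m : ℕ) (hm : 2 ≤ m) :
    (FF (C s) X m : ℤ[X]).natDegree = m * 2 ∧ (FF (C s) X m : ℤ[X]) ≠ 0 := by
  obtain ⟨⟨hd, hc⟩, -⟩ := deg_YY s m
  have hQ : ((X - 1 : ℤ[X]) ^ 2).natDegree ≤ 2 := by
    refine (natDegree_pow_le).trans ?_
    have : (X - 1 : ℤ[X]).natDegree ≤ 1 := by
      have := natDegree_X_sub_C_le (1 : ℤ)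
      simpa using this
    omega
  have hle : (FF (C s) X m : ℤ[X]).natDegree ≤ m * 2 := by
    unfold FF
    refine (natDegree_add_le _ _).trans (max_le ?_ ?_)
    · refine (natDegree_sub_le _ _).trans (max_le ?_ ?_)
      · refine (natDegree_mul_le).trans ?_
        have h1 : (2 : ℤ[X]).natDegree = 0 := natDegree_ofNat 2
        have h2 : ((YY (C s) X m : ℤ[X]) ^ 2).natDegree ≤ 2 * m :=
          natDegree_pow_le_of_le 2 hd
        omega
      · omega
    · have h1 : (2 : ℤ[X]).natDegree = 0 := natDegree_ofNat 2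
      omega
  have hcf : (FF (C s) X m : ℤ[X]).coeff (m * 2) = 2 * (2 ^ m) ^ 2 := by
    unfold FF
    rw [coeff_add, coeff_sub]
    have e1 : ((2 : ℤ[X]) * YY (C s) X m ^ 2).coeff (m * 2) = 2 * (2 ^ m) ^ 2 := by
      have : (2 : ℤ[X]) = C 2 := rfl
      rw [this, coeff_C_mul, mul_comm m 2, coeff_pow_of_natDegree_le hd, hc]
    have e2 : ((X - 1 : ℤ[X]) ^ 2).coeff (m * 2) = 0 :=
      coeff_eq_zero_of_natDegree_lt (by omega)
    have e3 : (2 : ℤ[X]).coeff (m * 2) = 0 := by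
      apply coeff_eq_zero_of_natDegree_lt
      have h1 : (2 : ℤ[X]).natDegree = 0 := natDegree_ofNat 2
      omega
    rw [e1, e2, e3]; ring
  have hne : (FF (C s) X m : ℤ[X]).coeff (m * 2) ≠ 0 := by
    rw [hcf]; positivity
  refine ⟨le_antisymm hle (le_natDegree_of_ne_zero hne), ?_⟩
  intro h0
  rw [h0] at hne
  exact hne (by simp)

lemma YY_two (s : ℤ) : (YY (C s) X 2 : ℤ[X]) = C 4 * X ^ 2 + C (2 * s) * X + C 1 := by
  have h : (YY (C s) X 2 : ℤ[X]) = 2 * X * (2 * X + C s) + 1 := rfl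
  rw [h]
  simp only [C_mul, C_1]
  have h4 : (C 4 : ℤ[X]) = 4 := rfl
  have h2 : (C 2 : ℤ[X]) = 2 := rfl
  rw [h4, h2]
  ring

lemma quad (a b c a' b' c' : ℂ)
    (h : (C a * X ^ 2 + C b * X + C c : ℂ[X]) = C a' * X ^ 2 + C b' * X + C c') :
    a = a' ∧ b = b' := by
  have c2 := congrArg (fun p : ℂ[X] => p.coeff 2) h
  have c1 := congrArg (fun p : ℂ[X] => p.coeff 1) h
  simp only [coeff_add, coeff_C_mul, coeff_X_pow, coeff_X, coeff_C] at c2 c1
  norm_num at c2 c1
  exact ⟨c2, c1⟩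

lemma key (s : ℤ) (r e : ℂ) (hs : s ≠ -4) (A : ℂ[X])
    (hAB : A * C e = (X - 1) ^ 2 - 2)
    (hsum : A + C e = C (2 * r) * (C 4 * X ^ 2 + C (2 * (s : ℂ)) * X + C 1)) : False := by
  have h1 : C e * (A + C e) = (X - 1) ^ 2 - 2 + C (e ^ 2) := by
    rw [← hAB, C_pow]; ring
  rw [hsum] at h1
  have hL : C e * (C (2 * r) * (C 4 * X ^ 2 + C (2 * (s : ℂ)) * X + C 1)) =
      C (e * (2 * r) * 4) * X ^ 2 + C (e * (2 * r) * (2 * s)) * X + C (e * (2 * r)) := by
    simp only [C_mul, C_1]; ring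
  have hR : ((X - 1) ^ 2 - 2 + C (e ^ 2) : ℂ[X]) = C 1 * X ^ 2 + C (-2) * X + C (e ^ 2 - 1) := by
    simp only [C_sub, C_neg, C_1]
    have h2 : (C 2 : ℂ[X]) = 2 := rfl
    rw [h2]; ring
  rw [hL, hR] at h1
  obtain ⟨c2, c1⟩ := quad _ _ _ _ _ _ h1
  have hc : (2 : ℂ) * s = -8 := by
    have : e * (2 * r) * (2 * s) * 4 = -8 := by rw [c1]; norm_num
    calc (2 : ℂ) * s = (e * (2 * r) * 4) * (2 * s) := by rw [c2]; ring
      _ = e * (2 * r) * (2 * s) * 4 := by ring
      _ = -8 := this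
  have : (s : ℂ) = ((-4 : ℤ) : ℂ) := by
    push_cast
    linear_combination hc / 2
  exact hs (by exact_mod_cast this)

lemma not_sq (s : ℤ) (m : ℕ) (hm : 2 ≤ m) (hs : s ≠ -4) :
    ¬ ∃ (c : ℂ) (G : ℂ[X]), (FF (C s) X m : ℤ[X]).map (algebraMap ℤ ℂ) = C c * G ^ 2 := by
  rintro ⟨c, G, hG⟩
  obtain ⟨γ, hγ⟩ : ∃ γ : ℂ, γ ^ 2 = c := ⟨_, Complex.cpow_nat_inv_pow c (two_ne_zero)⟩
  obtain ⟨r, hr⟩ : ∃ r : ℂ, r ^ 2 = 2 := ⟨_, Complex.cpow_nat_inv_pow 2 (two_ne_zero)⟩
  obtain ⟨⟨hd, hc⟩, -⟩ := deg_YY s m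
  set W : ℂ[X] := (YY (C s) X m : ℤ[X]).map (algebraMap ℤ ℂ) with hW
  have hF : (FF (C s) X m : ℤ[X]).map (algebraMap ℤ ℂ) = 2 * W ^ 2 - (X - 1) ^ 2 + 2 := by
    unfold FF
    simp [hW]
  rw [hF] at hG
  have hrr : (C r * C r : ℂ[X]) = 2 := by
    rw [← C_mul, ← pow_two, hr]; rfl
  have hAB : (C r * W - C γ * G) * (C r * W + C γ * G) = (X - 1) ^ 2 - 2 := by
    have h1 : (C γ * C γ : ℂ[X]) = C c := by rw [← C_mul, ← pow_two, hγ]
    calc (C r * W - C γ * G) * (C r * W + C γ * G)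
        = (C r * C r) * W ^ 2 - (C γ * C γ) * G ^ 2 := by ring
      _ = 2 * W ^ 2 - C c * G ^ 2 := by rw [hrr, h1]
      _ = (X - 1) ^ 2 - 2 := by rw [← hG]; ring
  have hsum : (C r * W - C γ * G) + (C r * W + C γ * G) = C (2 * r) * W := by
    have : (C (2 * r) : ℂ[X]) = 2 * C r := by rw [C_mul]; rfl
    rw [this]; ring
  generalize C r * W - C γ * G = A at hAB hsum
  generalize C r * W + C γ * G = B at hAB hsum
  have hr0 : r ≠ 0 := by
    intro h; rw [h] at hr; norm_num at hr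
  have hWm : W.natDegree = m := by
    rw [hW, natDegree_map_eq_of_injective (RingHom.injective_int (algebraMap ℤ ℂ))]
    exact le_antisymm hd (le_natDegree_of_ne_zero (by rw [hc]; positivity))
  have hPd : ((X - 1) ^ 2 - 2 : ℂ[X]) = C 1 * X ^ 2 + C (-2) * X + C (-1) := by
    simp only [C_neg, C_1]
    have h2 : (C 2 : ℂ[X]) = 2 := rfl
    rw [h2]; ring
  have hPdeg : ((X - 1) ^ 2 - 2 : ℂ[X]).natDegree = 2 := by
    rw [hPd]; exact natDegree_quadratic one_ne_zero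
  have hP0 : ((X - 1) ^ 2 - 2 : ℂ[X]) ≠ 0 := by
    intro h; rw [h] at hPdeg; simp at hPdeg
  have hA0 : A ≠ 0 := by rintro rfl; exact hP0 (by rw [← hAB]; simp)
  have hB0 : B ≠ 0 := by rintro rfl; exact hP0 (by rw [← hAB]; simp)
  have hdeg : A.natDegree + B.natDegree = 2 := by
    rw [← natDegree_mul hA0 hB0, hAB, hPdeg]
  have hms : m ≤ max A.natDegree B.natDegree := by
    have h1 : (C (2 * r) * W).natDegree = m := by
      rw [natDegree_C_mul (mul_ne_zero two_ne_zero hr0), hWm]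
    rw [← h1, ← hsum]
    exact natDegree_add_le _ _
  have hm2 : m = 2 := by
    rcases le_total A.natDegree B.natDegree with h | h
    · rw [max_eq_right h] at hms; omega
    · rw [max_eq_left h] at hms; omega
  subst hm2
  have hW2 : W = C 4 * X ^ 2 + C (2 * (s : ℂ)) * X + C 1 := by
    have h4 : (C 4 : ℂ[X]) = 4 := rfl
    have h2 : (C 2 : ℂ[X]) = 2 := rfl
    have h3 : (C (2 * (s : ℂ)) : ℂ[X]) = 2 * (s : ℂ[X]) := by
      rw [C_mul, h2]
      simp
    rw [hW, YY_two, h4, h3]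
    simp
  rw [hW2] at hsum
  rcases le_total A.natDegree B.natDegree with h | h
  · rw [max_eq_right h] at hms
    have hA : A.natDegree = 0 := by omega
    obtain ⟨e, rfl⟩ : ∃ e, A = C e := ⟨_, eq_C_of_natDegree_eq_zero hA⟩
    exact key s r e hs B (by rw [← hAB]; ring) (by rw [← hsum]; ring)
  · rw [max_eq_left h] at hms
    have hB : B.natDegree = 0 := by omega
    obtain ⟨e, rfl⟩ : ∃ e, B = C e := ⟨_, eq_C_of_natDegree_eq_zero hB⟩
    exact key s r e hs A hAB hsum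

end Fixed46

open Fixed46 in
theorem t_Fixed : StmtHyp → StmtFixed := by
  intro hyp s m ε hm hε
  by_cases hs : s = 1 ∨ s = -1
  · have hs4 : s ≠ -4 := by rcases hs with rfl | rfl <;> norm_num
    obtain ⟨hdeg, hne⟩ := deg_FF s m hm
    obtain ⟨C0, hC0, hC⟩ := hyp (FF (C s) X m) ε hne (by rw [hdeg]; exact Even.mul_left even_two m)
      (not_sq s m hm hs4) hε
    refine ⟨C0 * 3 ^ ε, by positivity, ?_⟩
    intro X T hX hT
    have hinj : Function.Injective (fun k : ℕ => (2 * (k : ℤ) + 1)) := by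
      intro a b hab
      simp only at hab
      omega
    have h := hC (3 * X) (T.image (fun k : ℕ => (2 * (k : ℤ) + 1))) (by omega) (by
      intro N hN
      rw [Finset.mem_image] at hN
      obtain ⟨k, hk, rfl⟩ := hN
      obtain ⟨hkX, x, hx⟩ := hT k hk
      constructor
      · rw [abs_of_nonneg (by positivity)]
        push_cast
        omega
      · refine ⟨2 * x, ?_⟩
        rw [eval_FF]
        have h1 := hx.heq
        unfold FF
        linear_combination 2 * h1)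
    rw [Finset.card_image_of_injective _ hinj] at h
    refine h.trans (le_of_eq ?_)
    push_cast
    rw [Real.mul_rpow (by norm_num) (by positivity)]
    ring
  · refine ⟨1, one_pos, ?_⟩
    intro X T hX hT
    have hT0 : T = ∅ := by
      rw [Finset.eq_empty_iff_forall_notMem]
      intro k hk
      obtain ⟨-, x, hx⟩ := hT k hk
      rcases hx.hs with h | h
      · exact hs (Or.inl h.1)
      · exact hs (Or.inr h.1)
    rw [hT0]
    simp only [Finset.card_empty, Nat.cast_zero]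
    positivity

end Pool.Agent.DKP
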