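import Pool.Agent.DKP.St2

/-!
# MP_a79b85_nt: `StmtFld`

One number field in which `N - θ₁` and `N - θ₂` are squares for all `N` with `F(N)` a nonzero square.
-/

set_option autoImplicit false

open NumberField IsDedekindDomain Polynomial

namespace Pool.Agent.DKP

namespace FldAux

/-- Two distinct complex roots of odd multiplicity. -/
lemma two_roots (P : ℂ[X]) (he : Even P.natDegree)
    (hns : ¬ ∃ (c : ℂ) (G : ℂ[X]), P = C c * G ^ 2) :
    ∃ a b : ℂ, a ≠ b ∧ Odd (P.rootMultiplicity a) ∧ Odd (P.rootMultiplicity b) := by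
  classical
  have hsp : P = C P.leadingCoeff * (P.roots.map (fun a => X - C a)).prod :=
    (IsAlgClosed.splits P).eq_prod_roots
  have hcard : P.roots.card = P.natDegree := (IsAlgClosed.splits P).natDegree_eq_card_roots.symm
  have hsum : ∑ a ∈ P.roots.toFinset, P.roots.count a = P.roots.card :=
    Multiset.toFinset_sum_count_eq _
  rw [hcard] at hsum
  rw [← hsum, Finset.even_sum_iff_even_card_odd] at he
  set T : Finset ℂ := P.roots.toFinset.filter (fun x => Odd (P.roots.count x)) with hT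
  have hT0 : T.card ≠ 0 := by
    intro h0
    apply hns
    refine ⟨P.leadingCoeff, ∏ m ∈ P.roots.toFinset, (X - C m) ^ (P.roots.count m / 2), ?_⟩
    rw [← Finset.prod_pow]
    conv_lhs => rw [hsp, Finset.prod_multiset_map_count]
    congr 1
    refine Finset.prod_congr rfl fun m hm => ?_
    rw [← pow_mul]
    congr 1
    have hev : ¬ Odd (P.roots.count m) := by
      intro ho
      have : m ∈ T := by
        rw [hT, Finset.mem_filter]
        exact ⟨hm, ho⟩
      rw [Finset.card_eq_zero] at h0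
      rw [h0] at this
      exact absurd this (Finset.notMem_empty _)
    rw [Nat.not_odd_iff_even] at hev
    exact (Nat.div_mul_cancel hev.two_dvd).symm
  have hT1 : 1 < T.card := by
    obtain ⟨k, hk⟩ := he
    omega
  obtain ⟨a, ha, b, hb, hab⟩ := Finset.one_lt_card.1 hT1
  rw [hT, Finset.mem_filter, Polynomial.count_roots] at ha hb
  exact ⟨a, b, hab, ha.2, hb.2⟩

/-- The selector set at one root. -/
lemma sel_one (hSel : StmtSel) (hPar : StmtPar) (K : Type) [Field K] [NumberField K]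
    (F : ℤ[X]) (hF : F ≠ 0) (θ : K)
    (ho : Odd ((F.map (algebraMap ℤ K)).rootMultiplicity θ)) :
    ∃ Γ : Finset K, ∀ N : ℤ, IsSquare (F.eval N) → F.eval N ≠ 0 →
      ∃ γ ∈ Γ, ∃ y : K, (N : K) - θ = γ * y ^ 2 := by
  have hinj : Function.Injective (algebraMap ℤ K) := (algebraMap ℤ K).injective_int
  have hP : F.map (algebraMap ℤ K) ≠ 0 := (Polynomial.map_ne_zero_iff hinj).2 hF
  obtain ⟨G, hG, hnd⟩ :=
    Polynomial.exists_eq_pow_rootMultiplicity_mul_and_not_dvd (F.map (algebraMap ℤ K)) hP θ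
  have hG0 : G.eval θ ≠ 0 := by
    intro h
    exact hnd (Polynomial.dvd_iff_isRoot.2 h)
  obtain ⟨d, hd, hv⟩ := hPar K F θ _ G ho hG hG0
  obtain ⟨Γ, -, hΓ⟩ := hSel K d hd
  refine ⟨Γ, fun N hN hN0 => ?_⟩
  refine hΓ _ ?_ (hv N hN hN0)
  intro h
  apply hN0
  have hNθ : (algebraMap ℤ K) N = θ := by
    have := sub_eq_zero.1 h
    simpa using this
  have hroot : (F.map (algebraMap ℤ K)).eval θ = 0 := by
    have h1 : 0 < (F.map (algebraMap ℤ K)).rootMultiplicity θ := ho.pos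
    exact (Polynomial.rootMultiplicity_pos hP).1 h1
  rw [← hNθ, Polynomial.eval_map_algebraMap, Polynomial.aeval_algebraMap_apply] at hroot
  have h2 : (algebraMap ℤ K) (F.eval N) = (algebraMap ℤ K) 0 := by
    rw [map_zero, ← hroot]
    simp
  exact hinj h2

end FldAux

open FldAux

theorem t_Fld : StmtSel → StmtPar → StmtFld := by
  intro hSel hPar F hF hev hns
  classical
  have hinjC : Function.Injective (algebraMap ℤ ℂ) := (algebraMap ℤ ℂ).injective_int
  have hPC : F.map (algebraMap ℤ ℂ) ≠ 0 := (Polynomial.map_ne_zero_iff hinjC).2 hF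
  have hevC : Even (F.map (algebraMap ℤ ℂ)).natDegree := by
    rw [Polynomial.natDegree_map_eq_of_injective hinjC]
    exact hev
  obtain ⟨a, b, hab, hoa, hob⟩ := two_roots _ hevC hns
  have halg : ∀ x : ℂ, Odd ((F.map (algebraMap ℤ ℂ)).rootMultiplicity x) → IsIntegral ℚ x := by
    intro x hx
    have hroot : (F.map (algebraMap ℤ ℂ)).eval x = 0 :=
      (Polynomial.rootMultiplicity_pos hPC).1 hx.pos
    rw [Polynomial.eval_map_algebraMap] at hroot
    have hinjQ : Function.Injective (algebraMap ℤ ℚ) := (algebraMap ℤ ℚ).injective_int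
    have h2 : IsAlgebraic ℚ x := by
      refine ⟨F.map (algebraMap ℤ ℚ), (Polynomial.map_ne_zero_iff hinjQ).2 hF, ?_⟩
      rw [Polynomial.aeval_map_algebraMap]
      exact hroot
    exact h2.isIntegral
  have hIa := halg a hoa
  have hIb := halg b hob
  -- the first field
  let S₀ : Set ℂ := {a, b}
  have hS₀ : ∀ x ∈ S₀, IsIntegral ℚ x := by
    intro x hx
    rcases hx with rfl | hx
    · exact hIa
    · rw [Set.mem_singleton_iff] at hx
      rw [hx]; exact hIb
  let K₀ : IntermediateField ℚ ℂ := IntermediateField.adjoin ℚ S₀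
  have : Finite S₀ := by
    have : S₀.Finite := by simp [S₀]
    exact this.to_subtype
  have hfd₀ : FiniteDimensional ℚ K₀ := IntermediateField.finiteDimensional_adjoin hS₀
  have hnf₀ : NumberField K₀ := { to_charZero := inferInstance, to_finiteDimensional := hfd₀ }
  have ha₀ : a ∈ K₀ := IntermediateField.subset_adjoin ℚ S₀ (by simp [S₀])
  have hb₀ : b ∈ K₀ := IntermediateField.subset_adjoin ℚ S₀ (by simp [S₀])
  have hmul : ∀ x : K₀, (F.map (algebraMap ℤ K₀)).rootMultiplicity x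
      = (F.map (algebraMap ℤ ℂ)).rootMultiplicity (x : ℂ) := by
    intro x
    rw [Polynomial.eq_rootMultiplicity_map (f := algebraMap K₀ ℂ)
      (algebraMap K₀ ℂ).injective x, Polynomial.map_map]
    rfl
  obtain ⟨Γ₁, hΓ₁⟩ := sel_one hSel hPar K₀ F hF ⟨a, ha₀⟩ (by rw [hmul]; exact hoa)
  obtain ⟨Γ₂, hΓ₂⟩ := sel_one hSel hPar K₀ F hF ⟨b, hb₀⟩ (by rw [hmul]; exact hob)
  -- square roots
  have hsq : ∀ x : ℂ, ∃ z : ℂ, z ^ 2 = x := fun x => IsAlgClosed.exists_pow_nat_eq x two_pos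
  choose s hs using hsq
  let S : Set ℂ := S₀ ∪ ((fun γ : K₀ => s (γ : ℂ)) '' ((Γ₁ ∪ Γ₂ : Finset K₀) : Set K₀))
  have hSfin : S.Finite := by
    refine Set.Finite.union (Set.toFinite S₀) ?_
    exact ((Γ₁ ∪ Γ₂ : Finset K₀).finite_toSet).image _
  have : Finite S := hSfin.to_subtype
  have hSI : ∀ x ∈ S, IsIntegral ℚ x := by
    intro x hx
    rcases hx with hx | ⟨γ, -, rfl⟩
    · exact hS₀ x hx
    · refine IsIntegral.of_pow two_pos ?_
      show IsIntegral ℚ (s (γ : ℂ) ^ 2)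
      rw [hs]
      have h1 : IsIntegral ℚ γ := IsIntegral.of_finite ℚ γ
      exact h1.map (IsScalarTower.toAlgHom ℚ K₀ ℂ)
  let K : IntermediateField ℚ ℂ := IntermediateField.adjoin ℚ S
  have hfd : FiniteDimensional ℚ K := IntermediateField.finiteDimensional_adjoin hSI
  have hnf : NumberField K := { to_charZero := inferInstance, to_finiteDimensional := hfd }
  have hle : K₀ ≤ K := IntermediateField.adjoin.mono ℚ S₀ S Set.subset_union_left
  have hsK : ∀ γ : K₀, γ ∈ Γ₁ ∪ Γ₂ → s (γ : ℂ) ∈ K := by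
    intro γ hγ
    refine IntermediateField.subset_adjoin ℚ S (Or.inr ⟨γ, ?_, rfl⟩)
    exact_mod_cast hγ
  have key : ∀ (N : ℤ) (x : ℂ) (hx : x ∈ K₀) (γ y : K₀), γ ∈ Γ₁ ∪ Γ₂ →
      ((N : K₀) - ⟨x, hx⟩ = γ * y ^ 2) → IsSquare ((N : K) - ⟨x, hle hx⟩) := by
    intro N x hx γ y hγ h
    refine ⟨⟨s (γ : ℂ) * (y : ℂ), K.mul_mem (hsK γ hγ) (hle y.2)⟩, ?_⟩
    apply Subtype.ext
    have h1 : (N : ℂ) - x = (γ : ℂ) * (y : ℂ) ^ 2 := by
      have := congrArg (fun z : K₀ => (z : ℂ)) h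
      simpa using this
    show (((N : K) - ⟨x, hle hx⟩ : K) : ℂ) = s (γ : ℂ) * (y : ℂ) * (s (γ : ℂ) * (y : ℂ))
    have h2 : (((N : K) - ⟨x, hle hx⟩ : K) : ℂ) = (N : ℂ) - x := by
      simp
    rw [h2, h1]
    have h3 := hs (γ : ℂ)
    linear_combination (-(y : ℂ) ^ 2) * h3
  refine ⟨K, inferInstance, hnf, ⟨a, hle ha₀⟩, ⟨b, hle hb₀⟩, ?_, ?_⟩
  · intro h
    exact hab (congrArg (fun z : K => (z : ℂ)) h)
  · intro N hN hN0
    obtain ⟨γ, hγ, y, hy⟩ := hΓ₁ N hN hN0
    obtain ⟨γ', hγ', y', hy'⟩ := hΓ₂ N hN hN0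
    exact ⟨key N a ha₀ γ y (Finset.mem_union_left _ hγ) hy,
      key N b hb₀ γ' y' (Finset.mem_union_right _ hγ') hy'⟩

end Pool.Agent.DKP
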