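import Pool.Agent.DKP.St

set_option autoImplicit false

open Finset

namespace Pool.Agent.DKP

namespace GAux

lemma YY_pos {s N : ℤ} (hs : -1 ≤ s) (hN : 1 ≤ N) (m : ℕ) :
    0 < YY s N m ∧ 0 < YY s N (m + 1) := by
  induction m with
  | zero =>
    constructor
    · simp [YY]
    · simp only [YY]; linarith
  | succ m ih =>
    refine ⟨ih.2, ?_⟩
    show 0 < 2 * N * YY s N (m + 1) + YY s N m
    have := mul_pos (by linarith : (0 : ℤ) < 2 * N) ih.2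
    linarith [ih.1]

lemma unit_pow (n : ℕ) (c d : ℤ) :
    ∃ a b : ℤ, ((c : ℝ) + d * √2) * (3 - 2 * √2) ^ n = a + b * √2 := by
  induction n generalizing c d with
  | zero => exact ⟨c, d, by simp⟩
  | succ n ih =>
    obtain ⟨a, b, h⟩ := ih (3 * c - 4 * d) (3 * d - 2 * c)
    refine ⟨a, b, ?_⟩
    rw [← h, pow_succ']
    push_cast
    have h2 : √2 * √2 = (2 : ℝ) := Real.mul_self_sqrt (by norm_num)
    have : ((c : ℝ) + d * √2) * (3 - 2 * √2) = (3 * c - 4 * d) + (3 * d - 2 * c) * √2 := by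
      linear_combination (-2 * (d : ℝ)) * h2
    rw [← mul_assoc, this]

end GAux

theorem t_G : StmtG := by
  intro k s m x hS
  have h2 : √2 * √2 = (2 : ℝ) := Real.mul_self_sqrt (by norm_num)
  have hs0 : (0 : ℝ) < √2 := Real.sqrt_pos.2 (by norm_num)
  have hsm : -1 ≤ s := by
    rcases hS.hs with ⟨h, -⟩ | ⟨h, -⟩ <;> rw [h] <;> norm_num
  have hyZ : 0 < YY s (2 * (k : ℤ) + 1) m := (GAux.YY_pos hsm (by omega) m).1
  set y : ℤ := YY s (2 * (k : ℤ) + 1) m with hy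
  have hyR : (0 : ℝ) < (y : ℝ) := by exact_mod_cast hyZ
  have hk1 : (1 : ℝ) ≤ (k : ℝ) := by exact_mod_cast hS.hk
  have heq : (y : ℝ) ^ 2 - 2 * (x : ℝ) ^ 2 = 2 * (k : ℝ) ^ 2 - 1 := by
    have := hS.heq
    rw [← hy] at this
    exact_mod_cast congrArg (fun z : ℤ => (z : ℝ)) this
  set P : ℝ := 2 * (k : ℝ) ^ 2 - 1 with hP
  have hP1 : 1 ≤ P := by rw [hP]; nlinarith
  set ξ : ℝ := (y : ℝ) + x * √2 with hξ
  have hx0 : (0 : ℝ) ≤ (x : ℝ) := Nat.cast_nonneg x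
  have hξpos : 0 < ξ := by rw [hξ]; positivity
  have hξ2 : P ≤ ξ ^ 2 := by
    rw [hξ]
    have e : ((y : ℝ) + x * √2) ^ 2 = P + 2 * y * (x * √2) + 4 * (x : ℝ) ^ 2 := by
      rw [← heq]; linear_combination (x : ℝ) ^ 2 * h2
    rw [e]
    have : 0 ≤ 2 * (y : ℝ) * (x * √2) := by positivity
    nlinarith [sq_nonneg (x : ℝ)]
  have hsP : 0 < √P := Real.sqrt_pos.2 (by linarith)
  have hle : √P ≤ ξ := by
    rw [← Real.sqrt_sq hξpos.le]
    exact Real.sqrt_le_sqrt hξ2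
  have hε : (1 : ℝ) < 3 + 2 * √2 := by linarith
  obtain ⟨n, hn1, hn2⟩ := exists_nat_pow_near (x := ξ / √P) (y := 3 + 2 * √2)
    ((one_le_div hsP).2 hle) hε
  obtain ⟨a, b, hab⟩ := GAux.unit_pow n y x
  have hinv : ((3 : ℝ) - 2 * √2) ^ n * (3 + 2 * √2) ^ n = 1 := by
    rw [← mul_pow]
    have : ((3 : ℝ) - 2 * √2) * (3 + 2 * √2) = 1 := by linear_combination (-4) * h2
    rw [this, one_pow]
  have hlab : ξ = ((a : ℝ) + b * √2) * (3 + 2 * √2) ^ n := by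
    rw [← hab]
    push_cast
    rw [mul_assoc, hinv, mul_one]
  have hεn : 0 < (3 + 2 * √2) ^ n := by positivity
  have hval : (a : ℝ) + b * √2 = ξ / (3 + 2 * √2) ^ n := by
    rw [hlab, mul_div_assoc, div_self hεn.ne', mul_one]
  refine ⟨n, a, b, ?_, ?_, ?_⟩
  · exact hlab
  · rw [hval, le_div_iff₀ hεn]
    rw [le_div_iff₀ hsP] at hn1
    linarith
  · rw [hval, div_lt_iff₀ hεn]
    rw [div_lt_iff₀ hsP, pow_succ] at hn2
    linarith

end Pool.Agent.DKP
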