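import Pool.Agent.DKP.St2

/-!
# Module Hyp: few integral points on `y² = F(N)`
-/

set_option autoImplicit false

open NumberField IsDedekindDomain Polynomial

namespace Pool.Agent.DKP

namespace HypAux

theorem exists_mult (K : Type) [Field K] [NumberField K] (θ₁ θ₂ : K) :
    ∃ a : ℤ, a ≠ 0 ∧ IsIntegral ℤ ((a : K) * θ₁) ∧ IsIntegral ℤ ((a : K) * θ₂) := by
  classical
  obtain ⟨y, hy, h⟩ := exists_integral_multiples ℤ ℚ ({θ₁, θ₂} : Finset K)
  refine ⟨y, hy, ?_, ?_⟩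
  · have := h θ₁ (by simp)
    rwa [zsmul_eq_mul] at this
  · have := h θ₂ (by simp)
    rwa [zsmul_eq_mul] at this

theorem integral_of {K : Type} [Field K] [NumberField K] (a : ℤ) (θ δ : K) (N : ℤ)
    (h : IsIntegral ℤ ((a : K) * θ)) (hδ : (N : K) - θ = δ * δ) : IsIntegral ℤ ((a : K) * δ) := by
  apply IsIntegral.of_pow (n := 2) (by norm_num)
  have e : ((a : K) * δ) ^ 2 = (a : K) * ((a : K) * (N : K)) - (a : K) * ((a : K) * θ) := by
    have : ((a : K) * δ) ^ 2 = (a : K) ^ 2 * (δ * δ) := by ring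
    rw [this, ← hδ]
    ring
  rw [e]
  have hi : ∀ b : ℤ, IsIntegral ℤ (b : K) := fun b => by
    have := isIntegral_algebraMap (R := ℤ) (A := K) (x := b)
    simpa using this
  exact ((hi a).mul ((hi a).mul (hi N))).sub ((hi a).mul h)

theorem norm_delta {K : Type} [Field K] [NumberField K] (θ δ : K) (N : ℤ) (X : ℕ) (M : ℝ)
    (hX : 1 ≤ X) (hN : |N| ≤ X) (hδ : (N : K) - θ = δ * δ) (σ : K →+* ℂ) (hM : ‖σ θ‖ ≤ M) :
    ‖σ δ‖ ≤ Real.sqrt (1 + M) * Real.sqrt X := by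
  have hM0 : 0 ≤ M := (norm_nonneg _).trans hM
  have hX1 : (1 : ℝ) ≤ X := by exact_mod_cast hX
  have h1 : ‖σ δ‖ ^ 2 = ‖(N : ℂ) - σ θ‖ := by
    rw [← norm_pow, sq, ← map_mul, ← hδ, map_sub, map_intCast]
  have h2 : ‖(N : ℂ) - σ θ‖ ≤ (1 + M) * X := by
    have h3 : ‖(N : ℂ)‖ ≤ X := by
      rw [Complex.norm_intCast]
      exact_mod_cast hN
    calc ‖(N : ℂ) - σ θ‖ ≤ ‖(N : ℂ)‖ + ‖σ θ‖ := norm_sub_le _ _
      _ ≤ X + M := add_le_add h3 hM
      _ ≤ (1 + M) * X := by nlinarith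
  rw [← Real.sqrt_mul (by linarith)]
  apply Real.le_sqrt_of_sq_le
  rw [h1]
  exact h2

end HypAux

open HypAux in
theorem t_Hyp : StmtFld → StmtDvc → StmtHyp := by
  classical
  intro hFld hDvc F ε hF hev hns hε
  obtain ⟨K, iK, iN, θ₁, θ₂, hne, hsq⟩ := hFld F hF hev hns
  obtain ⟨a, ha, ha1, ha2⟩ := exists_mult K θ₁ θ₂
  have haK : (a : K) ≠ 0 := by exact_mod_cast ha
  -- the bound for the conjugates
  obtain ⟨M, hM1, hM2⟩ : ∃ M : ℝ, (∀ σ : K →+* ℂ, ‖σ θ₁‖ ≤ M) ∧ ∀ σ : K →+* ℂ, ‖σ θ₂‖ ≤ M := by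
    refine ⟨∑ σ : K →+* ℂ, (‖σ θ₁‖ + ‖σ θ₂‖), fun σ => ?_, fun σ => ?_⟩
    · have := Finset.single_le_sum (f := fun σ : K →+* ℂ => ‖σ θ₁‖ + ‖σ θ₂‖)
        (fun i _ => by positivity) (Finset.mem_univ σ)
      have h2 := norm_nonneg (σ θ₂)
      linarith
    · have := Finset.single_le_sum (f := fun σ : K →+* ℂ => ‖σ θ₁‖ + ‖σ θ₂‖)
        (fun i _ => by positivity) (Finset.mem_univ σ)
      have h2 := norm_nonneg (σ θ₁)
      linarith
  have hM0 : 0 ≤ M := by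
    obtain ⟨σ⟩ : Nonempty (K →+* ℂ) := inferInstance
    exact (norm_nonneg _).trans (hM1 σ)
  -- the fixed element
  have hκi : IsIntegral ℤ ((a : K) * ((a : K) * θ₂) - (a : K) * ((a : K) * θ₁)) := by
    have hi : IsIntegral ℤ (a : K) := by
      have := isIntegral_algebraMap (R := ℤ) (A := K) (x := a)
      simpa using this
    exact (hi.mul ha2).sub (hi.mul ha1)
  set κ : 𝓞 K := ⟨(a : K) * ((a : K) * θ₂) - (a : K) * ((a : K) * θ₁), hκi⟩ with hκdef
  have hκK : (κ : K) = (a : K) ^ 2 * (θ₂ - θ₁) := by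
    show (a : K) * ((a : K) * θ₂) - (a : K) * ((a : K) * θ₁) = _
    ring
  have hκ : κ ≠ 0 := by
    intro h
    have h2 : (κ : K) = 0 := by rw [h]; rfl
    rw [hκK] at h2
    rcases mul_eq_zero.1 h2 with h3 | h3
    · exact haK (pow_eq_zero_iff (by norm_num) |>.1 h3)
    · exact hne (sub_eq_zero.1 h3).symm
  obtain ⟨C₁, hC₁, hD⟩ := hDvc K κ (2 * ε) hκ (by linarith)
  -- constants
  set c : ℝ := 2 * (|(a : ℝ)| + 1) * Real.sqrt (1 + M) with hc
  have hs1 : 1 ≤ Real.sqrt (1 + M) := by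
    rw [Real.one_le_sqrt]
    linarith
  have hc1 : 1 ≤ c := by
    have : 0 ≤ |(a : ℝ)| := abs_nonneg _
    rw [hc]
    nlinarith
  refine ⟨(F.natDegree : ℝ) + C₁ * c ^ (2 * ε), by positivity, ?_⟩
  intro X T hX hT
  have hX1 : (1 : ℝ) ≤ X := by exact_mod_cast hX
  have hXε : 1 ≤ (X : ℝ) ^ ε := Real.one_le_rpow hX1 hε.le
  rw [← Finset.card_filter_add_card_filter_not (s := T) (fun N => F.eval N = 0)]
  push_cast
  -- the zeros
  have hz : ((T.filter fun N => F.eval N = 0).card : ℝ) ≤ F.natDegree := by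
    have h1 : (T.filter fun N => F.eval N = 0) ⊆ F.roots.toFinset := by
      intro N hN
      rw [Finset.mem_filter] at hN
      rw [Multiset.mem_toFinset, Polynomial.mem_roots hF]
      exact hN.2
    have h2 := (Finset.card_le_card h1).trans (Multiset.toFinset_card_le _)
    exact_mod_cast h2.trans (Polynomial.card_roots' F)
  -- the other ones
  set T' := T.filter fun N => ¬ F.eval N = 0 with hT'
  have hex : ∀ N : ℤ, ∃ p : 𝓞 K × 𝓞 K × K, N ∈ T' →
      (N : K) - θ₁ = p.2.2 * p.2.2 ∧ (p.1 : K) * (p.2.1 : K) = (κ : K) ∧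
      (p.1 : K) + (p.2.1 : K) = 2 * ((a : K) * p.2.2) ∧
      ∀ σ : K →+* ℂ, ‖σ (p.1 : K)‖ ≤ c * Real.sqrt X := by
    intro N
    by_cases hN : N ∈ T'
    · rw [hT', Finset.mem_filter] at hN
      obtain ⟨hNT, hN0⟩ := hN
      obtain ⟨hNX, hNs⟩ := hT N hNT
      obtain ⟨⟨δ₁, h1⟩, ⟨δ₂, h2⟩⟩ := hsq N hNs hN0
      have hi1 := integral_of a θ₁ δ₁ N ha1 h1
      have hi2 := integral_of a θ₂ δ₂ N ha2 h2
      refine ⟨(⟨(a : K) * δ₁ + (a : K) * δ₂, hi1.add hi2⟩,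
        ⟨(a : K) * δ₁ - (a : K) * δ₂, hi1.sub hi2⟩, δ₁), fun _ => ⟨h1, ?_, ?_, ?_⟩⟩
      · show ((a : K) * δ₁ + (a : K) * δ₂) * ((a : K) * δ₁ - (a : K) * δ₂) = (κ : K)
        rw [hκK]
        have : ((a : K) * δ₁ + (a : K) * δ₂) * ((a : K) * δ₁ - (a : K) * δ₂) =
            (a : K) ^ 2 * (δ₁ * δ₁ - δ₂ * δ₂) := by ring
        rw [this, ← h1, ← h2]
        ring
      · show ((a : K) * δ₁ + (a : K) * δ₂) + ((a : K) * δ₁ - (a : K) * δ₂) = _
        ring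
      · intro σ
        show ‖σ ((a : K) * δ₁ + (a : K) * δ₂)‖ ≤ _
        have e1 := norm_delta θ₁ δ₁ N X M hX hNX h1 σ (hM1 σ)
        have e2 := norm_delta θ₂ δ₂ N X M hX hNX h2 σ (hM2 σ)
        have e3 : σ ((a : K) * δ₁ + (a : K) * δ₂) = (a : ℂ) * (σ δ₁ + σ δ₂) := by
          rw [map_add, map_mul, map_mul, map_intCast]
          ring
        rw [e3, norm_mul, Complex.norm_intCast]
        have e4 : ‖σ δ₁ + σ δ₂‖ ≤ 2 * (Real.sqrt (1 + M) * Real.sqrt X) :=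
          (norm_add_le _ _).trans (by linarith)
        have e5 : 0 ≤ Real.sqrt (1 + M) * Real.sqrt X := by positivity
        calc |(a : ℝ)| * ‖σ δ₁ + σ δ₂‖
            ≤ |(a : ℝ)| * (2 * (Real.sqrt (1 + M) * Real.sqrt X)) :=
              mul_le_mul_of_nonneg_left e4 (abs_nonneg _)
          _ ≤ (|(a : ℝ)| + 1) * (2 * (Real.sqrt (1 + M) * Real.sqrt X)) :=
              mul_le_mul_of_nonneg_right (by linarith) (by linarith)
          _ = c * Real.sqrt X := by rw [hc]; ring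
    · exact ⟨(0, 0, 0), fun h => absurd h hN⟩
  choose p hp using hex
  have hκK0 : (κ : K) ≠ 0 := by
    intro h
    exact hκ (RingOfIntegers.coe_eq_zero_iff.1 h)
  have hinj : Set.InjOn (fun N => (p N).1) (T' : Set ℤ) := by
    intro N hN N' hN' he
    have hN1 := hp N (Finset.mem_coe.1 hN)
    have hN2 := hp N' (Finset.mem_coe.1 hN')
    obtain ⟨a1, a2, a3, -⟩ := hN1
    obtain ⟨b1, b2, b3, -⟩ := hN2
    have he' : (p N).1 = (p N').1 := he
    rw [← he'] at b2 b3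
    have hz0 : ((p N).1 : K) ≠ 0 := by
      intro h
      rw [h, zero_mul] at a2
      exact hκK0 a2.symm
    have h1 : ((p N).2.1 : K) = ((p N').2.1 : K) := by
      apply mul_left_cancel₀ hz0
      rw [a2, b2]
    have h2 : 2 * ((a : K) * (p N).2.2) = 2 * ((a : K) * (p N').2.2) := by
      rw [← a3, ← b3, h1]
    have h3 : (p N).2.2 = (p N').2.2 := by
      have := mul_left_cancel₀ (two_ne_zero) h2
      exact mul_left_cancel₀ haK this
    have h4 : (N : K) = (N' : K) := by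
      have e1 : (N : K) = (p N).2.2 * (p N).2.2 + θ₁ := by rw [← a1]; ring
      have e2 : (N' : K) = (p N').2.2 * (p N').2.2 + θ₁ := by rw [← b1]; ring
      rw [e1, e2, h3]
    exact_mod_cast h4
  have hcard : (T'.card : ℝ) ≤ C₁ * (c * Real.sqrt X) ^ (2 * ε) := by
    rw [← Finset.card_image_of_injOn hinj]
    apply hD
    · have : 1 ≤ Real.sqrt X := by rw [Real.one_le_sqrt]; exact hX1
      nlinarith
    · intro z hzz
      obtain ⟨N, hN, rfl⟩ := Finset.mem_image.1 hzz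
      obtain ⟨-, a2, -, a4⟩ := hp N hN
      refine ⟨⟨(p N).2.1, ?_⟩, a4⟩
      apply RingOfIntegers.coe_injective
      rw [map_mul]
      exact a2.symm
  have hrp : (c * Real.sqrt X) ^ (2 * ε) = c ^ (2 * ε) * (X : ℝ) ^ ε := by
    rw [Real.mul_rpow (by linarith) (Real.sqrt_nonneg _), Real.sqrt_eq_rpow,
      ← Real.rpow_mul (by linarith)]
    congr 2
    ring
  rw [hrp] at hcard
  have h0 : (F.natDegree : ℝ) ≤ F.natDegree * (X : ℝ) ^ ε :=
    le_mul_of_one_le_right (Nat.cast_nonneg _) hXε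
  calc ((T.filter fun N => F.eval N = 0).card : ℝ) + T'.card
      ≤ F.natDegree * (X : ℝ) ^ ε + C₁ * (c ^ (2 * ε) * (X : ℝ) ^ ε) :=
        add_le_add (hz.trans h0) hcard
    _ = ((F.natDegree : ℝ) + C₁ * c ^ (2 * ε)) * (X : ℝ) ^ ε := by ring

end Pool.Agent.DKP
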