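import Pool.Agent.DKP.St2

/-!
# MP_a79b85_nt: the index of an extension is small

`t_Index`, and the sharper `t_IndexD`, from the lower bound for linear forms in two logarithms.
-/

set_option autoImplicit false

namespace Pool.Agent.DKP

namespace IndexL

lemma al_bounds (k : ℕ) (hk : 1 ≤ k) :
    0 < al k ∧ 1 < Real.log (al k) ∧ Real.log (al k) ≤ 2 * Real.log (2 * (k : ℝ) + 1) ∧
      1 < Real.log (2 * (k : ℝ) + 1) := by
  have hk' : (1 : ℝ) ≤ k := by exact_mod_cast hk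
  obtain ⟨N, hN⟩ : ∃ N : ℝ, N = 2 * (k : ℝ) + 1 := ⟨_, rfl⟩
  have hN3 : 3 ≤ N := by rw [hN]; linarith
  have hs1 : N ≤ √(N ^ 2 + 1) := Real.le_sqrt_of_sq_le (by linarith)
  have hs2 : √(N ^ 2 + 1) ≤ N + 1 := by
    rw [Real.sqrt_le_left (by linarith)]; nlinarith
  have hal : al k = N + √(N ^ 2 + 1) := by rw [hN]; rfl
  have h3 : 1 < Real.log 3 := by
    rw [Real.lt_log_iff_exp_lt (by norm_num)]
    linarith [Real.exp_one_lt_d9]
  have hlN : 1 < Real.log N := lt_of_lt_of_le h3 (Real.log_le_log (by norm_num) hN3)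
  have hpos : 0 < al k := by rw [hal]; linarith
  refine ⟨hpos, ?_, ?_, ?_⟩
  · refine lt_of_lt_of_le hlN (Real.log_le_log (by linarith) ?_)
    rw [hal]; linarith
  · rw [← hN]
    have h2 : (2 : ℝ) * Real.log N = Real.log (N ^ 2) := by rw [Real.log_pow]; push_cast; ring
    rw [h2]
    refine Real.log_le_log hpos ?_
    rw [hal]; nlinarith
  · rw [← hN]; exact hlN

lemma core (h1 : StmtG) (h2 : StmtLam) (h4 : StmtTL) (h3 : StmtRing) (h5 : StmtData)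
    (k : ℕ) (s : ℤ) (m x : ℕ) (hD : ¬ Deg k) (hS : Sol k s m x) :
    (m : ℝ) ≤ 10 ^ 25 * ((⌈48 * Real.log m⌉₊ + 300 : ℕ) : ℝ) ^ 6 * (⌈Real.log (al k)⌉₊ : ℕ) := by
  obtain ⟨n, a, b, hL⟩ := h1 k s m x hS
  obtain ⟨hlam0, hlam1, -⟩ := h2 k s m x n a b hS hL
  obtain ⟨hal0, hal1, -, -⟩ := al_bounds k hS.hk
  obtain ⟨H, hH⟩ : ∃ H : ℕ, H = ⌈Real.log (al k)⌉₊ := ⟨_, rfl⟩
  obtain ⟨L, hLL⟩ : ∃ L : ℕ, L = ⌈48 * Real.log m⌉₊ + 300 := ⟨_, rfl⟩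
  rw [← hH, ← hLL]
  by_contra hcon
  rw [not_le] at hcon
  have hm2 : 2 ≤ m := hS.hm
  have hmR : (2 : ℝ) ≤ m := by exact_mod_cast hm2
  have hlogm : 0 ≤ Real.log m := Real.log_nonneg (by linarith)
  have hL48 : 48 * Real.log m ≤ L := by
    rw [hLL]; push_cast
    linarith [Nat.le_ceil (48 * Real.log (m : ℝ))]
  have hL300 : 300 ≤ L := by rw [hLL]; omega
  have hHle : Real.log (al k) ≤ H := by rw [hH]; exact Nat.le_ceil _
  have hHge : (H : ℝ) ≤ 2 * Real.log (al k) := by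
    have := Nat.ceil_lt_add_one (a := Real.log (al k)) (by linarith)
    rw [← hH] at this
    linarith
  have hH1 : 1 ≤ H := by
    have : (1 : ℝ) < H := by linarith
    have : 1 < H := by exact_mod_cast this
    omega
  obtain ⟨T, hT⟩ : ∃ T : ℕ, T = 10 ^ 8 * L ^ 2 := ⟨_, rfl⟩
  have hT1 : 1 ≤ T := by rw [hT]; nlinarith
  obtain ⟨a1, u, v, w, ha1, ha1T, hu, hv, hw, hu0, hu1, hv0, hw0, hbd, hlog, hid⟩ :=
    h5 k s m x n a b H T hD hS hL hHle hT1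
  obtain ⟨d, hd⟩ : ∃ d : ℕ, d = m / (a1 * T) := ⟨_, rfl⟩
  rw [← hd] at hbd hlog
  have hdm : a1 * d * T ≤ m := by
    have := Nat.div_mul_le_self m (a1 * T)
    rw [← hd] at this
    calc a1 * d * T = d * (a1 * T) := by ring
      _ ≤ m := this
  -- real versions
  have LR : (300 : ℝ) ≤ L := by exact_mod_cast hL300
  have HR : (1 : ℝ) ≤ H := by exact_mod_cast hH1
  have a1R : (1 : ℝ) ≤ a1 := by exact_mod_cast ha1
  have TR : (T : ℝ) = 10 ^ 8 * (L : ℝ) ^ 2 := by rw [hT]; push_cast; ring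
  have a1TR : (a1 : ℝ) ≤ 10 ^ 8 * (L : ℝ) ^ 2 := by rw [← TR]; exact_mod_cast ha1T
  have hdR : (a1 : ℝ) * d * (10 ^ 8 * (L : ℝ) ^ 2) ≤ m := by rw [← TR]; exact_mod_cast hdm
  have hd0 : (0 : ℝ) ≤ d := Nat.cast_nonneg d
  have hL0 : (0 : ℝ) < L := by linarith
  have hX1 : (L : ℝ) ^ 5 * H ≤ (L : ℝ) ^ 6 * H := by
    have : (L : ℝ) ^ 5 ≤ (L : ℝ) ^ 6 := pow_le_pow_right₀ (by linarith) (by norm_num)
    exact mul_le_mul_of_nonneg_right this (by linarith)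
  have hXp : ∀ j : ℕ, j ≤ 6 → (L : ℝ) ^ j ≤ (L : ℝ) ^ 6 * H := by
    intro j hj
    have h : (L : ℝ) ^ j ≤ (L : ℝ) ^ 6 := pow_le_pow_right₀ (by linarith) hj
    nlinarith [pow_pos hL0 6]
  have hXLH : (L : ℝ) * H ≤ (L : ℝ) ^ 6 * H := by
    have : (L : ℝ) ^ 1 ≤ (L : ℝ) ^ 6 := pow_le_pow_right₀ (by linarith) (by norm_num)
    rw [pow_one] at this
    exact mul_le_mul_of_nonneg_right this (by linarith)
  have ha1sq : (a1 : ℝ) ^ 2 ≤ 10 ^ 16 * (L : ℝ) ^ 4 := by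
    calc (a1 : ℝ) ^ 2 ≤ (10 ^ 8 * (L : ℝ) ^ 2) ^ 2 := pow_le_pow_left₀ (by linarith) a1TR 2
      _ = 10 ^ 16 * (L : ℝ) ^ 4 := by ring
  have had : 10 ^ 8 * ((L : ℝ) ^ 2 * (a1 * d)) ≤ m := by linarith [hdR]
  -- 2000 L H2 ≤ q
  have hq : 2000 * L * (11 * a1 * H + 2 * d + 2) ≤ m / a1 := by
    rw [Nat.le_div_iff_mul_le (by omega)]
    have e : (((2000 * L * (11 * a1 * H + 2 * d + 2) * a1 : ℕ)) : ℝ) ≤ m := by
      push_cast
      have t1 : (L : ℝ) * (a1 : ℝ) ^ 2 * H ≤ 10 ^ 16 * ((L : ℝ) ^ 6 * H) := by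
        calc (L : ℝ) * (a1 : ℝ) ^ 2 * H = (a1 : ℝ) ^ 2 * (L * H) := by ring
          _ ≤ 10 ^ 16 * (L : ℝ) ^ 4 * (L * H) := mul_le_mul_of_nonneg_right ha1sq (by positivity)
          _ = 10 ^ 16 * ((L : ℝ) ^ 5 * H) := by ring
          _ ≤ _ := by linarith [hX1]
      have t2 : 10 * (4000 * ((L : ℝ) * (a1 * d))) ≤ m := by
        have h0 : 0 ≤ (a1 : ℝ) * d := by positivity
        have : (L : ℝ) * (a1 * d) ≤ (L : ℝ) ^ 2 * (a1 * d) :=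
          mul_le_mul_of_nonneg_right (by nlinarith) h0
        nlinarith [mul_nonneg (le_of_lt hL0) h0]
      have t3 : (L : ℝ) * a1 ≤ 10 ^ 8 * ((L : ℝ) ^ 6 * H) := by
        calc (L : ℝ) * a1 ≤ L * (10 ^ 8 * (L : ℝ) ^ 2) := mul_le_mul_of_nonneg_left a1TR hL0.le
          _ = 10 ^ 8 * (L : ℝ) ^ 3 := by ring
          _ ≤ _ := by linarith [hXp 3 (by norm_num)]
      have hX0 : (1 : ℝ) ≤ (L : ℝ) ^ 6 * H := by simpa using hXp 0 (by norm_num)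
      have e1 : 2000 * (L : ℝ) * (11 * a1 * H + 2 * d + 2) * a1 =
          22000 * ((L : ℝ) * (a1 : ℝ) ^ 2 * H) + 4000 * ((L : ℝ) * (a1 * d)) +
            4000 * ((L : ℝ) * a1) := by ring
      rw [e1]
      linarith
    exact_mod_cast e
  have hqa : ((m / a1 : ℕ) : ℝ) * a1 ≤ m := by
    exact_mod_cast Nat.div_mul_le_self m a1
  have hq1 : 1 ≤ m / a1 := by
    have : 1 ≤ 2000 * L * (11 * a1 * H + 2 * d + 2) := by
      have : 1 ≤ 11 * a1 * H + 2 * d + 2 := by omega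
      nlinarith
    omega
  have hlogc : 16 * Real.log (4000 * (L : ℝ) * ((7 * a1 * H : ℕ) : ℝ) * ((m / a1 : ℕ) : ℝ)) ≤
      L := by
    have hpos : (0 : ℝ) < 4000 * (L : ℝ) * ((7 * a1 * H : ℕ) : ℝ) * ((m / a1 : ℕ) : ℝ) := by
      have : (1 : ℝ) ≤ ((m / a1 : ℕ) : ℝ) := by exact_mod_cast hq1
      have h' : (0 : ℝ) < ((7 * a1 * H : ℕ) : ℝ) := by push_cast; positivity
      positivity
    have hle : 4000 * (L : ℝ) * ((7 * a1 * H : ℕ) : ℝ) * ((m / a1 : ℕ) : ℝ) ≤ (m : ℝ) ^ 2 := by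
      push_cast
      calc 4000 * (L : ℝ) * (7 * a1 * H) * ((m / a1 : ℕ) : ℝ)
          = 28000 * (L * H) * (((m / a1 : ℕ) : ℝ) * a1) := by ring
        _ ≤ 28000 * (L * H) * m := mul_le_mul_of_nonneg_left hqa (by positivity)
        _ ≤ m * m := by
            refine mul_le_mul_of_nonneg_right ?_ (by linarith)
            nlinarith [hXLH]
        _ = (m : ℝ) ^ 2 := by ring
    have := Real.log_le_log hpos hle
    rw [Real.log_pow] at this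
    push_cast at this ⊢
    linarith
  have main := h4 (OO k) (h3 k hD) u v w hu hv hw hu0 hu1 hv0 hw0 (7 * a1 * H)
    (11 * a1 * H + 2 * d + 2) L (m / a1) (by nlinarith [Nat.mul_le_mul ha1 hH1]) (by omega)
    (by omega) hq1 hbd hlog hq hlogc
  rw [hid, abs_of_pos hlam0] at main
  have hfin := main.trans hlam1
  have hlogf := Real.log_le_log (Real.exp_pos _) hfin
  rw [Real.log_exp, Real.log_mul (by norm_num) (zpow_ne_zero _ hal0.ne'), Real.log_zpow] at hlogf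
  push_cast at hlogf
  have hl2 : Real.log 2 ≤ 1 := by linarith [Real.log_two_lt_d9]
  -- divide by `H`
  have hmH : ((m : ℝ) - 1) * H ≤ (2 * m - 2) * Real.log (al k) := by nlinarith
  have key : ((m : ℝ) - 1) * H ≤
      (1 + 21000000 * ((L : ℝ) ^ 2 * (11 * ((a1 : ℝ) ^ 2 * H) + 2 * (a1 * d) + 2 * a1))) * H := by
    have e2 : 3 * 10 ^ 6 * (L : ℝ) ^ 2 * (7 * a1 * H) * (11 * a1 * H + 2 * d + 2) =
        (21000000 * ((L : ℝ) ^ 2 * (11 * ((a1 : ℝ) ^ 2 * H) + 2 * (a1 * d) + 2 * a1))) * H := by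
      ring
    rw [add_mul, ← e2]
    linarith
  have key2 := le_of_mul_le_mul_right key (by linarith)
  have s1 : (L : ℝ) ^ 2 * ((a1 : ℝ) ^ 2 * H) ≤ 10 ^ 16 * ((L : ℝ) ^ 6 * H) := by
    calc (L : ℝ) ^ 2 * ((a1 : ℝ) ^ 2 * H) = (a1 : ℝ) ^ 2 * ((L : ℝ) ^ 2 * H) := by ring
      _ ≤ 10 ^ 16 * (L : ℝ) ^ 4 * ((L : ℝ) ^ 2 * H) :=
          mul_le_mul_of_nonneg_right ha1sq (by positivity)
      _ = _ := by ring
  have s3 : (L : ℝ) ^ 2 * a1 ≤ 10 ^ 8 * ((L : ℝ) ^ 6 * H) := by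
    calc (L : ℝ) ^ 2 * a1 ≤ (L : ℝ) ^ 2 * (10 ^ 8 * (L : ℝ) ^ 2) :=
          mul_le_mul_of_nonneg_left a1TR (by positivity)
      _ = 10 ^ 8 * (L : ℝ) ^ 4 := by ring
      _ ≤ _ := by linarith [hXp 4 (by norm_num)]
  have e3 : (L : ℝ) ^ 2 * (11 * ((a1 : ℝ) ^ 2 * H) + 2 * (a1 * d) + 2 * a1) =
      11 * ((L : ℝ) ^ 2 * ((a1 : ℝ) ^ 2 * H)) + 2 * ((L : ℝ) ^ 2 * (a1 * d)) +
        2 * ((L : ℝ) ^ 2 * a1) := by ring
  rw [e3] at key2
  have hX0 : (1 : ℝ) ≤ (L : ℝ) ^ 6 * H := by simpa using hXp 0 (by norm_num)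
  have hcon2 : 10 ^ 25 * ((L : ℝ) ^ 6 * H) < m := by linarith
  linarith

/-- logarithms against powers -/
lemma log_pow6 (η : ℝ) (hη : 0 < η) (m : ℕ) (hm : 1 ≤ m) :
    ((⌈48 * Real.log m⌉₊ + 300 : ℕ) : ℝ) ^ 6 ≤ (288 / η + 301) ^ 6 * (m : ℝ) ^ η := by
  have hmR : (1 : ℝ) ≤ m := by exact_mod_cast hm
  have hlog : 0 ≤ Real.log m := Real.log_nonneg hmR
  have h1 : ((⌈48 * Real.log m⌉₊ + 300 : ℕ) : ℝ) ≤ 48 * Real.log m + 301 := by
    push_cast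
    linarith [Nat.ceil_lt_add_one (a := 48 * Real.log (m : ℝ)) (by positivity)]
  have h2 : Real.log m ≤ (m : ℝ) ^ (η / 6) / (η / 6) :=
    Real.log_le_rpow_div (by linarith) (by positivity)
  have h3 : 1 ≤ (m : ℝ) ^ (η / 6) := Real.one_le_rpow hmR (by positivity)
  have h4 : ((⌈48 * Real.log m⌉₊ + 300 : ℕ) : ℝ) ≤ (288 / η + 301) * (m : ℝ) ^ (η / 6) := by
    have e : 48 * ((m : ℝ) ^ (η / 6) / (η / 6)) = 288 / η * (m : ℝ) ^ (η / 6) := by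
      field_simp; ring
    nlinarith
  calc ((⌈48 * Real.log m⌉₊ + 300 : ℕ) : ℝ) ^ 6
      ≤ ((288 / η + 301) * (m : ℝ) ^ (η / 6)) ^ 6 := pow_le_pow_left₀ (Nat.cast_nonneg _) h4 6
    _ = (288 / η + 301) ^ 6 * (m : ℝ) ^ η := by
        rw [mul_pow, ← Real.rpow_mul_natCast (by linarith)]
        congr 2
        push_cast; ring

end IndexL

open IndexL in
theorem t_IndexD : StmtG → StmtLam → StmtRing → StmtTL → StmtData → StmtIndexD := by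
  intro h1 h2 h3 h4 h5 δ hδ
  obtain ⟨η, hη⟩ : ∃ η : ℝ, η = δ / (1 + δ) := ⟨_, rfl⟩
  have h1δ : 0 < 1 + δ := by linarith
  have hη0 : 0 < η := by rw [hη]; positivity
  have hη1 : (1 - η) * (1 + δ) = 1 := by rw [hη]; field_simp; ring
  obtain ⟨C1, hC1⟩ : ∃ C1 : ℝ, C1 = 3 * 10 ^ 25 * (288 / η + 301) ^ 6 := ⟨_, rfl⟩
  have hC1p : 0 < C1 := by rw [hC1]; positivity
  refine ⟨C1 ^ (1 + δ), Real.rpow_pos_of_pos hC1p _, ?_⟩
  intro k s m x hD hS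
  obtain ⟨hal0, hal1, hal2, hN1⟩ := al_bounds k hS.hk
  have hm2 : 2 ≤ m := hS.hm
  have hmR : (2 : ℝ) ≤ m := by exact_mod_cast hm2
  have hm0 : (0 : ℝ) < m := by linarith
  have hcore := core h1 h2 h4 h3 h5 k s m x hD hS
  have hL6 := log_pow6 η hη0 m (by omega)
  have hHc : ((⌈Real.log (al k)⌉₊ : ℕ) : ℝ) ≤ 3 * Real.log (2 * (k : ℝ) + 1) := by
    linarith [Nat.ceil_lt_add_one (a := Real.log (al k)) (by linarith)]
  have hmη : 0 < (m : ℝ) ^ η := Real.rpow_pos_of_pos hm0 _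
  have hbig : (m : ℝ) ≤ C1 * Real.log (2 * (k : ℝ) + 1) * (m : ℝ) ^ η := by
    calc (m : ℝ) ≤ 10 ^ 25 * ((⌈48 * Real.log m⌉₊ + 300 : ℕ) : ℝ) ^ 6 *
          (⌈Real.log (al k)⌉₊ : ℕ) := hcore
      _ ≤ 10 ^ 25 * ((288 / η + 301) ^ 6 * (m : ℝ) ^ η) * (3 * Real.log (2 * (k : ℝ) + 1)) := by
          gcongr
      _ = C1 * Real.log (2 * (k : ℝ) + 1) * (m : ℝ) ^ η := by rw [hC1]; ring
  have hdiv : (m : ℝ) ^ (1 - η) ≤ C1 * Real.log (2 * (k : ℝ) + 1) := by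
    rw [Real.rpow_sub hm0, Real.rpow_one, div_le_iff₀ hmη]
    exact hbig
  calc (m : ℝ) = ((m : ℝ) ^ (1 - η)) ^ (1 + δ) := by
        rw [← Real.rpow_mul hm0.le, hη1, Real.rpow_one]
    _ ≤ (C1 * Real.log (2 * (k : ℝ) + 1)) ^ (1 + δ) :=
        Real.rpow_le_rpow (Real.rpow_nonneg hm0.le _) hdiv h1δ.le
    _ = C1 ^ (1 + δ) * Real.log (2 * (k : ℝ) + 1) ^ (1 + δ) :=
        Real.mul_rpow hC1p.le (by linarith)

theorem t_Index : StmtG → StmtLam → StmtRing → StmtTL → StmtData → StmtIndex := by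
  intro h1 h2 h3 h4 h5
  obtain ⟨C, hC, h⟩ := t_IndexD h1 h2 h3 h4 h5 1 one_pos
  refine ⟨C, hC, fun k s m x hD hS => ?_⟩
  have := h k s m x hD hS
  have e : (1 + 1 : ℝ) = ((2 : ℕ) : ℝ) := by norm_num
  rwa [e, Real.rpow_natCast] at this

end Pool.Agent.DKP
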