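import Pool.Agent.DKP.St

/-!
# MP_a79b85_nt: interpolation determinants, with some arbitrary rows
-/

set_option autoImplicit false

open Finset

namespace Pool.Agent.DKP

namespace InterpAux

/-- A determinant with `‖G j φ‖ ≤ ρ j * M φ` -/
lemma det_le {ι : Type} [Fintype ι] [DecidableEq ι] (G : Matrix ι ι ℂ) (ρ M : ι → ℝ)
    (h : ∀ j φ, ‖G j φ‖ ≤ ρ j * M φ) :
    ‖G.det‖ ≤ ((Fintype.card ι).factorial : ℝ) * (∏ j, ρ j) * ∏ φ, M φ := by
  rw [Matrix.det_apply]
  refine le_trans (norm_sum_le _ _) ?_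
  have h1 : ∀ σ : Equiv.Perm ι, ‖Equiv.Perm.sign σ • ∏ i, G (σ i) i‖ ≤
      (∏ j, ρ j) * ∏ φ, M φ := by
    intro σ
    have h2 : ‖Equiv.Perm.sign σ • ∏ i, G (σ i) i‖ = ∏ i, ‖G (σ i) i‖ := by
      rcases Int.units_eq_one_or (Equiv.Perm.sign σ) with hs | hs <;>
        rw [hs] <;> simp [norm_prod]
    rw [h2]
    calc ∏ i, ‖G (σ i) i‖ ≤ ∏ i, (ρ (σ i) * M i) :=
          Finset.prod_le_prod (fun i _ => norm_nonneg _) (fun i _ => h _ _)
      _ = (∏ j, ρ j) * ∏ φ, M φ := by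
          rw [Finset.prod_mul_distrib, Equiv.prod_comp σ ρ]
  calc ∑ σ : Equiv.Perm ι, ‖Equiv.Perm.sign σ • ∏ i, G (σ i) i‖
      ≤ ∑ _σ : Equiv.Perm ι, (∏ j, ρ j) * ∏ φ, M φ := Finset.sum_le_sum (fun σ _ => h1 σ)
    _ = ((Fintype.card ι).factorial : ℝ) * (∏ j, ρ j) * ∏ φ, M φ := by
        rw [Finset.sum_const, Finset.card_univ, Fintype.card_perm, nsmul_eq_mul, mul_assoc]

lemma map_univ_castLE {n : ℕ} (i : Fin n) :
    (univ : Finset (Fin ((i : ℕ) + 1))).map (Fin.castLEEmb i.isLt) = Iic i := by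
  ext j
  simp only [Finset.mem_map, Finset.mem_univ, true_and, Finset.mem_Iic]
  constructor
  · rintro ⟨k, rfl⟩
    rw [Fin.le_def]
    exact Nat.lt_succ_iff.1 k.isLt
  · intro hj
    rw [Fin.le_def] at hj
    exact ⟨⟨j, by omega⟩, by ext; rfl⟩

/-- the matrix of the divided differences -/
noncomputable def TT {n : ℕ} (x : Fin n → ℂ) : Matrix (Fin n) (Fin n) ℂ :=
  fun i j => if j ≤ i then ∏ l ∈ (Iic i).erase j, (x j - x l)⁻¹ else 0

lemma det_TT {n : ℕ} (x : Fin n → ℂ) :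
    (TT x).det = ∏ i, ∏ l ∈ Iio i, (x i - x l)⁻¹ := by
  rw [Matrix.det_of_lowerTriangular (TT x) ?_]
  · apply Finset.prod_congr rfl
    intro i _
    unfold TT
    rw [if_pos le_rfl]
    congr 1
    ext j
    simp only [Finset.mem_erase, Finset.mem_Iic, Finset.mem_Iio]
    constructor
    · rintro ⟨h1, h2⟩
      exact lt_of_le_of_ne h2 h1
    · intro h
      exact ⟨h.ne, h.le⟩
  · intro i j hij
    have hij' : i < j := hij
    unfold TT
    rw [if_neg (not_le.2 hij')]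

/-- the rows of the divided differences -/
lemma row (hDD : StmtDD) {n : ℕ} (g : ℂ → ℂ) (c : ℂ) (r θ K : ℝ) (x : Fin n → ℂ)
    (hθ : 0 < θ) (hr : θ < r) (hg : DiffContOnCl ℂ g (Metric.ball c r))
    (hK : ∀ z ∈ Metric.sphere c r, ‖g z‖ ≤ K) (hx : Function.Injective x)
    (hd : ∀ i, dist (x i) c ≤ θ) (i : Fin n) :
    ‖∑ j, TT x i j * g (x j)‖ ≤ K * (r / (r - θ) ^ ((i : ℕ) + 1)) := by
  have h1 : ∑ j, TT x i j * g (x j) =
      ∑ j ∈ Iic i, g (x j) * ∏ l ∈ (Iic i).erase j, (x j - x l)⁻¹ := by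
    rw [← Finset.sum_subset (Finset.subset_univ (Iic i))]
    · apply Finset.sum_congr rfl
      intro j hj
      unfold TT
      rw [if_pos (Finset.mem_Iic.1 hj), mul_comm]
    · intro j _ hj
      unfold TT
      rw [if_neg (fun h => hj (Finset.mem_Iic.2 h)), zero_mul]
  have h2 := hDD (i : ℕ) g c r θ K (fun k => x (Fin.castLEEmb i.isLt k)) hθ.le hr hg hK
    (fun a b hab => (Fin.castLEEmb i.isLt).injective (hx hab)) (fun k => hd _)
  rw [h1, ← map_univ_castLE i, Finset.sum_map]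
  have h3 : ∀ k : Fin ((i : ℕ) + 1),
      ∏ l ∈ ((univ : Finset (Fin ((i : ℕ) + 1))).map (Fin.castLEEmb i.isLt)).erase
        (Fin.castLEEmb i.isLt k), (x (Fin.castLEEmb i.isLt k) - x l)⁻¹ =
      ∏ l ∈ univ.erase k, (x (Fin.castLEEmb i.isLt k) - x (Fin.castLEEmb i.isLt l))⁻¹ := by
    intro k
    rw [← Finset.map_erase, Finset.prod_map]
  rw [Finset.sum_congr rfl (fun k _ => by rw [h3 k])]
  refine le_trans h2 (le_of_eq ?_)
  rw [mul_div_assoc]

end InterpAux

open InterpAux in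
/-- **Interpolation determinants, with some arbitrary rows.** -/
theorem t_Interp : StmtDD → StmtInterp := by
  intro hDD n β _ _ f c r θ δ M x A hθ hr hδ hM hf hfM hx hd hA hAb
  classical
  have hrθ : 0 < r - θ := by linarith
  have hr0 : 0 < r := by linarith
  set B : Matrix (Fin n ⊕ β) (Fin n ⊕ β) ℂ := Matrix.fromBlocks (TT x) 0 0 1 with hB
  have hdB : B.det = (TT x).det := by
    rw [hB, Matrix.det_fromBlocks_zero₂₁, Matrix.det_one, mul_one]
  set G := B * A with hG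
  have hdG : G.det = (TT x).det * A.det := by rw [hG, Matrix.det_mul, hdB]
  set ρ : Fin n ⊕ β → ℝ := Sum.elim (fun i => r / (r - θ) ^ ((i : ℕ) + 1)) (fun _ => δ) with hρ
  -- the rows of `G`
  have hrow : ∀ j φ, ‖G j φ‖ ≤ ρ j * M φ := by
    intro j φ
    rcases j with i | b
    · have h1 : G (Sum.inl i) φ = ∑ j, TT x i j * f φ (x j) := by
        rw [hG, Matrix.mul_apply, Fintype.sum_sum_type]
        have h2 : ∑ b : β, B (Sum.inl i) (Sum.inr b) * A (Sum.inr b) φ = 0 := by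
          apply Finset.sum_eq_zero
          intro b _
          rw [hB, Matrix.fromBlocks_apply₁₂, Matrix.zero_apply, zero_mul]
        rw [h2, add_zero]
        apply Finset.sum_congr rfl
        intro j _
        rw [hB, Matrix.fromBlocks_apply₁₁, hA]
      rw [h1]
      refine le_trans (row hDD (f φ) c r θ (M φ) x hθ hr (hf φ) (hfM φ) hx hd i) ?_
      rw [mul_comm]
      exact le_rfl
    · have h1 : G (Sum.inr b) φ = A (Sum.inr b) φ := by
        rw [hG, Matrix.mul_apply, Fintype.sum_sum_type]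
        have h2 : ∑ j : Fin n, B (Sum.inr b) (Sum.inl j) * A (Sum.inl j) φ = 0 := by
          apply Finset.sum_eq_zero
          intro j _
          rw [hB, Matrix.fromBlocks_apply₂₁, Matrix.zero_apply, zero_mul]
        rw [h2, zero_add, Finset.sum_eq_single b]
        · rw [hB, Matrix.fromBlocks_apply₂₂, Matrix.one_apply_eq, one_mul]
        · intro b' _ hb'
          rw [hB, Matrix.fromBlocks_apply₂₂, Matrix.one_apply_ne (Ne.symm hb'), zero_mul]
        · intro h
          exact absurd (Finset.mem_univ b) h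
      rw [h1]
      exact hAb b φ
  have hGle := det_le G ρ M hrow
  -- the product of the `ρ`
  have hprod : ∏ j, ρ j = (r / (r - θ)) ^ n * ((r - θ)⁻¹) ^ (n * (n - 1) / 2) *
      δ ^ Fintype.card β := by
    rw [Fintype.prod_sum_type]
    simp only [hρ, Sum.elim_inl, Sum.elim_inr, Finset.prod_const, Finset.card_univ]
    congr 1
    have h1 : ∀ i : Fin n, r / (r - θ) ^ ((i : ℕ) + 1) = r / (r - θ) * ((r - θ)⁻¹) ^ (i : ℕ) := by
      intro i
      rw [pow_succ, inv_pow]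
      field_simp
    rw [Finset.prod_congr rfl (fun i _ => h1 i), Finset.prod_mul_distrib, Finset.prod_const,
      Finset.card_univ, Fintype.card_fin, Finset.prod_pow_eq_pow_sum]
    congr 2
    rw [Fin.sum_univ_eq_sum_range (fun i => i) n, Finset.sum_range_id]
  -- the determinant of `TT x`
  have hT : (1 : ℝ) ≤ ‖(TT x).det‖ * (2 * θ) ^ (n * (n - 1) / 2) := by
    have h1 : (2 * θ) ^ (n * (n - 1) / 2) = ∏ i : Fin n, (2 * θ) ^ (i : ℕ) := by
      rw [Finset.prod_pow_eq_pow_sum, Fin.sum_univ_eq_sum_range (fun i => i) n,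
        Finset.sum_range_id]
    rw [det_TT, norm_prod, h1, ← Finset.prod_mul_distrib]
    have h2 : ∀ i ∈ (univ : Finset (Fin n)), (1 : ℝ) ≤
        ‖∏ l ∈ Iio i, (x i - x l)⁻¹‖ * (2 * θ) ^ (i : ℕ) := by
      intro i _
      have h3 : (2 * θ) ^ (i : ℕ) = ∏ _l ∈ Iio i, (2 * θ) := by
        rw [Finset.prod_const, Fin.card_Iio]
      rw [norm_prod, h3, ← Finset.prod_mul_distrib]
      have h4 : ∀ l ∈ Iio i, (1 : ℝ) ≤ ‖(x i - x l)⁻¹‖ * (2 * θ) := by
        intro l hl
        have h5 : x i - x l ≠ 0 := by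
          rw [sub_ne_zero]
          exact fun h => (Finset.mem_Iio.1 hl).ne' (hx h)
        have h6 : ‖x i - x l‖ ≤ 2 * θ := by
          rw [← dist_eq_norm]
          calc dist (x i) (x l) ≤ dist (x i) c + dist (x l) c := dist_triangle_right _ _ _
            _ ≤ θ + θ := add_le_add (hd i) (hd l)
            _ = 2 * θ := by ring
        have h7 : 0 < ‖x i - x l‖ := norm_pos_iff.2 h5
        rw [norm_inv, ← div_eq_inv_mul, le_div_iff₀ h7, one_mul]
        exact h6
      calc (1 : ℝ) = ∏ _l ∈ Iio i, (1 : ℝ) := by rw [Finset.prod_const_one]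
        _ ≤ _ := Finset.prod_le_prod (fun _ _ => zero_le_one) h4
    calc (1 : ℝ) = ∏ _i : Fin n, (1 : ℝ) := by rw [Finset.prod_const_one]
      _ ≤ _ := Finset.prod_le_prod (fun _ _ => zero_le_one) h2
  -- the end
  have hdG' : ‖G.det‖ = ‖(TT x).det‖ * ‖A.det‖ := by rw [hdG, norm_mul]
  calc ‖A.det‖ = 1 * ‖A.det‖ := (one_mul _).symm
    _ ≤ (‖(TT x).det‖ * (2 * θ) ^ (n * (n - 1) / 2)) * ‖A.det‖ :=
        mul_le_mul_of_nonneg_right hT (norm_nonneg _)
    _ = ‖G.det‖ * (2 * θ) ^ (n * (n - 1) / 2) := by rw [hdG']; ring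
    _ ≤ (((Fintype.card (Fin n ⊕ β)).factorial : ℝ) * (∏ j, ρ j) * ∏ φ, M φ) *
        (2 * θ) ^ (n * (n - 1) / 2) := by
        apply mul_le_mul_of_nonneg_right hGle
        positivity
    _ = ((Fintype.card (Fin n ⊕ β)).factorial : ℝ) * (∏ φ, M φ) * (r / (r - θ)) ^ n *
      (2 * θ / (r - θ)) ^ (n * (n - 1) / 2) * δ ^ Fintype.card β := by
        rw [hprod, div_eq_mul_inv (2 * θ) (r - θ), mul_pow]
        ring

end Pool.Agent.DKP
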