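import Pool.Agent.DKP.LioC

/-!
# `StmtLio` from the complex version
-/

set_option autoImplicit false

open Finset

namespace Pool.Agent.DKP

namespace LioR

/-- real tuples as complex tuples -/
noncomputable def up (D : ℕ) : (Fin D → ℝ) →+* (Fin D → ℂ) :=
  RingHom.pi fun i => Complex.ofRealHom.comp (Pi.evalRingHom (fun _ : Fin D => ℝ) i)

theorem up_apply (D : ℕ) (z : Fin D → ℝ) (i : Fin D) : up D z i = (z i : ℂ) := rfl

theorem up_inj (D : ℕ) : Function.Injective (up D) := fun a b h => by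
  funext i
  have := congrFun h i
  rw [up_apply, up_apply] at this
  exact_mod_cast this

end LioR

open LioR in
theorem t_LioR (hC : StmtLioC) : StmtLio := by
  intro O hO u v w hu hv hw hu0 hv0 hw0 K L R S q H1 H2 X rr ss hK hL hX hb hj hq hdet
  have hdetC : (EMC K L q X (up 4 u 0) (up 4 v 0 / up 4 w 0) rr ss) =
      (EM K L q X (u 0) (v 0 / w 0) rr ss).map (fun x : ℝ => (x : ℂ)) := by
    ext j φ
    simp only [EMC, EM, Matrix.of_apply, Matrix.map_apply, up_apply]
    push_cast
    rfl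
  have hdet2 : (EMC K L q X (up 4 u 0) (up 4 v 0 / up 4 w 0) rr ss).det =
      ((EM K L q X (u 0) (v 0 / w 0) rr ss).det : ℂ) := by
    rw [hdetC]
    exact (RingHom.map_det Complex.ofRealHom _).symm
  have h := hC 3 (O.map (up 4)) (by
      rintro _ ⟨z, hz, rfl⟩ hz0
      have h1 := hO z hz (fun h => hz0 (by rw [h, map_zero]))
      have h2 : (∏ i, up 4 z i) = ((∏ i, z i : ℝ) : ℂ) := by
        rw [Complex.ofReal_prod]
        rfl
      rw [h2, Complex.norm_real]
      exact h1)
    (up 4 u) (up 4 v) (up 4 w) ⟨u, hu, rfl⟩ ⟨v, hv, rfl⟩ ⟨w, hw, rfl⟩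
    (by rw [up_apply]; exact_mod_cast hu0.ne') (by rw [up_apply]; exact_mod_cast hv0.ne')
    (by rw [up_apply]; exact_mod_cast hw0.ne') K L R S q H1 H2 X rr ss hK hL hX
    (fun i => by
      simp only [up_apply, Complex.norm_real]
      exact hb i) hj hq
    (by rw [hdet2]; exact_mod_cast hdet)
  rw [hdet2, Complex.norm_real, Real.norm_eq_abs] at h
  exact h

theorem t_Lio' : StmtLio := t_LioR t_LioC

end Pool.Agent.DKP
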