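import Pool.Agent.DKP.St2

set_option autoImplicit false

open NumberField IsDedekindDomain Polynomial

namespace Pool.Agent.DKP

namespace ParAux

variable {K : Type} [Field K] {Γ₀ : Type*} [LinearOrderedCommGroupWithZero Γ₀]

lemma val_pow_sub (v : Valuation K Γ₀) {x y : K} (hx : v x ≤ 1) (hy : v y ≤ 1) (n : ℕ) :
    v (x ^ n - y ^ n) ≤ v (x - y) := by
  rw [← (Commute.all x y).geom_sum₂_mul n, map_mul]
  have h : v (∑ i ∈ Finset.range n, x ^ i * y ^ (n - 1 - i)) ≤ 1 := by
    refine v.map_sum_le fun i _ => ?_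
    rw [map_mul, map_pow, map_pow]
    exact mul_le_one' (pow_le_one₀ zero_le hx) (pow_le_one₀ zero_le hy)
  calc v (∑ i ∈ Finset.range n, x ^ i * y ^ (n - 1 - i)) * v (x - y) ≤ 1 * v (x - y) :=
        mul_le_mul_left h _
    _ = _ := one_mul _

lemma val_eval (v : Valuation K Γ₀) {x : K} (hx : v x ≤ 1) (G : K[X])
    (hG : ∀ i, v (G.coeff i) ≤ 1) : v (G.eval x) ≤ 1 := by
  rw [eval_eq_sum_range]
  refine v.map_sum_le fun i _ => ?_
  rw [map_mul, map_pow]
  exact mul_le_one' (hG i) (pow_le_one₀ zero_le hx)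

lemma val_eval_sub (v : Valuation K Γ₀) {x y : K} (hx : v x ≤ 1) (hy : v y ≤ 1) (G : K[X])
    (hG : ∀ i, v (G.coeff i) ≤ 1) : v (G.eval x - G.eval y) ≤ v (x - y) := by
  rw [eval_eq_sum_range, eval_eq_sum_range, ← Finset.sum_sub_distrib]
  refine v.map_sum_le fun i _ => ?_
  rw [← mul_sub, map_mul]
  calc v (G.coeff i) * v (x ^ i - y ^ i) ≤ 1 * v (x - y) :=
        mul_le_mul' (hG i) (val_pow_sub v hx hy i)
    _ = _ := one_mul _

end ParAux

open ParAux in
theorem t_Par : StmtPar := by
  intro K _ _ F θ e G he hF hG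
  classical
  set S : Finset K := insert θ (insert (G.eval θ)⁻¹ (G.support.image G.coeff)) with hS
  obtain ⟨b, hb⟩ := IsLocalization.exist_integer_multiples_of_finset (nonZeroDivisors (𝓞 K)) S
  refine ⟨b, nonZeroDivisors.ne_zero b.2, ?_⟩
  intro N hsq hne v hv
  have hvb : v.valuation K (algebraMap (𝓞 K) K b) = 1 := by
    refine le_antisymm (v.valuation_le_one _) ?_
    by_contra hcon
    push Not at hcon
    exact hv ((v.valuation_lt_one_iff_mem _).1 hcon)
  have hSv : ∀ a ∈ S, v.valuation K a ≤ 1 := by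
    intro a ha
    obtain ⟨r, hr⟩ := hb a ha
    have h1 : v.valuation K (algebraMap (𝓞 K) K r) ≤ 1 := v.valuation_le_one r
    rw [hr, Algebra.smul_def, map_mul, hvb, one_mul] at h1
    exact h1
  have hθ : v.valuation K θ ≤ 1 := hSv θ (by simp [hS])
  have hGi : v.valuation K (G.eval θ)⁻¹ ≤ 1 := hSv _ (by simp [hS])
  have hcoef : ∀ i, v.valuation K (G.coeff i) ≤ 1 := by
    intro i
    by_cases hi : G.coeff i = 0
    · rw [hi, map_zero]; exact zero_le
    · apply hSv
      rw [hS]
      refine Finset.mem_insert_of_mem (Finset.mem_insert_of_mem ?_)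
      exact Finset.mem_image_of_mem _ (mem_support_iff.2 hi)
  have hGθ : v.valuation K (G.eval θ) = 1 := by
    refine le_antisymm (val_eval _ hθ G hcoef) ?_
    rw [map_inv₀] at hGi
    have h0 : v.valuation K (G.eval θ) ≠ 0 := (Valuation.ne_zero_iff _).2 hG
    exact (inv_le_one₀ (zero_lt_iff.2 h0)).1 hGi
  have hN : v.valuation K (N : K) ≤ 1 := by
    have := v.valuation_le_one (K := K) (N : 𝓞 K)
    simpa using this
  set t : K := (N : K) - θ with ht
  have htle : v.valuation K t ≤ 1 := (v.valuation K).map_sub_le hN hθ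
  rcases eq_or_lt_of_le htle with h1 | h1
  · rw [h1]; exact IsSquare.one
  -- the value of `F`
  obtain ⟨s, hs⟩ := hsq
  have hFN : ((F.eval N : ℤ) : K) = t ^ e * G.eval (N : K) := by
    have h2 := congrArg (Polynomial.eval (N : K)) hF
    rw [eval_mul, eval_pow, eval_sub, eval_X, eval_C] at h2
    rw [← h2]
    have h3 := Polynomial.eval_intCast_map (algebraMap ℤ K) F N
    rw [h3]
    rfl
  have hGN : v.valuation K (G.eval (N : K)) = 1 := by
    have h2 := val_eval_sub (v.valuation K) hN hθ G hcoef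
    have h3 : G.eval (N : K) = G.eval θ + (G.eval (N : K) - G.eval θ) := by ring
    rw [h3, Valuation.map_add_eq_of_lt_left _ (by rw [hGθ]; exact h2.trans_lt h1), hGθ]
  have hval : v.valuation K t ^ e = v.valuation K (s : K) ^ 2 := by
    have h2 : v.valuation K ((F.eval N : ℤ) : K) = v.valuation K t ^ e := by
      rw [hFN, map_mul, map_pow, hGN, mul_one]
    rw [← h2, hs]
    push_cast
    rw [map_mul, sq]
  have ht0 : v.valuation K t ≠ 0 := by
    rw [Valuation.ne_zero_iff]
    intro h0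
    apply hne
    have h2 : ((F.eval N : ℤ) : K) = 0 := by
      rw [hFN, h0, zero_pow (by rintro rfl; exact absurd he (by decide)), zero_mul]
    exact_mod_cast h2
  obtain ⟨j, rfl⟩ := he
  refine ⟨v.valuation K (s : K) / v.valuation K t ^ j, ?_⟩
  have h2 : v.valuation K t = v.valuation K t ^ (2 * j + 1) / (v.valuation K t ^ j * v.valuation K t ^ j) := by
    rw [eq_div_iff (mul_ne_zero (pow_ne_zero _ ht0) (pow_ne_zero _ ht0)), ← pow_add,
      ← pow_succ']
    congr 1
    omega
  refine h2.trans ?_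
  rw [hval, div_mul_div_comm, sq]

end Pool.Agent.DKP
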