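import Pool.Agent.DKP.St

/-!
# Module Ring: the product of the conjugates of a nonzero element of `ℤ[√2, √D]` is at least one
-/

set_option autoImplicit false

namespace Pool.Agent.DKP

namespace RingAux

/-- `D = (2k+1)² + 1` -/
def dd (k : ℕ) : ℤ := (2 * (k : ℤ) + 1) ^ 2 + 1

theorem dd_cast (k : ℕ) : ((dd k : ℤ) : ℝ) = (2 * (k : ℝ) + 1) ^ 2 + 1 := by
  rw [dd]; push_cast; ring

/-- The elements of the ring. -/
noncomputable def el (k : ℕ) (a b c d : ℤ) : Fin 4 → ℝ := fun i =>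
  a + b * e2 i + c * eD k i + d * (e2 i * eD k i)

theorem e2_sq (i : Fin 4) : e2 i * e2 i = 2 := by
  have h : √2 * √2 = (2 : ℝ) := Real.mul_self_sqrt (by norm_num)
  fin_cases i <;> simp [e2, h]

theorem eD_sq (k : ℕ) (i : Fin 4) : eD k i * eD k i = dd k := by
  rw [dd_cast]
  have h : √((2 * (k : ℝ) + 1) ^ 2 + 1) * √((2 * (k : ℝ) + 1) ^ 2 + 1) =
      (2 * (k : ℝ) + 1) ^ 2 + 1 := Real.mul_self_sqrt (by positivity)
  fin_cases i <;> simp [eD, h]

/-- The subring of the elements `el`. -/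
noncomputable def SR (k : ℕ) : Subring (Fin 4 → ℝ) where
  carrier := {z | ∃ a b c d : ℤ, z = el k a b c d}
  mul_mem' := by
    rintro _ _ ⟨a, b, c, d, rfl⟩ ⟨a', b', c', d', rfl⟩
    refine ⟨a * a' + 2 * (b * b') + dd k * (c * c') + 2 * dd k * (d * d'),
      a * b' + b * a' + dd k * (c * d' + d * c'), a * c' + c * a' + 2 * (b * d' + d * b'),
      a * d' + b * c' + c * b' + d * a', ?_⟩
    funext i
    have h1 := e2_sq i
    have h2 := eD_sq k i
    simp only [el, Pi.mul_apply]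
    push_cast
    rw [← h2]
    linear_combination ((b * b' : ℝ) + eD k i * (b * d' + d * b') +
      eD k i * eD k i * (d * d')) * h1
  add_mem' := by
    rintro _ _ ⟨a, b, c, d, rfl⟩ ⟨a', b', c', d', rfl⟩
    refine ⟨a + a', b + b', c + c', d + d', ?_⟩
    funext i
    simp only [el, Pi.add_apply]
    push_cast
    ring
  neg_mem' := by
    rintro _ ⟨a, b, c, d, rfl⟩
    refine ⟨-a, -b, -c, -d, ?_⟩
    funext i
    simp only [el, Pi.neg_apply]
    push_cast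
    ring
  zero_mem' := ⟨0, 0, 0, 0, by funext i; simp [el]⟩
  one_mem' := ⟨1, 0, 0, 0, by funext i; simp [el]⟩

theorem mem_SR {k : ℕ} {z : Fin 4 → ℝ} (hz : z ∈ OO k) : ∃ a b c d : ℤ, z = el k a b c d := by
  have h : OO k ≤ SR k := by
    rw [OO, Subring.closure_le]
    intro x hx
    rcases hx with rfl | hx
    · exact ⟨0, 1, 0, 0, by funext i; simp [el]⟩
    · rw [Set.mem_singleton_iff] at hx
      subst hx
      exact ⟨0, 0, 1, 0, by funext i; simp [el]⟩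
  exact h hz

/-- The product of the coordinates. -/
theorem prod_el (k : ℕ) (a b c d : ℤ) : ∏ i, el k a b c d i =
    (((a ^ 2 + 2 * b ^ 2 - dd k * (c ^ 2 + 2 * d ^ 2)) ^ 2 -
      2 * (2 * a * b - 2 * dd k * (c * d)) ^ 2 : ℤ) : ℝ) := by
  have h : √2 * √2 = (2 : ℝ) := Real.mul_self_sqrt (by norm_num)
  have h' : √((2 * (k : ℝ) + 1) ^ 2 + 1) * √((2 * (k : ℝ) + 1) ^ 2 + 1) =
      (dd k : ℝ) := by
    rw [dd_cast]
    exact Real.mul_self_sqrt (by positivity)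
  rw [Fin.prod_univ_four]
  have f0 : el k a b c d 0 = a + b * √2 + c * √((2 * (k : ℝ) + 1) ^ 2 + 1) +
      d * (√2 * √((2 * (k : ℝ) + 1) ^ 2 + 1)) := by simp [el, e2, eD]
  have f1 : el k a b c d 1 = a - b * √2 + c * √((2 * (k : ℝ) + 1) ^ 2 + 1) -
      d * (√2 * √((2 * (k : ℝ) + 1) ^ 2 + 1)) := by simp [el, e2, eD]; ring
  have f2 : el k a b c d 2 = a + b * √2 - c * √((2 * (k : ℝ) + 1) ^ 2 + 1) -
      d * (√2 * √((2 * (k : ℝ) + 1) ^ 2 + 1)) := by simp [el, e2, eD]; ring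
  have f3 : el k a b c d 3 = a - b * √2 - c * √((2 * (k : ℝ) + 1) ^ 2 + 1) +
      d * (√2 * √((2 * (k : ℝ) + 1) ^ 2 + 1)) := by simp [el, e2, eD]; ring
  rw [f0, f1, f2, f3]
  generalize √((2 * (k : ℝ) + 1) ^ 2 + 1) = s at h' ⊢
  generalize √(2 : ℝ) = t at h ⊢
  push_cast
  have e1 : (a + b * t + c * s + d * (t * s)) * (a + b * t - c * s - d * (t * s)) =
      ((a : ℝ) ^ 2 + 2 * b ^ 2 - dd k * (c ^ 2 + 2 * d ^ 2)) +
        t * (2 * a * b - 2 * dd k * (c * d)) := by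
    linear_combination ((b : ℝ) ^ 2 - s * s * d ^ 2) * h -
      ((c : ℝ) ^ 2 + 2 * c * d * t + 2 * d ^ 2) * h'
  have e2 : (a - b * t + c * s - d * (t * s)) * (a - b * t - c * s + d * (t * s)) =
      ((a : ℝ) ^ 2 + 2 * b ^ 2 - dd k * (c ^ 2 + 2 * d ^ 2)) -
        t * (2 * a * b - 2 * dd k * (c * d)) := by
    linear_combination ((b : ℝ) ^ 2 - s * s * d ^ 2) * h -
      ((c : ℝ) ^ 2 - 2 * c * d * t + 2 * d ^ 2) * h'
  have e3 : (a + b * t + c * s + d * (t * s)) * (a - b * t + c * s - d * (t * s)) *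
      (a + b * t - c * s - d * (t * s)) * (a - b * t - c * s + d * (t * s)) =
      ((a + b * t + c * s + d * (t * s)) * (a + b * t - c * s - d * (t * s))) *
      ((a - b * t + c * s - d * (t * s)) * (a - b * t - c * s + d * (t * s))) := by ring
  rw [e3, e1, e2]
  linear_combination (-(2 * (a : ℝ) * b - 2 * dd k * (c * d)) ^ 2) * h

/-- `2` is not the square of a rational. -/
theorem two_sq {x y : ℤ} (h : x ^ 2 = 2 * y ^ 2) : x = 0 ∧ y = 0 := by
  by_cases hy : y = 0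
  · subst hy
    simp at h
    exact ⟨h, rfl⟩
  · exfalso
    have h1 : ((x : ℝ) / y) ^ 2 = 2 := by
      have hy' : (y : ℝ) ≠ 0 := by exact_mod_cast hy
      rw [div_pow, div_eq_iff (by positivity)]
      exact_mod_cast h
    have h2 : Irrational (√2) := irrational_sqrt_two
    apply h2
    refine ⟨|(x : ℚ) / y|, ?_⟩
    push_cast
    rw [← Real.sqrt_sq_eq_abs, h1]

/-- `D` is not a square. -/
theorem not_sq (k : ℕ) (hk : 1 ≤ k) (r : ℤ) : dd k ≠ r ^ 2 := by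
  intro h
  rw [dd] at h
  have h1 : (2 * (k : ℤ) + 1) < |r| := by
    apply lt_of_pow_lt_pow_left₀ 2 (abs_nonneg r)
    rw [sq_abs]
    linarith
  have h2 : |r| < 2 * (k : ℤ) + 2 := by
    apply lt_of_pow_lt_pow_left₀ 2 (by positivity)
    rw [sq_abs, ← h]
    nlinarith
  omega

/-- If the norm vanishes, so does the element. -/
theorem norm_zero {k : ℕ} (hD : ¬ Deg k) {a b c d : ℤ}
    (h : (a ^ 2 + 2 * b ^ 2 - dd k * (c ^ 2 + 2 * d ^ 2)) ^ 2 -
      2 * (2 * a * b - 2 * dd k * (c * d)) ^ 2 = 0) : a = 0 ∧ b = 0 ∧ c = 0 ∧ d = 0 := by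
  have hk : 1 ≤ k := by
    by_contra hk
    have hk0 : k = 0 := by omega
    subst hk0
    exact hD ⟨1, by norm_num⟩
  obtain ⟨hA, hB⟩ := two_sq (x := a ^ 2 + 2 * b ^ 2 - dd k * (c ^ 2 + 2 * d ^ 2))
    (y := 2 * a * b - 2 * dd k * (c * d)) (by linarith)
  have hA' : a ^ 2 + 2 * b ^ 2 = dd k * (c ^ 2 + 2 * d ^ 2) := by linarith
  have hB' : a * b = dd k * (c * d) := by linarith
  by_cases hn : c ^ 2 - 2 * d ^ 2 = 0
  · obtain ⟨hc, hd⟩ := two_sq (x := c) (y := d) (by linarith)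
    subst hc hd
    have h0 : a ^ 2 + 2 * b ^ 2 = 0 := by rw [hA']; ring
    have ha : a ^ 2 = 0 := by nlinarith [sq_nonneg a, sq_nonneg b]
    have hb : b ^ 2 = 0 := by nlinarith [sq_nonneg a, sq_nonneg b]
    exact ⟨by simpa using ha, by simpa using hb, rfl, rfl⟩
  · exfalso
    have h1 : (a * c - 2 * b * d) ^ 2 + 2 * (b * c - a * d) ^ 2 =
        dd k * (c ^ 2 - 2 * d ^ 2) ^ 2 := by
      linear_combination (c ^ 2 + 2 * d ^ 2) * hA' - 8 * (c * d) * hB'
    have h2 : (a * c - 2 * b * d) * (b * c - a * d) = 0 := by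
      linear_combination (c ^ 2 + 2 * d ^ 2) * hB' - (c * d) * hA'
    have hn2 : (c ^ 2 - 2 * d ^ 2) ^ 2 ≠ 0 := pow_ne_zero 2 hn
    rcases mul_eq_zero.1 h2 with hX | hY
    · rw [hX] at h1
      have h3 : (b * c - a * d) ^ 2 = (c ^ 2 - 2 * d ^ 2) ^ 2 * (2 * (k : ℤ) ^ 2 + 2 * k + 1) := by
        have h4 : dd k = 2 * (2 * (k : ℤ) ^ 2 + 2 * k + 1) := by rw [dd]; ring
        rw [h4] at h1
        linarith
      have h5 : (c ^ 2 - 2 * d ^ 2) ∣ (b * c - a * d) := by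
        rw [← Int.pow_dvd_pow_iff (n := 2) (by norm_num), h3]
        exact dvd_mul_right _ _
      obtain ⟨r, hr⟩ := h5
      rw [hr, mul_pow] at h3
      have h6 : r ^ 2 = 2 * (k : ℤ) ^ 2 + 2 * k + 1 := mul_left_cancel₀ hn2 h3
      apply hD
      refine ⟨r.natAbs, ?_⟩
      have h7 : ((r.natAbs : ℤ)) ^ 2 = r ^ 2 := Int.natAbs_sq r
      zify
      rw [sq_abs, h6]
      ring
    · rw [hY] at h1
      have h5 : (c ^ 2 - 2 * d ^ 2) ∣ (a * c - 2 * b * d) := by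
        rw [← Int.pow_dvd_pow_iff (n := 2) (by norm_num)]
        exact ⟨dd k, by linarith⟩
      obtain ⟨r, hr⟩ := h5
      rw [hr, mul_pow] at h1
      have h6 : dd k = r ^ 2 := by
        apply mul_left_cancel₀ hn2
        linarith
      exact not_sq k hk r h6

end RingAux

open RingAux in
/-- **Ring.** -/
theorem t_Ring : StmtRing := by
  intro k hD z hz hz0
  obtain ⟨a, b, c, d, rfl⟩ := mem_SR hz
  rw [prod_el]
  have h : (a ^ 2 + 2 * b ^ 2 - dd k * (c ^ 2 + 2 * d ^ 2)) ^ 2 -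
      2 * (2 * a * b - 2 * dd k * (c * d)) ^ 2 ≠ 0 := by
    intro h
    obtain ⟨rfl, rfl, rfl, rfl⟩ := norm_zero hD h
    apply hz0
    funext i
    simp [el]
  rw [← Int.cast_abs]
  exact_mod_cast Int.one_le_abs h

end Pool.Agent.DKP
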