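import Pool.Agent.DKP.St

/-!
# Points of a short interval
-/

set_option autoImplicit false

open Finset

namespace Pool.Agent.DKP

namespace ShortAux

/-- A matrix with linearly independent rows has a nonzero maximal minor. -/
theorem exists_minor {r n : ℕ} {K : Type} [Field K] (G : Matrix (Fin r) (Fin n) K)
    (h : LinearIndependent K G.row) :
    ∃ g : Fin r → Fin n, Function.Injective g ∧
      (Matrix.of fun i j : Fin r => G i (g j)).det ≠ 0 := by
  obtain ⟨κ, a, ha, hsp, hli⟩ := exists_linearIndependent' K G.col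
  have : Finite κ := Finite.of_injective a ha
  have : Fintype κ := Fintype.ofFinite κ
  have hrk : G.rank = r := by
    have := LinearIndependent.rank_matrix h
    rwa [Fintype.card_fin] at this
  have hcard : Fintype.card κ = r := by
    have h1 := linearIndependent_iff_card_eq_finrank_span.mp hli
    rw [Set.finrank, hsp, ← Matrix.rank_eq_finrank_span_cols, hrk] at h1
    exact h1
  obtain ⟨φ⟩ : Nonempty (Fin r ≃ κ) := by
    rw [← hcard]
    exact ⟨(Fintype.equivFin κ).symm⟩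
  refine ⟨a ∘ φ, ha.comp φ.injective, ?_⟩
  have h2 : LinearIndependent K (Matrix.of fun i j : Fin r => G i ((a ∘ φ) j)).col :=
    hli.comp φ φ.injective
  have h3 := Matrix.linearIndependent_cols_iff_isUnit.1 h2
  rw [Matrix.isUnit_iff_isUnit_det] at h3
  exact h3.ne_zero

/-- If all maximal minors vanish there is a linear relation. -/
theorem exists_rel {ι : Type} [Fintype ι] [DecidableEq ι] {t : ℕ} (v : Fin t → ι → ℚ)
    (h : ∀ g : ι → Fin t, Function.Injective g → (Matrix.of fun i j : ι => v (g i) j).det = 0) :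
    ∃ φ : ι → ℚ, φ ≠ 0 ∧ ∀ j, ∑ i, φ i * v j i = 0 := by
  classical
  let e : ι ≃ Fin (Fintype.card ι) := Fintype.equivFin ι
  let G : Matrix (Fin (Fintype.card ι)) (Fin t) ℚ := Matrix.of fun i j => v j (e.symm i)
  by_cases hli : LinearIndependent ℚ G.row
  · exfalso
    obtain ⟨g, hg, hdet⟩ := exists_minor G hli
    apply hdet
    have h1 := h (fun i => g (e i)) (hg.comp e.injective)
    rw [← Matrix.det_transpose, ← Matrix.det_reindex_self e] at h1
    have e1 : (Matrix.of fun i j => G i (g j)) =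
        Matrix.reindex e e (Matrix.of fun i j => v (g (e i)) j).transpose := by
      ext i j
      simp [G]
    rw [e1]
    exact h1
  · rw [Fintype.linearIndependent_iff] at hli
    push Not at hli
    obtain ⟨c, hc, i₀, hi₀⟩ := hli
    refine ⟨fun i => c (e i), fun h0 => hi₀ ?_, fun j => ?_⟩
    · have := congrFun h0 (e.symm i₀)
      simpa using this
    · have h1 := congrFun hc j
      rw [Finset.sum_apply] at h1
      rw [← Equiv.sum_comp e.symm]
      simpa [G, Matrix.row] using h1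

theorem sum_exp (M J : ℕ) : ∑ p : Fin M × Fin 2 × Fin (J + 1),
    ((p.1 : ℕ) + p.2.1 + p.2.2) = M * (J + 1) * (M + J) := by
  have hS : ∀ n : ℕ, 2 * ∑ i : Fin n, ((i : ℕ) : ℤ) = n * (n - 1) := by
    intro n
    rw [Fin.sum_univ_eq_sum_range (fun i => ((i : ℕ) : ℤ)) n]
    induction n with
    | zero => simp
    | succ n ih =>
      rw [Finset.sum_range_succ, mul_add, ih]
      push_cast
      ring
  have h1 := hS M
  have h2 := hS (J + 1)
  zify
  rw [Fintype.sum_prod_type]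
  simp_rw [Fintype.sum_prod_type, Fin.sum_univ_two]
  simp only [Finset.sum_add_distrib, Finset.sum_const, Finset.card_univ, Fintype.card_fin,
    nsmul_eq_mul, ← Finset.mul_sum, Fin.val_zero, Fin.val_one]
  push_cast at h1 h2 ⊢
  linear_combination (J + 1 : ℤ) * h1 + (M : ℤ) * h2

end ShortAux

open ShortAux in
theorem t_Short : StmtInterp → StmtAn → StmtLin → StmtShort := by
  intro hI hA hLin M J m n ℓ Z s T hM hMm hZ hℓ hnum hT hdiam
  classical
  rcases T.eq_empty_or_nonempty with rfl | ⟨k₀, hk₀⟩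
  · simp
  have hsel : ∀ k : ℕ, ∃ (x : ℕ) (a b : ℤ), k ∈ T → Sol k s m x ∧ LabN k s m x n a b := by
    intro k
    by_cases hk : k ∈ T
    · obtain ⟨-, -, x, a, b, h1, h2⟩ := hT k hk
      exact ⟨x, a, b, fun _ => ⟨h1, h2⟩⟩
    · exact ⟨0, 0, 0, fun h => absurd h hk⟩
  choose x a b hxab using hsel
  have hm : 2 ≤ m := hM.trans hMm
  have hm' : (2 : ℝ) ≤ m := by exact_mod_cast hm
  have hM' : (2 : ℝ) ≤ M := by exact_mod_cast hM
  have hJ' : (0 : ℝ) ≤ J := Nat.cast_nonneg J
  have hℓ' : (1 : ℝ) ≤ ℓ := by exact_mod_cast hℓ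
  obtain ⟨hZ1, hZ2, -⟩ := hT k₀ hk₀
  obtain ⟨N, hN⟩ : ∃ N : ℝ, N = 2 * k₀ + 1 := ⟨_, rfl⟩
  have hNc : (2 * (k₀ : ℂ) + 1) = (N : ℂ) := by rw [hN]; push_cast; rfl
  have hZN : (Z : ℝ) ≤ N := by rw [hN]; exact_mod_cast hZ1
  have hN2Z : N ≤ 2 * Z := by
    rw [hN]
    have : (2 * k₀ + 1 : ℕ) ≤ 2 * Z := hZ2.le
    exact_mod_cast this
  have hZ' : 80 * (m : ℝ) ≤ Z := by exact_mod_cast hZ
  obtain ⟨n', hn'⟩ : ∃ n' : ℕ, n' = 2 * M * (J + 1) := ⟨_, rfl⟩
  have hn'r : (n' : ℝ) = 2 * M * (J + 1) := by rw [hn']; push_cast; ring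
  have hn4 : 4 ≤ n' := by
    rw [hn']
    nlinarith
  have hn4' : (4 : ℝ) ≤ n' := by exact_mod_cast hn4
  rw [← hn'r] at hnum
  set w : ℝ := (8 * Z : ℝ) ^ (((M + J : ℕ) : ℝ) / (n' - 1)) with hw
  have h8Z : (1 : ℝ) ≤ 8 * Z := by linarith
  have hw1 : 1 ≤ w := Real.one_le_rpow h8Z (div_nonneg (Nat.cast_nonneg _) (by linarith))
  have hZ0 : (0 : ℝ) < Z := by linarith
  have hmℓ : (0 : ℝ) < (m : ℝ) * ℓ := by positivity
  have hsmall : 64 * (n' : ℝ) * m * ℓ < Z := by
    refine lt_of_le_of_lt ?_ hnum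
    exact le_mul_of_one_le_right (by positivity) hw1
  have hN0 : 0 < N := by linarith
  -- radius
  obtain ⟨r, hr⟩ : ∃ r : ℝ, r = N / (8 * m) := ⟨_, rfl⟩
  have hr0 : 0 < r := by rw [hr]; positivity
  have hℓr : (ℓ : ℝ) ≤ r / 2 := by
    rw [hr, div_div, le_div_iff₀ (by positivity)]
    nlinarith
  have hr2 : r / 2 = N / (16 * m) := by rw [hr, div_div]; congr 1; ring
  obtain ⟨fa, fb, hfa, hfb, hsph, hfab⟩ := hA k₀ s m (x k₀) n (a k₀) (b k₀) (hxab k₀ hk₀).1
    (hxab k₀ hk₀).2 (by omega)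
  rw [← hN, hNc, ← hr] at hfa hfb hsph
  have hval : ∀ k ∈ T, fa (2 * k + 1) = a k ∧ fb (2 * k + 1) = b k := by
    intro k hk
    refine hfab k (x k) (a k) (b k) ?_ (hxab k hk).1 (hxab k hk).2.lab
    rw [← hN, ← hr2]
    refine le_trans ?_ hℓr
    exact_mod_cast hdiam k hk k₀ hk₀
  -- enumeration of `T`
  let eT : Fin T.card ≃ T := T.equivFin.symm
  let κ : Fin T.card → ℕ := fun j => (eT j : ℕ)
  have hκ : ∀ j, κ j ∈ T := fun j => (eT j).2
  have hκi : Function.Injective κ := fun i j hij => eT.injective (Subtype.ext hij)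
  let v : Fin T.card → (Fin M × Fin 2 × Fin (J + 1)) → ℚ := fun j p =>
    (2 * (κ j : ℚ) + 1) ^ (p.1 : ℕ) * (a (κ j) : ℚ) ^ (p.2.1 : ℕ) * (b (κ j) : ℚ) ^ (p.2.2 : ℕ)
  obtain ⟨φ, hφ0, hφ⟩ := exists_rel v (by
    intro g hg
    -- the integral matrix
    let B : Matrix (Fin M × Fin 2 × Fin (J + 1)) (Fin M × Fin 2 × Fin (J + 1)) ℤ :=
      Matrix.of fun i p => (2 * (κ (g i) : ℤ) + 1) ^ (p.1 : ℕ) * (a (κ (g i))) ^ (p.2.1 : ℕ) *
        (b (κ (g i))) ^ (p.2.2 : ℕ)
    have hBv : (Matrix.of fun i j : Fin M × Fin 2 × Fin (J + 1) => v (g i) j) =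
        B.map (Int.castRingHom ℚ) := by
      ext i p
      simp [B, v]
    rw [hBv, ← RingHom.mapMatrix_apply, ← RingHom.map_det]
    have hcard : Fintype.card (Fin M × Fin 2 × Fin (J + 1)) = n' := by
      rw [hn']
      simp [mul_assoc, mul_left_comm]
    let e : Fin n' ⊕ Fin 0 ≃ Fin M × Fin 2 × Fin (J + 1) :=
      (Equiv.sumEmpty (Fin n') (Fin 0)).trans (Fintype.equivFinOfCardEq hcard).symm
    let f : Fin n' ⊕ Fin 0 → ℂ → ℂ := fun q z =>
      z ^ ((e q).1 : ℕ) * fa z ^ ((e q).2.1 : ℕ) * fb z ^ ((e q).2.2 : ℕ)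
    let xx : Fin n' → ℂ := fun i => 2 * (κ (g (e (Sum.inl i))) : ℂ) + 1
    let A : Matrix (Fin n' ⊕ Fin 0) (Fin n' ⊕ Fin 0) ℂ :=
      (B.map (Int.castRingHom ℂ)).submatrix e e
    have hd : ∀ q, DiffContOnCl ℂ (f q) (Metric.ball (N : ℂ) r) := fun q =>
      ⟨((differentiableOn_id.pow _).mul (hfa.1.pow _)).mul (hfb.1.pow _),
        ((continuousOn_id.pow _).mul (hfa.2.pow _)).mul (hfb.2.pow _)⟩
    have hsp : ∀ q, ∀ z ∈ Metric.sphere (N : ℂ) r,
        ‖f q z‖ ≤ (4 * N) ^ (((e q).1 : ℕ) + (e q).2.1 + (e q).2.2) := by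
      intro q z hz
      obtain ⟨h1, h2⟩ := hsph z hz
      have h3 : ‖z‖ ≤ 4 * N := by
        rw [mem_sphere_iff_norm] at hz
        have hNn : ‖(N : ℂ)‖ = N := by
          rw [Complex.norm_real, Real.norm_eq_abs, abs_of_pos hN0]
        have h4 : ‖z‖ ≤ ‖(N : ℂ)‖ + ‖z - N‖ := by
          have : z = N + (z - N) := by ring
          calc ‖z‖ = ‖N + (z - N)‖ := by rw [← this]
            _ ≤ _ := norm_add_le _ _
        have h5 : r ≤ N := by
          rw [hr]
          exact div_le_self hN0.le (by linarith)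
        rw [hNn, hz] at h4
        linarith
      show ‖z ^ ((e q).1 : ℕ) * fa z ^ ((e q).2.1 : ℕ) * fb z ^ ((e q).2.2 : ℕ)‖ ≤ _
      rw [norm_mul, norm_mul, norm_pow, norm_pow, norm_pow, pow_add, pow_add]
      gcongr
    have hxi : Function.Injective xx := by
      intro i j hij
      simp only [xx] at hij
      have h1 : (κ (g (e (Sum.inl i))) : ℂ) = κ (g (e (Sum.inl j))) := by linear_combination hij / 2
      have h2 := hκi (Nat.cast_injective h1)
      have h3 := e.injective (hg h2)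
      exact Sum.inl_injective h3
    have hxd : ∀ i, dist (xx i) (N : ℂ) ≤ ℓ := by
      intro i
      rw [dist_eq_norm]
      have e1 : xx i - N = ((2 * (κ (g (e (Sum.inl i))) : ℝ) - 2 * k₀ : ℝ) : ℂ) := by
        simp only [xx]
        rw [hN]
        push_cast
        ring
      rw [e1, Complex.norm_real, Real.norm_eq_abs]
      exact_mod_cast hdiam _ (hκ _) k₀ hk₀
    have hAl : ∀ i q, A (Sum.inl i) q = f q (xx i) := by
      intro i q
      obtain ⟨h1, h2⟩ := hval _ (hκ (g (e (Sum.inl i))))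
      simp only [A, f, xx, Matrix.submatrix_apply, Matrix.map_apply, B, Matrix.of_apply, h1, h2,
        Int.coe_castRingHom]
      push_cast
      rfl
    have hInt := hI n' (Fin 0) f (N : ℂ) r ℓ 0
      (fun q => (4 * N) ^ (((e q).1 : ℕ) + (e q).2.1 + (e q).2.2)) xx A
      (by linarith) (by linarith) le_rfl (fun q => by positivity) hd hsp hxi hxd hAl
      (fun b => b.elim0)
    have hdetA : A.det = ((B.det : ℤ) : ℂ) := by
      show ((B.map (Int.castRingHom ℂ)).submatrix e e).det = _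
      rw [Matrix.det_submatrix_equiv_self, ← RingHom.mapMatrix_apply, ← RingHom.map_det]
      simp
    rw [hdetA] at hInt
    have hnorm : ‖((B.det : ℤ) : ℂ)‖ = |((B.det : ℤ) : ℝ)| := by
      rw [← Complex.ofReal_intCast, Complex.norm_real, Real.norm_eq_abs]
    rw [hnorm] at hInt
    by_contra hB
    have hB' : B.det ≠ 0 := by
      intro h
      apply hB
      rw [h]
      simp
    have hB1 : (1 : ℝ) ≤ |((B.det : ℤ) : ℝ)| := by
      rw [← Int.cast_abs]
      exact_mod_cast Int.one_le_abs hB'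
    -- the upper bound is less than one
    have hprod : ∏ q, (4 * N) ^ (((e q).1 : ℕ) + (e q).2.1 + (e q).2.2) =
        (4 * N) ^ (M * (J + 1) * (M + J)) := by
      rw [Finset.prod_pow_eq_pow_sum, Equiv.sum_comp e
        (fun p : Fin M × Fin 2 × Fin (J + 1) => (p.1 : ℕ) + p.2.1 + p.2.2), sum_exp]
    rw [hprod] at hInt
    have hcard' : Fintype.card (Fin n' ⊕ Fin 0) = n' := by simp
    rw [hcard', Fintype.card_fin, pow_zero, mul_one] at hInt
    set E : ℕ := n' * (n' - 1) / 2 with hE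
    have hE2 : 2 * E = n' * (n' - 1) := by
      rw [hE]
      exact Nat.two_mul_div_two_of_even (Nat.even_mul_pred_self n')
    have hE2r : 2 * (E : ℝ) = n' * (n' - 1) := by
      have h1 : ((2 * E : ℕ) : ℝ) = ((n' * (n' - 1) : ℕ) : ℝ) := by rw [hE2]
      rw [Nat.cast_mul, Nat.cast_mul, Nat.cast_sub (by omega)] at h1
      simpa using h1
    have hEn : n' ≤ E := by
      have : 2 * n' ≤ n' * (n' - 1) := by
        have h3 : 3 ≤ n' - 1 := by omega
        nlinarith
      omega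
    -- factor by factor
    have f1 : ((n').factorial : ℝ) ≤ (n' : ℝ) ^ n' := by
      exact_mod_cast Nat.factorial_le_pow n'
    have hrr : r / (r - ℓ) ≤ 2 := by
      rw [div_le_iff₀ (by linarith)]
      linarith
    have f2 : (r / (r - ℓ)) ^ n' ≤ 2 ^ n' :=
      pow_le_pow_left₀ (div_nonneg hr0.le (by linarith)) hrr n'
    have h4 : 2 * (ℓ : ℝ) / (r - ℓ) ≤ 32 * m * ℓ / Z := by
      have h5 : 2 * (ℓ : ℝ) / (r - ℓ) ≤ 2 * ℓ / (r / 2) := by
        apply div_le_div_of_nonneg_left (by positivity) (by positivity) (by linarith)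
      refine h5.trans ?_
      rw [hr2, div_div_eq_mul_div]
      have h6 : 2 * (ℓ : ℝ) * (16 * m) = 32 * m * ℓ := by ring
      rw [h6]
      apply div_le_div_of_nonneg_left (by positivity) hZ0 hZN
    have f3 : (2 * (ℓ : ℝ) / (r - ℓ)) ^ E ≤ (32 * m * ℓ / Z) ^ E :=
      pow_le_pow_left₀ (div_nonneg (by positivity) (by linarith)) h4 E
    have f4 : (4 * N) ^ (M * (J + 1) * (M + J)) ≤ w ^ E := by
      have h5 : (4 * N) ^ (M * (J + 1) * (M + J)) ≤ (8 * Z : ℝ) ^ (M * (J + 1) * (M + J)) :=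
        pow_le_pow_left₀ (by linarith) (by linarith) _
      refine h5.trans (le_of_eq ?_)
      rw [hw, ← Real.rpow_natCast, ← Real.rpow_natCast, ← Real.rpow_mul (by linarith)]
      congr 1
      have h6 : (n' : ℝ) - 1 ≠ 0 := by linarith
      have h7 : (E : ℝ) = n' * (n' - 1) / 2 := by linarith
      have h8 : ((M + J : ℕ) : ℝ) / (n' - 1) * (n' * (n' - 1) / 2) =
          ((M + J : ℕ) : ℝ) * n' / 2 := by field_simp
      rw [h7, h8, hn'r]
      push_cast
      ring
    have f5 : (n' : ℝ) ^ n' * 2 ^ n' ≤ (2 * n') ^ E := by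
      rw [← mul_pow, mul_comm]
      exact pow_le_pow_right₀ (by linarith) hEn
    have hfin : ((n').factorial : ℝ) * (4 * N) ^ (M * (J + 1) * (M + J)) *
        (r / (r - ℓ)) ^ n' * (2 * (ℓ : ℝ) / (r - ℓ)) ^ E < 1 := by
      have hN0 : 0 < N := by linarith
      calc ((n').factorial : ℝ) * (4 * N) ^ (M * (J + 1) * (M + J)) *
          (r / (r - ℓ)) ^ n' * (2 * (ℓ : ℝ) / (r - ℓ)) ^ E
          ≤ (n' : ℝ) ^ n' * w ^ E * 2 ^ n' * (32 * m * ℓ / Z) ^ E := by
            have g1 : (0 : ℝ) ≤ (r / (r - ℓ)) ^ n' :=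
              pow_nonneg (div_nonneg hr0.le (by linarith)) _
            have g2 : (0 : ℝ) ≤ (2 * (ℓ : ℝ) / (r - ℓ)) ^ E :=
              pow_nonneg (div_nonneg (by positivity) (by linarith)) _
            gcongr
        _ = ((n' : ℝ) ^ n' * 2 ^ n') * (w ^ E * (32 * m * ℓ / Z) ^ E) := by ring
        _ ≤ (2 * n') ^ E * (w ^ E * (32 * m * ℓ / Z) ^ E) :=
            mul_le_mul_of_nonneg_right f5 (by positivity)
        _ = (64 * n' * m * ℓ * w / Z) ^ E := by
            rw [← mul_pow, ← mul_pow]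
            congr 1
            ring
        _ < 1 := by
            apply pow_lt_one₀ (by positivity) _ (by omega)
            rw [div_lt_one hZ0]
            exact hnum
    linarith)
  exact hLin M J m n s φ T hM hMm hφ0 fun k hk => by
    obtain ⟨j, hj⟩ : ∃ j, κ j = k := ⟨eT.symm ⟨k, hk⟩, by simp [κ]⟩
    refine ⟨x k, a k, b k, (hxab k hk).1, (hxab k hk).2.lab, ?_⟩
    have := hφ j
    simp only [v, hj] at this
    rw [← this]
    refine Finset.sum_congr rfl fun p _ => ?_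
    ring

end Pool.Agent.DKP
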