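import Pool.Agent.DKP.St

/-!
# MP_a79b85_nt: sizes (module Small)
-/

set_option autoImplicit false

namespace Pool.Agent.DKP

namespace SmallAux

lemma bound {s N : ℤ} (hs : -1 ≤ s) (hs1 : s ≤ 1) (hN : 1 ≤ N) (m : ℕ) :
    (1 ≤ YY s N m ∧ YY s N m ≤ (2 * N + 1) ^ m) ∧
      (1 ≤ YY s N (m + 1) ∧ YY s N (m + 1) ≤ (2 * N + 1) ^ (m + 1)) := by
  induction m with
  | zero =>
    simp only [YY, pow_zero, zero_add, pow_one]
    refine ⟨⟨le_refl _, le_refl _⟩, by linarith, by linarith⟩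
  | succ m ih =>
    refine ⟨ih.2, ?_, ?_⟩
    · show 1 ≤ 2 * N * YY s N (m + 1) + YY s N m
      have h1 := ih.1.1
      have h2 := ih.2.1
      nlinarith
    · show 2 * N * YY s N (m + 1) + YY s N m ≤ (2 * N + 1) ^ (m + 1 + 1)
      have h1 := ih.1.2
      have h2 := ih.2.2
      have h3 : (0 : ℤ) ≤ (2 * N + 1) ^ m := by positivity
      have h4 : 2 * N * YY s N (m + 1) ≤ 2 * N * (2 * N + 1) ^ (m + 1) :=
        mul_le_mul_of_nonneg_left h2 (by linarith)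
      have h5 : (2 * N + 1) ^ (m + 1 + 1) =
          2 * N * (2 * N + 1) ^ (m + 1) + (2 * N + 1) ^ m + 2 * N * (2 * N + 1) ^ m := by ring
      have h6 : 0 ≤ 2 * N * (2 * N + 1) ^ m := by positivity
      linarith

end SmallAux

theorem t_Small : StmtSmall := by
  intro k s m x d hS hd
  have hk : (1 : ℤ) ≤ k := by exact_mod_cast hS.hk
  have hs : -1 ≤ s ∧ s ≤ 1 := by
    rcases hS.hs with h | h <;> omega
  have hb := (SmallAux.bound (s := s) (N := 2 * (k : ℤ) + 1) hs.1 hs.2 (by linarith) m).1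
  have h1 : YY s (2 * (k : ℤ) + 1) m ≤ (7 * (k : ℤ)) ^ m :=
    hb.2.trans (pow_le_pow_left₀ (by linarith) (by linarith) m)
  have h2 : YY s (2 * (k : ℤ) + 1) m ^ 2 ≤ (7 * (k : ℤ)) ^ (2 * m) := by
    rw [mul_comm 2 m, pow_mul]
    exact pow_le_pow_left₀ (by linarith [hb.1]) h1 2
  have h3 : (1 : ℤ) ≤ (7 * (k : ℤ)) ^ (2 * m) := one_le_pow₀ (by linarith)
  linarith

end Pool.Agent.DKP
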