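import Pool.Agent.DKP.St

/-!
# DKP, part TL: lower bound for a linear form in two logarithms
-/

set_option autoImplicit false

open Finset

namespace Pool.Agent.DKP

namespace TLAux

/-- A matrix with linearly independent rows has a nonzero maximal minor. -/
theorem exists_minor {ι κ : Type} [Fintype ι] [DecidableEq ι] [Fintype κ]
    (G : Matrix ι κ ℝ) (h : LinearIndependent ℝ G.row) :
    ∃ g : ι → κ, Function.Injective g ∧
      (Matrix.of fun i j : ι => G i (g j)).det ≠ 0 := by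
  obtain ⟨μ, a, ha, hsp, hli⟩ := exists_linearIndependent' ℝ G.col
  have : Finite μ := Finite.of_injective a ha
  have : Fintype μ := Fintype.ofFinite μ
  have hrk : G.rank = Fintype.card ι := LinearIndependent.rank_matrix h
  have hcard : Fintype.card μ = Fintype.card ι := by
    have h1 := linearIndependent_iff_card_eq_finrank_span.mp hli
    rw [Set.finrank, hsp, ← Matrix.rank_eq_finrank_span_cols, hrk] at h1
    exact h1
  obtain ⟨φ⟩ : Nonempty (ι ≃ μ) := ⟨Fintype.equivOfCardEq hcard.symm⟩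
  refine ⟨a ∘ φ, ha.comp φ.injective, ?_⟩
  have h2 : LinearIndependent ℝ (Matrix.of fun i j : ι => G i ((a ∘ φ) j)).col :=
    hli.comp φ φ.injective
  have h3 := Matrix.linearIndependent_cols_iff_isUnit.1 h2
  rw [Matrix.isUnit_iff_isUnit_det] at h3
  exact h3.ne_zero

/-- the points with a nonzero determinant -/
theorem points (hZ : StmtZero) (K L R S q : ℕ) (a b X : ℝ) (hK : 1 ≤ K) (ha : 0 < a)
    (ha1 : a ≠ 1) (hb : 0 < b) (hS : S ≤ q) (hKL : (K - 1) * L < R * S) (hX : 0 < X) :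
    ∃ rr ss : Fin K × Fin L → ℕ, (∀ j, rr j < R ∧ ss j < S + L) ∧
      (∀ i j, rr i = rr j → ss i = ss j → i = j) ∧ (EM K L q X a b rr ss).det ≠ 0 := by
  classical
  let G : Matrix (Fin K × Fin L) (Fin R × Fin (S + L)) ℝ := fun φ j =>
    (((j.2 : ℕ) : ℝ) - q * ((j.1 : ℕ) : ℝ)) ^ (φ.1 : ℕ) *
      (a ^ (j.2 : ℕ) * b ^ (j.1 : ℕ)) ^ (φ.2 : ℕ)
  have hli : LinearIndependent ℝ G.row := by
    rw [Fintype.linearIndependent_iff]
    intro g hg
    have h0 : (fun (k : Fin K) (l : Fin L) => g (k, l)) = 0 := by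
      refine hZ K L R S q a b (fun k l => g (k, l)) hK ha ha1 hb hS hKL ?_
      intro r s hr hs
      have h1 := congrFun hg (⟨r, hr⟩, ⟨s, hs⟩)
      rw [Finset.sum_apply, Fintype.sum_prod_type] at h1
      simpa [G, Matrix.row, mul_assoc] using h1
    rintro ⟨k, l⟩
    exact congrFun (congrFun h0 k) l
  obtain ⟨g, hg, hdet⟩ := exists_minor G hli
  refine ⟨fun j => ((g j).1 : ℕ), fun j => ((g j).2 : ℕ), fun j => ⟨(g j).1.2, (g j).2.2⟩,
    ?_, ?_⟩
  · intro i j h1 h2
    exact hg (Prod.ext (Fin.ext h1) (Fin.ext h2))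
  · have hEM : EM K L q X a b (fun j => ((g j).1 : ℕ)) (fun j => ((g j).2 : ℕ)) =
        Matrix.of fun j φ => (X⁻¹ ^ (φ.1 : ℕ)) *
          ((Matrix.of fun i j : Fin K × Fin L => G i (g j)).transpose) j φ := by
      ext j φ
      simp only [EM, Matrix.of_apply, Matrix.transpose_apply, G]
      rw [div_eq_mul_inv, mul_pow]
      ring
    rw [hEM, Matrix.det_mul_row, Matrix.det_transpose]
    refine mul_ne_zero ?_ hdet
    exact Finset.prod_ne_zero_iff.2 fun φ _ => pow_ne_zero _ (inv_ne_zero hX.ne')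

/-- the final numerical contradiction -/
theorem final (n K lX lc lu ln : ℝ) (hn : 10 ^ 10 ≤ n) (hK : K ≤ n / 100)
    (hlX : K * lX ≤ n / 16) (hlc : lc ≤ 8 * n / 1000) (hlu : lu ≤ 3 * n / 1000)
    (hln : ln ≤ n / 100 + 99)
    (h : 0 ≤ 1 + 4 * ln + (K + 1) * 3 + 16 * lc - (n - 1) + 4 * (K * lX) + 4 * lu) :
    False := by
  linarith

/-- combining the two bounds -/
theorem combine (n K lf ld lX ln lc lu l2 l16 : ℝ)
    (hl1 : ld ≤ n * l2 + lf + n * ((K + 1) * l16 + 16 * lc) - n * (n - 1))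
    (hl2 : 0 ≤ ld + 4 * K * n * lX + 3 * lf + 4 * n * lu) (hlf : lf ≤ n * ln)
    (h16 : n * ((K + 1) * l16) ≤ n * ((K + 1) * 3)) (h2 : n * l2 ≤ n * 1) :
    0 ≤ n * (1 + 4 * ln + (K + 1) * 3 + 16 * lc - (n - 1) + 4 * (K * lX) + 4 * lu) := by
  linarith

theorem log_sixteen : Real.log 16 ≤ 3 := by
  have h1 : Real.log 16 = 4 * Real.log 2 := by
    rw [show (16 : ℝ) = 2 ^ 4 by norm_num, Real.log_pow]; norm_num
  have := Real.log_two_lt_d9
  linarith

theorem log_small (n : ℝ) (hn : 10 ^ 10 ≤ n) : Real.log n ≤ n / 100 + 99 := by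
  have hn0 : 0 < n := lt_of_lt_of_le (by norm_num) hn
  have h1 : Real.log n = Real.log (n / 100) + Real.log 100 := by
    rw [← Real.log_mul (by positivity) (by norm_num)]
    congr 1
    ring
  have h2 := Real.log_le_sub_one_of_pos (show 0 < n / 100 by positivity)
  have h3 := Real.log_le_sub_one_of_pos (show (0 : ℝ) < 100 by norm_num)
  linarith

theorem log_fact (n : ℕ) : Real.log (n.factorial : ℝ) ≤ n * Real.log n := by
  rw [← Real.log_pow]
  apply Real.log_le_log (by exact_mod_cast n.factorial_pos)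
  exact_mod_cast Nat.factorial_le_pow n

end TLAux

open TLAux in
theorem t_TL : StmtZero → StmtUp → StmtLio → StmtTL := by
  intro hZ hUp hLio O hO u v w hu hv hw hu0 hu1 hv0 hw0 H1 H2 L q hH1 hH2 hL hq hsz hvw hqL hlog
  by_contra hcon
  push Not at hcon
  set a : ℝ := u 0 with ha
  set b : ℝ := v 0 / w 0 with hb
  have hb0 : 0 < b := div_pos hv0 hw0
  set K : ℕ := 10 ^ 6 * L * H1 * H2 with hKdef
  set R : ℕ := 1000 * L * H1 with hRdef
  set S : ℕ := 1000 * L * H2 with hSdef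
  set X : ℝ := 4000 * L * H1 * q with hXdef
  have hL0 : 1 ≤ L := by omega
  have hK1 : 1 ≤ K := by
    rw [hKdef]
    have : 0 < 10 ^ 6 * L * H1 * H2 := by positivity
    exact this
  have hRS : R * S = K * L := by rw [hRdef, hSdef, hKdef]; ring
  have hKL : (K - 1) * L < R * S := by
    rw [hRS]
    exact Nat.mul_lt_mul_of_pos_right (by omega) (by omega)
  have hSLq : S + L ≤ q := by
    have : L ≤ 1000 * L * H2 := by nlinarith
    have h2 : 2000 * L * H2 = 1000 * L * H2 + 1000 * L * H2 := by ring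
    omega
  have hSq : S ≤ q := by omega
  have hLr : (100 : ℝ) ≤ L := by exact_mod_cast hL
  have hH1r : (1 : ℝ) ≤ H1 := by exact_mod_cast hH1
  have hH2r : (1 : ℝ) ≤ H2 := by exact_mod_cast hH2
  have hqr : (1 : ℝ) ≤ q := by exact_mod_cast hq
  have hX1 : 1 ≤ X := by
    rw [hXdef]
    have h1 : (1 : ℝ) ≤ 4000 * L := by linarith
    have h2 : (1 : ℝ) ≤ 4000 * L * H1 := one_le_mul_of_one_le_of_one_le h1 hH1r
    exact one_le_mul_of_one_le_of_one_le h2 hqr
  have hX0 : 0 < X := by linarith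
  obtain ⟨rr, ss, hlt, hinj, hdet⟩ := points hZ K L R S q a b X hK1 hu0 hu1 hb0 hSq hKL hX0
  have hRr : (R : ℝ) = 1000 * L * H1 := by rw [hRdef]; push_cast; ring
  have hSr : (S : ℝ) = 1000 * L * H2 := by rw [hSdef]; push_cast; ring
  have hKr : (K : ℝ) = 10 ^ 6 * L * H1 * H2 := by rw [hKdef]; push_cast; ring
  have hqX : (q : ℝ) * R + (S + L : ℕ) ≤ X := by
    have h1 : ((S + L : ℕ) : ℝ) ≤ q := by exact_mod_cast hSLq
    have h2 : (q : ℝ) ≤ q * (L * H1) := by
      have : (1 : ℝ) ≤ L * H1 := one_le_mul_of_one_le_of_one_le (by linarith) hH1r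
      nlinarith
    rw [hXdef, hRr]
    have h3 : 0 ≤ (q : ℝ) * (L * H1) := by positivity
    nlinarith
  -- the number `n`
  set n : ℕ := K * L with hn
  have hnr : (n : ℝ) = 10 ^ 6 * (L : ℝ) ^ 2 * H1 * H2 := by
    rw [hn]; push_cast; rw [hKr]; ring
  have hH12 : (1 : ℝ) ≤ (H1 : ℝ) * H2 := one_le_mul_of_one_le_of_one_le hH1r hH2r
  have hn10 : (10 : ℝ) ^ 10 ≤ n := by
    rw [hnr]
    have h1 : (100 : ℝ) ^ 2 ≤ (L : ℝ) ^ 2 := by gcongr
    have h2 : (10 : ℝ) ^ 6 * (L : ℝ) ^ 2 * H1 * H2 = 10 ^ 6 * ((L : ℝ) ^ 2 * (H1 * H2)) := by ring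
    rw [h2]
    have h3 : (100 : ℝ) ^ 2 * 1 ≤ (L : ℝ) ^ 2 * (H1 * H2) := by gcongr
    nlinarith
  have hn0 : (0 : ℝ) < n := lt_of_lt_of_le (by norm_num) hn10
  have hnK : (K : ℝ) * L = n := by rw [hn]; push_cast; ring
  have hcon' : |q * Real.log a + Real.log b| < Real.exp (-(3 * n)) := by
    have h1 : 3 * 10 ^ 6 * (L : ℝ) ^ 2 * H1 * H2 = 3 * (n : ℝ) := by rw [hnr]; ring
    rwa [h1] at hcon
  have hLam : 2 * (L : ℝ) * R * |q * Real.log a + Real.log b| ≤
      Real.exp (-(2 * (K * L : ℕ))) := by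
    have h1 : 2 * (L : ℝ) * R ≤ n := by
      rw [hRr, hnr]
      have h0 : (0 : ℝ) ≤ (L : ℝ) ^ 2 * H1 := by positivity
      have h2 : (L : ℝ) ^ 2 * H1 * 1 ≤ (L : ℝ) ^ 2 * H1 * H2 := by gcongr
      nlinarith
    have h2 : (n : ℝ) ≤ Real.exp n := by
      have := Real.add_one_le_exp (n : ℝ)
      linarith
    have h3 : Real.exp n * Real.exp (-(3 * n)) = Real.exp (-(2 * (K * L : ℕ))) := by
      rw [← Real.exp_add]
      congr 1
      rw [← hn]
      ring
    rw [← h3]
    exact mul_le_mul (h1.trans h2) hcon'.le (abs_nonneg _) (Real.exp_pos _).le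
  have hup := hUp K L R (S + L) q a b X rr ss hK1 hL0 hu0 hb0 hX0 hlt hSLq hinj hqX hLam
  have hlio := hLio O hO u v w hu hv hw hu0 hv0 hw0 K L R (S + L) q H1 H2 X rr ss hK1 hL0 hX1
    hsz hlt hqX hdet
  rw [← hn] at hup hlio
  rw [← ha, ← hb] at hlio
  set d : ℝ := |(EM K L q X a b rr ss).det| with hd
  have hd0 : 0 < d := abs_pos.2 hdet
  have hfac : (0 : ℝ) < (n.factorial : ℝ) := by exact_mod_cast n.factorial_pos
  -- take logarithms
  have hl1 : Real.log d ≤ n * Real.log 2 + Real.log (n.factorial : ℝ) +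
      n * ((K + 1 : ℕ) * Real.log 16 + 16 * (L * |Real.log a| * X)) - n * (n - 1) := by
    have h1 := Real.log_le_log hd0 hup
    rw [Real.log_mul (by positivity) (Real.exp_pos _).ne', Real.log_exp,
      Real.log_mul (by positivity) (by positivity), Real.log_mul (by positivity) (by positivity),
      Real.log_pow, Real.log_pow, Real.log_mul (by positivity) (Real.exp_pos _).ne',
      Real.log_exp, Real.log_pow] at h1
    linarith
  have hl2 : 0 ≤ Real.log d + (4 * K * n : ℕ) * Real.log X + 3 * Real.log (n.factorial : ℝ) +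
      (4 * n * L * (R * H2 + (S + L) * H1) : ℕ) := by
    have h1 := Real.log_le_log one_pos hlio
    rw [Real.log_one, Real.log_mul (by positivity) (Real.exp_pos _).ne', Real.log_exp,
      Real.log_mul (by positivity) (by positivity), Real.log_mul (by positivity) (by positivity),
      Real.log_pow, Real.log_pow] at h1
    push_cast at h1 ⊢
    linarith
  have hlf := log_fact n
  -- the bound for `c`
  have hc : (q : ℝ) * |Real.log a| ≤ 2 * H2 := by
    have h1 : (q : ℝ) * |Real.log a| = |q * Real.log a| := by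
      rw [abs_mul, abs_of_nonneg (by linarith : (0 : ℝ) ≤ q)]
    have h2 : |q * Real.log a| ≤ |q * Real.log a + Real.log b| + |Real.log b| := by
      have := abs_sub (q * Real.log a + Real.log b) (Real.log b)
      rwa [add_sub_cancel_right] at this
    have h3 : Real.exp (-(3 * n)) ≤ 1 := by
      rw [Real.exp_le_one_iff]
      linarith
    rw [h1]
    linarith
  have hlc : L * |Real.log a| * X ≤ 8 * n / 1000 := by
    have h1 : L * |Real.log a| * X = 4000 * (L : ℝ) ^ 2 * H1 * (q * |Real.log a|) := by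
      rw [hXdef]; ring
    have h2 : 4000 * (L : ℝ) ^ 2 * H1 * (q * |Real.log a|) ≤
        4000 * (L : ℝ) ^ 2 * H1 * (2 * H2) := by gcongr
    rw [h1]
    refine h2.trans (le_of_eq ?_)
    rw [hnr]
    ring
  have hlu : (L : ℝ) * (R * H2 + (S + L) * H1) ≤ 3 * n / 1000 := by
    rw [hRr, hSr, hnr]
    have h2 : (L : ℝ) ^ 2 * H1 * 1 ≤ (L : ℝ) ^ 2 * H1 * H2 := by gcongr
    nlinarith
  have hKn : (K : ℝ) ≤ n / 100 := by
    rw [← hnK]
    have : (0 : ℝ) ≤ K := by positivity
    nlinarith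
  have hlX : (K : ℝ) * Real.log X ≤ n / 16 := by
    rw [← hnK]
    have h0 : (0 : ℝ) ≤ K := by positivity
    have h1 : 16 * Real.log X ≤ L := hlog
    nlinarith
  have hls := log_small n hn10
  refine final n K (Real.log X) (L * |Real.log a| * X) (L * (R * H2 + (S + L) * H1))
    (Real.log n) hn10 hKn hlX hlc hlu hls ?_
  -- divide by `n`
  have hmul : 0 ≤ n * (1 + 4 * Real.log n + (K + 1) * 3 + 16 * (L * |Real.log a| * X) - (n - 1) +
      4 * (K * Real.log X) + 4 * (L * (R * H2 + (S + L) * H1))) := by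
    have h16 : (n : ℝ) * ((K + 1) * Real.log 16) ≤ n * ((K + 1) * 3) := by
      have := log_sixteen
      gcongr
    have h2 : (n : ℝ) * Real.log 2 ≤ n * 1 := by
      have := Real.log_two_lt_d9
      gcongr
      linarith
    push_cast at hl1 hl2
    refine combine n K _ _ _ _ _ _ _ _ hl1 ?_ hlf h16 h2
    refine hl2.trans (le_of_eq ?_)
    ring
  exact (mul_nonneg_iff_of_pos_left hn0).1 hmul

end Pool.Agent.DKP
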