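import Pool.Agent.DKP.St

/-!
# The zero estimate (module Zero)
-/

set_option autoImplicit false

open Finset Polynomial

namespace Pool.Agent.DKP

namespace ZeroAux

/-- The coefficient polynomial of `θ ^ l`. -/
noncomputable def pl {K L : ℕ} (p : Fin K → Fin L → ℝ) (l : Fin L) : ℝ[X] :=
  ∑ k : Fin K, C (p k l) * X ^ (k : ℕ)

lemma eval_pl {K L : ℕ} (p : Fin K → Fin L → ℝ) (l : Fin L) (x : ℝ) :
    (pl p l).eval x = ∑ k : Fin K, p k l * x ^ (k : ℕ) := by
  simp [pl, eval_finsetSum]

lemma coeff_pl {K L : ℕ} (p : Fin K → Fin L → ℝ) (l : Fin L) (k : Fin K) :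
    (pl p l).coeff k = p k l := by
  classical
  simp only [pl, finsetSum_coeff, coeff_C_mul, coeff_X_pow]
  rw [Finset.sum_eq_single k]
  · simp
  · intro b _ hb
    rw [if_neg (fun h => hb (Fin.ext h.symm)), mul_zero]
  · intro h
    exact absurd (Finset.mem_univ k) h

lemma natDegree_pl {K L : ℕ} (p : Fin K → Fin L → ℝ) (l : Fin L) :
    (pl p l).natDegree ≤ K - 1 := by
  unfold pl
  refine natDegree_sum_le_of_forall_le _ _ fun k _ => ?_
  refine (natDegree_C_mul_X_pow_le _ _).trans ?_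
  omega

/-- The zero polynomials replaced by `1`. -/
noncomputable def ql {K L : ℕ} (p : Fin K → Fin L → ℝ) (l : Fin L) : ℝ[X] := by
  classical
  exact if pl p l = 0 then 1 else pl p l

lemma ql_ne {K L : ℕ} (p : Fin K → Fin L → ℝ) (l : Fin L) : ql p l ≠ 0 := by
  classical
  unfold ql
  split_ifs with h
  · exact one_ne_zero
  · exact h

lemma natDegree_ql {K L : ℕ} (p : Fin K → Fin L → ℝ) (l : Fin L) :
    (ql p l).natDegree ≤ K - 1 := by
  classical
  unfold ql
  split_ifs with h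
  · simp
  · exact natDegree_pl p l

/-- The determinant. -/
noncomputable def dl {K L : ℕ} (p : Fin K → Fin L → ℝ) (a : ℝ) : ℝ[X] :=
  (Matrix.of fun j l : Fin L => taylor ((j : ℕ) : ℝ) (ql p l) * C ((a ^ (j : ℕ)) ^ (l : ℕ))).det

lemma term_ne {K L : ℕ} (p : Fin K → Fin L → ℝ) (a : ℝ) (ha : 0 < a) (σ : Equiv.Perm (Fin L))
    (l : Fin L) : taylor (((σ l : Fin L) : ℕ) : ℝ) (ql p l) *
      C ((a ^ ((σ l : Fin L) : ℕ)) ^ (l : ℕ)) ≠ 0 := by
  refine mul_ne_zero ?_ ?_
  · rw [Ne, taylor_eq_zero]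
    exact ql_ne p l
  · rw [Ne, C_eq_zero]
    positivity

lemma natDegree_term {K L : ℕ} (p : Fin K → Fin L → ℝ) (a : ℝ) (ha : 0 < a)
    (σ : Equiv.Perm (Fin L)) :
    (∏ l : Fin L, taylor (((σ l : Fin L) : ℕ) : ℝ) (ql p l) *
      C ((a ^ ((σ l : Fin L) : ℕ)) ^ (l : ℕ))).natDegree = ∑ l : Fin L, (ql p l).natDegree := by
  rw [natDegree_prod _ _ (fun l _ => term_ne p a ha σ l)]
  refine Finset.sum_congr rfl fun l _ => ?_
  have h0 : C ((a ^ ((σ l : Fin L) : ℕ)) ^ (l : ℕ)) ≠ 0 := by
    rw [Ne, C_eq_zero]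
    positivity
  have h1 : taylor (((σ l : Fin L) : ℕ) : ℝ) (ql p l) ≠ 0 := by
    rw [Ne, taylor_eq_zero]
    exact ql_ne p l
  rw [natDegree_mul h1 h0, natDegree_C, add_zero, natDegree_taylor]

lemma coeff_term {K L : ℕ} (p : Fin K → Fin L → ℝ) (a : ℝ) (ha : 0 < a)
    (σ : Equiv.Perm (Fin L)) :
    (∏ l : Fin L, taylor (((σ l : Fin L) : ℕ) : ℝ) (ql p l) *
      C ((a ^ ((σ l : Fin L) : ℕ)) ^ (l : ℕ))).coeff (∑ l : Fin L, (ql p l).natDegree) =
      (∏ l : Fin L, (ql p l).leadingCoeff) * ∏ l : Fin L, (a ^ ((σ l : Fin L) : ℕ)) ^ (l : ℕ) := by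
  rw [← natDegree_term p a ha σ, coeff_natDegree, leadingCoeff_prod, ← Finset.prod_mul_distrib]
  refine Finset.prod_congr rfl fun l _ => ?_
  rw [leadingCoeff_mul, leadingCoeff_C, leadingCoeff_taylor]

lemma coeff_dl {K L : ℕ} (p : Fin K → Fin L → ℝ) (a : ℝ) (ha : 0 < a) :
    (dl p a).coeff (∑ l : Fin L, (ql p l).natDegree) =
      (∏ l : Fin L, (ql p l).leadingCoeff) *
        (Matrix.vandermonde fun j : Fin L => a ^ (j : ℕ)).det := by
  rw [dl, Matrix.det_apply', Matrix.det_apply', finsetSum_coeff, Finset.mul_sum]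
  refine Finset.sum_congr rfl fun σ _ => ?_
  have h := coeff_term p a ha σ
  have e : ((((Equiv.Perm.sign σ : ℤˣ) : ℤ) : ℝ[X])) = C (((Equiv.Perm.sign σ : ℤˣ) : ℤ) : ℝ) := by
    simp
  rw [e, coeff_C_mul]
  simp only [Matrix.of_apply, Matrix.vandermonde_apply]
  rw [h]
  ring

lemma natDegree_dl {K L : ℕ} (p : Fin K → Fin L → ℝ) (a : ℝ) (ha : 0 < a) :
    (dl p a).natDegree ≤ (K - 1) * L := by
  have h1 : ∑ l : Fin L, (ql p l).natDegree ≤ (K - 1) * L := by
    refine (Finset.sum_le_sum fun l _ => natDegree_ql p l).trans ?_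
    rw [Finset.sum_const, Finset.card_univ, Fintype.card_fin, smul_eq_mul, mul_comm]
  refine le_trans ?_ h1
  rw [dl, Matrix.det_apply']
  refine natDegree_sum_le_of_forall_le _ _ fun σ _ => ?_
  have e : ((((Equiv.Perm.sign σ : ℤˣ) : ℤ) : ℝ[X])) = C (((Equiv.Perm.sign σ : ℤˣ) : ℤ) : ℝ) := by
    simp
  rw [e]
  refine (natDegree_C_mul_le _ _).trans ?_
  have := natDegree_term p a ha σ
  simp only [Matrix.of_apply]
  exact this.le

end ZeroAux

open ZeroAux in
theorem t_Zero : StmtZero := by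
  classical
  intro K L R S q a b p hK ha ha1 hb hS hlt hp
  by_contra hne
  obtain ⟨l0, hl0⟩ : ∃ l0, pl p l0 ≠ 0 := by
    by_contra hcon
    push Not at hcon
    apply hne
    funext k l
    have := coeff_pl p l k
    rw [hcon l] at this
    simpa using this.symm
  -- the coefficient is not zero
  have hcoef : (dl p a).coeff (∑ l : Fin L, (ql p l).natDegree) ≠ 0 := by
    rw [coeff_dl p a ha]
    refine mul_ne_zero ?_ ?_
    · rw [Finset.prod_ne_zero_iff]
      intro l _
      rw [Ne, leadingCoeff_eq_zero]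
      exact ql_ne p l
    · rw [Matrix.det_vandermonde_ne_zero_iff]
      intro i j hij
      have h := pow_right_injective₀ ha ha1 hij
      exact Fin.ext h
  -- the zeros
  have hz : ∀ r s : ℕ, r < R → s < S → (dl p a).eval ((s : ℝ) - q * r) = 0 := by
    intro r s hr hs
    set x : ℝ := (s : ℝ) - q * r with hx
    set θ : ℝ := a ^ s * b ^ r with hθ
    have hθ0 : θ ≠ 0 := by positivity
    have hdet : (dl p a).eval x = (Matrix.of fun j l : Fin L =>
        (ql p l).eval (x + ((j : ℕ) : ℝ)) * (a ^ (j : ℕ)) ^ (l : ℕ)).det := by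
      have h1 := RingHom.map_det (evalRingHom x) (Matrix.of fun j l : Fin L =>
        taylor ((j : ℕ) : ℝ) (ql p l) * C ((a ^ (j : ℕ)) ^ (l : ℕ)))
      rw [dl]
      change (evalRingHom x) _ = _
      rw [h1]
      congr 1
      ext j l
      simp [taylor_eval]
    rw [hdet]
    rw [← Matrix.exists_mulVec_eq_zero_iff]
    refine ⟨fun l => if pl p l = 0 then 0 else θ ^ (l : ℕ), ?_, ?_⟩
    · intro h
      have := congrFun h l0
      simp only [if_neg hl0, Pi.zero_apply] at this
      exact pow_ne_zero _ hθ0 this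
    · funext j
      have h2 := hp r (s + j) hr (by have := j.2; omega)
      rw [Finset.sum_comm] at h2
      simp only [Matrix.mulVec, dotProduct, Matrix.of_apply, Pi.zero_apply]
      refine Eq.trans ?_ h2
      refine Finset.sum_congr rfl fun l _ => ?_
      rw [← Finset.sum_mul]
      have h3 : ∑ k : Fin K, p k l * (((s + (j : ℕ) : ℕ) : ℝ) - q * r) ^ (k : ℕ) =
          (pl p l).eval (x + ((j : ℕ) : ℝ)) := by
        rw [eval_pl]
        refine Finset.sum_congr rfl fun k _ => ?_
        rw [hx]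
        push_cast
        ring
      rw [h3]
      by_cases h : pl p l = 0
      · rw [if_pos h, h, mul_zero, eval_zero, zero_mul]
      · rw [if_neg h]
        have h4 : ql p l = pl p l := by
          unfold ql
          rw [if_neg h]
        rw [h4, hθ]
        have h5 : (a ^ (s + (j : ℕ)) * b ^ r) ^ (l : ℕ) =
            (a ^ (j : ℕ)) ^ (l : ℕ) * (a ^ s * b ^ r) ^ (l : ℕ) := by
          rw [← mul_pow]
          congr 1
          rw [pow_add]
          ring
        rw [h5]
        ring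
  -- the number of zeros
  have hinj : Set.InjOn (fun u : ℕ × ℕ => ((u.2 : ℝ) - q * u.1))
      (↑(Finset.range R ×ˢ Finset.range S) : Set (ℕ × ℕ)) := by
    intro u hu v hv huv
    rw [Finset.mem_coe, Finset.mem_product, Finset.mem_range, Finset.mem_range] at hu hv
    have h1 : (u.2 : ℤ) - q * u.1 = (v.2 : ℤ) - q * v.1 := by
      have h2 : (u.2 : ℝ) - q * u.1 = (v.2 : ℝ) - q * v.1 := huv
      exact_mod_cast h2
    have hu2 : (u.2 : ℤ) < q := by
      have := hu.2
      omega
    have hv2 : (v.2 : ℤ) < q := by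
      have := hv.2
      omega
    have h3 : (u.2 : ℤ) - v.2 = q * (u.1 - v.1) := by linarith
    have h4 : (u.1 : ℤ) = v.1 := by
      by_contra hcon
      rcases lt_or_gt_of_ne hcon with h | h
      · have : (u.1 : ℤ) - v.1 ≤ -1 := by omega
        have h5 : (q : ℤ) * (u.1 - v.1) ≤ q * (-1) :=
          mul_le_mul_of_nonneg_left this (by positivity)
        have h6 : (0 : ℤ) ≤ u.2 := by positivity
        omega
      · have : 1 ≤ (u.1 : ℤ) - v.1 := by omega
        have h5 : (q : ℤ) * 1 ≤ q * (u.1 - v.1) :=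
          mul_le_mul_of_nonneg_left this (by positivity)
        have h6 : (0 : ℤ) ≤ v.2 := by positivity
        omega
    have h5 : (u.2 : ℤ) = v.2 := by
      rw [h4, sub_self, mul_zero] at h3
      linarith
    exact Prod.ext (by exact_mod_cast h4) (by exact_mod_cast h5)
  have hzero : dl p a = 0 := by
    refine eq_zero_of_natDegree_lt_card_of_eval_eq_zero' _
      ((Finset.range R ×ˢ Finset.range S).image fun u : ℕ × ℕ => ((u.2 : ℝ) - q * u.1)) ?_ ?_
    · intro x hx
      rw [Finset.mem_image] at hx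
      obtain ⟨u, hu, rfl⟩ := hx
      rw [Finset.mem_product, Finset.mem_range, Finset.mem_range] at hu
      exact hz u.1 u.2 hu.1 hu.2
    · rw [Finset.card_image_of_injOn hinj, Finset.card_product, Finset.card_range,
        Finset.card_range]
      exact (natDegree_dl p a ha).trans_lt hlt
  rw [hzero, coeff_zero] at hcoef
  exact hcoef rfl

end Pool.Agent.DKP
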