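import Pool.Agent.DKP.Fin3
import Pool.Agent.DKP.DD
import Pool.Agent.DKP.Interp
import Pool.Agent.DKP.Zero
import Pool.Agent.DKP.Up
import Pool.Agent.DKP.LioR
import Pool.Agent.DKP.TL
import Pool.Agent.DKP.Ring
import Pool.Agent.DKP.G
import Pool.Agent.DKP.Lam
import Pool.Agent.DKP.Data
import Pool.Agent.DKP.Index
import Pool.Agent.DKP.Block
import Pool.Agent.DKP.Few
import Pool.Agent.DKP.Small
import Pool.Agent.DKP.Class
import Pool.Agent.DKP.An
import Pool.Agent.DKP.Lin
import Pool.Agent.DKP.Short
import Pool.Agent.DKP.Sel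
import Pool.Agent.DKP.Par
import Pool.Agent.DKP.Fld
import Pool.Agent.DKP.Dvc
import Pool.Agent.DKP.Hyp
import Pool.Agent.DKP.Fixed
import Pool.Agent.DKP.DegIdx

/-!
# MP_a79b85_nt: everything together
-/

set_option autoImplicit false

namespace Pool.Agent.DKP

theorem interp_holds : StmtInterp := t_Interp t_DD

theorem TL_holds : StmtTL := t_TL t_Zero (t_Up interp_holds) t_Lio'

theorem data_holds : StmtData := t_Data t_Lam t_Ring

theorem index_holds : StmtIndex := t_Index t_G t_Lam t_Ring TL_holds data_holds

theorem indexD_holds : StmtIndexD := t_IndexD t_G t_Lam t_Ring TL_holds data_holds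

theorem short_holds : StmtShort := t_Short interp_holds t_An t_Lin

theorem block_holds : StmtBlock := t_Block index_holds t_G t_Lam short_holds

theorem hyp_holds : StmtHyp := t_Hyp (t_Fld t_Sel t_Par) t_Dvc

theorem fixed_holds : StmtFixed := t_Fixed hyp_holds

theorem final_C_holds : FinalC := final_C t_Class block_holds t_Few fixed_holds

theorem final_D_holds : FinalD := final_D t_Class indexD_holds t_DegIdx final_C_holds

theorem final_E_holds : FinalE := final_E t_Class indexD_holds t_DegIdx t_Small

end Pool.Agent.DKP
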