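import Pool.Agent.DKP.St3

/-!
# Simultaneous approximation in integers (`StmtDir`), by helper39
-/

set_option autoImplicit false

open Finset

namespace Pool.Agent.DKP

theorem t_Dir : StmtDir := by
  intro r Q A B b hQ hB hb
  have hQ0 : (0 : ℝ) < Q := by exact_mod_cast hQ
  have hB0 : (0 : ℝ) < B := by exact_mod_cast hB
  let f : Fin (Q ^ r + 1) → (Fin r → Fin Q) := fun t j =>
    ⟨⌊(Q : ℝ) * Int.fract (((t : ℕ) : ℝ) * b j / B)⌋₊, by
      have h1 := Int.fract_lt_one (((t : ℕ) : ℝ) * b j / B)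
      have h0 := Int.fract_nonneg (((t : ℕ) : ℝ) * b j / B)
      rw [Nat.floor_lt (by positivity)]
      nlinarith⟩
  have hcard : Fintype.card (Fin r → Fin Q) < Fintype.card (Fin (Q ^ r + 1)) := by
    simp
  obtain ⟨t₁, t₂, hne, hf⟩ := Fintype.exists_ne_map_eq_of_card_lt f hcard
  wlog hlt : (t₁ : ℕ) < (t₂ : ℕ) generalizing t₁ t₂
  · refine this t₂ t₁ hne.symm hf.symm ?_
    have : (t₁ : ℕ) ≠ (t₂ : ℕ) := fun h => hne (Fin.ext h)
    omega
  have ht₂ : (t₂ : ℕ) ≤ Q ^ r := Nat.lt_succ_iff.mp t₂.2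
  set t : ℕ := (t₂ : ℕ) - (t₁ : ℕ) with ht
  have htR : (t : ℝ) = ((t₂ : ℕ) : ℝ) - ((t₁ : ℕ) : ℝ) := by
    rw [ht, Nat.cast_sub hlt.le]
  have ht1 : 1 ≤ t := by omega
  have ht0 : (0 : ℝ) < t := by exact_mod_cast ht1
  let p : Fin r → ℤ := fun j =>
    ⌊((t₂ : ℕ) : ℝ) * b j / B⌋ - ⌊((t₁ : ℕ) : ℝ) * b j / B⌋
  have hp : ∀ j, |(t : ℝ) * b j / B - p j| ≤ 1 / Q := by
    intro j
    have h := congrFun hf j
    have h' : ⌊(Q : ℝ) * Int.fract (((t₁ : ℕ) : ℝ) * b j / B)⌋₊ =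
        ⌊(Q : ℝ) * Int.fract (((t₂ : ℕ) : ℝ) * b j / B)⌋₊ := congrArg Fin.val h
    have hx0 := Int.fract_nonneg (((t₁ : ℕ) : ℝ) * b j / B)
    have hy0 := Int.fract_nonneg (((t₂ : ℕ) : ℝ) * b j / B)
    have hx1 := Nat.floor_le (a := (Q : ℝ) * Int.fract (((t₁ : ℕ) : ℝ) * b j / B)) (by positivity)
    have hx2 := Nat.lt_floor_add_one ((Q : ℝ) * Int.fract (((t₁ : ℕ) : ℝ) * b j / B))
    have hy1 := Nat.floor_le (a := (Q : ℝ) * Int.fract (((t₂ : ℕ) : ℝ) * b j / B)) (by positivity)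
    have hy2 := Nat.lt_floor_add_one ((Q : ℝ) * Int.fract (((t₂ : ℕ) : ℝ) * b j / B))
    rw [h'] at hx1 hx2
    have e : (t : ℝ) * b j / B - p j =
        Int.fract (((t₂ : ℕ) : ℝ) * b j / B) - Int.fract (((t₁ : ℕ) : ℝ) * b j / B) := by
      simp only [p, Int.fract, htR]
      push_cast
      ring
    rw [e, abs_le]
    constructor
    · rw [neg_le, neg_sub, le_div_iff₀ hQ0]
      nlinarith
    · rw [le_div_iff₀ hQ0]
      nlinarith
  have hbR : ∀ j, |(b j : ℝ)| ≤ A * B := by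
    intro j
    have := hb j
    have h2 : ((|b j| : ℤ) : ℝ) ≤ ((A * B : ℤ) : ℝ) := by exact_mod_cast this
    rw [Int.cast_abs] at h2
    push_cast at h2
    exact h2
  have hQ1 : (1 : ℝ) / Q ≤ 1 := by
    rw [div_le_one hQ0]
    exact_mod_cast hQ
  have htb : ∀ j, |(t : ℝ) * b j / B| ≤ A * t := by
    intro j
    rw [abs_div, abs_mul, abs_of_pos hB0, abs_of_pos ht0, div_le_iff₀ hB0]
    nlinarith [hbR j]
  have hpR : ∀ j, |(p j : ℝ)| ≤ A * t + 1 := by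
    intro j
    have h1 := hp j
    have h2 := htb j
    have h3 : |(p j : ℝ)| ≤ |(t : ℝ) * b j / B| + |(t : ℝ) * b j / B - p j| := by
      have : (p j : ℝ) = (t : ℝ) * b j / B - ((t : ℝ) * b j / B - p j) := by ring
      calc |(p j : ℝ)| = |(t : ℝ) * b j / B - ((t : ℝ) * b j / B - p j)| := by rw [← this]
        _ ≤ _ := abs_sub _ _
    linarith
  refine ⟨t, p, ht1, by omega, hp, ?_, ?_⟩
  · intro j
    have := hpR j
    have h2 : ((|p j| : ℤ) : ℝ) ≤ (((A : ℤ) * t + 1 : ℤ) : ℝ) := by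
      rw [Int.cast_abs]; push_cast; exact this
    exact_mod_cast h2
  · intro j
    have hq1 : ((B / t : ℕ) : ℝ) ≤ (B : ℝ) / t := Nat.cast_div_le
    have hq2 : (B : ℝ) / t < ((B / t : ℕ) : ℝ) + 1 := by
      rw [div_lt_iff₀ ht0]
      have := Nat.lt_div_mul_add (a := B) (b := t) ht1
      have h2 : B < (B / t + 1) * t := by
        calc B < B / t * t + t := this
          _ = (B / t + 1) * t := by ring
      exact_mod_cast h2
    have e : (b j : ℝ) - ((B / t : ℕ) : ℝ) * p j =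
        ((B : ℝ) / t) * ((t : ℝ) * b j / B - p j) + ((B : ℝ) / t - ((B / t : ℕ) : ℝ)) * p j := by
      field_simp
      ring
    rw [e]
    have h1 : |((B : ℝ) / t) * ((t : ℝ) * b j / B - p j)| ≤ (B : ℝ) / (t * Q) := by
      rw [abs_mul, abs_of_pos (div_pos hB0 ht0)]
      calc (B : ℝ) / t * |(t : ℝ) * b j / B - p j| ≤ (B : ℝ) / t * (1 / Q) :=
            mul_le_mul_of_nonneg_left (hp j) (by positivity)
        _ = _ := by field_simp
    have h2 : |((B : ℝ) / t - ((B / t : ℕ) : ℝ)) * p j| ≤ A * t + 1 := by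
      rw [abs_mul, abs_of_nonneg (by linarith)]
      calc ((B : ℝ) / t - ((B / t : ℕ) : ℝ)) * |(p j : ℝ)| ≤ 1 * |(p j : ℝ)| :=
            mul_le_mul_of_nonneg_right (by linarith) (abs_nonneg _)
        _ ≤ _ := by rw [one_mul]; exact hpR j
    calc _ ≤ _ := abs_add_le _ _
      _ ≤ (B : ℝ) / (t * Q) + (A * t + 1) := add_le_add h1 h2
      _ = _ := by ring

end Pool.Agent.DKP
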