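import Pool.Agent.DKP.St2

/-!
# Two logarithms over arbitrary number fields, the unit equation, Siegel's theorem for `y² = F(x)`

Architect: helper39.  Target for MP_a79b85_nt: for every `B`, all but finitely many `k` have no irregular
extension `d ≤ k^B`.  Reusable: `StmtUnit` (the unit equation has finitely many solutions), `StmtSiegel`.
-/

set_option autoImplicit false

open NumberField IsDedekindDomain Polynomial Finset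

namespace Pool.Agent.DKP

/-! ## Two logarithms, complex version, degree `D` -/

/-- **ZeroC.** Zero estimate, complex.  PROOF: as `StmtZero` (see `Pool/Agent/DKP/Zero.lean`, by helper67): the numbers `a^j`, `j < L`, are
distinct, and the numbers `s - q r`, `r < R`, `s < S`, are distinct. -/
def StmtZeroC : Prop :=
  ∀ (K L R S q : ℕ) (a b : ℂ) (p : Fin K → Fin L → ℂ), 1 ≤ K → a ≠ 0 →
    (∀ j : ℕ, 1 ≤ j → j < L → a ^ j ≠ 1) → b ≠ 0 → S ≤ q → (K - 1) * L < R * S →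
    (∀ r s : ℕ, r < R → s < S + L →
      ∑ k, ∑ l, p k l * ((s : ℂ) - q * r) ^ (k : ℕ) * (a ^ s * b ^ r) ^ (l : ℕ) = 0) →
    p = 0

/-- the interpolation matrix, complex -/
noncomputable def EMC (K L : ℕ) (q : ℕ) (X : ℝ) (a b : ℂ) (rr ss : Fin K × Fin L → ℕ) :
    Matrix (Fin K × Fin L) (Fin K × Fin L) ℂ :=
  Matrix.of fun j φ => (((ss j : ℂ) - q * rr j) / X) ^ (φ.1 : ℕ) *
    (a ^ ss j * b ^ rr j) ^ (φ.2 : ℕ)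

/-- **UpC.** The analytic upper bound, complex.  PROOF: as `StmtUp` (`Pool/Agent/DKP/Up.lean`, by helper19), with `a = exp c`, `b = exp c'`,
`a^s b^r = exp(c (s - q r) + r (q c + c'))`. -/
def StmtUpC : Prop :=
  ∀ (K L R S q : ℕ) (c c' : ℂ) (X : ℝ) (rr ss : Fin K × Fin L → ℕ), 1 ≤ K → 1 ≤ L →
    0 < X → (∀ j, rr j < R ∧ ss j < S) → S ≤ q → (∀ i j, rr i = rr j → ss i = ss j → i = j) →
    (q : ℝ) * R + S ≤ X →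
    2 * (L : ℝ) * R * ‖q * c + c'‖ ≤ Real.exp (-(2 * (K * L : ℕ))) →
    ‖(EMC K L q X (Complex.exp c) (Complex.exp c') rr ss).det‖ ≤
      2 ^ (K * L) * ((K * L).factorial : ℝ) *
        (16 ^ (K + 1) * Real.exp (16 * (L * ‖c‖ * X))) ^ (K * L) *
        Real.exp (-((K * L : ℕ) * ((K * L : ℕ) - 1 : ℝ)))

/-- **LioC.** The arithmetic lower bound in degree `D + 1`.  PROOF: as `StmtLio` (`Pool/Agent/DKP/Lio.lean`, by helper59): `D + 1` coordinates instead of `4`,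
complex absolute values. -/
def StmtLioC : Prop :=
  ∀ (D : ℕ) (O : Subring (Fin (D + 1) → ℂ)), (∀ z ∈ O, z ≠ 0 → 1 ≤ ‖∏ i, z i‖) →
    ∀ (u v w : Fin (D + 1) → ℂ), u ∈ O → v ∈ O → w ∈ O → u 0 ≠ 0 → v 0 ≠ 0 → w 0 ≠ 0 →
    ∀ (K L R S q H1 H2 : ℕ) (X : ℝ) (rr ss : Fin K × Fin L → ℕ), 1 ≤ K → 1 ≤ L → 1 ≤ X →
    (∀ i, ‖u i‖ ≤ Real.exp H1 ∧ ‖v i‖ ≤ Real.exp H2 ∧ ‖w i‖ ≤ Real.exp H2) →
    (∀ j, rr j < R ∧ ss j < S) → (q : ℝ) * R + S ≤ X →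
    (EMC K L q X (u 0) (v 0 / w 0) rr ss).det ≠ 0 →
    1 ≤ ‖(EMC K L q X (u 0) (v 0 / w 0) rr ss).det‖ * X ^ ((D + 1) * K * (K * L)) *
      ((K * L).factorial : ℝ) ^ D *
      Real.exp ((D + 1) * (K * L) * L * (R * H2 + S * H1) : ℕ)

/-- **TLC.** Lower bound for a linear form in two logarithms.  PROOF: as `StmtTL` (`Pool/Agent/DKP/TL.lean`, by helper26) from
`StmtZeroC, StmtUpC, StmtLioC`, with `C₁ = 1000 (D+1)`, `K = C₁² L H1 H2`, `R = C₁ L H1`, `S = C₁ L H2`, `X = 4 C₁ L H1 q`,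
`n = K L = R S`.  If `‖q c + c'‖ < exp(-3n)`: `‖c‖ ≤ (H2+1)/q`, `L ‖c‖ X ≤ 8 n/C₁`, `L (R H2 + (S+L) H1) ≤ 3n/C₁`,
`(D+1) K log X ≤ n/4`, `K + 1 ≤ n/100 + 1`:
`n - 1 ≤ 1 + (D+1) log n + 2.8 (K+1) + 128 n/C₁ + n/4 + 3 (D+1) n/C₁`, false (`n ≥ 10^10 (D+1)²`). -/
def StmtTLC : Prop :=
  ∀ (D : ℕ) (O : Subring (Fin (D + 1) → ℂ)), (∀ z ∈ O, z ≠ 0 → 1 ≤ ‖∏ i, z i‖) →
    ∀ (u v w : Fin (D + 1) → ℂ), u ∈ O → v ∈ O → w ∈ O → u 0 ≠ 0 → v 0 ≠ 0 → w 0 ≠ 0 →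
    ∀ (c c' : ℂ) (H1 H2 L q : ℕ), 1 ≤ H1 → 1 ≤ H2 → 100 ≤ L → 1 ≤ q →
    Complex.exp c = u 0 → Complex.exp c' = v 0 / w 0 → (∀ j : ℕ, 1 ≤ j → j < L → u 0 ^ j ≠ 1) →
    (∀ i, ‖u i‖ ≤ Real.exp H1 ∧ ‖v i‖ ≤ Real.exp H2 ∧ ‖w i‖ ≤ Real.exp H2) →
    ‖c'‖ ≤ H2 → 2000 * (D + 1) * L * H2 ≤ q →
    4 * (D + 1) * Real.log (4000 * (D + 1) * L * H1 * q) ≤ L →
    Real.exp (-(3 * 10 ^ 6 * (D + 1 : ℝ) ^ 2 * (L : ℝ) ^ 2 * H1 * H2)) ≤ ‖q * c + c'‖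

/-! ## The unit equation -/

/-- **ULog.** Logarithms of units.  PROOF.  `logEmbedding K` of the fundamental system is a basis of the log space
(`NumberField.Units.basisUnitLattice`, `logEmbedding_fundSystem`): the linear map `e ↦ ∑ e_j log|w(ε_j)|` on `ℝ^r` is injective, so
`max_{w ≠ w₀} |log w(u)| ≥ c₀ max |e_j|` and `|log w(u)| ≤ C max|e_j|` for all `w`; and `∑_w mult(w) log w(u) = 0` (`sum_mult_mul_log`) gives both a place with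
`log w(u) ≥ c B` and one with `log w(u) ≤ -c B`.  Every infinite place is `‖σ ·‖` of an embedding and conversely. -/
def StmtULog : Prop :=
  ∀ (K : Type) [Field K] [NumberField K], ∃ c : ℝ, 0 < c ∧
    ∀ (ζ : Units.torsion K) (e : Fin (Units.rank K) → ℤ) (B : ℕ),
      (∀ j, |e j| ≤ B) → (B = 0 ∨ ∃ j, |e j| = B) →
      (∃ σ : K →+* ℂ, Real.log ‖σ (((ζ : (𝓞 K)ˣ) * ∏ j, Units.fundSystem K j ^ e j : (𝓞 K)ˣ) : K)‖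
        ≤ -(c * B)) ∧
      (∃ σ : K →+* ℂ, c * B ≤
        Real.log ‖σ (((ζ : (𝓞 K)ˣ) * ∏ j, Units.fundSystem K j ^ e j : (𝓞 K)ˣ) : K)‖) ∧
      ∀ σ : K →+* ℂ,
        |Real.log ‖σ (((ζ : (𝓞 K)ˣ) * ∏ j, Units.fundSystem K j ^ e j : (𝓞 K)ˣ) : K)‖| ≤ c⁻¹ * B

/-- **Dir.** Simultaneous approximation, in integers.  PROOF.  Pigeonhole for the fractional parts of `t b_j/B`, `0 ≤ t ≤ Q^r`, in `Q^r` boxes: `1 ≤ t ≤ Q^r` and integers `p_j` with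
`|t b_j/B - p_j| ≤ 1/Q` (in fact `<`).  `q = B / t` (natural division; `q = 0` is allowed).  `|p_j| ≤ A t + 1`, and
`b_j - q p_j = (B/t) (t b_j/B - p_j) + (B/t - q) p_j`, so `|b_j - q p_j| ≤ B/(t Q) + A t + 1`. -/
def StmtDir : Prop :=
  ∀ (r Q A B : ℕ) (b : Fin r → ℤ), 1 ≤ Q → 1 ≤ B → (∀ j, |b j| ≤ A * B) →
    ∃ (t : ℕ) (p : Fin r → ℤ), 1 ≤ t ∧ t ≤ Q ^ r ∧
      (∀ j, |(t : ℝ) * b j / B - p j| ≤ 1 / Q) ∧ (∀ j, |p j| ≤ A * t + 1) ∧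
      ∀ j, |(b j : ℝ) - (B / t : ℕ) * p j| ≤ (B : ℝ) / (t * Q) + A * t + 1

/-- **Small.** A unit that is close to a fixed number at one embedding.  PROOF (from `StmtTLC, StmtULog, StmtDir`).  `d = [K:ℚ] = D+1`, embeddings `σ_0 = σ, …, σ_D`, `O` = image of `𝓞 K` in
`Fin (D+1) → ℂ` (the product of the conjugates is the norm, a nonzero integer).  Let `v = ζ ∏ ε_j^(b_j)`, `|b_j| ≤ B`, `|b_{j*}| = B ≥ 1`,
`‖σ(β v) - 1‖ ≤ C exp(-κ B)`, and let `B` be large.  `ℓ_j = log σ(ε_j)`, `ℓ = log σ(β) + log σ(ζ)` (principal values); there is an integer `b_0` with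
`Λ = ℓ + ∑ b_j ℓ_j + 2πi b_0`, `‖Λ‖ ≤ 2 ‖σ(β v) - 1‖` (`Λ ≠ 0` is not needed), and `|b_0| ≤ A B`, `A` depending on `K, β`.
`StmtDir` for `(b_0, b_1, …, b_r)` with `Q`: `t ≤ Q^(r+1)`, `p_j`, `q = B / t`, `r_j = b_j - q p_j`.
`u₁ = ∏ ε_j^(p_j)`, `c = ∑ p_j ℓ_j + 2πi p_0`; `v₁/w₁ = β ζ ∏ ε_j^(r_j)` (`β = β₁/β₀`, `v₁ = β₁ ζ ∏ ε_j^(r_j)`, `w₁ = β₀` integral), `c' = ℓ + ∑ r_j ℓ_j + 2πi r_0`; `q c + c' = Λ`.
`H1 = A₁ t`, `H2 = A₁ (B/(tQ) + t + 1)` (a natural number at least the real value), `A₁` constant.  `p_{j*} ≠ 0` (as `|t - ±p_{j*}| ≤ 1/Q < 1`), so `u₁` is not a root of unity.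
`L = ⌈4(D+1) log(4000 (D+1) A₁ L B)⌉`-like (`L = ⌈A₂ log B⌉`), `Q = A₃ L²`, with `A₃` large so that `2000 (D+1) L H2 ≤ q`.  `StmtTLC` gives
`κ B ≤ log(2C) + A₄ L² (B/Q + t²) ≤ κB/2 + A₅ L² Q^(2r+2)`, so `B ≤ A₆ (log B)^(4r+6)`: `B` is bounded. -/
def StmtNear : Prop :=
  ∀ (K : Type) [Field K] [NumberField K] (σ : K →+* ℂ) (β : K) (C κ : ℝ), β ≠ 0 → 0 < C → 0 < κ →
    ∃ B₀ : ℕ, ∀ (ζ : Units.torsion K) (b : Fin (Units.rank K) → ℤ) (B : ℕ),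
      (∀ j, |b j| ≤ B) → (∃ j, |b j| = B) →
      ‖σ (β * (((ζ : (𝓞 K)ˣ) * ∏ j, Units.fundSystem K j ^ b j : (𝓞 K)ˣ) : K)) - 1‖ ≤
        C * Real.exp (-(κ * B)) → B ≤ B₀

/-- **Unit.** The unit equation has finitely many solutions.  PROOF (from `StmtULog, StmtNear`).  `u, v` with exponent vectors of maximum `B(u)`, `B(v)`.  From
`a u + b v = 1`, all `‖σ v‖ ≤ (1 + ‖σ a‖ ‖σ u‖)/‖σ b‖ ≤ C exp(c⁻¹ B(u))`, and `log ‖σ v‖ ≥ c B(v)` for some `σ`: `B(v) ≤ C' (B(u) + 1)`.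
There is `σ` with `‖σ u‖ ≤ exp(-c B(u))`, so `‖σ(b v) - 1‖ ≤ C exp(-c B(u)) ≤ C'' exp(-κ B(v))`; `StmtNear` (finitely many `σ`) bounds `B(v)` (if `B(v) ≥ 1`),
so finitely many `v` (`exist_unique_eq_mul_prod`, finite torsion), and `u` is determined by `v`. -/
def StmtUnit : Prop :=
  ∀ (K : Type) [Field K] [NumberField K] (a b : K), a ≠ 0 → b ≠ 0 →
    {p : (𝓞 K)ˣ × (𝓞 K)ˣ | a * (p.1 : K) + b * (p.2 : K) = 1}.Finite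

/-! ## Siegel's theorem for `y² = F(x)` -/

/-- `θ` is a root of odd multiplicity -/
def OddRoot (F : ℤ[X]) (θ : ℂ) : Prop :=
  Odd ((F.map (algebraMap ℤ ℂ)).rootMultiplicity θ)

/-- **Fld3.** As `StmtFld` (`Pool/Agent/DKP/Fld.lean`, by helper58), from `StmtSel, StmtPar`: three roots of odd multiplicity. -/
def StmtFld3 : Prop :=
  ∀ F : ℤ[X], F ≠ 0 → (∃ θ₁ θ₂ θ₃ : ℂ, θ₁ ≠ θ₂ ∧ θ₁ ≠ θ₃ ∧ θ₂ ≠ θ₃ ∧ OddRoot F θ₁ ∧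
      OddRoot F θ₂ ∧ OddRoot F θ₃) →
    ∃ (K : Type) (_ : Field K) (_ : NumberField K) (θ₁ θ₂ θ₃ : K), θ₁ ≠ θ₂ ∧ θ₁ ≠ θ₃ ∧ θ₂ ≠ θ₃ ∧
      ∀ N : ℤ, IsSquare (F.eval N) → F.eval N ≠ 0 →
        IsSquare ((N : K) - θ₁) ∧ IsSquare ((N : K) - θ₂) ∧ IsSquare ((N : K) - θ₃)

/-- **Siegel.** PROOF (from `StmtFld3, StmtUnit`).  Finitely many `N` have `F(N) = 0`.  Otherwise `N - θ_i = δ_i²`, `δ_i ∈ K`; `a ≥ 1` with `a θ_i` integral, so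
`a δ_i ∈ 𝓞 K`.  `z₁₂ = a(δ₁-δ₂)`, `z₂₃ = a(δ₂-δ₃)`, `z₃₁ = a(δ₃-δ₁)` divide `a²(θ_j - θ_i) ≠ 0`, so each is (element of a finite list) × unit
(finitely many ideals divide a nonzero ideal; see `Pool/Agent/DKP/Dvc.lean`).  `z₁₂ + z₂₃ + z₃₁ = 0`: `(-z₁₂/z₃₁) + (-z₂₃/z₃₁) = 1`, so by
`StmtUnit` the quotient `ρ = z₁₂/z₃₁` takes finitely many values; `ρ ≠ 0, -1`.  `δ₂ = (1+ρ)δ₁ - ρδ₃`; squaring:
`2ρ(1+ρ) δ₁δ₃ = 2ρ(1+ρ) N + const`, `δ₁δ₃ = N + c₀`, `(N-θ₁)(N-θ₃) = (N+c₀)²`: at most one `N` (else `2c₀ = -(θ₁+θ₃)`, `c₀² = θ₁θ₃`, `θ₁ = θ₃`). -/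
def StmtSiegel : Prop :=
  ∀ F : ℤ[X], F ≠ 0 → (∃ θ₁ θ₂ θ₃ : ℂ, θ₁ ≠ θ₂ ∧ θ₁ ≠ θ₃ ∧ θ₂ ≠ θ₃ ∧ OddRoot F θ₁ ∧
      OddRoot F θ₂ ∧ OddRoot F θ₃) →
    {N : ℤ | IsSquare (F.eval N)}.Finite

/-! ## The curves `(2x)² = F_m(N)` -/

/-- the polynomial `F_m` -/
noncomputable def FP (s : ℤ) (m : ℕ) : ℤ[X] := FF (C s) X m

/-- **Mult.** Few multiple roots.  PROOF.  Let `s = ±1`, `w = YY s X m`, `D = X²+1`, `P₂ = (X-1)²-2`, `ε = (-1)^m`.  There is a polynomial `Q` (`Q 0 = 0`, `Q 1 = 1`,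
`Q (m+2) = 2X Q (m+1) + Q m`) with the identities (induction on `m`; put `P = w - (X+s) Q`, then `P² - D Q² = ε`, `P' = m Q`, `D Q' = m P - X Q`):
(i) `w² - 2(X+s) w Q + 2 s X Q² = ε`; (ii) `D w' = m (X+s) w + Q (1 - (2m+1) s X)`.
`F = 2w² - P₂`, `F' = 4 w w' - 2(X-1)`.  With `z = 2 w Q`, `D_z = 1 - (2m+1) s X`, `N_z = D (X-1) - m (X+s) P₂`:
`D F' = 2m (X+s)(F + P₂) + 2 z D_z - 2 D (X-1)`, so `z D_z ≡ N_z` modulo `(F, F')`; `4w²·`(i) is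
`(F+P₂)² - 2(X+s)(F+P₂) z + 2 s X z² = 2 ε (F + P₂)`.  Times `D_z²`, modulo `(F, F')`:
`R := P₂² D_z² - 2(X+s) P₂ N_z D_z + 2 s X N_z² - 2 ε P₂ D_z² ≡ 0`.  The coefficient of `X^7` in `R` is `2s(1-m)(m+2) ≠ 0`, `natDegree R = 7`.
If `α` is a root of multiplicity `e ≥ 1` of `F` then `(X-α)^(e-1)` divides `F, F'`, so `R`: `∑_α (e_α - 1) ≤ 7`.
`∑ e_α = 2m`.  So the number of simple roots is `≥ 2m - 14 ≥ 3` for `m ≥ 9`. -/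
def StmtMult : Prop :=
  ∀ (s : ℤ) (m : ℕ), s = 1 ∨ s = -1 → 9 ≤ m →
    ∃ θ₁ θ₂ θ₃ : ℂ, θ₁ ≠ θ₂ ∧ θ₁ ≠ θ₃ ∧ θ₂ ≠ θ₃ ∧ OddRoot (FP s m) θ₁ ∧
      OddRoot (FP s m) θ₂ ∧ OddRoot (FP s m) θ₃

/-- **SmallM.** The small indices: `F_m` is squarefree for `m = 2, 4, 6, 8` (`s = 1`) and `m = 3, 5, 7` (`s = -1`), degree `2m ≥ 4`, so all its roots (at least three) are simple.  PROOF.
For each of the seven polynomials an identity `U F + V F' = c`, `c ≠ 0` an integer, `U, V ∈ ℤ[X]` (extended Euclid over `ℚ`), or squarefreeness modulo `11`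
(checked by program: modulo `11` all seven have full degree and `gcd(F, F') = 1`).  Only three simple roots are needed. -/
def StmtSmallM : Prop :=
  ∀ (s : ℤ) (m : ℕ), (s = 1 ∧ Even m) ∨ (s = -1 ∧ Odd m) → 2 ≤ m → m ≤ 8 →
    ∃ θ₁ θ₂ θ₃ : ℂ, θ₁ ≠ θ₂ ∧ θ₁ ≠ θ₃ ∧ θ₂ ≠ θ₃ ∧ OddRoot (FP s m) θ₁ ∧
      OddRoot (FP s m) θ₂ ∧ OddRoot (FP s m) θ₃

end Pool.Agent.DKP
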