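import Pool.Agent.DKP.Fin3
import Pool.Agent.DKP.St3

/-!
# MP_a79b85_nt: irregular extensions are superpolynomial, final assembly
-/

set_option autoImplicit false

open Finset Polynomial

namespace Pool.Agent.DKP

/-- for every `B` only finitely many pairs `(k, d)` with an irregular extension `d ≤ k^B` -/
def FinalF : Prop :=
  ∀ B : ℕ, {p : ℕ × ℤ | 1 ≤ p.1 ∧ Extends p.1 p.2 ∧ p.2 ≠ 8 * (p.1 : ℤ) ^ 2 + 4 * p.1 + 1 ∧
    p.2 ≤ (p.1 : ℤ) ^ B}.Finite

namespace Fin4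

theorem YY_ge (s N : ℤ) (hs : s = 1 ∨ s = -1) (hN : 1 ≤ N) (m : ℕ) :
    N ^ m ≤ YY s N m ∧ 0 < YY s N m := by
  induction m using Nat.twoStepInduction with
  | zero => simp [YY]
  | one =>
    simp only [YY, pow_one]
    rcases hs with rfl | rfl <;> constructor <;> linarith
  | more m h1 h2 =>
    simp only [YY]
    have h3 : N ^ (m + 2) = N * N ^ (m + 1) := by ring
    constructor
    · rw [h3]
      nlinarith [mul_le_mul_of_nonneg_left h2.1 (by linarith : (0 : ℤ) ≤ N), h1.2, h2.2,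
        mul_pos (by linarith : (0 : ℤ) < N) h2.2]
    · nlinarith [h1.2, h2.2, mul_pos (by linarith : (0 : ℤ) < N) h2.2]

theorem map_YY {R S : Type} [CommRing R] [CommRing S] (f : R →+* S) (s x : R) (m : ℕ) :
    f (YY s x m) = YY (f s) (f x) m := by
  induction m using Nat.twoStepInduction with
  | zero => simp [YY]
  | one => simp [YY, map_ofNat f 2]
  | more m h1 h2 => simp [YY, h1, h2, map_ofNat f 2]

theorem eval_FP (s N : ℤ) (m : ℕ) : (FP s m).eval N = FF s N m := by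
  have h := map_YY (Polynomial.evalRingHom N) (C s) X m
  simp only [Polynomial.coe_evalRingHom, eval_C, eval_X] at h
  simp only [FP, FF, eval_add, eval_sub, eval_mul, eval_pow, eval_ofNat, eval_X, eval_one, h]

theorem fixed_fin (hS : StmtSiegel) (hM : StmtMult) (hm : StmtSmallM) (s : ℤ) (m : ℕ) :
    {k : ℕ | ∃ x : ℕ, Sol k s m x}.Finite := by
  classical
  by_cases hne : {k : ℕ | ∃ x : ℕ, Sol k s m x}.Nonempty
  · obtain ⟨k0, x0, h0⟩ := hne
    have hs : s = 1 ∨ s = -1 := by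
      rcases h0.hs with ⟨h, -⟩ | ⟨h, -⟩
      · exact Or.inl h
      · exact Or.inr h
    have hroots : ∃ θ₁ θ₂ θ₃ : ℂ, θ₁ ≠ θ₂ ∧ θ₁ ≠ θ₃ ∧ θ₂ ≠ θ₃ ∧ OddRoot (FP s m) θ₁ ∧
        OddRoot (FP s m) θ₂ ∧ OddRoot (FP s m) θ₃ := by
      by_cases h9 : 9 ≤ m
      · exact hM s m hs h9
      · exact hm s m h0.hs h0.hm (by omega)
    have hF0 : FP s m ≠ 0 := by
      intro h
      obtain ⟨θ₁, -, -, -, -, -, h1, -⟩ := hroots
      rw [OddRoot, h, Polynomial.map_zero, Polynomial.rootMultiplicity_zero] at h1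
      exact absurd h1 (by decide)
    have hfin := hS (FP s m) hF0 hroots
    refine Set.Finite.of_finite_image (f := fun k : ℕ => (2 * (k : ℤ) + 1)) (hfin.subset ?_) ?_
    · rintro _ ⟨k, ⟨x, hk⟩, rfl⟩
      rw [Set.mem_setOf_eq, eval_FP]
      refine ⟨2 * x, ?_⟩
      have h1 := hk.heq
      simp only [FF]
      nlinarith
    · intro a _ b _ h
      simp only at h
      omega
  · rw [Set.not_nonempty_iff_eq_empty] at hne
    rw [hne]
    exact Set.finite_empty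

end Fin4

theorem final_F (hC : StmtClass) (hS : StmtSiegel) (hM : StmtMult) (hm : StmtSmallM) :
    FinalF := by
  classical
  intro B
  have hfin : (⋃ m ∈ (range B : Finset ℕ), ⋃ s ∈ ({1, -1} : Finset ℤ),
      (fun k : ℕ => (k, (YY s (2 * (k : ℤ) + 1) m ^ 2 + 1) / 2)) ''
        {k : ℕ | ∃ x : ℕ, Sol k s m x}).Finite := by
    refine Set.Finite.biUnion (finite_toSet _) fun m _ => ?_
    refine Set.Finite.biUnion (finite_toSet _) fun s _ => ?_
    exact (Fin4.fixed_fin hS hM hm s m).image _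
  refine hfin.subset ?_
  rintro ⟨k, d⟩ ⟨hk1, hd, hne, hB⟩
  simp only at hk1 hd hne hB
  obtain ⟨s, m, x, hs, hdy⟩ := hC k d hk1 hd hne
  have hs' : s = 1 ∨ s = -1 := by
    rcases hs.hs with ⟨h, -⟩ | ⟨h, -⟩
    · exact Or.inl h
    · exact Or.inr h
  have hk : (1 : ℤ) ≤ k := by exact_mod_cast hk1
  have h1 := (Fin4.YY_ge s (2 * (k : ℤ) + 1) hs' (by linarith) m).1
  have h2 : (2 * (k : ℤ)) ^ m ≤ (2 * (k : ℤ) + 1) ^ m :=
    pow_le_pow_left₀ (by linarith) (by linarith) m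
  have h3 : ((2 * (k : ℤ)) ^ m) ^ 2 ≤ YY s (2 * (k : ℤ) + 1) m ^ 2 :=
    pow_le_pow_left₀ (by positivity) (h2.trans h1) 2
  have h4 : (k : ℤ) ^ (2 * m) < d := by
    have h5 : ((2 * (k : ℤ)) ^ m) ^ 2 = 4 ^ m * (k : ℤ) ^ (2 * m) := by
      rw [mul_pow, mul_pow, ← pow_mul, ← pow_mul, mul_comm m 2, pow_mul 2 2 m]
      norm_num
    have h6 : (2 : ℤ) ≤ 4 ^ m := by
      calc (2 : ℤ) ≤ 4 ^ 1 := by norm_num
        _ ≤ 4 ^ m := pow_le_pow_right₀ (by norm_num) (by have := hs.hm; omega)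
    have h7 : (0 : ℤ) < (k : ℤ) ^ (2 * m) := by positivity
    nlinarith
  have hmB : m < B := by
    by_contra h
    push Not at h
    have h5 : (k : ℤ) ^ B ≤ (k : ℤ) ^ (2 * m) := pow_le_pow_right₀ hk (by omega)
    linarith
  rw [Set.mem_iUnion₂]
  refine ⟨m, mem_range.2 hmB, ?_⟩
  rw [Set.mem_iUnion₂]
  refine ⟨s, by rcases hs' with rfl | rfl <;> simp, k, ⟨x, hs⟩, ?_⟩
  simp only [Prod.mk.injEq, true_and]
  rw [← hdy, mul_comm]
  exact Int.mul_ediv_cancel _ (by norm_num)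

end Pool.Agent.DKP
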