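import Pool.Agent.DKP.St3
import Pool.Agent.DKP.Fld

/-!
# MP_a79b85_nt: `StmtFld3`

One number field in which `N - θ₁`, `N - θ₂` and `N - θ₃` are squares for all `N` with `F(N)` a
nonzero square; three roots of odd multiplicity.  (Adapted from `Fld.lean`.)
-/

set_option autoImplicit false

open NumberField IsDedekindDomain Polynomial

namespace Pool.Agent.DKP

open FldAux

theorem t_Fld3 : StmtSel → StmtPar → StmtFld3 := by
  intro hSel hPar F hF hroots
  classical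
  have hinjC : Function.Injective (algebraMap ℤ ℂ) := (algebraMap ℤ ℂ).injective_int
  have hPC : F.map (algebraMap ℤ ℂ) ≠ 0 := (Polynomial.map_ne_zero_iff hinjC).2 hF
  obtain ⟨a, b, c, hab, hac, hbc, hoa, hob, hoc⟩ := hroots
  unfold OddRoot at hoa hob hoc
  have halg : ∀ x : ℂ, Odd ((F.map (algebraMap ℤ ℂ)).rootMultiplicity x) → IsIntegral ℚ x := by
    intro x hx
    have hroot : (F.map (algebraMap ℤ ℂ)).eval x = 0 :=
      (Polynomial.rootMultiplicity_pos hPC).1 hx.pos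
    rw [Polynomial.eval_map_algebraMap] at hroot
    have hinjQ : Function.Injective (algebraMap ℤ ℚ) := (algebraMap ℤ ℚ).injective_int
    have h2 : IsAlgebraic ℚ x := by
      refine ⟨F.map (algebraMap ℤ ℚ), (Polynomial.map_ne_zero_iff hinjQ).2 hF, ?_⟩
      rw [Polynomial.aeval_map_algebraMap]
      exact hroot
    exact h2.isIntegral
  have hIa := halg a hoa
  have hIb := halg b hob
  have hIc := halg c hoc
  -- the first field
  let S₀ : Set ℂ := {a, b, c}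
  have hS₀ : ∀ x ∈ S₀, IsIntegral ℚ x := by
    intro x hx
    rcases hx with rfl | rfl | hx
    · exact hIa
    · exact hIb
    · rw [Set.mem_singleton_iff] at hx
      rw [hx]; exact hIc
  let K₀ : IntermediateField ℚ ℂ := IntermediateField.adjoin ℚ S₀
  have : Finite S₀ := by
    have : S₀.Finite := by simp [S₀]
    exact this.to_subtype
  have hfd₀ : FiniteDimensional ℚ K₀ := IntermediateField.finiteDimensional_adjoin hS₀
  have hnf₀ : NumberField K₀ := { to_charZero := inferInstance, to_finiteDimensional := hfd₀ }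
  have ha₀ : a ∈ K₀ := IntermediateField.subset_adjoin ℚ S₀ (by simp [S₀])
  have hb₀ : b ∈ K₀ := IntermediateField.subset_adjoin ℚ S₀ (by simp [S₀])
  have hc₀ : c ∈ K₀ := IntermediateField.subset_adjoin ℚ S₀ (by simp [S₀])
  have hmul : ∀ x : K₀, (F.map (algebraMap ℤ K₀)).rootMultiplicity x
      = (F.map (algebraMap ℤ ℂ)).rootMultiplicity (x : ℂ) := by
    intro x
    rw [Polynomial.eq_rootMultiplicity_map (f := algebraMap K₀ ℂ)
      (algebraMap K₀ ℂ).injective x, Polynomial.map_map]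
    rfl
  obtain ⟨Γ₁, hΓ₁⟩ := sel_one hSel hPar K₀ F hF ⟨a, ha₀⟩ (by rw [hmul]; exact hoa)
  obtain ⟨Γ₂, hΓ₂⟩ := sel_one hSel hPar K₀ F hF ⟨b, hb₀⟩ (by rw [hmul]; exact hob)
  obtain ⟨Γ₃, hΓ₃⟩ := sel_one hSel hPar K₀ F hF ⟨c, hc₀⟩ (by rw [hmul]; exact hoc)
  -- square roots
  have hsq : ∀ x : ℂ, ∃ z : ℂ, z ^ 2 = x := fun x => IsAlgClosed.exists_pow_nat_eq x two_pos
  choose s hs using hsq
  let Γ : Finset K₀ := Γ₁ ∪ Γ₂ ∪ Γ₃
  let S : Set ℂ := S₀ ∪ ((fun γ : K₀ => s (γ : ℂ)) '' (Γ : Set K₀))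
  have hSfin : S.Finite := by
    refine Set.Finite.union (Set.toFinite S₀) ?_
    exact (Γ.finite_toSet).image _
  have : Finite S := hSfin.to_subtype
  have hSI : ∀ x ∈ S, IsIntegral ℚ x := by
    intro x hx
    rcases hx with hx | ⟨γ, -, rfl⟩
    · exact hS₀ x hx
    · refine IsIntegral.of_pow two_pos ?_
      show IsIntegral ℚ (s (γ : ℂ) ^ 2)
      rw [hs]
      have h1 : IsIntegral ℚ γ := IsIntegral.of_finite ℚ γ
      exact h1.map (IsScalarTower.toAlgHom ℚ K₀ ℂ)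
  let K : IntermediateField ℚ ℂ := IntermediateField.adjoin ℚ S
  have hfd : FiniteDimensional ℚ K := IntermediateField.finiteDimensional_adjoin hSI
  have hnf : NumberField K := { to_charZero := inferInstance, to_finiteDimensional := hfd }
  have hle : K₀ ≤ K := IntermediateField.adjoin.mono ℚ S₀ S Set.subset_union_left
  have hsK : ∀ γ : K₀, γ ∈ Γ → s (γ : ℂ) ∈ K := by
    intro γ hγ
    refine IntermediateField.subset_adjoin ℚ S (Or.inr ⟨γ, ?_, rfl⟩)
    exact_mod_cast hγ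
  have key : ∀ (N : ℤ) (x : ℂ) (hx : x ∈ K₀) (γ y : K₀), γ ∈ Γ →
      ((N : K₀) - ⟨x, hx⟩ = γ * y ^ 2) → IsSquare ((N : K) - ⟨x, hle hx⟩) := by
    intro N x hx γ y hγ h
    refine ⟨⟨s (γ : ℂ) * (y : ℂ), K.mul_mem (hsK γ hγ) (hle y.2)⟩, ?_⟩
    apply Subtype.ext
    have h1 : (N : ℂ) - x = (γ : ℂ) * (y : ℂ) ^ 2 := by
      have := congrArg (fun z : K₀ => (z : ℂ)) h
      simpa using this
    show (((N : K) - ⟨x, hle hx⟩ : K) : ℂ) = s (γ : ℂ) * (y : ℂ) * (s (γ : ℂ) * (y : ℂ))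
    have h2 : (((N : K) - ⟨x, hle hx⟩ : K) : ℂ) = (N : ℂ) - x := by
      simp
    rw [h2, h1]
    have h3 := hs (γ : ℂ)
    linear_combination (-(y : ℂ) ^ 2) * h3
  refine ⟨K, inferInstance, hnf, ⟨a, hle ha₀⟩, ⟨b, hle hb₀⟩, ⟨c, hle hc₀⟩, ?_, ?_, ?_, ?_⟩
  · intro h
    exact hab (congrArg (fun z : K => (z : ℂ)) h)
  · intro h
    exact hac (congrArg (fun z : K => (z : ℂ)) h)
  · intro h
    exact hbc (congrArg (fun z : K => (z : ℂ)) h)
  · intro N hN hN0
    obtain ⟨γ, hγ, y, hy⟩ := hΓ₁ N hN hN0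
    obtain ⟨γ', hγ', y', hy'⟩ := hΓ₂ N hN hN0
    obtain ⟨γ'', hγ'', y'', hy''⟩ := hΓ₃ N hN hN0
    exact ⟨key N a ha₀ γ y (Finset.mem_union_left _ (Finset.mem_union_left _ hγ)) hy,
      key N b hb₀ γ' y' (Finset.mem_union_left _ (Finset.mem_union_right _ hγ')) hy',
      key N c hc₀ γ'' y'' (Finset.mem_union_right _ hγ'') hy''⟩

end Pool.Agent.DKP
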