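import Pool.Agent.DKP.St3

/-!
# MP_a79b85_nt: the arithmetic lower bound in degree `D + 1`

By helper43.
-/

set_option autoImplicit false

open Finset

namespace Pool.Agent.DKP

namespace LioCAux

/-- a determinant with bounded entries -/
theorem det_bd {ι : Type} [Fintype ι] [DecidableEq ι] (A : Matrix ι ι ℂ) (M : ℝ)
    (h : ∀ i j, ‖A i j‖ ≤ M) :
    ‖A.det‖ ≤ ((Fintype.card ι).factorial : ℝ) * M ^ Fintype.card ι := by
  rw [Matrix.det_apply]
  refine (norm_sum_le _ _).trans ?_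
  have h2 : ∀ σ ∈ (univ : Finset (Equiv.Perm ι)),
      ‖Equiv.Perm.sign σ • ∏ i, A (σ i) i‖ ≤ M ^ Fintype.card ι := by
    intro σ _
    rw [Units.smul_def, zsmul_eq_mul, norm_mul]
    have h1 : ‖((Equiv.Perm.sign σ : ℤ) : ℂ)‖ = 1 := by
      rcases Int.units_eq_one_or (Equiv.Perm.sign σ) with h | h <;> simp [h]
    rw [h1, one_mul, norm_prod]
    calc ∏ i, ‖A (σ i) i‖ ≤ ∏ _i : ι, M :=
          prod_le_prod (fun i _ => norm_nonneg _) (fun i _ => h _ _)
      _ = M ^ Fintype.card ι := by simp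
  refine (sum_le_card_nsmul _ _ _ h2).trans ?_
  rw [card_univ, Fintype.card_perm, nsmul_eq_mul]

/-- a determinant with entries in a subring -/
theorem det_mem {ι A : Type} [Fintype ι] [DecidableEq ι] [CommRing A] (O : Subring A)
    (G : Matrix ι ι A) (h : ∀ i j, G i j ∈ O) : G.det ∈ O := by
  rw [Matrix.det_apply]
  refine Subring.sum_mem _ fun σ _ => ?_
  rw [Units.smul_def]
  exact Subring.zsmul_mem _ (Subring.prod_mem _ fun i _ => h _ _) _

/-- the matrix over the ring of tuples -/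
def GM {A : Type} [CommRing A] (K L q : ℕ) (u v w : A) (rr ss : Fin K × Fin L → ℕ) :
    Matrix (Fin K × Fin L) (Fin K × Fin L) A :=
  Matrix.of fun j φ => (((ss j : A) - q * rr j)) ^ (φ.1 : ℕ) *
    (u ^ (ss j * (φ.2 : ℕ)) * v ^ (rr j * (φ.2 : ℕ)) * w ^ (rr j * (L - 1 - (φ.2 : ℕ))))

theorem GM_mem {A : Type} [CommRing A] (O : Subring A) (K L q : ℕ) (u v w : A)
    (hu : u ∈ O) (hv : v ∈ O) (hw : w ∈ O)
    (rr ss : Fin K × Fin L → ℕ) (j φ : Fin K × Fin L) : GM K L q u v w rr ss j φ ∈ O := by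
  unfold GM
  rw [Matrix.of_apply]
  refine O.mul_mem (O.pow_mem ?_ _) (O.mul_mem (O.mul_mem (O.pow_mem hu _) (O.pow_mem hv _))
    (O.pow_mem hw _))
  exact O.sub_mem (natCast_mem O _) (O.mul_mem (natCast_mem O _) (natCast_mem O _))

theorem GM_map {A B : Type} [CommRing A] [CommRing B] (f : A →+* B) (K L q : ℕ) (u v w : A)
    (rr ss : Fin K × Fin L → ℕ) :
    f.mapMatrix (GM K L q u v w rr ss) = GM K L q (f u) (f v) (f w) rr ss := by
  ext j φ
  simp [GM]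

/-- the comparison at the coordinate `0` -/
theorem GM_det (K L q : ℕ) (X : ℝ) (hX : X ≠ 0) (a b c : ℂ) (hc : c ≠ 0)
    (rr ss : Fin K × Fin L → ℕ) :
    (GM K L q a b c rr ss).det =
      (∏ j, c ^ (rr j * (L - 1))) * ((∏ φ : Fin K × Fin L, (X : ℂ) ^ (φ.1 : ℕ)) *
        (EMC K L q X a (b / c) rr ss).det) := by
  rw [← Matrix.det_mul_row, ← Matrix.det_mul_column]
  congr 1
  ext j φ
  have hXc : (X : ℂ) ≠ 0 := by exact_mod_cast hX
  simp only [GM, EMC, Matrix.of_apply]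
  have h1 : c ^ (rr j * (L - 1)) = c ^ (rr j * (φ.2 : ℕ)) * c ^ (rr j * (L - 1 - (φ.2 : ℕ))) := by
    rw [← pow_add, ← mul_add]
    congr 2
    have := φ.2.2
    omega
  rw [h1, div_pow, mul_pow, ← pow_mul, ← pow_mul, div_pow]
  field_simp

theorem ent_bd (K L R S q H1 H2 : ℕ) (X : ℝ) (hX : 1 ≤ X) (a b c : ℂ)
    (rr ss : Fin K × Fin L → ℕ)
    (ha : ‖a‖ ≤ Real.exp H1) (hb : ‖b‖ ≤ Real.exp H2) (hc : ‖c‖ ≤ Real.exp H2)
    (hrs : ∀ j, rr j < R ∧ ss j < S) (hq : (q : ℝ) * R + S ≤ X) (j φ : Fin K × Fin L) :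
    ‖GM K L q a b c rr ss j φ‖ ≤ X ^ K * Real.exp ((L * (R * H2 + S * H1) : ℕ) : ℝ) := by
  have hr : (rr j : ℝ) ≤ R := by exact_mod_cast (hrs j).1.le
  have hs : (ss j : ℝ) ≤ S := by exact_mod_cast (hrs j).2.le
  have hl := φ.2.2
  have hk := φ.1.2
  simp only [GM, Matrix.of_apply]
  rw [norm_mul, norm_pow]
  have h1 : ‖(ss j : ℂ) - q * rr j‖ ≤ X := by
    refine (norm_sub_le _ _).trans ?_
    rw [norm_mul, Complex.norm_natCast, Complex.norm_natCast, Complex.norm_natCast]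
    have : (q : ℝ) * rr j ≤ q * R := mul_le_mul_of_nonneg_left hr (Nat.cast_nonneg _)
    linarith
  have h2 : ‖(ss j : ℂ) - q * rr j‖ ^ (φ.1 : ℕ) ≤ X ^ K :=
    (pow_le_pow_left₀ (norm_nonneg _) h1 _).trans (pow_le_pow_right₀ hX hk.le)
  refine mul_le_mul h2 ?_ (norm_nonneg _) (by positivity)
  rw [norm_mul, norm_mul, norm_pow, norm_pow, norm_pow]
  have ea : ‖a‖ ^ (ss j * (φ.2 : ℕ)) ≤ Real.exp ((S * L * H1 : ℕ) : ℝ) := by
    refine (pow_le_pow_left₀ (norm_nonneg _) ha _).trans ?_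
    rw [← Real.exp_nat_mul]
    apply Real.exp_le_exp.mpr
    have : ss j * (φ.2 : ℕ) * H1 ≤ S * L * H1 :=
      Nat.mul_le_mul_right _ (Nat.mul_le_mul (hrs j).2.le hl.le)
    exact_mod_cast this
  have eb : ‖b‖ ^ (rr j * (φ.2 : ℕ)) ≤ Real.exp ((rr j * (φ.2 : ℕ) * H2 : ℕ) : ℝ) := by
    refine (pow_le_pow_left₀ (norm_nonneg _) hb _).trans ?_
    rw [← Real.exp_nat_mul]
    apply Real.exp_le_exp.mpr
    push_cast
    exact le_rfl
  have ec : ‖c‖ ^ (rr j * (L - 1 - (φ.2 : ℕ))) ≤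
      Real.exp ((rr j * (L - 1 - (φ.2 : ℕ)) * H2 : ℕ) : ℝ) := by
    refine (pow_le_pow_left₀ (norm_nonneg _) hc _).trans ?_
    rw [← Real.exp_nat_mul]
    apply Real.exp_le_exp.mpr
    rw [Nat.cast_mul (rr j * (L - 1 - (φ.2 : ℕ))) H2]
  have h3 : ‖a‖ ^ (ss j * (φ.2 : ℕ)) * ‖b‖ ^ (rr j * (φ.2 : ℕ)) *
      ‖c‖ ^ (rr j * (L - 1 - (φ.2 : ℕ))) ≤
      Real.exp ((S * L * H1 : ℕ) : ℝ) * Real.exp ((rr j * (φ.2 : ℕ) * H2 : ℕ) : ℝ) *
        Real.exp ((rr j * (L - 1 - (φ.2 : ℕ)) * H2 : ℕ) : ℝ) := by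
    refine mul_le_mul (mul_le_mul ea eb (by positivity) (by positivity)) ec (by positivity)
      (by positivity)
  refine h3.trans ?_
  rw [← Real.exp_add, ← Real.exp_add]
  apply Real.exp_le_exp.mpr
  have h4 : S * L * H1 + rr j * (φ.2 : ℕ) * H2 + rr j * (L - 1 - (φ.2 : ℕ)) * H2 ≤
      L * (R * H2 + S * H1) := by
    have h5 : rr j * (φ.2 : ℕ) * H2 + rr j * (L - 1 - (φ.2 : ℕ)) * H2 = rr j * (L - 1) * H2 := by
      rw [← add_mul, ← mul_add]
      congr 2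
      omega
    have h6 : rr j * (L - 1) * H2 ≤ R * L * H2 :=
      Nat.mul_le_mul_right _ (Nat.mul_le_mul (hrs j).1.le (Nat.sub_le _ _))
    have h7 : L * (R * H2 + S * H1) = S * L * H1 + R * L * H2 := by ring
    rw [h7, add_assoc, h5]
    exact Nat.add_le_add_left h6 _
  exact_mod_cast h4

theorem z0_bd (K L R H2 : ℕ) (X : ℝ) (hX : 1 ≤ X) (c : ℂ)
    (rr : Fin K × Fin L → ℕ) (hc : ‖c‖ ≤ Real.exp H2) (hrs : ∀ j, rr j < R) :
    ‖∏ j, c ^ (rr j * (L - 1))‖ ≤ Real.exp ((L * (R * H2) : ℕ) : ℝ) ^ (K * L) ∧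
    ‖∏ φ : Fin K × Fin L, (X : ℂ) ^ (φ.1 : ℕ)‖ ≤ (X ^ K) ^ (K * L) := by
  have hcard : Fintype.card (Fin K × Fin L) = K * L := by simp
  constructor
  · rw [norm_prod]
    calc ∏ j, ‖c ^ (rr j * (L - 1))‖ ≤ ∏ _j : Fin K × Fin L,
          Real.exp ((L * (R * H2) : ℕ) : ℝ) := by
          refine prod_le_prod (fun _ _ => norm_nonneg _) fun j _ => ?_
          rw [norm_pow]
          refine (pow_le_pow_left₀ (norm_nonneg _) hc _).trans ?_
          rw [← Real.exp_nat_mul]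
          apply Real.exp_le_exp.mpr
          have : rr j * (L - 1) * H2 ≤ L * (R * H2) := by
            have h6 : rr j * (L - 1) * H2 ≤ R * L * H2 :=
              Nat.mul_le_mul_right _ (Nat.mul_le_mul (hrs j).le (Nat.sub_le _ _))
            have h7 : L * (R * H2) = R * L * H2 := by ring
            rw [h7]; exact h6
          exact_mod_cast this
      _ = _ := by rw [prod_const, card_univ, hcard]
  · rw [norm_prod]
    calc ∏ φ : Fin K × Fin L, ‖(X : ℂ) ^ (φ.1 : ℕ)‖ ≤ ∏ _j : Fin K × Fin L, X ^ K := by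
          refine prod_le_prod (fun _ _ => norm_nonneg _) fun φ _ => ?_
          rw [norm_pow, Complex.norm_real, Real.norm_of_nonneg (by linarith)]
          exact pow_le_pow_right₀ hX φ.1.2.le
      _ = _ := by rw [prod_const, card_univ, hcard]

end LioCAux

open LioCAux in
theorem t_LioC : StmtLioC := by
  intro D O hO u v w hu hv hw hu0 hv0 hw0 K L R S q H1 H2 X rr ss hK hL hX hb hrs hqX hdet
  have hX0 : X ≠ 0 := by linarith
  have hcard : Fintype.card (Fin K × Fin L) = K * L := by simp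
  set G := GM K L q u v w rr ss with hG
  have hGO : G.det ∈ O := det_mem O G (GM_mem O K L q u v w hu hv hw rr ss)
  have hGi : ∀ i, G.det i = (GM K L q (u i) (v i) (w i) rr ss).det := by
    intro i
    have h := RingHom.map_det (Pi.evalRingHom (fun _ : Fin (D + 1) => ℂ) i) G
    rw [hG, GM_map] at h
    exact h
  have hG0 : G.det 0 = (∏ j, w 0 ^ (rr j * (L - 1))) *
      ((∏ φ : Fin K × Fin L, (X : ℂ) ^ (φ.1 : ℕ)) *
        (EMC K L q X (u 0) (v 0 / w 0) rr ss).det) := by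
    rw [hGi, GM_det K L q X hX0 _ _ _ hw0]
  have hne : G.det ≠ 0 := by
    intro h
    have h0 : G.det 0 = 0 := by rw [h]; rfl
    rw [hG0] at h0
    have hXc : (X : ℂ) ≠ 0 := by exact_mod_cast hX0
    rcases mul_eq_zero.mp h0 with h1 | h1
    · rw [prod_eq_zero_iff] at h1
      obtain ⟨j, _, hj⟩ := h1
      exact hw0 ((fun {a : ℂ} {n : ℕ} (h : a ^ n = 0) => by_contra fun ha => pow_ne_zero n ha h) hj)
    · rcases mul_eq_zero.mp h1 with h2 | h2
      · rw [prod_eq_zero_iff] at h2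
        obtain ⟨j, _, hj⟩ := h2
        exact hXc ((fun {a : ℂ} {n : ℕ} (h : a ^ n = 0) => by_contra fun ha => pow_ne_zero n ha h) hj)
      · exact hdet h2
  have h1 := hO _ hGO hne
  rw [norm_prod, Fin.prod_univ_succ] at h1
  set E : ℝ := Real.exp ((L * (R * H2 + S * H1) : ℕ) : ℝ) with hE
  set d : ℝ := ‖(EMC K L q X (u 0) (v 0 / w 0) rr ss).det‖ with hd
  have hE0 : 0 < E := Real.exp_pos _
  have hd0 : 0 ≤ d := norm_nonneg _
  obtain ⟨b1, b2⟩ := z0_bd K L R H2 X hX (w 0) rr (hb 0).2.2 fun j => (hrs j).1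
  have b3 : Real.exp ((L * (R * H2) : ℕ) : ℝ) ≤ E := by
    apply Real.exp_le_exp.mpr
    have : L * (R * H2) ≤ L * (R * H2 + S * H1) := Nat.mul_le_mul_left _ (Nat.le_add_right _ _)
    exact_mod_cast this
  have b4 : ‖G.det 0‖ ≤ E ^ (K * L) * ((X ^ K) ^ (K * L) * d) := by
    rw [hG0, norm_mul, norm_mul]
    refine mul_le_mul (b1.trans (pow_le_pow_left₀ (Real.exp_pos _).le b3 _))
      (mul_le_mul_of_nonneg_right b2 hd0) (by positivity) (by positivity)
  have b5 : ∀ i, ‖G.det i‖ ≤ ((K * L).factorial : ℝ) * (X ^ K * E) ^ (K * L) := by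
    intro i
    rw [hGi]
    have h := det_bd (GM K L q (u i) (v i) (w i) rr ss) (X ^ K * E)
      fun j φ => ent_bd K L R S q H1 H2 X hX (u i) (v i) (w i) rr ss (hb i).1 (hb i).2.1
        (hb i).2.2 hrs hqX j φ
    rwa [hcard] at h
  have b6 : ∏ i : Fin D, ‖G.det i.succ‖ ≤
      (((K * L).factorial : ℝ) * (X ^ K * E) ^ (K * L)) ^ D := by
    calc ∏ i : Fin D, ‖G.det i.succ‖ ≤
          ∏ _i : Fin D, (((K * L).factorial : ℝ) * (X ^ K * E) ^ (K * L)) :=
          prod_le_prod (fun _ _ => norm_nonneg _) fun i _ => b5 _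
      _ = _ := by simp
  have b7 : 1 ≤ E ^ (K * L) * ((X ^ K) ^ (K * L) * d) *
      (((K * L).factorial : ℝ) * (X ^ K * E) ^ (K * L)) ^ D :=
    h1.trans (mul_le_mul b4 b6 (prod_nonneg fun _ _ => norm_nonneg _) (by positivity))
  refine b7.trans (le_of_eq ?_)
  have e1 : Real.exp (((D + 1) * (K * L) * L * (R * H2 + S * H1) : ℕ) : ℝ) =
      E ^ ((D + 1) * (K * L)) := by
    rw [hE, ← Real.exp_nat_mul]
    congr 1
    push_cast
    ring
  rw [e1, mul_pow, mul_pow, mul_pow, add_mul, add_mul, add_mul, pow_add, pow_add, one_mul,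
    one_mul, ← pow_mul, ← pow_mul, ← pow_mul]
  rw [show K * (K * L) * D = D * K * (K * L) by ring, show K * L * D = D * (K * L) by ring]
  ring

end Pool.Agent.DKP
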