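import Pool.Agent.DKP.St3
import Pool.Agent.DKP.Fixed

/-!
# Few multiple roots of `F_m`
-/

set_option autoImplicit false

open Polynomial Finset

namespace Pool.Agent.DKP

namespace MultAux

/-- `(X + √(X²+1))^m = P + Q √(X²+1)` -/
noncomputable def PP : ℕ → ℂ[X] × ℂ[X]
  | 0 => (1, 0)
  | m + 1 => (X * (PP m).1 + (X ^ 2 + 1) * (PP m).2, (PP m).1 + X * (PP m).2)

theorem PP_succ (m : ℕ) : PP (m + 1) =
    (X * (PP m).1 + (X ^ 2 + 1) * (PP m).2, (PP m).1 + X * (PP m).2) := rfl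

theorem PP_norm (m : ℕ) : (PP m).1 ^ 2 - (X ^ 2 + 1) * (PP m).2 ^ 2 = (-1) ^ m := by
  induction m with
  | zero => simp [PP]
  | succ m ih =>
    rw [pow_succ (-1 : ℂ[X]) m, ← ih, PP_succ]
    ring

theorem PP_der (m : ℕ) : derivative (PP m).1 = (m : ℂ[X]) * (PP m).2 ∧
    (X ^ 2 + 1) * derivative (PP m).2 = (m : ℂ[X]) * (PP m).1 - X * (PP m).2 := by
  induction m with
  | zero => simp [PP]
  | succ m ih =>
    obtain ⟨h1, h2⟩ := ih
    rw [PP_succ]
    simp only [derivative_add, derivative_mul, derivative_X, derivative_X_pow, derivative_one, h1]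
    push_cast
    constructor
    · simp only [map_ofNat]
      linear_combination h2
    · linear_combination X * h2

theorem YY_eq (s : ℂ) (m : ℕ) :
    (YY (C s) X m : ℂ[X]) = (PP m).1 + (X + C s) * (PP m).2 ∧
    (YY (C s) X (m + 1) : ℂ[X]) = (PP (m + 1)).1 + (X + C s) * (PP (m + 1)).2 := by
  induction m with
  | zero =>
    constructor
    · simp [YY, PP]
    · simp only [YY, PP]
      ring
  | succ m ih =>
    refine ⟨ih.2, ?_⟩
    rw [YY, ih.1, ih.2, PP_succ (m + 1), PP_succ m]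
    ring

theorem YY_map {R S : Type} [CommRing R] [CommRing S] (φ : R →+* S) (s x : R) (m : ℕ) :
    φ (YY s x m) = YY (φ s) (φ x) m ∧ φ (YY s x (m + 1)) = YY (φ s) (φ x) (m + 1) := by
  induction m with
  | zero =>
    constructor
    · simp [YY]
    · simp only [YY, map_add, map_mul, map_ofNat]
  | succ m ih =>
    refine ⟨ih.2, ?_⟩
    rw [YY, YY, map_add, map_mul, ih.1, ih.2, map_mul, map_ofNat]

theorem FP_map (s : ℤ) (m : ℕ) :
    (FP s m).map (algebraMap ℤ ℂ) = FF (C (s : ℂ)) X m := by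
  have h := (YY_map (mapRingHom (algebraMap ℤ ℂ)) (C s) X m).1
  rw [coe_mapRingHom, map_C, map_X] at h
  have e : (algebraMap ℤ ℂ) s = (s : ℂ) := by simp
  rw [e] at h
  unfold FP FF
  rw [Polynomial.map_add, Polynomial.map_sub, Polynomial.map_mul, Polynomial.map_pow, h,
    Polynomial.map_pow, Polynomial.map_sub, map_X, Polynomial.map_one, Polynomial.map_ofNat]

/-- the resultant-like combination -/
noncomputable def RR (s : ℂ) (m : ℕ) : ℂ[X] :=
  ((X - 1) ^ 2 - 2) ^ 2 * (1 - (2 * (m : ℂ[X]) + 1) * C s * X) ^ 2 -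
  2 * (X + C s) * ((X - 1) ^ 2 - 2) *
    ((X ^ 2 + 1) * (X - 1) - (m : ℂ[X]) * (X + C s) * ((X - 1) ^ 2 - 2)) *
    (1 - (2 * (m : ℂ[X]) + 1) * C s * X) +
  2 * C s * X * ((X ^ 2 + 1) * (X - 1) - (m : ℂ[X]) * (X + C s) * ((X - 1) ^ 2 - 2)) ^ 2 -
  2 * (-1) ^ m * ((X - 1) ^ 2 - 2) * (1 - (2 * (m : ℂ[X]) + 1) * C s * X) ^ 2

theorem RR_dvd (s : ℂ) (hs : s ^ 2 = 1) (m : ℕ) (g : ℂ[X])
    (h1 : g ∣ FF (C s) X m) (h2 : g ∣ derivative (FF (C s) X m)) : g ∣ RR s m := by
  have hC : (C s : ℂ[X]) ^ 2 = 1 := by rw [← C_pow, hs, C_1]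
  have h12 : (2 : ℂ[X]) * C (1 / 2) = 1 := by
    have : (2 : ℂ[X]) = C 2 := rfl
    rw [this, ← C_mul]
    norm_num
  obtain ⟨hw, -⟩ := YY_eq s m
  obtain ⟨hP, hQ⟩ := PP_der m
  have hn := PP_norm m
  set P := (PP m).1 with hPdef
  set Q := (PP m).2 with hQdef
  set w : ℂ[X] := YY (C s) X m with hwdef
  have hw' : derivative w = derivative P + Q + (X + C s) * derivative Q := by
    rw [hw]
    simp only [derivative_add, derivative_mul, derivative_X, derivative_C]
    ring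
  have hi : w ^ 2 - 2 * (X + C s) * w * Q + 2 * C s * X * Q ^ 2 = (-1) ^ m := by
    rw [hw, ← hn]
    linear_combination (-Q ^ 2) * hC
  have hii : (X ^ 2 + 1) * derivative w =
      (m : ℂ[X]) * (X + C s) * w + Q * (1 - (2 * (m : ℂ[X]) + 1) * C s * X) := by
    rw [hw', hP, hw]
    linear_combination (X + C s) * hQ + (-(m : ℂ[X]) * Q) * hC
  set F : ℂ[X] := FF (C s) X m with hF
  have hF1 : F = 2 * w ^ 2 - ((X - 1) ^ 2 - 2) := by
    rw [hF]
    unfold FF
    ring
  have hF' : derivative F = 4 * w * derivative w - 2 * (X - 1) := by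
    rw [hF1]
    simp only [derivative_sub, derivative_mul, derivative_pow, derivative_X, derivative_one,
      derivative_ofNat]
    have hC2 : (C 2 : ℂ[X]) = 2 := rfl
    push_cast
    try rw [hC2]
    ring
  set P2 : ℂ[X] := (X - 1) ^ 2 - 2 with hP2
  set z : ℂ[X] := 2 * w * Q with hz
  set Dz : ℂ[X] := 1 - (2 * (m : ℂ[X]) + 1) * C s * X with hDz
  set Nz : ℂ[X] := (X ^ 2 + 1) * (X - 1) - (m : ℂ[X]) * (X + C s) * P2 with hNz
  set h : ℂ[X] := C (1 / 2) * (X ^ 2 + 1) * derivative F - (m : ℂ[X]) * (X + C s) * F with hh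
  have key : (F + P2) ^ 2 - 2 * (X + C s) * (F + P2) * z + 2 * C s * X * z ^ 2 -
      2 * (-1) ^ m * (F + P2) = 0 := by
    have e : F + P2 = 2 * w ^ 2 := by
      rw [hF1]
      ring
    rw [e, hz]
    linear_combination (4 * w ^ 2) * hi
  have hzD : z * Dz = Nz + h := by
    have e1 : 2 * (z * Dz) = 2 * (Nz + h) := by
      have e2 : 2 * h = (X ^ 2 + 1) * derivative F - 2 * (m : ℂ[X]) * (X + C s) * F := by
        rw [hh]
        linear_combination ((X ^ 2 + 1) * derivative F) * h12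
      rw [mul_add, e2, hF', hF1, hz, hNz]
      linear_combination (-4 * w) * hii
    exact mul_left_cancel₀ two_ne_zero e1
  have hg : g ∣ h := by
    rw [hh]
    exact dvd_sub (h2.mul_left _) (h1.mul_left _)
  have hN : Nz = z * Dz - h := by
    rw [hzD]
    ring
  have hR : RR s m = F * (-(F + 2 * P2) * Dz ^ 2 + 2 * (X + C s) * Dz * (Nz + h) +
      2 * (-1) ^ m * Dz ^ 2) + h * (2 * (X + C s) * Dz * P2 - 2 * C s * X * (2 * Nz + h)) := by
    have e : RR s m = P2 ^ 2 * Dz ^ 2 - 2 * (X + C s) * P2 * Nz * Dz + 2 * C s * X * Nz ^ 2 -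
      2 * (-1) ^ m * P2 * Dz ^ 2 := rfl
    rw [e, hN]
    linear_combination Dz ^ 2 * key
  rw [hR]
  exact dvd_add (h1.mul_right _) (hg.mul_right _)

theorem RR_deg (s : ℂ) (hs : s ^ 2 = 1) (m : ℕ) (hm : 2 ≤ m) :
    (RR s m).natDegree ≤ 7 ∧ RR s m ≠ 0 := by
  have hs0 : s ≠ 0 := by
    rintro rfl
    norm_num at hs
  have h7 : (RR s m).coeff 7 = 2 * s * (1 - m) * (m + 2) := by
    unfold RR
    compute_degree
    case rs => ring
    all_goals simp
  have h7' : (2 * s * (1 - m) * (m + 2) : ℂ) ≠ 0 := by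
    have h1 : (1 - m : ℂ) ≠ 0 := by
      intro h
      have : (m : ℂ) = 1 := by linear_combination -h
      have : m = 1 := by exact_mod_cast this
      omega
    have h2 : (m + 2 : ℂ) ≠ 0 := by exact_mod_cast (by omega : m + 2 ≠ 0)
    exact mul_ne_zero (mul_ne_zero (mul_ne_zero two_ne_zero hs0) h1) h2
  refine ⟨?_, fun h => h7' ?_⟩
  · unfold RR
    compute_degree
  · rw [← h7, h, coeff_zero]

end MultAux

open MultAux in
theorem t_Mult : StmtMult := by
  intro s m hs hm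
  have hs2 : ((s : ℂ)) ^ 2 = 1 := by
    rcases hs with rfl | rfl <;> norm_num
  set F : ℂ[X] := FF (C (s : ℂ)) X m with hF
  obtain ⟨hR1, hR0⟩ := RR_deg (s : ℂ) hs2 m (by omega)
  have hdeg : F.natDegree = m * 2 ∧ F ≠ 0 := by
    have h := Fixed46.deg_FF s m (by omega)
    have hinj : Function.Injective (algebraMap ℤ ℂ) := RingHom.injective_int (algebraMap ℤ ℂ)
    have e : F = (FF (C s) X m : ℤ[X]).map (algebraMap ℤ ℂ) := (FP_map s m).symm
    rw [e]
    exact ⟨by rw [natDegree_map_eq_of_injective hinj, h.1],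
      (Polynomial.map_ne_zero_iff hinj).2 h.2⟩
  classical
  set S := F.roots.toFinset with hS
  set O := S.filter (fun α => Odd (F.rootMultiplicity α)) with hO
  have hsum : ∑ α ∈ S, F.rootMultiplicity α = m * 2 := by
    have h1 := Multiset.toFinset_sum_count_eq F.roots
    simp only [count_roots] at h1
    rw [hS, h1, ← hdeg.1]
    exact IsAlgClosed.card_roots_eq_natDegree
  have hr : ∀ α ∈ S, F.rootMultiplicity α - 1 ≤ (RR (s : ℂ) m).rootMultiplicity α := by
    intro α _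
    rw [le_rootMultiplicity_iff hR0]
    exact RR_dvd _ hs2 m _ ((pow_dvd_pow _ (Nat.sub_le _ _)).trans (pow_rootMultiplicity_dvd F α))
      (pow_sub_one_dvd_derivative_of_pow_dvd (pow_rootMultiplicity_dvd F α))
  have hrs : ∑ α ∈ S, (RR (s : ℂ) m).rootMultiplicity α ≤ 7 := by
    refine le_trans ?_ ((card_roots' _).trans hR1)
    rw [← Multiset.toFinset_sum_count_eq (RR (s : ℂ) m).roots]
    simp only [count_roots]
    refine Finset.sum_le_sum_of_ne_zero fun α _ hα => ?_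
    rw [Multiset.mem_toFinset, mem_roots hR0]
    exact (rootMultiplicity_pos hR0).1 (Nat.pos_of_ne_zero hα)
  have hcard : m * 2 ≤ O.card + 2 * ∑ α ∈ S, (RR (s : ℂ) m).rootMultiplicity α := by
    rw [← hsum, hO, Finset.card_filter, Finset.mul_sum, ← Finset.sum_add_distrib]
    refine Finset.sum_le_sum fun α hα => ?_
    have h1 := hr α hα
    have h2 : 0 < F.rootMultiplicity α := by
      rw [rootMultiplicity_pos hdeg.2]
      rw [hS, Multiset.mem_toFinset, mem_roots hdeg.2] at hα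
      exact hα
    split_ifs with h3
    · omega
    · rw [Nat.not_odd_iff_even] at h3
      obtain ⟨j, hj⟩ := h3
      omega
  have h3 : 2 < O.card := by omega
  obtain ⟨a, ha, b, hb, c, hc, hab, hac, hbc⟩ := Finset.two_lt_card.1 h3
  have hodd : ∀ α ∈ O, OddRoot (FP s m) α := by
    intro α hα
    unfold OddRoot
    rw [FP_map]
    exact (Finset.mem_filter.1 hα).2
  exact ⟨a, b, c, hab, hac, hbc, hodd a ha, hodd b hb, hodd c hc⟩

end Pool.Agent.DKP
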