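import Pool.Agent.DKP.St3

/-!
# DKP_Near: a unit that is close to a fixed number at one embedding
-/

set_option autoImplicit false

open NumberField Finset

namespace Pool.Agent.DKP

namespace Near20

lemma root (N : ℕ) (hN : 1 ≤ N) (B : ℕ) : ∃ L : ℕ, L ^ N ≤ B ∧ B < (L + 1) ^ N := by
  classical
  have h0 : (0 : ℕ) ^ N ≤ B := by rw [zero_pow (by omega)]; exact Nat.zero_le _
  refine ⟨Nat.findGreatest (fun l => l ^ N ≤ B) B,
    Nat.findGreatest_spec (P := fun l => l ^ N ≤ B) (Nat.zero_le _) h0, ?_⟩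
  by_contra hlt
  rw [not_lt] at hlt
  have h1 : Nat.findGreatest (fun l => l ^ N ≤ B) B + 1 ≤ B :=
    (Nat.le_self_pow (by omega) _).trans hlt
  have := Nat.le_findGreatest (P := fun l => l ^ N ≤ B) h1 hlt
  omega

lemma fin_bd {ι : Type*} [Finite ι] (f : ι → ℝ) : ∃ M : ℕ, ∀ i, f i ≤ M := by
  obtain ⟨x, hx⟩ := (Set.finite_range f).bddAbove
  obtain ⟨M, hM⟩ := exists_nat_ge x
  exact ⟨M, fun i => (hx ⟨i, rfl⟩).trans hM⟩

lemma consts (K : Type) [Field K] [NumberField K] (σ : K →+* ℂ) (β : K) (β₁ β₀ : 𝓞 K) :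
    ∃ M : ℕ, 1 ≤ M ∧
      (∀ ζ : Units.torsion K,
        ‖Complex.log (σ β) + Complex.log (σ ((ζ : (𝓞 K)ˣ) : K))‖ ≤ M) ∧
      (∑ j, ‖Complex.log (σ ((Units.fundSystem K j : (𝓞 K)ˣ) : K))‖ + 2 * Real.pi ≤ M) ∧
      (∀ τ : K →+* ℂ, ∑ j, |Real.log ‖τ ((Units.fundSystem K j : (𝓞 K)ˣ) : K)‖| ≤ M) ∧
      (∀ (τ : K →+* ℂ) (ζ : Units.torsion K), ‖τ (β₁ : K) * τ ((ζ : (𝓞 K)ˣ) : K)‖ ≤ M) ∧
      (∀ τ : K →+* ℂ, ‖τ (β₀ : K)‖ ≤ M) := by
  obtain ⟨M1, h1⟩ := fin_bd (fun ζ : Units.torsion K =>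
    ‖Complex.log (σ β) + Complex.log (σ ((ζ : (𝓞 K)ˣ) : K))‖)
  obtain ⟨M2, h2⟩ := exists_nat_ge
    (∑ j, ‖Complex.log (σ ((Units.fundSystem K j : (𝓞 K)ˣ) : K))‖ + 2 * Real.pi)
  obtain ⟨M3, h3⟩ := fin_bd (fun τ : K →+* ℂ =>
    ∑ j, |Real.log ‖τ ((Units.fundSystem K j : (𝓞 K)ˣ) : K)‖|)
  obtain ⟨M4, h4⟩ := fin_bd (fun x : (K →+* ℂ) × Units.torsion K =>
    ‖x.1 (β₁ : K) * x.1 ((x.2 : (𝓞 K)ˣ) : K)‖)
  obtain ⟨M5, h5⟩ := fin_bd (fun τ : K →+* ℂ => ‖τ (β₀ : K)‖)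
  refine ⟨M1 + M2 + M3 + M4 + M5 + 1, by omega, fun ζ => (h1 ζ).trans ?_, h2.trans ?_,
    fun τ => (h3 τ).trans ?_, fun τ ζ => (h4 (τ, ζ)).trans ?_, fun τ => (h5 τ).trans ?_⟩ <;>
  · exact_mod_cast (by omega)

/-- the value of a unit -/
lemma val_unit (K : Type) [Field K] [NumberField K] (τ : K →+* ℂ) (ζ : Units.torsion K)
    (e : Fin (Units.rank K) → ℤ) :
    τ (((ζ : (𝓞 K)ˣ) * ∏ j, Units.fundSystem K j ^ e j : (𝓞 K)ˣ) : K) =
      τ ((ζ : (𝓞 K)ˣ) : K) * ∏ j, τ ((Units.fundSystem K j : (𝓞 K)ˣ) : K) ^ e j := by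
  let f : (𝓞 K)ˣ →* ℂ := (τ : K →* ℂ).comp (((algebraMap (𝓞 K) K) : 𝓞 K →* K).comp
    (_root_.Units.coeHom (𝓞 K)))
  change f ((ζ : (𝓞 K)ˣ) * ∏ j, Units.fundSystem K j ^ e j) =
    f (ζ : (𝓞 K)ˣ) * ∏ j, f (Units.fundSystem K j) ^ e j
  rw [map_mul, map_prod]
  simp only [map_zpow]

lemma prod_norm_le {ι : Type*} [Fintype ι] (z : ι → ℂ) (hz : ∀ j, z j ≠ 0) (e : ι → ℤ) (E M : ℝ)
    (hE0 : 0 ≤ E) (hE : ∀ j, |(e j : ℝ)| ≤ E) (hM : ∑ j, |Real.log ‖z j‖| ≤ M) :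
    ‖∏ j, z j ^ e j‖ ≤ Real.exp (E * M) := by
  rw [norm_prod]
  have h1 : ∀ j, ‖z j ^ e j‖ = Real.exp (e j * Real.log ‖z j‖) := by
    intro j
    rw [norm_zpow, ← Real.log_zpow, Real.exp_log (zpow_pos (norm_pos_iff.2 (hz j)) _)]
  rw [Finset.prod_congr rfl fun j _ => h1 j, ← Real.exp_sum]
  refine Real.exp_le_exp.2 ?_
  calc ∑ j, (e j : ℝ) * Real.log ‖z j‖ ≤ ∑ j, E * |Real.log ‖z j‖| := by
        refine Finset.sum_le_sum fun j _ => ?_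
        calc (e j : ℝ) * Real.log ‖z j‖ ≤ |(e j : ℝ) * Real.log ‖z j‖| := le_abs_self _
          _ = |(e j : ℝ)| * |Real.log ‖z j‖| := abs_mul _ _
          _ ≤ E * |Real.log ‖z j‖| := mul_le_mul_of_nonneg_right (hE j) (abs_nonneg _)
    _ = E * ∑ j, |Real.log ‖z j‖| := by rw [Finset.mul_sum]
    _ ≤ E * M := mul_le_mul_of_nonneg_left hM hE0

lemma exp_lin {ι : Type*} [Fintype ι] (z : ι → ℂ) (hz : ∀ j, z j ≠ 0) (e : ι → ℤ) (n : ℤ) :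
    Complex.exp (∑ j, (e j : ℂ) * Complex.log (z j) + 2 * Real.pi * Complex.I * n) =
      ∏ j, z j ^ e j := by
  rw [Complex.exp_add]
  have h1 : Complex.exp (2 * Real.pi * Complex.I * n) = 1 := by
    rw [mul_comm]
    exact Complex.exp_int_mul_two_pi_mul_I n
  rw [h1, mul_one, Complex.exp_sum]
  refine Finset.prod_congr rfl fun j _ => ?_
  rw [Complex.exp_int_mul, Complex.exp_log (hz j)]

lemma norm_lin {ι : Type*} [Fintype ι] (z : ι → ℂ) (e : ι → ℤ) (n : ℤ) (E M : ℝ) (hE0 : 0 ≤ E)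
    (hE : ∀ j, |(e j : ℝ)| ≤ E) (hn : |(n : ℝ)| ≤ E)
    (hM : ∑ j, ‖Complex.log (z j)‖ + 2 * Real.pi ≤ M) :
    ‖∑ j, (e j : ℂ) * Complex.log (z j) + 2 * Real.pi * Complex.I * n‖ ≤ E * M := by
  have h1 : ‖∑ j, (e j : ℂ) * Complex.log (z j)‖ ≤ E * ∑ j, ‖Complex.log (z j)‖ := by
    refine (norm_sum_le _ _).trans ?_
    rw [Finset.mul_sum]
    refine Finset.sum_le_sum fun j _ => ?_
    rw [norm_mul, Complex.norm_intCast]
    exact mul_le_mul_of_nonneg_right (hE j) (norm_nonneg _)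
  have h2 : ‖(2 * Real.pi * Complex.I * n : ℂ)‖ ≤ E * (2 * Real.pi) := by
    rw [norm_mul, norm_mul, norm_mul, Complex.norm_intCast, Complex.norm_I, Complex.norm_real,
      Real.norm_eq_abs, abs_of_pos Real.pi_pos]
    simp only [Complex.norm_ofNat, mul_one]
    rw [mul_comm]
    exact mul_le_mul_of_nonneg_right hn (by positivity)
  calc _ ≤ _ := norm_add_le _ _
    _ ≤ E * ∑ j, ‖Complex.log (z j)‖ + E * (2 * Real.pi) := add_le_add h1 h2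
    _ = E * (∑ j, ‖Complex.log (z j)‖ + 2 * Real.pi) := by ring
    _ ≤ E * M := mul_le_mul_of_nonneg_left hM hE0

lemma H2_bd (M t B Q : ℕ) (hM : 1 ≤ M) (ht : 1 ≤ t) (hQ : 1 ≤ Q) :
    ((M * (3 + M * t + B / (t * Q)) : ℕ) : ℝ) * t ≤ 4 * (M : ℝ) ^ 2 * (t : ℝ) ^ 2 + M * B / Q := by
  have hM' : (1 : ℝ) ≤ M := by exact_mod_cast hM
  have ht' : (1 : ℝ) ≤ t := by exact_mod_cast ht
  have hQ' : (1 : ℝ) ≤ Q := by exact_mod_cast hQ
  have h1 : ((B / (t * Q) : ℕ) : ℝ) ≤ (B : ℝ) / (t * Q) := by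
    have := Nat.cast_div_le (α := ℝ) (m := B) (n := t * Q)
    rwa [Nat.cast_mul] at this
  have h2 : ((B / (t * Q) : ℕ) : ℝ) * t ≤ (B : ℝ) / Q := by
    calc ((B / (t * Q) : ℕ) : ℝ) * t ≤ (B : ℝ) / (t * Q) * t :=
          mul_le_mul_of_nonneg_right h1 (by linarith)
      _ = (B : ℝ) / Q := by
          field_simp
  have h3 : (M : ℝ) * (((B / (t * Q) : ℕ) : ℝ) * t) ≤ M * ((B : ℝ) / Q) :=
    mul_le_mul_of_nonneg_left h2 (by linarith)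
  have h4 : 3 * (M : ℝ) * t ≤ 3 * (M : ℝ) ^ 2 * (t : ℝ) ^ 2 := by
    have : (M : ℝ) * t ≤ ((M : ℝ) * t) ^ 2 := by
      have h5 : 1 ≤ (M : ℝ) * t := one_le_mul_of_one_le_of_one_le hM' ht'
      nlinarith
    nlinarith
  rw [Nat.cast_mul, Nat.cast_add, Nat.cast_add, Nat.cast_mul]
  push_cast at h3 ⊢
  have h6 : (M : ℝ) * B / Q = M * ((B : ℝ) / Q) := by ring
  rw [h6]
  nlinarith

lemma H2_lo (M t B Q : ℕ) (ht : 1 ≤ t) (hQ : 1 ≤ Q) :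
    (M : ℝ) * (1 + ((B : ℝ) / (t * Q) + M * t + 1)) ≤
      ((M * (3 + M * t + B / (t * Q)) : ℕ) : ℝ) := by
  have htQ : 0 < t * Q := Nat.mul_pos (by omega) (by omega)
  have htQ' : (0 : ℝ) < t * Q := by exact_mod_cast htQ
  have h1 : (B : ℝ) / (t * Q) ≤ ((B / (t * Q) : ℕ) : ℝ) + 1 := by
    rw [div_le_iff₀ htQ']
    have h2 : B ≤ (B / (t * Q) + 1) * (t * Q) := by
      have h3 := Nat.div_add_mod B (t * Q)
      have h4 := Nat.mod_lt B htQ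
      nlinarith
    exact_mod_cast h2
  have hM : (0 : ℝ) ≤ M := Nat.cast_nonneg _
  rw [Nat.cast_mul, Nat.cast_add, Nat.cast_add, Nat.cast_mul]
  refine mul_le_mul_of_nonneg_left ?_ hM
  push_cast at h1 ⊢
  linarith

lemma t_sq (t Q E L r : ℕ) (h : t ≤ Q ^ (r + 1)) (hQ : Q = E * L ^ 2) :
    (t : ℝ) ^ 2 ≤ (E : ℝ) ^ (2 * r + 2) * (L : ℝ) ^ (4 * r + 4) := by
  have : t ^ 2 ≤ E ^ (2 * r + 2) * L ^ (4 * r + 4) := by
    calc t ^ 2 ≤ (Q ^ (r + 1)) ^ 2 := Nat.pow_le_pow_left h 2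
      _ = E ^ (2 * r + 2) * L ^ (4 * r + 4) := by
          rw [hQ]
          ring
  exact_mod_cast this

lemma cond1 (D M L t B Q E r H2 : ℕ) (hL : 1 ≤ L) (ht : 1 ≤ t) (hQ : Q = E * L ^ 2)
    (hQ1 : 1 ≤ Q) (hE : 4000 * (D + 1) * M ≤ E)
    (hH2 : (H2 : ℝ) * t ≤ 4 * (M : ℝ) ^ 2 * (t : ℝ) ^ 2 + M * B / Q)
    (hts : (t : ℝ) ^ 2 ≤ (E : ℝ) ^ (2 * r + 2) * (L : ℝ) ^ (4 * r + 4))
    (hk : 16000 * ((D + 1 : ℕ) : ℝ) * M ^ 2 * E ^ (2 * r + 2) ≤ L) (hB : L ^ (4 * r + 8) ≤ B) :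
    2000 * (D + 1) * L * H2 ≤ B / t := by
  rw [Nat.le_div_iff_mul_le (by omega)]
  have hLR : (1 : ℝ) ≤ L := by exact_mod_cast hL
  have hQR : (0 : ℝ) < Q := by exact_mod_cast hQ1
  have hBR : (0 : ℝ) ≤ B := Nat.cast_nonneg _
  have hBL : (L : ℝ) ^ (4 * r + 8) ≤ B := by exact_mod_cast hB
  -- second part
  have h1 : 2000 * ((D : ℝ) + 1) * L * (M * B / Q) ≤ B / 2 := by
    have h2 : 4000 * ((D : ℝ) + 1) * M * L ≤ Q := by
      have h3 : (4000 * ((D : ℝ) + 1) * M) ≤ E := by exact_mod_cast hE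
      have h4 : (Q : ℝ) = E * L ^ 2 := by exact_mod_cast hQ
      have h5 : (L : ℝ) ≤ (L : ℝ) ^ 2 := by nlinarith
      have h6 : (0 : ℝ) ≤ E := Nat.cast_nonneg _
      rw [h4]
      calc 4000 * ((D : ℝ) + 1) * M * L ≤ E * L := mul_le_mul_of_nonneg_right h3 (by linarith)
        _ ≤ E * (L : ℝ) ^ 2 := mul_le_mul_of_nonneg_left h5 h6
    have h7 : 2000 * ((D : ℝ) + 1) * L * (M * B / Q) = (4000 * ((D : ℝ) + 1) * M * L) * B / Q / 2 := by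
      ring
    rw [h7]
    have h8 : (4000 * ((D : ℝ) + 1) * M * L) * B / Q ≤ B := by
      rw [div_le_iff₀ hQR]
      calc (4000 * ((D : ℝ) + 1) * M * L) * B ≤ Q * B := mul_le_mul_of_nonneg_right h2 hBR
        _ = B * Q := mul_comm _ _
    linarith
  have h2 : 2000 * ((D : ℝ) + 1) * L * (4 * (M : ℝ) ^ 2 * (t : ℝ) ^ 2) ≤ B / 2 := by
    have h3 : 2000 * ((D : ℝ) + 1) * L * (4 * (M : ℝ) ^ 2 * (t : ℝ) ^ 2) ≤
        2000 * ((D : ℝ) + 1) * L * (4 * (M : ℝ) ^ 2 *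
          ((E : ℝ) ^ (2 * r + 2) * (L : ℝ) ^ (4 * r + 4))) := by gcongr
    have h4 : 2000 * ((D : ℝ) + 1) * L * (4 * (M : ℝ) ^ 2 *
          ((E : ℝ) ^ (2 * r + 2) * (L : ℝ) ^ (4 * r + 4))) =
        (16000 * ((D : ℝ) + 1) * M ^ 2 * E ^ (2 * r + 2)) * (L ^ (4 * r + 5)) / 2 := by
      ring
    have h5 : (16000 * ((D : ℝ) + 1) * M ^ 2 * E ^ (2 * r + 2)) * (L : ℝ) ^ (4 * r + 5) ≤
        L * (L : ℝ) ^ (4 * r + 5) := by
      refine mul_le_mul_of_nonneg_right ?_ (by positivity)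
      push_cast at hk
      exact hk
    have h6 : L * (L : ℝ) ^ (4 * r + 5) ≤ (L : ℝ) ^ (4 * r + 8) := by
      rw [← pow_succ']
      exact pow_le_pow_right₀ hLR (by omega)
    linarith
  have h3 : ((2000 * (D + 1) * L * H2 * t : ℕ) : ℝ) ≤ (B : ℝ) := by
    push_cast
    have h4 : 2000 * ((D : ℝ) + 1) * L * H2 * t = 2000 * ((D : ℝ) + 1) * L * (H2 * t) := by ring
    rw [h4]
    have h5 : 2000 * ((D : ℝ) + 1) * L * (H2 * t) ≤
        2000 * ((D : ℝ) + 1) * L * (4 * (M : ℝ) ^ 2 * (t : ℝ) ^ 2 + M * B / Q) :=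
      mul_le_mul_of_nonneg_left hH2 (by positivity)
    rw [mul_add] at h5
    linarith
  exact_mod_cast h3

lemma cond2 (D M L t B r H1 q : ℕ) (hM : 1 ≤ M) (ht : 1 ≤ t) (hL : 1 ≤ L)
    (hH1 : H1 = M * (M * t + 1)) (hq : q = B / t) (hq1 : 1 ≤ q)
    (hB : B < (L + 1) ^ (4 * r + 8))
    (hk : 4 * ((D + 1 : ℕ) : ℝ) * (Real.log (8000 * ((D + 1 : ℕ) : ℝ) * M ^ 2) +
      (4 * r + 9) * Real.log (L + 1)) ≤ L) :
    4 * ((D : ℝ) + 1) * Real.log (4000 * (D + 1) * L * H1 * q) ≤ L := by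
  have hqt : q * t ≤ B := by rw [hq]; exact Nat.div_mul_le_self B t
  have hH : H1 ≤ 2 * M ^ 2 * t := by
    rw [hH1]
    have : M ≤ M ^ 2 * t := by
      calc M = M * 1 * 1 := by ring
        _ ≤ M * M * t := Nat.mul_le_mul (Nat.mul_le_mul le_rfl hM) ht
        _ = M ^ 2 * t := by ring
    nlinarith
  have hH1q : H1 * q ≤ 2 * M ^ 2 * B := by
    calc H1 * q ≤ 2 * M ^ 2 * t * q := Nat.mul_le_mul_right _ hH
      _ = 2 * M ^ 2 * (q * t) := by ring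
      _ ≤ 2 * M ^ 2 * B := Nat.mul_le_mul_left _ hqt
  have hH11 : 1 ≤ H1 := by
    rw [hH1]
    exact Nat.mul_pos hM (by omega)
  have h1 : 4000 * (D + 1) * L * H1 * q ≤ 8000 * (D + 1) * M ^ 2 * (L + 1) ^ (4 * r + 9) := by
    calc 4000 * (D + 1) * L * H1 * q = 4000 * (D + 1) * L * (H1 * q) := by ring
      _ ≤ 4000 * (D + 1) * (L + 1) * (2 * M ^ 2 * (L + 1) ^ (4 * r + 8)) := by
          refine Nat.mul_le_mul (Nat.mul_le_mul le_rfl (by omega)) (hH1q.trans ?_)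
          exact Nat.mul_le_mul_left _ hB.le
      _ = 8000 * (D + 1) * M ^ 2 * (L + 1) ^ (4 * r + 9) := by ring
  have h2 : 4000 * ((D : ℝ) + 1) * L * H1 * q ≤
      (8000 * ((D : ℝ) + 1) * M ^ 2) * ((L : ℝ) + 1) ^ (4 * r + 9) := by exact_mod_cast h1
  have hLR : (1 : ℝ) ≤ L := by exact_mod_cast hL
  have hMR : (1 : ℝ) ≤ M := by exact_mod_cast hM
  have hHR : (1 : ℝ) ≤ H1 := by exact_mod_cast hH11
  have hqR : (1 : ℝ) ≤ q := by exact_mod_cast hq1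
  have h3 : 0 < 4000 * ((D : ℝ) + 1) * L * H1 * q := by positivity
  have h4 : Real.log (4000 * (D + 1) * L * H1 * q) ≤ Real.log (8000 * ((D : ℝ) + 1) * M ^ 2) +
      (4 * r + 9) * Real.log (L + 1) := by
    refine (Real.log_le_log h3 h2).trans (le_of_eq ?_)
    rw [Real.log_mul (by positivity) (by positivity), Real.log_pow]
    push_cast
    ring
  push_cast at hk
  refine le_trans ?_ hk
  exact mul_le_mul_of_nonneg_left h4 (by positivity)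

lemma cond3 (D M L t B Q E r H1 H2 : ℕ) (C κ : ℝ) (hκ : 0 < κ) (hM : 1 ≤ M)
    (hL : 1 ≤ L) (ht : 1 ≤ t) (hQ : Q = E * L ^ 2) (hE1 : 1 ≤ E)
    (hE : 24 * 10 ^ 6 * ((D : ℝ) + 1) ^ 2 * M ^ 3 / κ ≤ E) (hH1 : H1 = M * (M * t + 1))
    (hH2 : (H2 : ℝ) * t ≤ 4 * (M : ℝ) ^ 2 * (t : ℝ) ^ 2 + M * B / Q)
    (hts : (t : ℝ) ^ 2 ≤ (E : ℝ) ^ (2 * r + 2) * (L : ℝ) ^ (4 * r + 4))
    (hk3 : 96 * 10 ^ 6 * ((D + 1 : ℕ) : ℝ) ^ 2 * M ^ 4 * E ^ (2 * r + 2) ≤ κ * L)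
    (hk5 : 4 * Real.log (2 * C) < κ * L) (hLB : (L : ℝ) ≤ B) (hB : L ^ (4 * r + 8) ≤ B) :
    Real.log (2 * C) + 3 * 10 ^ 6 * ((D : ℝ) + 1) ^ 2 * (L : ℝ) ^ 2 * H1 * H2 < κ * B := by
  have hLR : (1 : ℝ) ≤ L := by exact_mod_cast hL
  have hMR : (1 : ℝ) ≤ M := by exact_mod_cast hM
  have htR : (1 : ℝ) ≤ t := by exact_mod_cast ht
  have hER : (1 : ℝ) ≤ E := by exact_mod_cast hE1
  have hBL : (L : ℝ) ^ (4 * r + 8) ≤ B := by exact_mod_cast hB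
  have hB0 : (0 : ℝ) ≤ B := Nat.cast_nonneg _
  have hQR : (Q : ℝ) = E * L ^ 2 := by exact_mod_cast hQ
  have hH1R : (H1 : ℝ) ≤ 2 * M ^ 2 * t := by
    have : (H1 : ℝ) = M * (M * t + 1) := by exact_mod_cast hH1
    rw [this]
    have h1 : (M : ℝ) ≤ M ^ 2 * t := by
      calc (M : ℝ) = M * 1 * 1 := by ring
        _ ≤ M * M * t := by gcongr
        _ = M ^ 2 * t := by ring
    nlinarith
  have h1 : (H1 : ℝ) * H2 ≤ 2 * M ^ 2 * (4 * (M : ℝ) ^ 2 * (t : ℝ) ^ 2 + M * B / Q) := by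
    calc (H1 : ℝ) * H2 ≤ 2 * M ^ 2 * t * H2 :=
          mul_le_mul_of_nonneg_right hH1R (Nat.cast_nonneg _)
      _ = 2 * M ^ 2 * (H2 * t) := by ring
      _ ≤ _ := mul_le_mul_of_nonneg_left hH2 (by positivity)
  have h2 : 3 * 10 ^ 6 * ((D : ℝ) + 1) ^ 2 * (L : ℝ) ^ 2 * H1 * H2 ≤
      3 * 10 ^ 6 * ((D : ℝ) + 1) ^ 2 * (L : ℝ) ^ 2 *
        (2 * M ^ 2 * (4 * (M : ℝ) ^ 2 * (t : ℝ) ^ 2 + M * B / Q)) := by
    rw [mul_assoc (3 * 10 ^ 6 * ((D : ℝ) + 1) ^ 2 * (L : ℝ) ^ 2)]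
    exact mul_le_mul_of_nonneg_left h1 (by positivity)
  have h3 : 3 * 10 ^ 6 * ((D : ℝ) + 1) ^ 2 * (L : ℝ) ^ 2 * (2 * M ^ 2 * (M * B / Q)) ≤
      κ * B / 4 := by
    rw [hQR]
    have h4 : 3 * 10 ^ 6 * ((D : ℝ) + 1) ^ 2 * (L : ℝ) ^ 2 * (2 * M ^ 2 * (M * B / (E * L ^ 2))) =
        (24 * 10 ^ 6 * ((D : ℝ) + 1) ^ 2 * M ^ 3) * B / E / 4 := by
      field_simp
      ring
    rw [h4]
    have h5 : (24 * 10 ^ 6 * ((D : ℝ) + 1) ^ 2 * M ^ 3) * B / E ≤ κ * B := by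
      rw [div_le_iff₀ (by linarith)]
      rw [div_le_iff₀ hκ] at hE
      calc (24 * 10 ^ 6 * ((D : ℝ) + 1) ^ 2 * M ^ 3) * B ≤ (E * κ) * B :=
            mul_le_mul_of_nonneg_right hE hB0
        _ = κ * B * E := by ring
    linarith
  have h4 : 3 * 10 ^ 6 * ((D : ℝ) + 1) ^ 2 * (L : ℝ) ^ 2 * (2 * M ^ 2 * (4 * (M : ℝ) ^ 2 * (t : ℝ) ^ 2))
      ≤ κ * B / 4 := by
    have h5 : 3 * 10 ^ 6 * ((D : ℝ) + 1) ^ 2 * (L : ℝ) ^ 2 *
        (2 * M ^ 2 * (4 * (M : ℝ) ^ 2 * (t : ℝ) ^ 2)) ≤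
        3 * 10 ^ 6 * ((D : ℝ) + 1) ^ 2 * (L : ℝ) ^ 2 * (2 * M ^ 2 * (4 * (M : ℝ) ^ 2 *
          ((E : ℝ) ^ (2 * r + 2) * (L : ℝ) ^ (4 * r + 4)))) := by gcongr
    have h6 : 3 * 10 ^ 6 * ((D : ℝ) + 1) ^ 2 * (L : ℝ) ^ 2 * (2 * M ^ 2 * (4 * (M : ℝ) ^ 2 *
          ((E : ℝ) ^ (2 * r + 2) * (L : ℝ) ^ (4 * r + 4)))) =
        (96 * 10 ^ 6 * ((D : ℝ) + 1) ^ 2 * M ^ 4 * E ^ (2 * r + 2)) * L ^ (4 * r + 6) / 4 := by
      ring
    have h7 : (96 * 10 ^ 6 * ((D : ℝ) + 1) ^ 2 * M ^ 4 * E ^ (2 * r + 2)) * (L : ℝ) ^ (4 * r + 6) ≤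
        κ * L * (L : ℝ) ^ (4 * r + 6) := by
      refine mul_le_mul_of_nonneg_right ?_ (by positivity)
      push_cast at hk3
      exact hk3
    have h8 : κ * L * (L : ℝ) ^ (4 * r + 6) ≤ κ * B := by
      rw [mul_assoc]
      refine mul_le_mul_of_nonneg_left ?_ hκ.le
      refine le_trans ?_ hBL
      rw [← pow_succ']
      exact pow_le_pow_right₀ hLR (by omega)
    linarith
  have h5 : κ * L ≤ κ * B := mul_le_mul_of_nonneg_left hLB hκ.le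
  have h6 : 0 < κ * L := by positivity
  have h7 : 3 * 10 ^ 6 * ((D : ℝ) + 1) ^ 2 * (L : ℝ) ^ 2 *
        (2 * M ^ 2 * (4 * (M : ℝ) ^ 2 * (t : ℝ) ^ 2 + M * B / Q)) =
      3 * 10 ^ 6 * ((D : ℝ) + 1) ^ 2 * (L : ℝ) ^ 2 * (2 * M ^ 2 * (4 * (M : ℝ) ^ 2 * (t : ℝ) ^ 2)) +
      3 * 10 ^ 6 * ((D : ℝ) + 1) ^ 2 * (L : ℝ) ^ 2 * (2 * M ^ 2 * (M * B / Q)) := by ring
  linarith

lemma not_root (K : Type) [Field K] [NumberField K] (σ : K →+* ℂ) (P : Fin (Units.rank K) → ℤ)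
    (js : Fin (Units.rank K)) (hP : P js ≠ 0) (n : ℕ) (hn : 1 ≤ n) :
    σ ((((1 : Units.torsion K) : (𝓞 K)ˣ) * ∏ j, Units.fundSystem K j ^ P j : (𝓞 K)ˣ) : K) ^ n ≠ 1 := by
  intro h
  set U : (𝓞 K)ˣ := ((1 : Units.torsion K) : (𝓞 K)ˣ) * ∏ j, Units.fundSystem K j ^ P j with hU
  have h1 : ((U : (𝓞 K)ˣ) : K) ^ n = 1 := by
    apply σ.injective
    rw [map_pow, h, map_one]
  have h2 : U ^ n = 1 := by
    apply _root_.Units.ext
    apply RingOfIntegers.ext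
    simpa using h1
  have h3 : (1 : (𝓞 K)ˣ) = ((1 : Units.torsion K) : (𝓞 K)ˣ) *
      ∏ j, Units.fundSystem K j ^ (P j * n) := by
    rw [← h2, hU, OneMemClass.coe_one, one_mul, one_mul, ← Finset.prod_pow]
    refine Finset.prod_congr rfl fun j _ => ?_
    rw [zpow_mul, zpow_natCast]
  have h4 : (1 : (𝓞 K)ˣ) = ((1 : Units.torsion K) : (𝓞 K)ˣ) *
      ∏ j, Units.fundSystem K j ^ ((0 : Fin (Units.rank K) → ℤ) j) := by
    simp
  have h5 := (Units.exist_unique_eq_mul_prod K 1).unique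
    (y₁ := (1, fun j => P j * n)) (y₂ := (1, 0)) h3 h4
  have h6 := congrFun (congrArg Prod.snd h5) js
  have h7 : P js * n = 0 := h6
  rcases mul_eq_zero.1 h7 with h8 | h8
  · exact hP h8
  · have : n = 0 := by exact_mod_cast h8
    omega

/-- large `L` -/
lemma largeL (d M E r : ℕ) (C κ : ℝ) (hκ : 0 < κ) : ∃ L₀ : ℕ, ∀ L : ℕ, L₀ ≤ L →
    100 ≤ L ∧ 4 * (d : ℝ) * (Real.log (8000 * d * M ^ 2) + (4 * r + 9) * Real.log (L + 1)) ≤ L ∧
    96 * 10 ^ 6 * (d : ℝ) ^ 2 * M ^ 4 * E ^ (2 * r + 2) ≤ κ * L ∧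
    16000 * (d : ℝ) * M ^ 2 * E ^ (2 * r + 2) ≤ L ∧
    4 * Real.log (2 * C) < κ * L ∧ C * Real.exp (-(κ * L)) ≤ 1 / 2 := by
  have e1 : ∀ᶠ L : ℕ in Filter.atTop, 100 ≤ L := Filter.eventually_ge_atTop 100
  have e2 : ∀ᶠ L : ℕ in Filter.atTop,
      4 * (d : ℝ) * (Real.log (8000 * d * M ^ 2) + (4 * r + 9) * Real.log (L + 1)) ≤ L := by
    have hlo : Filter.Tendsto (fun x : ℝ => Real.log x / x) Filter.atTop (nhds 0) := by
      have := Real.isLittleO_log_id_atTop.tendsto_div_nhds_zero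
      simpa using this
    have hc : Filter.Tendsto (fun L : ℕ => ((L : ℝ) + 1)) Filter.atTop Filter.atTop :=
      Filter.tendsto_atTop_add_const_right _ _ tendsto_natCast_atTop_atTop
    set a : ℝ := 4 * (d : ℝ) * (4 * r + 9) with ha
    have ha0 : 0 ≤ a := by positivity
    have h1 : ∀ᶠ L : ℕ in Filter.atTop, Real.log ((L : ℝ) + 1) / ((L : ℝ) + 1) < 1 / (2 * (a + 1)) :=
      (hlo.comp hc).eventually (gt_mem_nhds (by positivity))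
    have h2 : ∀ᶠ L : ℕ in Filter.atTop,
        2 * (4 * (d : ℝ) * Real.log (8000 * d * M ^ 2)) + 1 ≤ (L : ℝ) :=
      tendsto_natCast_atTop_atTop.eventually (Filter.eventually_ge_atTop _)
    filter_upwards [h1, h2] with L hL1 hL2
    have hL0 : (0 : ℝ) ≤ L := Nat.cast_nonneg _
    rw [div_lt_div_iff₀ (by positivity) (by positivity)] at hL1
    have hl0 : 0 ≤ Real.log ((L : ℝ) + 1) := Real.log_nonneg (by linarith)
    nlinarith
  have e3 : ∀ᶠ L : ℕ in Filter.atTop,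
      96 * 10 ^ 6 * (d : ℝ) ^ 2 * M ^ 4 * E ^ (2 * r + 2) ≤ κ * L := by
    have h : Filter.Tendsto (fun L : ℕ => κ * (L : ℝ)) Filter.atTop Filter.atTop :=
      tendsto_natCast_atTop_atTop.const_mul_atTop hκ
    exact h.eventually (Filter.eventually_ge_atTop _)
  have e4 : ∀ᶠ L : ℕ in Filter.atTop,
      16000 * (d : ℝ) * M ^ 2 * E ^ (2 * r + 2) ≤ L :=
    tendsto_natCast_atTop_atTop.eventually (Filter.eventually_ge_atTop _)
  have e5 : ∀ᶠ L : ℕ in Filter.atTop, 4 * Real.log (2 * C) < κ * L := by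
    have h : Filter.Tendsto (fun L : ℕ => κ * (L : ℝ)) Filter.atTop Filter.atTop :=
      tendsto_natCast_atTop_atTop.const_mul_atTop hκ
    exact h.eventually (Filter.eventually_gt_atTop _)
  have e6 : ∀ᶠ L : ℕ in Filter.atTop, C * Real.exp (-(κ * L)) ≤ 1 / 2 := by
    have h : Filter.Tendsto (fun L : ℕ => κ * (L : ℝ)) Filter.atTop Filter.atTop :=
      tendsto_natCast_atTop_atTop.const_mul_atTop hκ
    have h2 : Filter.Tendsto (fun L : ℕ => C * Real.exp (-(κ * L))) Filter.atTop (nhds (C * 0)) :=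
      ((Real.tendsto_exp_neg_atTop_nhds_zero.comp h)).const_mul C
    rw [mul_zero] at h2
    exact h2.eventually (ge_mem_nhds (by norm_num))
  obtain ⟨L₀, h⟩ := Filter.eventually_atTop.1
    (e1.and (e2.and (e3.and (e4.and (e5.and e6)))))
  exact ⟨L₀, fun L hL => h L hL⟩

/-- the equivalence -/
lemma enum (K : Type) [Field K] [NumberField K] (σ : K →+* ℂ) :
    ∃ (D : ℕ) (e : Fin (D + 1) ≃ (K →+* ℂ)), e 0 = σ := by
  classical
  have hc : 0 < Fintype.card (K →+* ℂ) := Fintype.card_pos_iff.2 ⟨σ⟩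
  obtain ⟨D, hD⟩ : ∃ D, Fintype.card (K →+* ℂ) = D + 1 := ⟨Fintype.card (K →+* ℂ) - 1, by omega⟩
  let e₀ : Fin (D + 1) ≃ (K →+* ℂ) := (Fintype.equivFinOfCardEq hD).symm
  refine ⟨D, (Equiv.swap 0 (e₀.symm σ)).trans e₀, ?_⟩
  simp

/-- the ring of integers in the product of its completions -/
noncomputable def Phi (K : Type) [Field K] [NumberField K] {D : ℕ}
    (e : Fin (D + 1) ≃ (K →+* ℂ)) : 𝓞 K →+* (Fin (D + 1) → ℂ) :=
  RingHom.pi fun i => (e i).comp (algebraMap (𝓞 K) K)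

lemma Phi_norm (K : Type) [Field K] [NumberField K] {D : ℕ} (e : Fin (D + 1) ≃ (K →+* ℂ)) :
    ∀ z ∈ (Phi K e).range, z ≠ 0 → 1 ≤ ‖∏ i, z i‖ := by
  rintro _ ⟨x, rfl⟩ hz
  have hx : x ≠ 0 := by
    rintro rfl
    exact hz (map_zero _)
  have h1 : ∏ i, (Phi K e) x i = ∏ τ : K →+* ℂ, τ (x : K) :=
    Fintype.prod_equiv e _ _ fun i => rfl
  have h2 : ∏ τ : K →+* ℂ, τ (x : K) = ∏ τ : K →ₐ[ℚ] ℂ, τ (x : K) :=
    Fintype.prod_equiv (RingHom.equivRatAlgHom K ℂ) _ _ fun τ => rfl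
  rw [h1, h2, ← Algebra.norm_eq_prod_embeddings ℚ ℂ, ← Algebra.coe_norm_int]
  have h3 : Algebra.norm ℤ x ≠ 0 := Algebra.norm_ne_zero_iff.2 hx
  have h4 : (1 : ℤ) ≤ |Algebra.norm ℤ x| := Int.one_le_abs h3
  rw [map_intCast, Complex.norm_intCast]
  exact_mod_cast h4

end Near20

open Near20 in
theorem t_Near : StmtTLC → StmtULog → StmtDir → StmtNear := by
  intro hT _ hDir K _ _ σ β C κ hβ hC hκ
  obtain ⟨β₁, β₀, hβ₀, hββ⟩ := IsFractionRing.div_surjective (A := 𝓞 K) β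
  have hβ₀0 : β₀ ≠ 0 := nonZeroDivisors.ne_zero hβ₀
  have hβ₁0 : β₁ ≠ 0 := by
    rintro rfl
    rw [map_zero, zero_div] at hββ
    exact hβ hββ.symm
  obtain ⟨M, hM1, hMl, hMs, hMt, hMv, hMw⟩ := consts K σ β β₁ β₀
  obtain ⟨D, e, he⟩ := enum K σ
  set r := Units.rank K with hr
  obtain ⟨E0, hE0⟩ := exists_nat_ge (24 * 10 ^ 6 * ((D : ℝ) + 1) ^ 2 * M ^ 3 / κ)
  set E : ℕ := 4000 * (D + 1) * M + E0 + 2 with hE
  obtain ⟨L₀, hL₀⟩ := largeL (D + 1) M E r C κ hκ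
  refine ⟨L₀ ^ (4 * r + 8), fun ζ b B hb hbB hx => ?_⟩
  by_contra hBB
  rw [not_le] at hBB
  obtain ⟨L, hL1, hL2⟩ := root (4 * r + 8) (by omega) B
  have hLL : L₀ ≤ L := by
    by_contra h
    have h1 : L + 1 ≤ L₀ := by omega
    have h2 := Nat.pow_le_pow_left h1 (4 * r + 8)
    omega
  obtain ⟨k1, k2, k3, k4, k5, k6⟩ := hL₀ L hLL
  have hL0 : 1 ≤ L := by omega
  have hLB : L ≤ B := (Nat.le_self_pow (by omega) L).trans hL1
  have hB1 : 1 ≤ B := by omega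
  -- the logarithm
  set ε : Fin r → ℂ := fun j => σ ((Units.fundSystem K j : (𝓞 K)ˣ) : K) with hε
  have hε0 : ∀ (τ : K →+* ℂ) (j : Fin r), τ ((Units.fundSystem K j : (𝓞 K)ˣ) : K) ≠ 0 := by
    intro τ j
    rw [Ne, map_eq_zero]
    exact Units.coe_ne_zero _
  have hζ0 : σ ((ζ : (𝓞 K)ˣ) : K) ≠ 0 := by
    rw [Ne, map_eq_zero]
    exact Units.coe_ne_zero _
  have hσβ : σ β ≠ 0 := by
    rw [Ne, map_eq_zero]
    exact hβ
  set x : ℂ := σ (β * (((ζ : (𝓞 K)ˣ) * ∏ j, Units.fundSystem K j ^ b j : (𝓞 K)ˣ) : K)) with hxd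
  have hxe : x = σ β * (σ ((ζ : (𝓞 K)ˣ) : K) * ∏ j, ε j ^ b j) := by
    rw [hxd, map_mul, val_unit]
  have hx0 : x ≠ 0 := by
    rw [hxe]
    refine mul_ne_zero hσβ (mul_ne_zero hζ0 (Finset.prod_ne_zero_iff.2 fun j _ => ?_))
    exact zpow_ne_zero _ (hε0 σ j)
  have hBL : κ * L ≤ κ * B := mul_le_mul_of_nonneg_left (by exact_mod_cast hLB) hκ.le
  have hx1 : ‖x - 1‖ ≤ 1 / 2 := by
    refine hx.trans (le_trans ?_ k6)
    exact mul_le_mul_of_nonneg_left (Real.exp_le_exp.2 (by linarith)) hC.le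
  have hlog : ‖Complex.log x‖ ≤ 3 / 2 * ‖x - 1‖ := by
    have := Complex.norm_log_one_add_half_le_self hx1
    rwa [add_sub_cancel] at this
  set ℓ : ℂ := Complex.log (σ β) + Complex.log (σ ((ζ : (𝓞 K)ˣ) : K)) with hℓ
  have hexp0 : Complex.exp ℓ = σ β * σ ((ζ : (𝓞 K)ˣ) : K) := by
    rw [hℓ, Complex.exp_add, Complex.exp_log hσβ, Complex.exp_log hζ0]
  obtain ⟨b0, hb0⟩ : ∃ b0 : ℤ, Complex.log x =
      ℓ + (∑ j, (b j : ℂ) * Complex.log (ε j) + 2 * Real.pi * Complex.I * b0) := by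
    have h1 : Complex.exp (Complex.log x) =
        Complex.exp (ℓ + (∑ j, (b j : ℂ) * Complex.log (ε j) + 2 * Real.pi * Complex.I * (0 : ℤ))) := by
      rw [Complex.exp_log hx0, Complex.exp_add, exp_lin ε (fun j => hε0 σ j) b 0, hexp0, hxe]
      ring
    obtain ⟨n, hn⟩ := Complex.exp_eq_exp_iff_exists_int.1 h1
    refine ⟨n, ?_⟩
    rw [hn]
    push_cast
    ring
  have hMR : (1 : ℝ) ≤ M := by exact_mod_cast hM1
  have hBR : (1 : ℝ) ≤ B := by exact_mod_cast hB1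
  have hbR : ∀ j, |(b j : ℝ)| ≤ B := fun j => by exact_mod_cast hb j
  have hl1 : ‖ℓ‖ ≤ M := hMl ζ
  -- the bound for `b0`
  have hb0R : |(b0 : ℝ)| ≤ M * B := by
    have h1 : (2 * Real.pi * Complex.I * b0 : ℂ) =
        Complex.log x - ℓ - ∑ j, (b j : ℂ) * Complex.log (ε j) := by
      rw [hb0]
      ring
    have h2 : ‖(2 * Real.pi * Complex.I * b0 : ℂ)‖ = 2 * Real.pi * |(b0 : ℝ)| := by
      rw [norm_mul, norm_mul, norm_mul, Complex.norm_intCast, Complex.norm_I, Complex.norm_real,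
        Real.norm_eq_abs, abs_of_pos Real.pi_pos]
      simp only [Complex.norm_ofNat, mul_one]
    have h3 : ‖∑ j, (b j : ℂ) * Complex.log (ε j)‖ ≤ B * M := by
      have h4 := norm_lin ε b 0 B M (by linarith) hbR (by simp) hMs
      simpa using h4
    have h5 : 2 * Real.pi * |(b0 : ℝ)| ≤ 1 + M + B * M := by
      rw [← h2, h1]
      refine (norm_sub_le _ _).trans (add_le_add ((norm_sub_le _ _).trans (add_le_add ?_ hl1)) h3)
      linarith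
    have h6 := Real.pi_gt_three
    have h7 : 6 * |(b0 : ℝ)| ≤ 2 * Real.pi * |(b0 : ℝ)| :=
      mul_le_mul_of_nonneg_right (by linarith) (abs_nonneg _)
    have h8 : (M : ℝ) ≤ M * B := le_mul_of_one_le_right (by linarith) hBR
    have h9 : (1 : ℝ) ≤ M * B := one_le_mul_of_one_le_of_one_le hMR hBR
    nlinarith
  -- approximation
  set Q : ℕ := E * L ^ 2 with hQ
  have hE2 : 2 ≤ E := by omega
  have hL2' : 1 ≤ L ^ 2 := Nat.one_le_pow _ _ (by omega)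
  have hQ2 : 2 ≤ Q := by
    calc 2 = 2 * 1 := rfl
      _ ≤ E * L ^ 2 := Nat.mul_le_mul hE2 hL2'
  obtain ⟨t, p, ht1, htQ, hp1, hp2, hp3⟩ := hDir (r + 1) Q M B (Fin.cons b0 b) (by omega) hB1 (by
    intro j
    refine Fin.cases ?_ (fun i => ?_) j
    · rw [Fin.cons_zero]
      exact_mod_cast hb0R
    · rw [Fin.cons_succ]
      refine (hb i).trans ?_
      have : (B : ℤ) ≤ M * B := by
        have h1 : (1 : ℤ) ≤ M := by exact_mod_cast hM1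
        have h2 : (0 : ℤ) ≤ B := by positivity
        nlinarith
      exact this)
  have hp2' : ∀ j, |(p j : ℝ)| ≤ M * t + 1 := fun j => by exact_mod_cast hp2 j
  have htR : (1 : ℝ) ≤ t := by exact_mod_cast ht1
  have hQR : (2 : ℝ) ≤ Q := by exact_mod_cast hQ2
  set q : ℕ := B / t with hq
  -- the exponents
  set P : Fin r → ℤ := fun j => p j.succ with hP
  set R : Fin r → ℤ := fun j => b j - q * P j with hR
  set R0 : ℤ := b0 - q * p 0 with hR0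
  set ρ : ℝ := (B : ℝ) / (t * Q) + M * t + 1 with hρ
  have hρ0 : 0 ≤ ρ := by positivity
  have hRρ : ∀ j, |(R j : ℝ)| ≤ ρ := by
    intro j
    have := hp3 j.succ
    rw [Fin.cons_succ] at this
    rw [hR]
    push_cast
    exact_mod_cast this
  have hR0ρ : |(R0 : ℝ)| ≤ ρ := by
    have := hp3 0
    rw [Fin.cons_zero] at this
    rw [hR0]
    push_cast
    exact_mod_cast this
  -- `P ≠ 0`
  obtain ⟨js, hjs⟩ := hbB
  have hPjs : P js ≠ 0 := by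
    intro h0
    have h1 := hp1 js.succ
    rw [Fin.cons_succ] at h1
    have h2 : p js.succ = 0 := h0
    rw [h2] at h1
    have h3 : |(b js : ℝ)| = B := by exact_mod_cast hjs
    rw [Int.cast_zero, sub_zero, abs_div, abs_mul, h3, Nat.abs_cast, Nat.abs_cast,
      mul_div_assoc, div_self (by linarith : (B : ℝ) ≠ 0), mul_one] at h1
    have h4 : (1 : ℝ) / Q ≤ 1 / 2 := one_div_le_one_div_of_le (by norm_num) hQR
    linarith
  -- the units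
  set U : (𝓞 K)ˣ := ((1 : Units.torsion K) : (𝓞 K)ˣ) * ∏ j, Units.fundSystem K j ^ P j with hU
  set V : (𝓞 K)ˣ := (ζ : (𝓞 K)ˣ) * ∏ j, Units.fundSystem K j ^ R j with hV
  have hUval : ∀ τ : K →+* ℂ, τ (U : K) =
      ∏ j, τ ((Units.fundSystem K j : (𝓞 K)ˣ) : K) ^ P j := by
    intro τ
    rw [hU, val_unit]
    simp
  have hVval : ∀ τ : K →+* ℂ, τ (V : K) = τ ((ζ : (𝓞 K)ˣ) : K) *
      ∏ j, τ ((Units.fundSystem K j : (𝓞 K)ˣ) : K) ^ R j := by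
    intro τ
    rw [hV, val_unit]
  set c : ℂ := ∑ j, (P j : ℂ) * Complex.log (ε j) + 2 * Real.pi * Complex.I * (p 0 : ℤ) with hc
  set c1 : ℂ := ∑ j, (R j : ℂ) * Complex.log (ε j) + 2 * Real.pi * Complex.I * (R0 : ℤ) with hc1
  set H1 : ℕ := M * (M * t + 1) with hH1
  set H2 : ℕ := M * (3 + M * t + B / (t * Q)) with hH2
  have hH2t := H2_bd M t B Q hM1 ht1 (by omega)
  have hH2l := H2_lo M t B Q ht1 (by omega)
  rw [← hH2] at hH2t hH2l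
  rw [← hρ] at hH2l
  have hts := t_sq t Q E L r htQ hQ
  have g1 : 2000 * (D + 1) * L * H2 ≤ q :=
    cond1 D M L t B Q E r H2 hL0 ht1 hQ (by omega) (by omega) hH2t hts k4 hL1
  have hH21 : 1 ≤ H2 := Nat.mul_pos hM1 (by positivity)
  have hq1 : 1 ≤ q := by
    refine le_trans ?_ g1
    exact Nat.mul_pos (Nat.mul_pos (by omega) hL0) hH21
  have g2 := cond2 D M L t B r H1 q hM1 ht1 hL0 hH1 hq hq1 hL2 k2
  have hEE : 24 * 10 ^ 6 * ((D : ℝ) + 1) ^ 2 * M ^ 3 / κ ≤ (E : ℝ) := by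
    refine hE0.trans ?_
    exact_mod_cast (by omega : E0 ≤ E)
  have g3 := cond3 D M L t B Q E r H1 H2 C κ hκ hM1 hL0 ht1 hQ (by omega) hEE hH1 hH2t hts k3 k5
    (by exact_mod_cast hLB) hL1
  have hexpU : Complex.exp c = σ (U : K) := by
    rw [hc, exp_lin ε (fun j => hε0 σ j) P (p 0), hUval]
  have hexpV : Complex.exp (ℓ + c1) = σ β * σ (V : K) := by
    rw [Complex.exp_add, hc1, exp_lin ε (fun j => hε0 σ j) R R0, hexp0, hVval]
    ring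
  have hsum : (q : ℂ) * c + (ℓ + c1) = Complex.log x := by
    rw [hb0, hc, hc1, mul_add, Finset.mul_sum]
    have h1 : ∑ j, (b j : ℂ) * Complex.log (ε j) =
        ∑ j, (q : ℂ) * ((P j : ℂ) * Complex.log (ε j)) + ∑ j, (R j : ℂ) * Complex.log (ε j) := by
      rw [← Finset.sum_add_distrib]
      refine Finset.sum_congr rfl fun j _ => ?_
      rw [hR]
      push_cast
      ring
    have h2 : (b0 : ℂ) = q * (p 0 : ℤ) + (R0 : ℤ) := by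
      rw [hR0]
      push_cast
      ring
    rw [h1, h2]
    ring
  have hexpM : (M : ℝ) ≤ Real.exp M := (by linarith : (M : ℝ) ≤ M + 1).trans (Real.add_one_le_exp _)
  have hMH2 : (M : ℝ) ≤ H2 := by
    refine le_trans ?_ hH2l
    exact le_mul_of_one_le_right (by linarith) (by linarith)
  -- the three members of the ring
  have hσβ' : σ β = σ (β₁ : K) / σ (β₀ : K) := by
    rw [← hββ, map_div₀]
  have hσβ₁ : ∀ τ : K →+* ℂ, τ (β₁ : K) ≠ 0 := by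
    intro τ
    rw [Ne, map_eq_zero]
    simpa using hβ₁0
  have hσβ₀ : ∀ τ : K →+* ℂ, τ (β₀ : K) ≠ 0 := by
    intro τ
    rw [Ne, map_eq_zero]
    simpa using hβ₀0
  have hfin := hT D (Phi K e).range (Phi_norm K e) (Phi K e (U : 𝓞 K)) (Phi K e (β₁ * (V : 𝓞 K)))
    (Phi K e β₀) ⟨_, rfl⟩ ⟨_, rfl⟩ ⟨_, rfl⟩
    (by
      change e 0 (U : K) ≠ 0
      rw [Ne, map_eq_zero]
      exact Units.coe_ne_zero _)
    (by
      change e 0 (algebraMap (𝓞 K) K (β₁ * (V : 𝓞 K))) ≠ 0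
      rw [map_mul, map_mul]
      refine mul_ne_zero (hσβ₁ _) ?_
      rw [Ne, map_eq_zero]
      exact Units.coe_ne_zero _)
    (hσβ₀ _) c (ℓ + c1) H1 H2 L q (Nat.mul_pos hM1 (by omega)) hH21 k1 hq1
    (by
      change Complex.exp c = e 0 (U : K)
      rw [he]
      exact hexpU)
    (by
      change Complex.exp (ℓ + c1) = e 0 (algebraMap (𝓞 K) K (β₁ * (V : 𝓞 K))) / e 0 (β₀ : K)
      rw [he, hexpV, hσβ', map_mul, map_mul]
      ring)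
    (by
      intro n hn _
      change (e 0 (U : K)) ^ n ≠ 1
      rw [he]
      exact not_root K σ P js hPjs n hn)
    (by
      intro i
      refine ⟨?_, ?_, ?_⟩
      · change ‖e i (U : K)‖ ≤ _
        rw [hUval]
        refine (prod_norm_le _ (hε0 (e i)) P (M * t + 1) M (by positivity)
          (fun j => hp2' j.succ) (hMt (e i))).trans (le_of_eq ?_)
        rw [hH1]
        push_cast
        ring_nf
      · change ‖e i (algebraMap (𝓞 K) K (β₁ * (V : 𝓞 K)))‖ ≤ _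
        rw [map_mul, map_mul, hVval, ← mul_assoc, norm_mul]
        calc _ ≤ (M : ℝ) * Real.exp (ρ * M) := by
              refine mul_le_mul (hMv (e i) ζ) ?_ (norm_nonneg _) (by linarith)
              exact prod_norm_le _ (hε0 (e i)) R ρ M hρ0 hRρ (hMt (e i))
          _ ≤ Real.exp M * Real.exp (ρ * M) :=
              mul_le_mul_of_nonneg_right hexpM (Real.exp_pos _).le
          _ = Real.exp (M * (1 + ρ)) := by
              rw [← Real.exp_add]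
              ring_nf
          _ ≤ Real.exp H2 := Real.exp_le_exp.2 hH2l
      · change ‖e i (β₀ : K)‖ ≤ _
        exact (hMw (e i)).trans (hexpM.trans (Real.exp_le_exp.2 hMH2)))
    (by
      calc ‖ℓ + c1‖ ≤ ‖ℓ‖ + ‖c1‖ := norm_add_le _ _
        _ ≤ M + ρ * M := add_le_add hl1 (norm_lin ε R R0 ρ M hρ0 hRρ hR0ρ hMs)
        _ = M * (1 + ρ) := by ring
        _ ≤ H2 := hH2l)
    g1 g2
  rw [hsum] at hfin
  have h1 : Real.exp (-(3 * 10 ^ 6 * ((D : ℝ) + 1) ^ 2 * (L : ℝ) ^ 2 * H1 * H2)) ≤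
      2 * C * Real.exp (-(κ * B)) := by
    refine hfin.trans (hlog.trans ?_)
    have h2 : 0 < C * Real.exp (-(κ * B)) := mul_pos hC (Real.exp_pos _)
    linarith
  have h2 : 2 * C * Real.exp (-(κ * B)) = Real.exp (Real.log (2 * C) - κ * B) := by
    rw [Real.exp_sub, Real.exp_log (by linarith), Real.exp_neg]
    ring
  rw [h2, Real.exp_le_exp] at h1
  linarith

end Pool.Agent.DKP
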