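import Pool.Agent.DKP.St3
import Pool.Agent.DKP.Dvc

/-!
# Module Siegel: integral points on `y² = F(x)`, three roots of odd multiplicity
-/

set_option autoImplicit false

open NumberField IsDedekindDomain Polynomial Finset

namespace Pool.Agent.DKP

namespace SiegelAux

theorem exists_mult (K : Type) [Field K] [NumberField K] (θ₁ θ₂ θ₃ : K) :
    ∃ a : ℤ, a ≠ 0 ∧ IsIntegral ℤ ((a : K) * θ₁) ∧ IsIntegral ℤ ((a : K) * θ₂) ∧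
      IsIntegral ℤ ((a : K) * θ₃) := by
  classical
  obtain ⟨y, hy, h⟩ := exists_integral_multiples ℤ ℚ ({θ₁, θ₂, θ₃} : Finset K)
  refine ⟨y, hy, ?_, ?_, ?_⟩
  · have := h θ₁ (by simp)
    rwa [zsmul_eq_mul] at this
  · have := h θ₂ (by simp)
    rwa [zsmul_eq_mul] at this
  · have := h θ₃ (by simp)
    rwa [zsmul_eq_mul] at this

theorem int_integral {K : Type} [Field K] [NumberField K] (b : ℤ) : IsIntegral ℤ (b : K) := by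
  have := isIntegral_algebraMap (R := ℤ) (A := K) (x := b)
  simpa using this

theorem integral_of {K : Type} [Field K] [NumberField K] (a : ℤ) (θ δ : K) (N : ℤ)
    (h : IsIntegral ℤ ((a : K) * θ)) (hδ : (N : K) - θ = δ * δ) : IsIntegral ℤ ((a : K) * δ) := by
  apply IsIntegral.of_pow (n := 2) (by norm_num)
  have e : ((a : K) * δ) ^ 2 = (a : K) * ((a : K) * (N : K)) - (a : K) * ((a : K) * θ) := by
    have : ((a : K) * δ) ^ 2 = (a : K) ^ 2 * (δ * δ) := by ring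
    rw [this, ← hδ]
    ring
  rw [e]
  exact ((int_integral a).mul ((int_integral a).mul (int_integral N))).sub
    ((int_integral a).mul h)

/-- the fixed elements -/
theorem fixed (K : Type) [Field K] [NumberField K] (θ θ' : K) (a : ℤ) (ha : a ≠ 0)
    (h : IsIntegral ℤ ((a : K) * θ)) (h' : IsIntegral ℤ ((a : K) * θ')) (hne : θ ≠ θ') :
    ∃ Z : Finset (𝓞 K), (∀ z ∈ Z, z ≠ 0) ∧ ∀ (N : ℤ) (δ δ' : K), (N : K) - θ = δ * δ →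
      (N : K) - θ' = δ' * δ' → (a : K) * (δ - δ') ≠ 0 ∧ ∃ z ∈ Z, ∃ η : (𝓞 K)ˣ,
        (a : K) * (δ - δ') = (z : K) * ((η : 𝓞 K) : K) := by
  have haK : (a : K) ≠ 0 := by exact_mod_cast ha
  have hκi : IsIntegral ℤ ((a : K) * ((a : K) * θ') - (a : K) * ((a : K) * θ)) :=
    ((int_integral a).mul h').sub ((int_integral a).mul h)
  set κ : 𝓞 K := ⟨(a : K) * ((a : K) * θ') - (a : K) * ((a : K) * θ), hκi⟩ with hκdef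
  have hκK : (κ : K) = (a : K) ^ 2 * (θ' - θ) := by
    show (a : K) * ((a : K) * θ') - (a : K) * ((a : K) * θ) = _
    ring
  have hκ : κ ≠ 0 := by
    intro h
    have h2 : (κ : K) = 0 := by rw [h]; rfl
    rw [hκK] at h2
    rcases mul_eq_zero.1 h2 with h3 | h3
    · exact haK (pow_eq_zero_iff (by norm_num) |>.1 h3)
    · exact hne (sub_eq_zero.1 h3).symm
  obtain ⟨Z, hZ0, hZ⟩ := LDvc.reps K κ hκ 1 Nat.one_pos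
  refine ⟨Z, hZ0, fun N δ δ' hδ hδ' => ?_⟩
  have i1 := integral_of a θ δ N h hδ
  have i2 := integral_of a θ' δ' N h' hδ'
  have i3 : IsIntegral ℤ ((a : K) * (δ - δ')) := by
    rw [mul_sub]; exact i1.sub i2
  have i4 : IsIntegral ℤ ((a : K) * (δ + δ')) := by
    rw [mul_add]; exact i1.add i2
  set u : 𝓞 K := ⟨_, i3⟩ with hu
  set v : 𝓞 K := ⟨_, i4⟩ with hv
  have huv : κ = u * v := by
    apply RingOfIntegers.ext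
    rw [hκK]
    show _ = (a : K) * (δ - δ') * ((a : K) * (δ + δ'))
    have e : θ' - θ = δ * δ - δ' * δ' := by rw [← hδ, ← hδ']; ring
    rw [e]; ring
  constructor
  · intro h0
    apply hκ
    rw [huv]
    have : u = 0 := RingOfIntegers.ext h0
    rw [this, zero_mul]
  · obtain ⟨z, hz, η, hη⟩ := hZ u ⟨v, huv⟩
    refine ⟨z, hz, η, ?_⟩
    rw [pow_one] at hη
    have : (u : K) = ((z * (η : 𝓞 K) : 𝓞 K) : K) := by rw [hη]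
    exact this

/-- At most one integer for every quotient. -/
theorem one_int (K : Type) [Field K] [NumberField K] (θ₁ θ₃ c : K) (hne : θ₁ ≠ θ₃) :
    {N : ℤ | ((N : K) - θ₁) * ((N : K) - θ₃) = ((N : K) + c) ^ 2}.Finite := by
  apply Set.Subsingleton.finite
  intro N hN M hM
  by_contra hne'
  have hN' : ((N : K) - θ₁) * ((N : K) - θ₃) = ((N : K) + c) ^ 2 := hN
  have hM' : ((M : K) - θ₁) * ((M : K) - θ₃) = ((M : K) + c) ^ 2 := hM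
  have hNM : (N : K) - M ≠ 0 := by
    rw [sub_ne_zero]
    exact_mod_cast hne'
  have h1 : ((N : K) - M) * (2 * c + θ₁ + θ₃) = 0 := by
    have e : ((N : K) - M) * (2 * c + θ₁ + θ₃) =
        (((N : K) + c) ^ 2 - ((N : K) - θ₁) * ((N : K) - θ₃)) -
        (((M : K) + c) ^ 2 - ((M : K) - θ₁) * ((M : K) - θ₃)) := by ring
    rw [e, hN', hM']; ring
  have h2 : 2 * c + θ₁ + θ₃ = 0 := (mul_eq_zero.1 h1).resolve_left hNM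
  have h3 : (θ₁ - θ₃) ^ 2 = 0 := by
    have e : (θ₁ - θ₃) ^ 2 = (θ₁ + θ₃ - 2 * c) * (2 * c + θ₁ + θ₃)
        + 4 * (((N : K) + c) ^ 2 - ((N : K) - θ₁) * ((N : K) - θ₃))
        - 4 * (2 * c + θ₁ + θ₃) * N := by ring
    rw [e, hN', h2]; ring
  exact hne (sub_eq_zero.1 (pow_eq_zero_iff (by norm_num) |>.1 h3))

/-- The equation for `N`. -/
theorem quad {K : Type} [Field K] [NumberField K] (θ₁ θ₂ θ₃ δ₁ δ₂ δ₃ n ρ : K)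
    (h1 : n - θ₁ = δ₁ * δ₁) (h2 : n - θ₂ = δ₂ * δ₂) (h3 : n - θ₃ = δ₃ * δ₃)
    (hρ : δ₁ - δ₂ = ρ * (δ₃ - δ₁)) (h0 : ρ ≠ 0) (h1' : 1 + ρ ≠ 0) :
    (n - θ₁) * (n - θ₃) =
      (n + (θ₂ - (1 + ρ) ^ 2 * θ₁ - ρ ^ 2 * θ₃) / (2 * ρ * (1 + ρ))) ^ 2 := by
  have hδ : δ₂ = (1 + ρ) * δ₁ - ρ * δ₃ := by
    have : δ₂ = δ₁ - (δ₁ - δ₂) := by ring
    rw [this, hρ]; ring
  have h2ne : (2 : K) ≠ 0 := two_ne_zero
  have hm : δ₁ * δ₃ = n + (θ₂ - (1 + ρ) ^ 2 * θ₁ - ρ ^ 2 * θ₃) / (2 * ρ * (1 + ρ)) := by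
    have hd : 2 * ρ * (1 + ρ) ≠ 0 := mul_ne_zero (mul_ne_zero h2ne h0) h1'
    rw [← sub_eq_iff_eq_add', eq_div_iff hd]
    have e1 : δ₂ * δ₂ = (1 + ρ) ^ 2 * (δ₁ * δ₁) + ρ ^ 2 * (δ₃ * δ₃) -
        2 * ρ * (1 + ρ) * (δ₁ * δ₃) := by rw [hδ]; ring
    rw [← h1, ← h2, ← h3] at e1
    have e2 : 2 * ρ * (1 + ρ) * (δ₁ * δ₃) =
        (1 + ρ) ^ 2 * (n - θ₁) + ρ ^ 2 * (n - θ₃) - (n - θ₂) := by rw [e1]; ring
    have e3 : (δ₁ * δ₃ - n) * (2 * ρ * (1 + ρ)) =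
        2 * ρ * (1 + ρ) * (δ₁ * δ₃) - 2 * ρ * (1 + ρ) * n := by ring
    rw [e3, e2]; ring
  rw [← hm, h1, h3]; ring

end SiegelAux

open SiegelAux in
theorem t_Siegel : StmtFld3 → StmtUnit → StmtSiegel := by
  intro hFld hUnit F hF hθ
  obtain ⟨K, iK, iN, θ₁, θ₂, θ₃, h12, h13, h23, hsq⟩ := hFld F hF hθ
  obtain ⟨a, ha, ha1, ha2, ha3⟩ := exists_mult K θ₁ θ₂ θ₃
  have haK : (a : K) ≠ 0 := by exact_mod_cast ha
  obtain ⟨Z₁, hZ₁, H₁⟩ := fixed K θ₁ θ₂ a ha ha1 ha2 h12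
  obtain ⟨Z₂, hZ₂, H₂⟩ := fixed K θ₂ θ₃ a ha ha2 ha3 h23
  obtain ⟨Z₃, hZ₃, H₃⟩ := fixed K θ₃ θ₁ a ha ha3 ha1 h13.symm
  have hne : ∀ z : 𝓞 K, z ≠ 0 → (z : K) ≠ 0 := fun z hz h => hz (RingOfIntegers.ext h)
  -- the possible quotients
  set P : Set K := ⋃ w₁ ∈ Z₁, ⋃ w₂ ∈ Z₂, ⋃ w₃ ∈ Z₃,
    (fun p : (𝓞 K)ˣ × (𝓞 K)ˣ => (w₁ : K) / w₃ * (p.1 : K)) ''
      {p : (𝓞 K)ˣ × (𝓞 K)ˣ | (-(w₁ : K) / w₃) * (p.1 : K) + (-(w₂ : K) / w₃) * (p.2 : K) = 1}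
    with hP
  have hPfin : P.Finite := by
    rw [hP]
    refine Set.Finite.biUnion (Finset.finite_toSet Z₁) fun w₁ hw₁ => ?_
    refine Set.Finite.biUnion (Finset.finite_toSet Z₂) fun w₂ hw₂ => ?_
    refine Set.Finite.biUnion (Finset.finite_toSet Z₃) fun w₃ hw₃ => ?_
    apply Set.Finite.image
    have n1 := hne _ (hZ₁ _ hw₁)
    have n2 := hne _ (hZ₂ _ hw₂)
    have n3 := hne _ (hZ₃ _ hw₃)
    exact hUnit K _ _ (div_ne_zero (neg_ne_zero.2 n1) n3) (div_ne_zero (neg_ne_zero.2 n2) n3)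
  have hfin1 : {N : ℤ | F.eval N = 0}.Finite := by
    refine (F.roots.toFinset.finite_toSet).subset ?_
    intro N hN
    rw [Finset.mem_coe, Multiset.mem_toFinset, Polynomial.mem_roots hF]
    exact hN
  have hfin2 : (⋃ ρ ∈ P, {N : ℤ | ((N : K) - θ₁) * ((N : K) - θ₃) =
      ((N : K) + (θ₂ - (1 + ρ) ^ 2 * θ₁ - ρ ^ 2 * θ₃) / (2 * ρ * (1 + ρ))) ^ 2}).Finite :=
    hPfin.biUnion fun ρ _ => one_int K θ₁ θ₃ _ h13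
  refine (hfin1.union hfin2).subset ?_
  intro N hN
  by_cases h0 : F.eval N = 0
  · exact Or.inl h0
  · right
    obtain ⟨⟨δ₁, hδ₁⟩, ⟨δ₂, hδ₂⟩, ⟨δ₃, hδ₃⟩⟩ := hsq N hN h0
    obtain ⟨hn1, w₁, hw₁, η₁, e1⟩ := H₁ N δ₁ δ₂ hδ₁ hδ₂
    obtain ⟨hn2, w₂, hw₂, η₂, e2⟩ := H₂ N δ₂ δ₃ hδ₂ hδ₃
    obtain ⟨hn3, w₃, hw₃, η₃, e3⟩ := H₃ N δ₃ δ₁ hδ₃ hδ₁
    have hη₃ : (((η₃ : 𝓞 K)) : K) ≠ 0 := hne _ (Units.ne_zero η₃)
    have hw₃' := hne _ (hZ₃ _ hw₃)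
    have hinv : ((((η₃⁻¹ : (𝓞 K)ˣ) : 𝓞 K)) : K) = (((η₃ : 𝓞 K)) : K)⁻¹ := by
      apply eq_inv_of_mul_eq_one_left
      have : ((η₃⁻¹ : (𝓞 K)ˣ) : 𝓞 K) * (η₃ : 𝓞 K) = 1 := Units.inv_mul η₃
      have h := congrArg (fun x : 𝓞 K => (x : K)) this
      simpa using h
    have hu1 : ((((η₁ * η₃⁻¹ : (𝓞 K)ˣ) : 𝓞 K)) : K) =
        (((η₁ : 𝓞 K)) : K) / (((η₃ : 𝓞 K)) : K) := by
      rw [div_eq_mul_inv, ← hinv]; rfl
    have hu2 : ((((η₂ * η₃⁻¹ : (𝓞 K)ˣ) : 𝓞 K)) : K) =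
        (((η₂ : 𝓞 K)) : K) / (((η₃ : 𝓞 K)) : K) := by
      rw [div_eq_mul_inv, ← hinv]; rfl
    have hn3' : (w₃ : K) * (((η₃ : 𝓞 K)) : K) ≠ 0 := mul_ne_zero hw₃' hη₃
    set ρ : K := (w₁ : K) / w₃ * ((((η₁ * η₃⁻¹ : (𝓞 K)ˣ) : 𝓞 K)) : K) with hρ
    have hρz : ρ = ((a : K) * (δ₁ - δ₂)) / ((a : K) * (δ₃ - δ₁)) := by
      rw [hρ, hu1, e1, e3]
      field_simp
    have hρ1 : δ₁ - δ₂ = ρ * (δ₃ - δ₁) := by
      rw [hρz]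
      have h31 : δ₃ - δ₁ ≠ 0 := fun h => hn3 (by rw [h, mul_zero])
      field_simp
    have hρ0 : ρ ≠ 0 := by
      rw [hρz]; exact div_ne_zero hn1 hn3
    have hρ2 : 1 + ρ ≠ 0 := by
      intro h
      apply hn2
      have e : δ₂ - δ₃ = -((1 + ρ) * (δ₃ - δ₁)) := by
        have : δ₂ - δ₃ = -(δ₁ - δ₂) - (δ₃ - δ₁) := by ring
        rw [this, hρ1]; ring
      rw [e, h]; ring
    rw [Set.mem_iUnion₂]
    refine ⟨ρ, ?_, quad θ₁ θ₂ θ₃ δ₁ δ₂ δ₃ N ρ hδ₁ hδ₂ hδ₃ hρ1 hρ0 hρ2⟩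
    rw [hP]
    simp only [Set.mem_iUnion]
    refine ⟨w₁, hw₁, w₂, hw₂, w₃, hw₃, (η₁ * η₃⁻¹, η₂ * η₃⁻¹), ?_, rfl⟩
    show (-(w₁ : K) / w₃) * ((((η₁ * η₃⁻¹ : (𝓞 K)ˣ) : 𝓞 K)) : K) +
      (-(w₂ : K) / w₃) * ((((η₂ * η₃⁻¹ : (𝓞 K)ˣ) : 𝓞 K)) : K) = 1
    rw [hu1, hu2]
    have hs : (w₁ : K) * ((η₁ : 𝓞 K) : K) + (w₂ : K) * ((η₂ : 𝓞 K) : K) =
        -((w₃ : K) * ((η₃ : 𝓞 K) : K)) := by
      rw [← e1, ← e2, ← e3]; ring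
    have e5 : (-(w₁ : K) / w₃) * (((η₁ : 𝓞 K) : K) / ((η₃ : 𝓞 K) : K)) +
        (-(w₂ : K) / w₃) * (((η₂ : 𝓞 K) : K) / ((η₃ : 𝓞 K) : K)) =
        -((w₁ : K) * ((η₁ : 𝓞 K) : K) + (w₂ : K) * ((η₂ : 𝓞 K) : K)) /
          ((w₃ : K) * ((η₃ : 𝓞 K) : K)) := by
      rw [div_mul_div_comm, div_mul_div_comm, ← add_div]
      congr 1
      ring
    rw [e5, hs, neg_neg]
    exact div_self hn3'

end Pool.Agent.DKP
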