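import Pool.Agent.DKP.St3
import Pool.Agent.DKP.Fixed

/-!
# MP_a79b85_nt, module SmallM: the small indices

For the seven polynomials an identity `U F + V F' = 1 + 11 W` over the integers. The leading
coefficient of `F` is a power of `2`, so a multiple root `α` would make a power of `2` divisible by
`11`.
-/

set_option autoImplicit false

open Polynomial

namespace Pool.Agent.DKP

namespace SmallM

/-- There is a Bezout identity for `F`, `F'` modulo `11`. -/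
def Bez (F : ℤ[X]) : Prop :=
  ∃ U V W : ℤ[X], U * F + V * derivative F = 1 + 11 * W

theorem int_mul_pow {α : ℂ} {n : ℕ} (h : IsIntegral ℤ ((2 : ℂ) ^ n * α)) (W : ℤ[X]) :
    ∃ k : ℕ, IsIntegral ℤ ((2 : ℂ) ^ k * aeval α W) := by
  have h2 : ∀ k : ℕ, IsIntegral ℤ ((2 : ℂ) ^ k) := by
    intro k
    have h3 : IsIntegral ℤ (algebraMap ℤ ℂ (2 ^ k)) := isIntegral_algebraMap
    simpa using h3
  induction W using Polynomial.induction_on' with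
  | add p q hp hq =>
    obtain ⟨k, hk⟩ := hp
    obtain ⟨l, hl⟩ := hq
    refine ⟨k + l, ?_⟩
    have e : (2 : ℂ) ^ (k + l) * aeval α (p + q) =
        2 ^ l * (2 ^ k * aeval α p) + 2 ^ k * (2 ^ l * aeval α q) := by
      rw [map_add, pow_add]
      ring
    rw [e]
    exact ((h2 l).mul hk).add ((h2 k).mul hl)
  | monomial i a =>
    refine ⟨n * i, ?_⟩
    have e : (2 : ℂ) ^ (n * i) * aeval α (monomial i a) =
        algebraMap ℤ ℂ a * (2 ^ n * α) ^ i := by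
      rw [aeval_monomial, mul_pow, pow_mul]
      ring
    rw [e]
    exact isIntegral_algebraMap.mul (h.pow i)

theorem no_common {F : ℤ[X]} {n : ℕ} (hl : F.leadingCoeff = 2 ^ n) (hB : Bez F) {α : ℂ}
    (h1 : aeval α F = 0) (h2 : aeval α (derivative F) = 0) : False := by
  obtain ⟨U, V, W, h⟩ := hB
  have h3 : IsIntegral ℤ ((2 : ℂ) ^ n * α) := by
    have h4 := isIntegral_leadingCoeff_smul F α h1
    rw [hl] at h4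
    simpa [Algebra.smul_def] using h4
  obtain ⟨k, hk⟩ := int_mul_pow h3 W
  have h5 : (0 : ℂ) = 1 + 11 * aeval α W := by
    have h6 := congrArg (aeval α) h
    rw [map_add, map_mul, map_mul, h1, h2, mul_zero, mul_zero, add_zero, map_add, map_one,
      map_mul, map_ofNat] at h6
    exact h6
  have h7 : (2 : ℂ) ^ k * aeval α W = algebraMap ℚ ℂ (-(2 ^ k / 11)) := by
    have h8 : aeval α W = -(1 / 11 : ℂ) := by linear_combination (-1 / 11 : ℂ) * h5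
    rw [h8, map_neg, map_div₀, map_pow, map_ofNat, map_ofNat]
    ring
  rw [h7] at hk
  have h9 : IsIntegral ℤ (-(2 ^ k / 11) : ℚ) :=
    (isIntegral_algebraMap_iff (algebraMap ℚ ℂ).injective).1 hk
  obtain ⟨y, hy⟩ := IsIntegrallyClosed.isIntegral_iff.1 h9
  have h10 : (-11 * y : ℤ) = 2 ^ k := by
    have h11 : ((-11 * y : ℤ) : ℚ) = ((2 ^ k : ℤ) : ℚ) := by
      have h12 : (y : ℚ) = -(2 ^ k / 11) := hy
      push_cast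
      rw [h12]
      ring
    exact_mod_cast h11
  have h13 : (11 : ℤ) ∣ 2 ^ k := ⟨-y, by rw [← h10]; ring⟩
  have h14 : (11 : ℤ) ∣ 2 := Int.Prime.dvd_pow' (by norm_num) h13
  omega

theorem three {F : ℤ[X]} {n : ℕ} (hl : F.leadingCoeff = 2 ^ n) (hd : 3 ≤ F.natDegree)
    (hB : Bez F) :
    ∃ θ₁ θ₂ θ₃ : ℂ, θ₁ ≠ θ₂ ∧ θ₁ ≠ θ₃ ∧ θ₂ ≠ θ₃ ∧ OddRoot F θ₁ ∧ OddRoot F θ₂ ∧ OddRoot F θ₃ := by
  classical
  have hF : F ≠ 0 := by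
    rintro rfl
    simp at hd
  have hinj : Function.Injective (algebraMap ℤ ℂ) := (algebraMap ℤ ℂ).injective_int
  set G : ℂ[X] := F.map (algebraMap ℤ ℂ) with hG
  have hG0 : G ≠ 0 := (Polynomial.map_ne_zero_iff hinj).2 hF
  have hle : ∀ α : ℂ, G.rootMultiplicity α ≤ 1 := by
    intro α
    by_contra hc
    have hc' : 1 < G.rootMultiplicity α := not_le.1 hc
    obtain ⟨ha, hb⟩ := (one_lt_rootMultiplicity_iff_isRoot hG0).1 hc'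
    rw [hG, IsRoot.def, eval_map_algebraMap] at ha
    rw [hG, IsRoot.def, derivative_map, eval_map_algebraMap] at hb
    exact no_common hl hB ha hb
  have hnd : G.roots.Nodup := by
    rw [Multiset.nodup_iff_count_le_one]
    intro α
    rw [count_roots]
    exact hle α
  have hcard : G.roots.card = F.natDegree := by
    rw [← natDegree_map_eq_of_injective hinj F]
    exact (splits_iff_card_roots.1 (IsAlgClosed.splits G))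
  have h3 : 2 < G.roots.toFinset.card := by
    rw [Multiset.toFinset_card_of_nodup hnd, hcard]
    omega
  obtain ⟨a, ha, b, hb, c, hc, hab, hac, hbc⟩ := Finset.two_lt_card.1 h3
  have hodd : ∀ x ∈ G.roots.toFinset, OddRoot F x := by
    intro x hx
    rw [Multiset.mem_toFinset] at hx
    have h4 : 0 < G.rootMultiplicity x := by
      rw [← count_roots]
      exact Multiset.count_pos.2 hx
    have h5 : G.rootMultiplicity x = 1 := le_antisymm (hle x) h4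
    unfold OddRoot
    rw [← hG, h5]
    exact odd_one
  exact ⟨a, b, c, hab, hac, hbc, hodd a ha, hodd b hb, hodd c hc⟩

theorem lead (s : ℤ) (m : ℕ) (hm : 2 ≤ m) : (FP s m).leadingCoeff = 2 ^ (2 * m + 1) := by
  obtain ⟨⟨hd, hc⟩, -⟩ := Fixed46.deg_YY s m
  have hQ : ((X - 1 : ℤ[X]) ^ 2).natDegree ≤ 2 := by
    refine (natDegree_pow_le).trans ?_
    have : (X - 1 : ℤ[X]).natDegree ≤ 1 := by
      have := natDegree_X_sub_C_le (1 : ℤ)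
      simpa using this
    omega
  have h0 : (FP s m).natDegree = m * 2 := (Fixed46.deg_FF s m hm).1
  unfold leadingCoeff
  rw [h0]
  unfold FP FF
  rw [coeff_add, coeff_sub]
  have e1 : ((2 : ℤ[X]) * YY (C s) X m ^ 2).coeff (m * 2) = 2 * (2 ^ m) ^ 2 := by
    have : (2 : ℤ[X]) = C 2 := rfl
    rw [this, coeff_C_mul, mul_comm m 2, coeff_pow_of_natDegree_le hd, hc]
  have e2 : ((X - 1 : ℤ[X]) ^ 2).coeff (m * 2) = 0 :=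
    coeff_eq_zero_of_natDegree_lt (by omega)
  have e3 : (2 : ℤ[X]).coeff (m * 2) = 0 := by
    apply coeff_eq_zero_of_natDegree_lt
    have h1 : (2 : ℤ[X]).natDegree = 0 := natDegree_ofNat 2
    omega
  rw [e1, e2, e3, ← pow_mul, pow_succ]
  ring

theorem e_2 : FP 1 2 =
    (32 * X ^ 4 + 32 * X ^ 3 + 23 * X ^ 2 + 10 * X + 3 : ℤ[X]) := by
  have h0 : (YY (C 1) X 0 : ℤ[X]) = 1 := rfl
  have h1 : (YY (C 1) X 1 : ℤ[X]) = 2 * X + 1 := by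
    have h : (YY (C 1) X 1 : ℤ[X]) = 2 * X + C 1 := rfl
    rw [h]
    simp
  have h2 : (YY (C 1) X 2 : ℤ[X]) =
      4 * X ^ 2 + 2 * X + 1 := by
    have h : (YY (C 1) X 2 : ℤ[X]) = 2 * X * YY (C 1) X 1 + YY (C 1) X 0 := rfl
    rw [h, h1, h0]
    ring
  have h : FP 1 2 = 2 * YY (C 1) X 2 ^ 2 - (X - 1) ^ 2 + 2 := rfl
  rw [h, h2]
  ring

theorem d_2 : derivative (FP 1 2) =
    (128 * X ^ 3 + 96 * X ^ 2 + 46 * X + 10 : ℤ[X]) := by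
  rw [e_2]
  simp only [derivative_add, derivative_mul, derivative_pow, derivative_X,
    derivative_ofNat, Nat.cast_ofNat, map_ofNat]
  ring

theorem i_2 : Bez (FP 1 2) := by
  refine ⟨2 * X ^ 2 + 3 * X + 4,
    5 * X ^ 3 - 5 * X ^ 2 + 5 * X,
    64 * X ^ 6 + 60 * X ^ 4 + 47 * X ^ 3 + 28 * X ^ 2 + 9 * X + 1, ?_⟩
  rw [d_2, e_2]
  ring

theorem e_4 : FP 1 4 =
    (512 * X ^ 8 + 512 * X ^ 7 + 896 * X ^ 6 + 640 * X ^ 5 + 480 * X ^ 4 + 224 * X ^ 3 + 79 * X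
      ^ 2 + 18 * X + 3 : ℤ[X]) := by
  have h0 : (YY (C 1) X 0 : ℤ[X]) = 1 := rfl
  have h1 : (YY (C 1) X 1 : ℤ[X]) = 2 * X + 1 := by
    have h : (YY (C 1) X 1 : ℤ[X]) = 2 * X + C 1 := rfl
    rw [h]
    simp
  have h2 : (YY (C 1) X 2 : ℤ[X]) =
      4 * X ^ 2 + 2 * X + 1 := by
    have h : (YY (C 1) X 2 : ℤ[X]) = 2 * X * YY (C 1) X 1 + YY (C 1) X 0 := rfl
    rw [h, h1, h0]
    ring
  have h3 : (YY (C 1) X 3 : ℤ[X]) =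
      8 * X ^ 3 + 4 * X ^ 2 + 4 * X + 1 := by
    have h : (YY (C 1) X 3 : ℤ[X]) = 2 * X * YY (C 1) X 2 + YY (C 1) X 1 := rfl
    rw [h, h2, h1]
    ring
  have h4 : (YY (C 1) X 4 : ℤ[X]) =
      16 * X ^ 4 + 8 * X ^ 3 + 12 * X ^ 2 + 4 * X + 1 := by
    have h : (YY (C 1) X 4 : ℤ[X]) = 2 * X * YY (C 1) X 3 + YY (C 1) X 2 := rfl
    rw [h, h3, h2]
    ring
  have h : FP 1 4 = 2 * YY (C 1) X 4 ^ 2 - (X - 1) ^ 2 + 2 := rfl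
  rw [h, h4]
  ring

theorem d_4 : derivative (FP 1 4) =
    (4096 * X ^ 7 + 3584 * X ^ 6 + 5376 * X ^ 5 + 3200 * X ^ 4 + 1920 * X ^ 3 + 672 * X ^ 2 +
      158 * X + 18 : ℤ[X]) := by
  rw [e_4]
  simp only [derivative_add, derivative_mul, derivative_pow, derivative_X,
    derivative_ofNat, Nat.cast_ofNat, map_ofNat]
  ring

theorem i_4 : Bez (FP 1 4) := by
  refine ⟨3 * X ^ 6 + 3 * X ^ 5 + X ^ 4 - X ^ 3 + 4 * X - 1,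
    X ^ 7 - 3 * X ^ 6 - 5 * X ^ 5 + 4 * X ^ 4 - 5 * X ^ 3 + X ^ 2 + 3 * X - 1,
    512 * X ^ 14 - 512 * X ^ 13 - 1920 * X ^ 12 - 896 * X ^ 11 - 3360 * X ^ 10 - 864 * X ^ 9 -
      671 * X ^ 8 + 273 * X ^ 7 + 870 * X ^ 6 + 414 * X ^ 5 + 265 * X ^ 4 + 23 * X ^ 3 - 17 * X
      ^ 2 - 10 * X - 2, ?_⟩
  rw [d_4, e_4]
  ring

theorem e_6 : FP 1 6 =
    (8192 * X ^ 12 + 8192 * X ^ 11 + 22528 * X ^ 10 + 18432 * X ^ 9 + 23040 * X ^ 8 + 14848 * X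
      ^ 7 + 10752 * X ^ 6 + 5120 * X ^ 5 + 2240 * X ^ 4 + 704 * X ^ 3 + 167 * X ^ 2 + 26 * X + 3
      : ℤ[X]) := by
  have h0 : (YY (C 1) X 0 : ℤ[X]) = 1 := rfl
  have h1 : (YY (C 1) X 1 : ℤ[X]) = 2 * X + 1 := by
    have h : (YY (C 1) X 1 : ℤ[X]) = 2 * X + C 1 := rfl
    rw [h]
    simp
  have h2 : (YY (C 1) X 2 : ℤ[X]) =
      4 * X ^ 2 + 2 * X + 1 := by
    have h : (YY (C 1) X 2 : ℤ[X]) = 2 * X * YY (C 1) X 1 + YY (C 1) X 0 := rfl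
    rw [h, h1, h0]
    ring
  have h3 : (YY (C 1) X 3 : ℤ[X]) =
      8 * X ^ 3 + 4 * X ^ 2 + 4 * X + 1 := by
    have h : (YY (C 1) X 3 : ℤ[X]) = 2 * X * YY (C 1) X 2 + YY (C 1) X 1 := rfl
    rw [h, h2, h1]
    ring
  have h4 : (YY (C 1) X 4 : ℤ[X]) =
      16 * X ^ 4 + 8 * X ^ 3 + 12 * X ^ 2 + 4 * X + 1 := by
    have h : (YY (C 1) X 4 : ℤ[X]) = 2 * X * YY (C 1) X 3 + YY (C 1) X 2 := rfl
    rw [h, h3, h2]
    ring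
  have h5 : (YY (C 1) X 5 : ℤ[X]) =
      32 * X ^ 5 + 16 * X ^ 4 + 32 * X ^ 3 + 12 * X ^ 2 + 6 * X + 1 := by
    have h : (YY (C 1) X 5 : ℤ[X]) = 2 * X * YY (C 1) X 4 + YY (C 1) X 3 := rfl
    rw [h, h4, h3]
    ring
  have h6 : (YY (C 1) X 6 : ℤ[X]) =
      64 * X ^ 6 + 32 * X ^ 5 + 80 * X ^ 4 + 32 * X ^ 3 + 24 * X ^ 2 + 6 * X + 1 := by
    have h : (YY (C 1) X 6 : ℤ[X]) = 2 * X * YY (C 1) X 5 + YY (C 1) X 4 := rfl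
    rw [h, h5, h4]
    ring
  have h : FP 1 6 = 2 * YY (C 1) X 6 ^ 2 - (X - 1) ^ 2 + 2 := rfl
  rw [h, h6]
  ring

theorem d_6 : derivative (FP 1 6) =
    (98304 * X ^ 11 + 90112 * X ^ 10 + 225280 * X ^ 9 + 165888 * X ^ 8 + 184320 * X ^ 7 + 103936
      * X ^ 6 + 64512 * X ^ 5 + 25600 * X ^ 4 + 8960 * X ^ 3 + 2112 * X ^ 2 + 334 * X + 26 :
      ℤ[X]) := by
  rw [e_6]
  simp only [derivative_add, derivative_mul, derivative_pow, derivative_X,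
    derivative_ofNat, Nat.cast_ofNat, map_ofNat]
  ring

theorem i_6 : Bez (FP 1 6) := by
  refine ⟨-3 * X ^ 10 - 5 * X ^ 9 + 3 * X ^ 8 - 2 * X ^ 7 - 3 * X ^ 6 - X ^ 5 - 4 * X ^ 2 - X + 3,
    3 * X ^ 11 - 3 * X ^ 10 + 2 * X ^ 9 - 2 * X ^ 7 + 5 * X ^ 6 - 4 * X ^ 5 - 2 * X ^ 4 + 2 * X
      ^ 3 - 3 * X - 2,
    24576 * X ^ 22 - 8192 * X ^ 21 + 47104 * X ^ 20 - 14336 * X ^ 19 + 15872 * X ^ 18 + 19968 *
      X ^ 17 - 26624 * X ^ 16 + 16384 * X ^ 15 - 44992 * X ^ 14 - 28864 * X ^ 13 - 58049 * X ^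
      12 - 67815 * X ^ 11 - 81688 * X ^ 10 - 87537 * X ^ 9 - 74804 * X ^ 8 - 58267 * X ^ 7 -
      33707 * X ^ 6 - 17461 * X ^ 5 - 6556 * X ^ 4 - 2033 * X ^ 3 - 433 * X ^ 2 - 61 * X - 4, ?_⟩
  rw [d_6, e_6]
  ring

theorem e_8 : FP 1 8 =
    (131072 * X ^ 16 + 131072 * X ^ 15 + 491520 * X ^ 14 + 425984 * X ^ 13 + 745472 * X ^ 12 +
      548864 * X ^ 11 + 585728 * X ^ 10 + 356352 * X ^ 9 + 253440 * X ^ 8 + 122368 * X ^ 7 +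
      59136 * X ^ 6 + 21248 * X ^ 5 + 6720 * X ^ 4 + 1600 * X ^ 3 + 287 * X ^ 2 + 34 * X + 3 :
      ℤ[X]) := by
  have h0 : (YY (C 1) X 0 : ℤ[X]) = 1 := rfl
  have h1 : (YY (C 1) X 1 : ℤ[X]) = 2 * X + 1 := by
    have h : (YY (C 1) X 1 : ℤ[X]) = 2 * X + C 1 := rfl
    rw [h]
    simp
  have h2 : (YY (C 1) X 2 : ℤ[X]) =
      4 * X ^ 2 + 2 * X + 1 := by
    have h : (YY (C 1) X 2 : ℤ[X]) = 2 * X * YY (C 1) X 1 + YY (C 1) X 0 := rfl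
    rw [h, h1, h0]
    ring
  have h3 : (YY (C 1) X 3 : ℤ[X]) =
      8 * X ^ 3 + 4 * X ^ 2 + 4 * X + 1 := by
    have h : (YY (C 1) X 3 : ℤ[X]) = 2 * X * YY (C 1) X 2 + YY (C 1) X 1 := rfl
    rw [h, h2, h1]
    ring
  have h4 : (YY (C 1) X 4 : ℤ[X]) =
      16 * X ^ 4 + 8 * X ^ 3 + 12 * X ^ 2 + 4 * X + 1 := by
    have h : (YY (C 1) X 4 : ℤ[X]) = 2 * X * YY (C 1) X 3 + YY (C 1) X 2 := rfl
    rw [h, h3, h2]
    ring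
  have h5 : (YY (C 1) X 5 : ℤ[X]) =
      32 * X ^ 5 + 16 * X ^ 4 + 32 * X ^ 3 + 12 * X ^ 2 + 6 * X + 1 := by
    have h : (YY (C 1) X 5 : ℤ[X]) = 2 * X * YY (C 1) X 4 + YY (C 1) X 3 := rfl
    rw [h, h4, h3]
    ring
  have h6 : (YY (C 1) X 6 : ℤ[X]) =
      64 * X ^ 6 + 32 * X ^ 5 + 80 * X ^ 4 + 32 * X ^ 3 + 24 * X ^ 2 + 6 * X + 1 := by
    have h : (YY (C 1) X 6 : ℤ[X]) = 2 * X * YY (C 1) X 5 + YY (C 1) X 4 := rfl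
    rw [h, h5, h4]
    ring
  have h7 : (YY (C 1) X 7 : ℤ[X]) =
      128 * X ^ 7 + 64 * X ^ 6 + 192 * X ^ 5 + 80 * X ^ 4 + 80 * X ^ 3 + 24 * X ^ 2 + 8 * X + 1 := by
    have h : (YY (C 1) X 7 : ℤ[X]) = 2 * X * YY (C 1) X 6 + YY (C 1) X 5 := rfl
    rw [h, h6, h5]
    ring
  have h8 : (YY (C 1) X 8 : ℤ[X]) =
      256 * X ^ 8 + 128 * X ^ 7 + 448 * X ^ 6 + 192 * X ^ 5 + 240 * X ^ 4 + 80 * X ^ 3 + 40 * X
        ^ 2 + 8 * X + 1 := by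
    have h : (YY (C 1) X 8 : ℤ[X]) = 2 * X * YY (C 1) X 7 + YY (C 1) X 6 := rfl
    rw [h, h7, h6]
    ring
  have h : FP 1 8 = 2 * YY (C 1) X 8 ^ 2 - (X - 1) ^ 2 + 2 := rfl
  rw [h, h8]
  ring

theorem d_8 : derivative (FP 1 8) =
    (2097152 * X ^ 15 + 1966080 * X ^ 14 + 6881280 * X ^ 13 + 5537792 * X ^ 12 + 8945664 * X ^
      11 + 6037504 * X ^ 10 + 5857280 * X ^ 9 + 3207168 * X ^ 8 + 2027520 * X ^ 7 + 856576 * X ^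
      6 + 354816 * X ^ 5 + 106240 * X ^ 4 + 26880 * X ^ 3 + 4800 * X ^ 2 + 574 * X + 34 : ℤ[X]) := by
  rw [e_8]
  simp only [derivative_add, derivative_mul, derivative_pow, derivative_X,
    derivative_ofNat, Nat.cast_ofNat, map_ofNat]
  ring

theorem i_8 : Bez (FP 1 8) := by
  refine ⟨2 * X ^ 14 + 2 * X ^ 13 - 4 * X ^ 12 + 4 * X ^ 11 + 4 * X ^ 10 - 2 * X ^ 9 - 2 * X ^ 7 + 4 *
      X ^ 6 - 2 * X ^ 3 - 5 * X ^ 2 - X + 1,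
    4 * X ^ 15 - 4 * X ^ 14 + 3 * X ^ 13 + 3 * X ^ 12 + 5 * X ^ 11 + 4 * X ^ 9 + 2 * X ^ 8 + 4 *
      X ^ 7 - 5 * X ^ 6 + 2 * X ^ 5 + 3 * X ^ 4 - 3 * X ^ 3 - 5 * X - 2,
    786432 * X ^ 30 + 2424832 * X ^ 28 + 786432 * X ^ 27 + 4734976 * X ^ 26 + 3506176 * X ^ 25 +
      8019968 * X ^ 24 + 7020544 * X ^ 23 + 10818560 * X ^ 22 + 7991296 * X ^ 21 + 10442240 * X
      ^ 20 + 5872128 * X ^ 19 + 6545280 * X ^ 18 + 3160832 * X ^ 17 + 1061090 * X ^ 16 - 286666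
      * X ^ 15 - 3999296 * X ^ 14 - 4090802 * X ^ 13 - 5953860 * X ^ 12 - 4857728 * X ^ 11 -
      4166848 * X ^ 10 - 2707136 * X ^ 9 - 1588324 * X ^ 8 - 784132 * X ^ 7 - 322854 * X ^ 6 -
      113408 * X ^ 5 - 31353 * X ^ 4 - 6975 * X ^ 3 - 1112 * X ^ 2 - 117 * X - 6, ?_⟩
  rw [d_8, e_8]
  ring

theorem e_3 : FP (-1) 3 =
    (128 * X ^ 6 - 128 * X ^ 5 + 160 * X ^ 4 - 96 * X ^ 3 + 47 * X ^ 2 - 14 * X + 3 : ℤ[X]) := by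
  have h0 : (YY (C (-1)) X 0 : ℤ[X]) = 1 := rfl
  have h1 : (YY (C (-1)) X 1 : ℤ[X]) = 2 * X + (-1) := by
    have h : (YY (C (-1)) X 1 : ℤ[X]) = 2 * X + C (-1) := rfl
    rw [h]
    simp
  have h2 : (YY (C (-1)) X 2 : ℤ[X]) =
      4 * X ^ 2 - 2 * X + 1 := by
    have h : (YY (C (-1)) X 2 : ℤ[X]) = 2 * X * YY (C (-1)) X 1 + YY (C (-1)) X 0 := rfl
    rw [h, h1, h0]
    ring
  have h3 : (YY (C (-1)) X 3 : ℤ[X]) =
      8 * X ^ 3 - 4 * X ^ 2 + 4 * X - 1 := by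
    have h : (YY (C (-1)) X 3 : ℤ[X]) = 2 * X * YY (C (-1)) X 2 + YY (C (-1)) X 1 := rfl
    rw [h, h2, h1]
    ring
  have h : FP (-1) 3 = 2 * YY (C (-1)) X 3 ^ 2 - (X - 1) ^ 2 + 2 := rfl
  rw [h, h3]
  ring

theorem d_3 : derivative (FP (-1) 3) =
    (768 * X ^ 5 - 640 * X ^ 4 + 640 * X ^ 3 - 288 * X ^ 2 + 94 * X - 14 : ℤ[X]) := by
  rw [e_3]
  simp only [derivative_add, derivative_sub, derivative_mul, derivative_pow, derivative_X,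
    derivative_ofNat, Nat.cast_ofNat, map_ofNat]
  ring

theorem i_3 : Bez (FP (-1) 3) := by
  refine ⟨-3 * X ^ 4 - 3 * X ^ 3 - 2 * X ^ 2 + 2 * X - 2,
    -5 * X ^ 5 + 5 * X ^ 4 + X ^ 3 + 4 * X ^ 2 + 3 * X + 5,
    -384 * X ^ 10 + 640 * X ^ 9 - 544 * X ^ 8 + 672 * X ^ 7 - 201 * X ^ 6 + 491 * X ^ 5 - 271 *
      X ^ 4 + 273 * X ^ 3 - 122 * X ^ 2 + 42 * X - 7, ?_⟩
  rw [d_3, e_3]
  ring

theorem e_5 : FP (-1) 5 =
    (2048 * X ^ 10 - 2048 * X ^ 9 + 4608 * X ^ 8 - 3584 * X ^ 7 + 3584 * X ^ 6 - 2048 * X ^ 5 +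
      1120 * X ^ 4 - 416 * X ^ 3 + 119 * X ^ 2 - 22 * X + 3 : ℤ[X]) := by
  have h0 : (YY (C (-1)) X 0 : ℤ[X]) = 1 := rfl
  have h1 : (YY (C (-1)) X 1 : ℤ[X]) = 2 * X + (-1) := by
    have h : (YY (C (-1)) X 1 : ℤ[X]) = 2 * X + C (-1) := rfl
    rw [h]
    simp
  have h2 : (YY (C (-1)) X 2 : ℤ[X]) =
      4 * X ^ 2 - 2 * X + 1 := by
    have h : (YY (C (-1)) X 2 : ℤ[X]) = 2 * X * YY (C (-1)) X 1 + YY (C (-1)) X 0 := rfl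
    rw [h, h1, h0]
    ring
  have h3 : (YY (C (-1)) X 3 : ℤ[X]) =
      8 * X ^ 3 - 4 * X ^ 2 + 4 * X - 1 := by
    have h : (YY (C (-1)) X 3 : ℤ[X]) = 2 * X * YY (C (-1)) X 2 + YY (C (-1)) X 1 := rfl
    rw [h, h2, h1]
    ring
  have h4 : (YY (C (-1)) X 4 : ℤ[X]) =
      16 * X ^ 4 - 8 * X ^ 3 + 12 * X ^ 2 - 4 * X + 1 := by
    have h : (YY (C (-1)) X 4 : ℤ[X]) = 2 * X * YY (C (-1)) X 3 + YY (C (-1)) X 2 := rfl
    rw [h, h3, h2]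
    ring
  have h5 : (YY (C (-1)) X 5 : ℤ[X]) =
      32 * X ^ 5 - 16 * X ^ 4 + 32 * X ^ 3 - 12 * X ^ 2 + 6 * X - 1 := by
    have h : (YY (C (-1)) X 5 : ℤ[X]) = 2 * X * YY (C (-1)) X 4 + YY (C (-1)) X 3 := rfl
    rw [h, h4, h3]
    ring
  have h : FP (-1) 5 = 2 * YY (C (-1)) X 5 ^ 2 - (X - 1) ^ 2 + 2 := rfl
  rw [h, h5]
  ring

theorem d_5 : derivative (FP (-1) 5) =
    (20480 * X ^ 9 - 18432 * X ^ 8 + 36864 * X ^ 7 - 25088 * X ^ 6 + 21504 * X ^ 5 - 10240 * X ^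
      4 + 4480 * X ^ 3 - 1248 * X ^ 2 + 238 * X - 22 : ℤ[X]) := by
  rw [e_5]
  simp only [derivative_add, derivative_sub, derivative_mul, derivative_pow, derivative_X,
    derivative_ofNat, Nat.cast_ofNat, map_ofNat]
  ring

theorem i_5 : Bez (FP (-1) 5) := by
  refine ⟨X ^ 8 - X ^ 7 - 2 * X ^ 6 - 2 * X ^ 5 + 2 * X ^ 4 + 3 * X ^ 3 + 3 * X + 4,
    X ^ 9 + 3 * X ^ 6 + 3 * X ^ 5 + X ^ 3 + X ^ 2 + 5,
    2048 * X ^ 18 - 2048 * X ^ 17 + 3584 * X ^ 16 + 2560 * X ^ 15 + 3072 * X ^ 14 + 3584 * X ^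
      13 + 6048 * X ^ 12 - 160 * X ^ 11 + 4847 * X ^ 10 + 9783 * X ^ 9 - 7423 * X ^ 8 + 17391 *
      X ^ 7 - 11212 * X ^ 6 + 9651 * X ^ 5 - 4458 * X ^ 4 + 1938 * X ^ 3 - 532 * X ^ 2 + 101 * X
      - 9, ?_⟩
  rw [d_5, e_5]
  ring

theorem e_7 : FP (-1) 7 =
    (32768 * X ^ 14 - 32768 * X ^ 13 + 106496 * X ^ 12 - 90112 * X ^ 11 + 135168 * X ^ 10 -
      94208 * X ^ 9 + 84480 * X ^ 8 - 46592 * X ^ 7 + 26880 * X ^ 6 - 11008 * X ^ 5 + 4032 * X ^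
      4 - 1088 * X ^ 3 + 223 * X ^ 2 - 30 * X + 3 : ℤ[X]) := by
  have h0 : (YY (C (-1)) X 0 : ℤ[X]) = 1 := rfl
  have h1 : (YY (C (-1)) X 1 : ℤ[X]) = 2 * X + (-1) := by
    have h : (YY (C (-1)) X 1 : ℤ[X]) = 2 * X + C (-1) := rfl
    rw [h]
    simp
  have h2 : (YY (C (-1)) X 2 : ℤ[X]) =
      4 * X ^ 2 - 2 * X + 1 := by
    have h : (YY (C (-1)) X 2 : ℤ[X]) = 2 * X * YY (C (-1)) X 1 + YY (C (-1)) X 0 := rfl
    rw [h, h1, h0]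
    ring
  have h3 : (YY (C (-1)) X 3 : ℤ[X]) =
      8 * X ^ 3 - 4 * X ^ 2 + 4 * X - 1 := by
    have h : (YY (C (-1)) X 3 : ℤ[X]) = 2 * X * YY (C (-1)) X 2 + YY (C (-1)) X 1 := rfl
    rw [h, h2, h1]
    ring
  have h4 : (YY (C (-1)) X 4 : ℤ[X]) =
      16 * X ^ 4 - 8 * X ^ 3 + 12 * X ^ 2 - 4 * X + 1 := by
    have h : (YY (C (-1)) X 4 : ℤ[X]) = 2 * X * YY (C (-1)) X 3 + YY (C (-1)) X 2 := rfl
    rw [h, h3, h2]
    ring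
  have h5 : (YY (C (-1)) X 5 : ℤ[X]) =
      32 * X ^ 5 - 16 * X ^ 4 + 32 * X ^ 3 - 12 * X ^ 2 + 6 * X - 1 := by
    have h : (YY (C (-1)) X 5 : ℤ[X]) = 2 * X * YY (C (-1)) X 4 + YY (C (-1)) X 3 := rfl
    rw [h, h4, h3]
    ring
  have h6 : (YY (C (-1)) X 6 : ℤ[X]) =
      64 * X ^ 6 - 32 * X ^ 5 + 80 * X ^ 4 - 32 * X ^ 3 + 24 * X ^ 2 - 6 * X + 1 := by
    have h : (YY (C (-1)) X 6 : ℤ[X]) = 2 * X * YY (C (-1)) X 5 + YY (C (-1)) X 4 := rfl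
    rw [h, h5, h4]
    ring
  have h7 : (YY (C (-1)) X 7 : ℤ[X]) =
      128 * X ^ 7 - 64 * X ^ 6 + 192 * X ^ 5 - 80 * X ^ 4 + 80 * X ^ 3 - 24 * X ^ 2 + 8 * X - 1 := by
    have h : (YY (C (-1)) X 7 : ℤ[X]) = 2 * X * YY (C (-1)) X 6 + YY (C (-1)) X 5 := rfl
    rw [h, h6, h5]
    ring
  have h : FP (-1) 7 = 2 * YY (C (-1)) X 7 ^ 2 - (X - 1) ^ 2 + 2 := rfl
  rw [h, h7]
  ring

theorem d_7 : derivative (FP (-1) 7) =
    (458752 * X ^ 13 - 425984 * X ^ 12 + 1277952 * X ^ 11 - 991232 * X ^ 10 + 1351680 * X ^ 9 -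
      847872 * X ^ 8 + 675840 * X ^ 7 - 326144 * X ^ 6 + 161280 * X ^ 5 - 55040 * X ^ 4 + 16128
      * X ^ 3 - 3264 * X ^ 2 + 446 * X - 30 : ℤ[X]) := by
  rw [e_7]
  simp only [derivative_add, derivative_sub, derivative_mul, derivative_pow, derivative_X,
    derivative_ofNat, Nat.cast_ofNat, map_ofNat]
  ring

theorem i_7 : Bez (FP (-1) 7) := by
  refine ⟨2 * X ^ 12 + X ^ 11 - 5 * X ^ 10 - 5 * X ^ 9 - 2 * X ^ 8 - X ^ 7 + 3 * X ^ 6 - 4 * X ^ 5 - 3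
      * X ^ 4 + 4 * X ^ 3 + 4 * X ^ 2 - 2 * X + 3,
    3 * X ^ 13 - 5 * X ^ 12 - 4 * X ^ 11 - 2 * X ^ 10 + X ^ 9 + 5 * X ^ 8 + 4 * X ^ 7 - 2 * X ^
      6 - 2 * X ^ 5 - 4 * X ^ 4 - X ^ 3 - 3 * X + 1,
    131072 * X ^ 26 - 327680 * X ^ 25 + 376832 * X ^ 24 - 786432 * X ^ 23 + 450560 * X ^ 22 -
      557056 * X ^ 21 + 326656 * X ^ 20 - 114688 * X ^ 19 + 252416 * X ^ 18 - 291840 * X ^ 17 +
      301184 * X ^ 16 - 575488 * X ^ 15 + 189224 * X ^ 14 - 295911 * X ^ 13 - 167647 * X ^ 12 +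
      181742 * X ^ 11 - 350871 * X ^ 10 + 284210 * X ^ 9 - 221595 * X ^ 8 + 130105 * X ^ 7 -
      63636 * X ^ 6 + 25770 * X ^ 5 - 8065 * X ^ 4 + 2012 * X ^ 3 - 351 * X ^ 2 + 40 * X - 2, ?_⟩
  rw [d_7, e_7]
  ring

theorem fin {s : ℤ} {m : ℕ} (hm : 2 ≤ m) (hB : Bez (FP s m)) :
    ∃ θ₁ θ₂ θ₃ : ℂ, θ₁ ≠ θ₂ ∧ θ₁ ≠ θ₃ ∧ θ₂ ≠ θ₃ ∧ OddRoot (FP s m) θ₁ ∧
      OddRoot (FP s m) θ₂ ∧ OddRoot (FP s m) θ₃ := by
  refine three (lead s m hm) ?_ hB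
  have h0 : (FP s m).natDegree = m * 2 := (Fixed46.deg_FF s m hm).1
  omega

end SmallM

theorem t_SmallM : StmtSmallM := by
  intro s m h h2 h8
  apply SmallM.fin h2
  rcases h with ⟨rfl, hm⟩ | ⟨rfl, hm⟩
  · have h3 : m = 2 ∨ m = 4 ∨ m = 6 ∨ m = 8 := by
      rw [Nat.even_iff] at hm
      omega
    rcases h3 with rfl | rfl | rfl | rfl
    · exact SmallM.i_2
    · exact SmallM.i_4
    · exact SmallM.i_6
    · exact SmallM.i_8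
  · have h3 : m = 3 ∨ m = 5 ∨ m = 7 := by
      rw [Nat.odd_iff] at hm
      omega
    rcases h3 with rfl | rfl | rfl
    · exact SmallM.i_3
    · exact SmallM.i_5
    · exact SmallM.i_7

end Pool.Agent.DKP
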