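import Pool.Agent.DKP.St3

set_option autoImplicit false

open NumberField NumberField.Units NumberField.InfinitePlace Finset

namespace Pool.Agent.DKP

namespace ULog46

variable (K : Type) [Field K] [NumberField K]

/-- the unit `ζ ∏ ε_j^(e_j)` -/
noncomputable abbrev uu (ζ : Units.torsion K) (e : Fin (Units.rank K) → ℤ) : (𝓞 K)ˣ :=
  (ζ : (𝓞 K)ˣ) * ∏ j, Units.fundSystem K j ^ e j

lemma log_prod (w : InfinitePlace K) (ζ : Units.torsion K) (e : Fin (Units.rank K) → ℤ) :
    Real.log (w ((uu K ζ e : (𝓞 K)ˣ) : K)) =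
      ∑ j, (e j : ℝ) * Real.log (w ((Units.fundSystem K j : (𝓞 K)ˣ) : K)) := by
  have h0 : ∀ s : Finset (Fin (Units.rank K)),
      Real.log (w (((∏ j ∈ s, Units.fundSystem K j ^ e j : (𝓞 K)ˣ)) : K)) =
      ∑ j ∈ s, (e j : ℝ) * Real.log (w ((Units.fundSystem K j : (𝓞 K)ˣ) : K)) := by
    intro s
    classical
    induction s using Finset.induction_on with
    | empty => simp
    | insert a s ha ih =>
      rw [Finset.prod_insert ha, Finset.sum_insert ha, Units.coe_mul, map_mul, Units.coe_zpow,
        map_zpow₀, Real.log_mul, ih, Real.log_zpow]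
      · exact zpow_ne_zero _ (Units.pos_at_place _ w).ne'
      · exact (Units.pos_at_place _ w).ne'
  rw [Units.coe_mul, map_mul, (Units.mem_torsion K).1 ζ.2 w, one_mul]
  exact h0 _

/-- the linear map of the logarithms -/
noncomputable def LM : (Fin (Units.rank K) → ℝ) →ₗ[ℝ] (InfinitePlace K → ℝ) where
  toFun e w := ∑ j, e j * Real.log (w ((Units.fundSystem K j : (𝓞 K)ˣ) : K))
  map_add' e f := by
    funext w
    simp only [Pi.add_apply, add_mul, Finset.sum_add_distrib]
  map_smul' c e := by
    funext w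
    simp only [Pi.smul_apply, smul_eq_mul, RingHom.id_apply, Finset.mul_sum, mul_assoc]

lemma LM_ker : LinearMap.ker (LM K) = ⊥ := by
  rw [LinearMap.ker_eq_bot']
  intro e he
  have hli : LinearIndependent ℝ
      (fun i => logEmbedding K (Additive.ofMul (Units.fundSystem K i))) := isMaxRank_fundSystem K
  rw [Fintype.linearIndependent_iff] at hli
  funext j
  refine hli e ?_ j
  funext w
  rw [Finset.sum_apply]
  have h1 : ∀ i, (e i • logEmbedding K (Additive.ofMul (Units.fundSystem K i))) w =
      (mult w.val : ℝ) * (e i * Real.log (w.val ((Units.fundSystem K i : (𝓞 K)ˣ) : K))) := by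
    intro i
    rw [Pi.smul_apply, dirichletUnitTheorem.logEmbedding_component, smul_eq_mul]
    ring
  rw [Finset.sum_congr rfl fun i _ => h1 i, ← Finset.mul_sum]
  have h2 := congrFun he w.val
  simp only [LM, LinearMap.coe_mk, AddHom.coe_mk, Pi.zero_apply] at h2
  rw [h2]
  simp

end ULog46

open ULog46 in
theorem t_ULog : StmtULog := by
  intro K _ _
  classical
  obtain ⟨C, hC, hanti⟩ := (LM K).exists_antilipschitzWith (LM_ker K)
  -- the constants
  set n : ℝ := (Fintype.card (InfinitePlace K) : ℝ) with hn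
  have hn1 : 1 ≤ n := by
    have : 0 < Fintype.card (InfinitePlace K) := Fintype.card_pos
    rw [hn]
    exact_mod_cast this
  set M : ℝ := 1 + ∑ w : InfinitePlace K, ∑ j, |Real.log (w ((Units.fundSystem K j : (𝓞 K)ˣ) : K))|
    with hM
  have hMpos : 0 < M := by positivity
  have hCpos : (0 : ℝ) < C := by exact_mod_cast hC
  set c : ℝ := min (1 / (2 * C * n)) (1 / M) with hc
  have hcpos : 0 < c := by
    rw [hc]
    refine lt_min ?_ ?_ <;> positivity
  have hc1 : c ≤ 1 / (2 * C * n) := min_le_left _ _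
  have hc2 : M ≤ c⁻¹ := by
    rw [le_inv_comm₀ hMpos hcpos, ← one_div]
    exact min_le_right _ _
  refine ⟨c, hcpos, ?_⟩
  intro ζ e B hB hB2
  have hLM : ∀ w : InfinitePlace K, Real.log (w ((uu K ζ e : (𝓞 K)ˣ) : K)) =
      LM K (fun j => (e j : ℝ)) w := fun w => log_prod K w ζ e
  have hsum := Units.sum_mult_mul_log (K := K) (uu K ζ e)
  -- upper bound
  have hup : ∀ w : InfinitePlace K, |Real.log (w ((uu K ζ e : (𝓞 K)ˣ) : K))| ≤ c⁻¹ * B := by
    intro w
    rw [log_prod K w ζ e]
    calc |∑ j, (e j : ℝ) * Real.log (w ((Units.fundSystem K j : (𝓞 K)ˣ) : K))|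
        ≤ ∑ j, |(e j : ℝ) * Real.log (w ((Units.fundSystem K j : (𝓞 K)ˣ) : K))| :=
          Finset.abs_sum_le_sum_abs _ _
      _ ≤ ∑ j, (B : ℝ) * |Real.log (w ((Units.fundSystem K j : (𝓞 K)ˣ) : K))| := by
          refine Finset.sum_le_sum fun j _ => ?_
          rw [abs_mul]
          refine mul_le_mul_of_nonneg_right ?_ (abs_nonneg _)
          exact_mod_cast hB j
      _ = B * ∑ j, |Real.log (w ((Units.fundSystem K j : (𝓞 K)ˣ) : K))| := by
          rw [Finset.mul_sum]
      _ ≤ B * M := by
          refine mul_le_mul_of_nonneg_left ?_ (by positivity)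
          have h1 : ∑ j, |Real.log (w ((Units.fundSystem K j : (𝓞 K)ˣ) : K))| ≤
              ∑ w : InfinitePlace K, ∑ j, |Real.log (w ((Units.fundSystem K j : (𝓞 K)ˣ) : K))| :=
            Finset.single_le_sum (f := fun w : InfinitePlace K =>
              ∑ j, |Real.log (w ((Units.fundSystem K j : (𝓞 K)ˣ) : K))|)
              (fun w _ => by positivity) (Finset.mem_univ w)
          linarith
      _ ≤ c⁻¹ * B := by
          rw [mul_comm]
          exact mul_le_mul_of_nonneg_right hc2 (by positivity)
  -- a place with a large logarithm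
  have hbig : ∃ w : InfinitePlace K, (B : ℝ) / C ≤ |Real.log (w ((uu K ζ e : (𝓞 K)ˣ) : K))| := by
    rcases hB2 with h0 | ⟨j, hj⟩
    · obtain ⟨w⟩ : Nonempty (InfinitePlace K) := inferInstance
      refine ⟨w, ?_⟩
      rw [h0]
      simp
    · by_contra hcon
      push Not at hcon
      have hlt : ‖LM K (fun j => (e j : ℝ))‖ < (B : ℝ) / C := by
        rw [pi_norm_lt_iff]
        · intro w
          rw [← hLM w, Real.norm_eq_abs]
          exact hcon w
        · by_contra hle
          push Not at hle
          obtain ⟨w⟩ : Nonempty (InfinitePlace K) := inferInstance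
          exact absurd (hcon w) (not_lt.2 (hle.trans (abs_nonneg _)))
      have h1 := hanti.le_mul_norm (map_zero (LM K)) (fun j => (e j : ℝ))
      have h2 : (B : ℝ) ≤ ‖(fun j => (e j : ℝ))‖ := by
        have h3 := norm_le_pi_norm (fun j => (e j : ℝ)) j
        refine le_trans ?_ h3
        rw [Real.norm_eq_abs]
        have : ((|e j| : ℤ) : ℝ) = (B : ℝ) := by
          rw [hj]
          simp
        rw [← this]
        push_cast
        exact le_refl _
      have h4 : (B : ℝ) < C * (B / C) := lt_of_le_of_lt (h2.trans h1) (by gcongr)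
      rw [mul_div_cancel₀ _ hCpos.ne'] at h4
      exact lt_irrefl _ h4
  -- one sign gives the other
  have hflip : ∀ (g : InfinitePlace K → ℝ) (w : InfinitePlace K),
      ∑ w, (mult w : ℝ) * g w = 0 → (B : ℝ) / C ≤ g w → ∃ w', g w' ≤ -(c * B) := by
    intro g w hg hw
    by_contra hcon
    push Not at hcon
    have hBC : 0 ≤ (B : ℝ) / C := by positivity
    have hcB : 0 ≤ c * B := by positivity
    have hml : ∀ w' : InfinitePlace K, (1 : ℝ) ≤ mult w' ∧ (mult w' : ℝ) ≤ 2 := by
      intro w'
      constructor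
      · exact_mod_cast mult_pos (w := w')
      · rcases w'.isReal_or_isComplex with h | h
        · rw [mult_isReal ⟨w', h⟩]
          norm_num
        · rw [mult_isComplex ⟨w', h⟩]
          norm_num
    have h1 : ∀ w' ∈ (Finset.univ : Finset (InfinitePlace K)).erase w,
        -(2 * (c * B)) ≤ (mult w' : ℝ) * g w' := by
      intro w' _
      have h2 := (hcon w').le
      have h3 := hml w'
      nlinarith [h3.1, h3.2]
    have h4 : ∑ w' ∈ (Finset.univ : Finset (InfinitePlace K)).erase w, (mult w' : ℝ) * g w' ≥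
        ∑ w' ∈ (Finset.univ : Finset (InfinitePlace K)).erase w, -(2 * (c * B)) :=
      Finset.sum_le_sum h1
    rw [Finset.sum_const, Finset.card_erase_of_mem (Finset.mem_univ w), Finset.card_univ,
      nsmul_eq_mul] at h4
    have h5 := Finset.add_sum_erase Finset.univ (fun w' : InfinitePlace K => (mult w' : ℝ) * g w')
      (Finset.mem_univ w)
    rw [hg] at h5
    have h6 : (B : ℝ) / C ≤ (mult w : ℝ) * g w := by
      have h3 := hml w
      nlinarith [h3.1]
    have h7 : (((Fintype.card (InfinitePlace K) - 1 : ℕ)) : ℝ) = n - 1 := by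
      have : 1 ≤ Fintype.card (InfinitePlace K) := Fintype.card_pos
      rw [Nat.cast_sub this, hn]
      simp
    rw [h7] at h4
    -- `(n - 1) 2 c B < B / C` unless `B = 0`
    have h8 : c * B * (2 * n) ≤ B / C := by
      have h9 : c * (2 * n) ≤ 1 / C := by
        calc c * (2 * n) ≤ 1 / (2 * C * n) * (2 * n) := by gcongr
          _ = 1 / C := by field_simp
      calc c * B * (2 * n) = (c * (2 * n)) * B := by ring
        _ ≤ 1 / C * B := by gcongr
        _ = B / C := by ring
    have h10 : c * B ≤ 0 := by nlinarith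
    have h11 := hcon w
    have h12 : (B : ℝ) = 0 := by
      have : (B : ℝ) ≤ 0 := by
        by_contra h
        push Not at h
        have := mul_pos hcpos h
        linarith
      exact le_antisymm this (by positivity)
    -- now all logarithms are positive, but the sum is zero
    rw [h12, mul_zero, neg_zero] at hcon
    have : 0 < ∑ w, (mult w : ℝ) * g w :=
      Finset.sum_pos (fun w' _ => mul_pos (by have := (hml w').1; linarith) (hcon w')) ⟨w, Finset.mem_univ w⟩
    rw [hg] at this
    exact lt_irrefl _ this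
  obtain ⟨w, hw⟩ := hbig
  set g : InfinitePlace K → ℝ := fun w => Real.log (w ((uu K ζ e : (𝓞 K)ˣ) : K)) with hg
  have hBC : 0 ≤ (B : ℝ) / C := by positivity
  have hcle : c * B ≤ B / C := by
    have h9 : c ≤ 1 / C := by
      refine hc1.trans ?_
      rw [div_le_div_iff₀ (by positivity) hCpos]
      nlinarith
    calc c * B ≤ 1 / C * B := by gcongr
      _ = B / C := by ring
  have hneg : ∑ w, (mult w : ℝ) * (-g w) = 0 := by
    have : ∑ w, (mult w : ℝ) * (-g w) = -∑ w, (mult w : ℝ) * g w := by
      rw [← Finset.sum_neg_distrib]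
      exact Finset.sum_congr rfl fun w _ => by ring
    rw [this, hg, hsum, neg_zero]
  have htwo : (∃ w, g w ≤ -(c * B)) ∧ ∃ w, c * B ≤ g w := by
    rcases abs_cases (g w) with ⟨h1, -⟩ | ⟨h1, -⟩
    · have h2 : (B : ℝ) / C ≤ g w := by rw [← h1]; exact hw
      exact ⟨hflip g w hsum h2, w, hcle.trans h2⟩
    · have h2 : (B : ℝ) / C ≤ -g w := by rw [← h1]; exact hw
      obtain ⟨w', hw'⟩ := hflip (fun w => -g w) w hneg h2
      exact ⟨⟨w, by linarith⟩, w', by simpa using hw'⟩
  refine ⟨?_, ?_, ?_⟩
  · obtain ⟨w1, h1⟩ := htwo.1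
    refine ⟨w1.embedding, ?_⟩
    rw [norm_embedding_eq]
    exact h1
  · obtain ⟨w1, h1⟩ := htwo.2
    refine ⟨w1.embedding, ?_⟩
    rw [norm_embedding_eq]
    exact h1
  · intro σ
    exact hup (InfinitePlace.mk σ)

end Pool.Agent.DKP
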