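import Pool.Agent.DKP.St3

/-!
# The unit equation has finitely many solutions

`t_Unit : StmtULog → StmtNear → StmtUnit` (statement and proof: `Pool/Agent/DKP/St3.lean`).
-/

set_option autoImplicit false

open NumberField Finset

namespace Pool.Agent.DKP.UnitEq

/-- the maximum of the absolute values of an integer vector -/
lemma exists_height {r : ℕ} (e : Fin r → ℤ) :
    ∃ B : ℕ, (∀ j, |e j| ≤ (B : ℤ)) ∧ (B = 0 ∨ ∃ j, |e j| = (B : ℤ)) := by
  refine ⟨Finset.univ.sup fun j => (e j).natAbs, ?_, ?_⟩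
  · intro j
    rw [Int.abs_eq_natAbs]
    exact_mod_cast Finset.le_sup (f := fun j => (e j).natAbs) (Finset.mem_univ j)
  · rcases Finset.eq_empty_or_nonempty (Finset.univ : Finset (Fin r)) with h | h
    · left
      rw [h]
      rfl
    · right
      obtain ⟨j, _, hj⟩ := Finset.exists_mem_eq_sup _ h fun j => (e j).natAbs
      refine ⟨j, ?_⟩
      rw [Int.abs_eq_natAbs, hj]

/-- a unit from its torsion part and its exponents -/
noncomputable def un (K : Type) [Field K] [NumberField K] (p : Units.torsion K × (Fin (Units.rank K) → ℤ)) : (𝓞 K)ˣ :=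
  (p.1 : (𝓞 K)ˣ) * ∏ j, Units.fundSystem K j ^ p.2 j

lemma exists_un (K : Type) [Field K] [NumberField K] (x : (𝓞 K)ˣ) : ∃ p, un K p = x := by
  obtain ⟨⟨ζ, e⟩, h, _⟩ := Units.exist_unique_eq_mul_prod K x
  exact ⟨(ζ, e), h.symm⟩

lemma finite_box (K : Type) [Field K] [NumberField K] (M : ℕ) :
    {x : (𝓞 K)ˣ | ∃ p, un K p = x ∧ ∀ j, |p.2 j| ≤ (M : ℤ)}.Finite := by
  have h1 : (Set.univ : Set (Units.torsion K)).Finite := Set.finite_univ
  have h2 : (Set.Icc (fun _ => -(M : ℤ)) (fun _ => (M : ℤ)) : Set (Fin (Units.rank K) → ℤ)).Finite :=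
    Set.finite_Icc _ _
  refine ((h1.prod h2).image (un K)).subset ?_
  rintro x ⟨p, hp, hj⟩
  refine ⟨p, ⟨Set.mem_univ _, ?_⟩, hp⟩
  rw [Set.mem_Icc]
  exact ⟨fun j => (abs_le.1 (hj j)).1, fun j => (abs_le.1 (hj j)).2⟩

end Pool.Agent.DKP.UnitEq

namespace Pool.Agent.DKP

open UnitEq in
/-- **The unit equation.** -/
theorem t_Unit : StmtULog → StmtNear → StmtUnit := by
  intro hU hN K _ _ a b ha hb
  obtain ⟨c, hc, hc'⟩ := hU K
  classical
  -- constants
  set α : ℝ := ∑ σ : K →+* ℂ, ‖σ a‖ with hα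
  set β : ℝ := ∑ σ : K →+* ℂ, ‖σ b‖⁻¹ with hβ
  have hαle : ∀ σ : K →+* ℂ, ‖σ a‖ ≤ α := fun σ =>
    Finset.single_le_sum (f := fun σ : K →+* ℂ => ‖σ a‖) (fun i _ => norm_nonneg _) (Finset.mem_univ σ)
  have hβle : ∀ σ : K →+* ℂ, ‖σ b‖⁻¹ ≤ β := fun σ =>
    Finset.single_le_sum (f := fun σ : K →+* ℂ => ‖σ b‖⁻¹) (fun i _ => by positivity)
      (Finset.mem_univ σ)
  obtain ⟨σ₀⟩ : Nonempty (K →+* ℂ) := inferInstance
  have hα0 : 0 < α := lt_of_lt_of_le (by simpa using ha) (hαle σ₀)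
  have hβ0 : 0 < β := lt_of_lt_of_le (by simpa using hb) (hβle σ₀)
  set C1 : ℝ := β * (1 + α) with hC1
  have hC10 : 0 < C1 := by positivity
  set C : ℝ := α * Real.exp (c ^ 2 * Real.log C1) with hC
  have hC0 : 0 < C := by positivity
  have hκ : 0 < c ^ 3 := by positivity
  choose B₀ hB₀ using fun σ : K →+* ℂ => hN K σ b C (c ^ 3) hb hC0 hκ
  set M : ℕ := ∑ σ : K →+* ℂ, B₀ σ with hM
  have hMle : ∀ σ : K →+* ℂ, B₀ σ ≤ M := fun σ =>
    Finset.single_le_sum (f := B₀) (fun i _ => Nat.zero_le _) (Finset.mem_univ σ)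
  refine Set.Finite.of_finite_image (f := Prod.snd) ((finite_box K M).subset ?_) ?_
  · rintro _ ⟨⟨u, v⟩, huv, rfl⟩
    simp only [Set.mem_ofPred_eq] at huv ⊢
    obtain ⟨⟨ζu, eu⟩, hu⟩ := exists_un K u
    obtain ⟨⟨ζv, ev⟩, hv⟩ := exists_un K v
    refine ⟨(ζv, ev), hv, ?_⟩
    obtain ⟨Bu, hBu1, hBu2⟩ := exists_height eu
    obtain ⟨Bv, hBv1, hBv2⟩ := exists_height ev
    have hBv : Bv ≤ M := by
      rcases hBv2 with h0 | hj
      · omega
      · obtain ⟨⟨σ1, h1⟩, _, h1'⟩ := hc' ζu eu Bu hBu1 hBu2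
        obtain ⟨_, ⟨σ2, h2⟩, _⟩ := hc' ζv ev Bv hBv1 (Or.inr hj)
        simp only [un] at hu hv
        rw [hu] at h1 h1'
        rw [hv] at h2
        have hu0 : ∀ σ : K →+* ℂ, 0 < ‖σ (u : K)‖ := fun σ => by simp
        have hv0 : ∀ σ : K →+* ℂ, 0 < ‖σ (v : K)‖ := fun σ => by simp
        -- bound for `v`
        have e2 : σ2 b * σ2 (v : K) = 1 - σ2 a * σ2 (u : K) := by
          rw [← map_mul, ← map_mul, ← map_one σ2, ← map_sub]
          congr 1
          linear_combination huv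
        have n2 : ‖σ2 (v : K)‖ ≤ C1 * Real.exp (c⁻¹ * Bu) := by
          have hb2 : 0 < ‖σ2 b‖ := by simpa using hb
          have h3 : ‖σ2 b‖ * ‖σ2 (v : K)‖ ≤ 1 + ‖σ2 a‖ * ‖σ2 (u : K)‖ := by
            rw [← norm_mul, e2, ← norm_mul]
            simpa using norm_sub_le (1 : ℂ) (σ2 a * σ2 (u : K))
          have h4 : ‖σ2 (u : K)‖ ≤ Real.exp (c⁻¹ * Bu) := by
            rw [← Real.log_le_iff_le_exp (hu0 σ2)]
            exact (le_abs_self _).trans (h1' σ2)
          have h5 : (1 : ℝ) ≤ Real.exp (c⁻¹ * Bu) := Real.one_le_exp (by positivity)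
          have h6 : 1 + ‖σ2 a‖ * ‖σ2 (u : K)‖ ≤ (1 + α) * Real.exp (c⁻¹ * Bu) := by
            have := mul_le_mul (hαle σ2) h4 (norm_nonneg _) hα0.le
            nlinarith
          calc ‖σ2 (v : K)‖ = ‖σ2 b‖⁻¹ * (‖σ2 b‖ * ‖σ2 (v : K)‖) := by
                field_simp
            _ ≤ β * ((1 + α) * Real.exp (c⁻¹ * Bu)) :=
                mul_le_mul (hβle σ2) (h3.trans h6) (by positivity) hβ0.le
            _ = C1 * Real.exp (c⁻¹ * Bu) := by rw [hC1]; ring
        have h7 : c * Bv ≤ Real.log C1 + c⁻¹ * Bu := by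
          refine h2.trans ?_
          refine (Real.log_le_log (hv0 σ2) n2).trans ?_
          rw [Real.log_mul hC10.ne' (Real.exp_pos _).ne', Real.log_exp]
        have h8 : c ^ 3 * Bv - c ^ 2 * Real.log C1 ≤ c * Bu := by
          have h9 := mul_le_mul_of_nonneg_left h7 (sq_nonneg c)
          have h10 : c ^ 2 * (Real.log C1 + c⁻¹ * Bu) = c ^ 2 * Real.log C1 + c * Bu := by
            field_simp
          rw [h10] at h9
          nlinarith [h9]
        -- the near place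
        refine (hB₀ σ1 ζv ev Bv hBv1 hj ?_).trans (hMle σ1)
        rw [hv]
        have e1 : σ1 (b * (v : K)) - 1 = - (σ1 a * σ1 (u : K)) := by
          rw [← map_mul, ← map_one σ1, ← map_sub, ← map_neg]
          congr 1
          linear_combination huv
        rw [e1, norm_neg, norm_mul]
        have h11 : ‖σ1 (u : K)‖ ≤ Real.exp (-(c * Bu)) := by
          rw [← Real.log_le_iff_le_exp (hu0 σ1)]
          exact h1
        calc ‖σ1 a‖ * ‖σ1 (u : K)‖ ≤ α * Real.exp (-(c * Bu)) :=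
              mul_le_mul (hαle σ1) h11 (norm_nonneg _) hα0.le
          _ ≤ α * (Real.exp (c ^ 2 * Real.log C1) * Real.exp (-(c ^ 3 * Bv))) := by
              refine mul_le_mul_of_nonneg_left ?_ hα0.le
              rw [← Real.exp_add]
              exact Real.exp_le_exp.2 (by linarith)
          _ = C * Real.exp (-(c ^ 3 * Bv)) := by rw [hC]; ring
    intro j
    exact (hBv1 j).trans (by exact_mod_cast hBv)
  · rintro ⟨u, v⟩ h ⟨u', v'⟩ h' (hvv : v = v')
    subst hvv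
    simp only [Set.mem_ofPred_eq] at h h'
    have h3 : a * (u : K) = a * (u' : K) := by linear_combination h - h'
    have h4 : (u : K) = (u' : K) := mul_left_cancel₀ ha h3
    have h5 : u = u' := by
      apply Units.ext
      exact_mod_cast h4
    rw [h5]

end Pool.Agent.DKP
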