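import Pool.Agent.DKP.St3
import Pool.Agent.DKP.Up

/-! # Module UpC: the analytic upper bound, complex version -/

set_option autoImplicit false

open Finset

namespace Pool.Agent.DKP

namespace UpCAux

variable {K L : ℕ}

/-- `(z/X)^k exp(l c z)` -/
noncomputable def ff (c : ℂ) (X : ℝ) (φ : Fin K × Fin L) (z : ℂ) : ℂ :=
  (z / (X : ℂ)) ^ (φ.1 : ℕ) * Complex.exp (((φ.2 : ℕ) : ℂ) * c * z)

lemma ff_diff (c : ℂ) (X : ℝ) (φ : Fin K × Fin L) : Differentiable ℂ (ff c X φ) := by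
  unfold ff
  fun_prop

lemma ff_bound {c : ℂ} {X : ℝ} (hX : 0 < X) (φ : Fin K × Fin L) {z : ℂ} (hz : ‖z‖ ≤ 16 * X) :
    ‖ff c X φ z‖ ≤ 16 ^ K * Real.exp (16 * (L * ‖c‖ * X)) := by
  unfold ff
  rw [norm_mul, norm_pow, Complex.norm_exp]
  have h1 : ‖z / (X : ℂ)‖ ≤ 16 := by
    rw [norm_div, Complex.norm_real, Real.norm_eq_abs, abs_of_pos hX, div_le_iff₀ hX]
    exact hz
  have h2 : ‖z / (X : ℂ)‖ ^ (φ.1 : ℕ) ≤ 16 ^ K :=
    (pow_le_pow_left₀ (norm_nonneg _) h1 _).trans
      (pow_le_pow_right₀ (by norm_num) φ.1.2.le)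
  have h3 : (((φ.2 : ℕ) : ℂ) * c * z).re ≤ 16 * (L * ‖c‖ * X) := by
    calc (((φ.2 : ℕ) : ℂ) * c * z).re ≤ ‖((φ.2 : ℕ) : ℂ) * c * z‖ :=
          Complex.re_le_norm _
      _ = (φ.2 : ℕ) * ‖c‖ * ‖z‖ := by
          rw [norm_mul, norm_mul, Complex.norm_natCast]
      _ ≤ (L : ℝ) * ‖c‖ * (16 * X) := by
          have h4 : ((φ.2 : ℕ) : ℝ) ≤ (L : ℝ) := by exact_mod_cast φ.2.2.le
          exact mul_le_mul (mul_le_mul_of_nonneg_right h4 (norm_nonneg c)) hz
            (norm_nonneg _) (by positivity)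
      _ = 16 * (L * ‖c‖ * X) := by ring
  exact mul_le_mul h2 (Real.exp_le_exp.2 h3) (Real.exp_pos _).le (by positivity)

/-- One term of the expansion. -/
lemma term (hI : StmtInterp) {c : ℂ} {X δ : ℝ} (hX : 0 < X) (hδ : 0 ≤ δ)
    (s : Finset (Fin K × Fin L)) (x : Fin K × Fin L → ℝ) (hinj : Function.Injective x)
    (hx : ∀ j, |x j| ≤ X) (Q : Fin K × Fin L → Fin K × Fin L → ℂ)
    (hQ : ∀ j φ, ‖Q j φ‖ ≤ δ * (16 ^ K * Real.exp (16 * (L * ‖c‖ * X)))) :
    ‖Matrix.det (s.piecewise (fun j φ => ff c X φ (x j)) Q :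
      Matrix (Fin K × Fin L) (Fin K × Fin L) ℂ)‖ ≤
      ((K * L).factorial : ℝ) * (16 ^ K * Real.exp (16 * (L * ‖c‖ * X))) ^ (K * L) *
        (16 / 15) ^ s.card * (2 / 15) ^ (s.card * (s.card - 1) / 2) * δ ^ (K * L - s.card) := by
  classical
  set M : ℝ := 16 ^ K * Real.exp (16 * (L * ‖c‖ * X)) with hM
  have hM0 : 0 ≤ M := by positivity
  set A : Matrix (Fin K × Fin L) (Fin K × Fin L) ℂ :=
    s.piecewise (fun j φ => ff c X φ (x j)) Q with hA
  set e : Fin s.card ⊕ {j : Fin K × Fin L // ¬ j ∈ s} ≃ Fin K × Fin L :=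
    (Equiv.sumCongr s.equivFin.symm (Equiv.refl _)).trans (Equiv.sumCompl (fun j => j ∈ s))
    with he
  have he1 : ∀ i, e (Sum.inl i) ∈ s := by
    intro i
    rw [he]
    exact (s.equivFin.symm i).2
  have he2 : ∀ b, e (Sum.inr b) ∉ s := by
    intro b
    rw [he]
    exact b.2
  have hcard : Fintype.card (Fin s.card ⊕ {j : Fin K × Fin L // ¬ j ∈ s}) = K * L := by
    rw [Fintype.card_congr e, Fintype.card_prod, Fintype.card_fin, Fintype.card_fin]
  have hcardβ : Fintype.card {j : Fin K × Fin L // ¬ j ∈ s} = K * L - s.card := by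
    rw [Fintype.card_sum, Fintype.card_fin] at hcard
    omega
  have h := hI s.card {j : Fin K × Fin L // ¬ j ∈ s} (fun φ => ff c X (e φ)) 0 (16 * X) X δ
    (fun _ => M) (fun i => ((x (e (Sum.inl i)) : ℝ) : ℂ)) (A.submatrix e e) hX (by linarith) hδ
    (fun _ => hM0) (fun φ => (ff_diff c X (e φ)).diffContOnCl) (fun φ z hz => by
      refine ff_bound hX (e φ) ?_
      rw [mem_sphere_zero_iff_norm] at hz
      exact hz.le) (by
      intro i j hij
      have h1 : x (e (Sum.inl i)) = x (e (Sum.inl j)) := Complex.ofReal_injective hij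
      have h2 := e.injective (hinj h1)
      exact Sum.inl_injective h2) (by
      intro i
      rw [dist_zero_right, Complex.norm_real, Real.norm_eq_abs]
      exact hx _) (by
      intro i φ
      rw [Matrix.submatrix_apply, hA]
      have := he1 i
      rw [Finset.piecewise_eq_of_mem _ _ _ this]) (by
      intro b φ
      rw [Matrix.submatrix_apply, hA]
      have := he2 b
      rw [Finset.piecewise_eq_of_notMem _ _ _ this]
      exact hQ _ _)
  rw [Matrix.det_submatrix_equiv_self, hcard, hcardβ, Finset.prod_const, Finset.card_univ,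
    hcard] at h
  have h1 : 16 * X / (16 * X - X) = 16 / 15 := by
    have : 16 * X - X = 15 * X := by ring
    rw [this]
    field_simp
  have h2 : 2 * X / (16 * X - X) = 2 / 15 := by
    have : 16 * X - X = 15 * X := by ring
    rw [this]
    field_simp
  rw [h1, h2] at h
  exact h

end UpCAux

open UpCAux in
theorem t_UpC : StmtInterp → StmtUpC := by
  intro hI K L R S q c c' X rr ss hK hL hX hrs hSq hdist hqRS hΛ
  classical
  set Λ : ℂ := (q : ℂ) * c + c' with hΛdef
  set x : Fin K × Fin L → ℝ := fun j => (ss j : ℝ) - q * rr j with hx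
  set M : ℝ := 16 ^ K * Real.exp (16 * (L * ‖c‖ * X)) with hM
  have hM0 : 0 < M := by positivity
  set δ : ℝ := Real.exp (-(2 * (K * L : ℕ))) with hδ
  have hδ0 : 0 < δ := Real.exp_pos _
  have hδ1 : δ ≤ 1 := by
    rw [hδ, Real.exp_le_one_iff]
    have : (0 : ℝ) ≤ ((K * L : ℕ) : ℝ) := Nat.cast_nonneg _
    linarith
  have hR1 : ∀ j, (rr j : ℝ) ≤ R := fun j => by exact_mod_cast (hrs j).1.le
  have hS1 : ∀ j, (ss j : ℝ) ≤ S := fun j => by exact_mod_cast (hrs j).2.le
  have hxX : ∀ j, |x j| ≤ X := by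
    intro j
    have h1 : (0 : ℝ) ≤ ss j := Nat.cast_nonneg _
    have h2 : (0 : ℝ) ≤ (q : ℝ) * rr j := by positivity
    have h3 : (q : ℝ) * rr j ≤ q * R := mul_le_mul_of_nonneg_left (hR1 j) (Nat.cast_nonneg _)
    have h4 := hS1 j
    have h5 : (0 : ℝ) ≤ (q : ℝ) * R := by positivity
    have h6 : (0 : ℝ) ≤ S := Nat.cast_nonneg _
    rw [abs_le]
    constructor <;> simp only [hx] <;> linarith
  have hinj : Function.Injective x := by
    intro i j hij
    have h1 : (ss i : ℤ) - q * rr i = (ss j : ℤ) - q * rr j := by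
      have : (ss i : ℝ) - q * rr i = (ss j : ℝ) - q * rr j := hij
      exact_mod_cast this
    have hi := (hrs i).2
    have hj := (hrs j).2
    have hq : 0 < q := by omega
    have h2 : (ss i : ℤ) % q = (ss j : ℤ) % q := by
      have h3 : (ss i : ℤ) = (ss j : ℤ) + q * ((rr i : ℤ) - rr j) := by linarith
      rw [h3, Int.add_mul_emod_self_left]
    have h3 : (ss i : ℤ) % q = ss i :=
      Int.emod_eq_of_lt (by positivity) (by exact_mod_cast lt_of_lt_of_le hi hSq)
    have h4 : (ss j : ℤ) % q = ss j :=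
      Int.emod_eq_of_lt (by positivity) (by exact_mod_cast lt_of_lt_of_le hj hSq)
    rw [h3, h4] at h2
    have h5 : ss i = ss j := by exact_mod_cast h2
    have h6 : (q : ℤ) * rr i = q * rr j := by
      rw [h2] at h1
      linarith
    have h7 : (rr i : ℤ) = rr j :=
      mul_left_cancel₀ (by exact_mod_cast hq.ne') h6
    exact hdist i j (by exact_mod_cast h7) h5
  -- the two parts
  set P : Fin K × Fin L → Fin K × Fin L → ℂ := fun j φ => ff c X φ ((x j : ℝ) : ℂ) with hP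
  set Q : Fin K × Fin L → Fin K × Fin L → ℂ := fun j φ =>
    P j φ * (Complex.exp (((φ.2 : ℕ) : ℂ) * (rr j : ℂ) * Λ) - 1) with hQ
  have hentry : ∀ j φ, EMC K L q X (Complex.exp c) (Complex.exp c') rr ss j φ =
      P j φ + Q j φ := by
    intro j φ
    have hxc : ((x j : ℝ) : ℂ) = (ss j : ℂ) - q * rr j := by
      simp only [hx]
      push_cast
      ring
    have h1 : Complex.exp c ^ ss j * Complex.exp c' ^ rr j =
        Complex.exp (c * (x j : ℝ) + rr j * Λ) := by
      have h2 : c * (x j : ℝ) + rr j * Λ = ss j * c + rr j * c' := by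
        rw [hxc, hΛdef]
        ring
      rw [h2, Complex.exp_add, Complex.exp_nat_mul, Complex.exp_nat_mul]
    have h3 : EMC K L q X (Complex.exp c) (Complex.exp c') rr ss j φ =
        (((x j : ℝ) : ℂ) / X) ^ (φ.1 : ℕ) *
        (Complex.exp (((φ.2 : ℕ) : ℂ) * c * (x j : ℝ)) *
          Complex.exp (((φ.2 : ℕ) : ℂ) * (rr j : ℂ) * Λ)) := by
      unfold EMC
      rw [Matrix.of_apply, h1, ← Complex.exp_nat_mul, ← Complex.exp_add, hxc]
      congr 2
      ring
    rw [h3]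
    simp only [hQ, hP, ff]
    ring
  have hPb : ∀ j φ, ‖P j φ‖ ≤ M := by
    intro j φ
    refine ff_bound hX φ ?_
    rw [Complex.norm_real, Real.norm_eq_abs]
    have := hxX j
    linarith
  have hQb : ∀ j φ, ‖Q j φ‖ ≤ δ * M := by
    intro j φ
    have h1 : ‖((φ.2 : ℕ) : ℂ) * (rr j : ℂ) * Λ‖ ≤ (L : ℝ) * R * ‖Λ‖ := by
      rw [norm_mul, norm_mul, Complex.norm_natCast, Complex.norm_natCast]
      have h4 : ((φ.2 : ℕ) : ℝ) ≤ (L : ℝ) := by exact_mod_cast φ.2.2.le
      exact mul_le_mul_of_nonneg_right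
        (mul_le_mul h4 (hR1 j) (Nat.cast_nonneg _) (Nat.cast_nonneg _)) (norm_nonneg _)
    have h2 : 2 * ((L : ℝ) * R * ‖Λ‖) ≤ δ := by
      calc 2 * ((L : ℝ) * R * ‖Λ‖) = 2 * (L : ℝ) * R * ‖Λ‖ := by ring
        _ ≤ δ := hΛ
    have h3 : ‖((φ.2 : ℕ) : ℂ) * (rr j : ℂ) * Λ‖ ≤ 1 := by linarith
    have h4 : ‖Complex.exp (((φ.2 : ℕ) : ℂ) * (rr j : ℂ) * Λ) - 1‖ ≤ δ := by
      have h6 := Complex.norm_exp_sub_one_le h3
      linarith
    simp only [hQ]
    rw [norm_mul, mul_comm]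
    exact mul_le_mul h4 (hPb j φ) (norm_nonneg _) hδ0.le
  -- expansion
  have hdet : Matrix.det (EMC K L q X (Complex.exp c) (Complex.exp c') rr ss) =
      ∑ s : Finset (Fin K × Fin L), Matrix.det (s.piecewise P Q :
        Matrix (Fin K × Fin L) (Fin K × Fin L) ℂ) := by
    have h2 : (EMC K L q X (Complex.exp c) (Complex.exp c') rr ss :
        Matrix (Fin K × Fin L) (Fin K × Fin L) ℂ) = (P + Q : _ → _ → ℂ) := by
      ext j φ
      exact hentry j φ
    rw [h2]
    have h3 := MultilinearMap.map_add_univ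
      ((Matrix.detRowAlternating (n := Fin K × Fin L) (R := ℂ)).toMultilinearMap) P Q
    exact h3
  have hterm : ∀ s : Finset (Fin K × Fin L), ‖Matrix.det (s.piecewise P Q :
      Matrix (Fin K × Fin L) (Fin K × Fin L) ℂ)‖ ≤
      ((K * L).factorial : ℝ) * (16 ^ (K + 1) * Real.exp (16 * (L * ‖c‖ * X))) ^ (K * L) *
        Real.exp (-((K * L : ℕ) * ((K * L : ℕ) - 1 : ℝ))) := by
    intro s
    have hs : s.card ≤ K * L := by
      have := Finset.card_le_univ s
      rwa [Fintype.card_prod, Fintype.card_fin, Fintype.card_fin] at this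
    refine (term hI hX hδ0.le s x hinj hxX Q hQb).trans ?_
    have h1 := UpAux.num hs
    have h2 : (16 ^ (K + 1) * Real.exp (16 * (L * ‖c‖ * X))) ^ (K * L) =
        M ^ (K * L) * 16 ^ (K * L) := by
      rw [← mul_pow]
      congr 1
      rw [hM]
      ring
    rw [h2]
    calc ((K * L).factorial : ℝ) * M ^ (K * L) * (16 / 15) ^ s.card *
          (2 / 15) ^ (s.card * (s.card - 1) / 2) * δ ^ (K * L - s.card)
        = ((K * L).factorial : ℝ) * M ^ (K * L) * ((16 / 15) ^ s.card *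
          (2 / 15) ^ (s.card * (s.card - 1) / 2) * δ ^ (K * L - s.card)) := by ring
      _ ≤ ((K * L).factorial : ℝ) * M ^ (K * L) * (16 ^ (K * L) *
          Real.exp (-(((K * L : ℕ) : ℝ) * (((K * L : ℕ) : ℝ) - 1)))) :=
          mul_le_mul_of_nonneg_left h1 (by positivity)
      _ = _ := by ring
  have hfin : ‖(EMC K L q X (Complex.exp c) (Complex.exp c') rr ss).det‖ ≤
      ∑ _s : Finset (Fin K × Fin L),
      ((K * L).factorial : ℝ) * (16 ^ (K + 1) * Real.exp (16 * (L * ‖c‖ * X))) ^ (K * L) *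
        Real.exp (-((K * L : ℕ) * ((K * L : ℕ) - 1 : ℝ))) := by
    rw [hdet]
    exact norm_sum_le_of_le _ fun s _ => hterm s
  rw [Finset.sum_const, Finset.card_univ, Fintype.card_finset, Fintype.card_prod,
    Fintype.card_fin, Fintype.card_fin, nsmul_eq_mul] at hfin
  refine hfin.trans (le_of_eq ?_)
  push_cast
  ring

end Pool.Agent.DKP
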