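import Pool.Agent.DKP.All
import Pool.Agent.DKP.ZeroC
import Pool.Agent.DKP.UpC
import Pool.Agent.DKP.LioC
import Pool.Agent.DKP.TLC
import Pool.Agent.DKP.ULog
import Pool.Agent.DKP.Dir
import Pool.Agent.DKP.Near
import Pool.Agent.DKP.Unit
import Pool.Agent.DKP.Fld3
import Pool.Agent.DKP.Siegel
import Pool.Agent.DKP.Mult
import Pool.Agent.DKP.SmallM
import Pool.Agent.DKP.Fin4

/-!
# Two logarithms, the unit equation, Siegel's theorem for `y² = F(x)`; irregular extensions are superpolynomial
-/

set_option autoImplicit false

namespace Pool.Agent.DKP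

theorem TLC_holds : StmtTLC := t_TLC t_ZeroC (t_UpC interp_holds) t_LioC

theorem near_holds : StmtNear := t_Near TLC_holds t_ULog t_Dir

/-- the unit equation `a u + b v = 1` has finitely many solutions in units, in every number field -/
theorem unit_holds : StmtUnit := t_Unit t_ULog near_holds

/-- Siegel's theorem for `y² = F(x)` with three roots of odd multiplicity -/
theorem siegel_holds : StmtSiegel := t_Siegel (t_Fld3 t_Sel t_Par) unit_holds

theorem final_F_holds : FinalF := final_F t_Class siegel_holds t_Mult t_SmallM

end Pool.Agent.DKP
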