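import Pool.Agent.DKP.St

/-!
# MP_a79b85_nt: power saving, final assembly
-/

set_option autoImplicit false

open Finset

namespace Pool.Agent.DKP

namespace FinN

/-- sum over dyadic blocks -/
theorem dyadic (P : ℕ → Prop) (C0 β : ℝ) (hC : 0 < C0) (hβ : 0 < β)
    (h : ∀ (Z : ℕ) (T : Finset ℕ), 1 ≤ Z →
      (∀ k ∈ T, Z ≤ 2 * k + 1 ∧ 2 * k + 1 < 2 * Z ∧ 1 ≤ k ∧ P k) →
      (T.card : ℝ) ≤ C0 * (Z : ℝ) ^ β) :
    ∃ C : ℝ, 0 < C ∧ ∀ X : ℕ, 1 ≤ X →
      ({k : ℕ | 1 ≤ k ∧ k ≤ X ∧ P k}.ncard : ℝ) ≤ C * (X : ℝ) ^ β := by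
  classical
  set x : ℝ := (2 : ℝ) ^ β with hx
  have hx1 : 1 < x := Real.one_lt_rpow (by norm_num) hβ
  refine ⟨C0 * (6 : ℝ) ^ β / (x - 1), by
    have : (0 : ℝ) < (6 : ℝ) ^ β := Real.rpow_pos_of_pos (by norm_num) _
    have h2 : 0 < x - 1 := by linarith
    positivity, fun X hX => ?_⟩
  set I : ℕ := Nat.log 2 (2 * X + 1) + 1 with hI
  have hset : {k : ℕ | 1 ≤ k ∧ k ≤ X ∧ P k} = ((Icc 1 X).filter P : Finset ℕ) := by
    ext k
    simp only [Set.mem_setOf_eq, coe_filter, mem_Icc, and_assoc]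
  rw [hset, Set.ncard_coe_finset]
  have hsub : (Icc 1 X).filter P ⊆
      (range I).biUnion (fun i => ((Icc 1 X).filter P).filter
        (fun k => 2 ^ i ≤ 2 * k + 1 ∧ 2 * k + 1 < 2 * 2 ^ i)) := by
    intro k hk
    rw [mem_biUnion]
    have hk' := mem_filter.1 hk
    have hkX := (mem_Icc.1 hk'.1).2
    refine ⟨Nat.log 2 (2 * k + 1), ?_, ?_⟩
    · rw [mem_range, hI]
      have := Nat.log_mono_right (b := 2) (show 2 * k + 1 ≤ 2 * X + 1 by omega)
      omega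
    · rw [mem_filter]
      refine ⟨hk, Nat.pow_log_le_self 2 (by omega), ?_⟩
      have h1 := Nat.lt_pow_succ_log_self (b := 2) (by norm_num) (2 * k + 1)
      rw [pow_succ] at h1
      omega
  have h1 : (((Icc 1 X).filter P).card : ℝ) ≤ ∑ i ∈ range I, C0 * x ^ i := by
    have h2 := (card_le_card hsub).trans card_biUnion_le
    have h3 : (((Icc 1 X).filter P).card : ℝ) ≤
        ((∑ i ∈ range I, (((Icc 1 X).filter P).filter
          (fun k => 2 ^ i ≤ 2 * k + 1 ∧ 2 * k + 1 < 2 * 2 ^ i)).card : ℕ) : ℝ) := by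
      exact_mod_cast h2
    refine h3.trans ?_
    rw [Nat.cast_sum]
    refine sum_le_sum fun i _ => ?_
    have h4 := h (2 ^ i) (((Icc 1 X).filter P).filter
      (fun k => 2 ^ i ≤ 2 * k + 1 ∧ 2 * k + 1 < 2 * 2 ^ i)) Nat.one_le_two_pow (by
        intro k hk
        have hk1 := mem_filter.1 hk
        have hk2 := mem_filter.1 hk1.1
        exact ⟨hk1.2.1, hk1.2.2, (mem_Icc.1 hk2.1).1, hk2.2⟩)
    refine h4.trans (le_of_eq ?_)
    rw [hx, Nat.cast_pow, Nat.cast_ofNat, ← Real.rpow_natCast, ← Real.rpow_mul (by norm_num),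
      mul_comm (i : ℝ) β, Real.rpow_mul (by norm_num), Real.rpow_natCast]
  refine h1.trans ?_
  rw [← mul_sum, geom_sum_eq hx1.ne']
  have h5 : x ^ I ≤ (6 : ℝ) ^ β * (X : ℝ) ^ β := by
    have h6 : (2 : ℝ) ^ I ≤ 6 * X := by
      have h7 := Nat.pow_log_le_self 2 (show 2 * X + 1 ≠ 0 by omega)
      have h8 : 2 ^ I ≤ 6 * X := by
        rw [hI, pow_succ]
        omega
      exact_mod_cast h8
    rw [← Real.mul_rpow (by norm_num) (by positivity), hx, ← Real.rpow_natCast,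
      ← Real.rpow_mul (by norm_num), mul_comm β, Real.rpow_mul (by norm_num), Real.rpow_natCast]
    exact Real.rpow_le_rpow (by positivity) h6 hβ.le
  have hx2 : 0 < x - 1 := by linarith
  rw [div_eq_mul_inv, div_eq_mul_inv]
  have h9 : x ^ I - 1 ≤ (6 : ℝ) ^ β * (X : ℝ) ^ β := by linarith
  calc C0 * ((x ^ I - 1) * (x - 1)⁻¹)
      ≤ C0 * (((6 : ℝ) ^ β * (X : ℝ) ^ β) * (x - 1)⁻¹) := by
        refine mul_le_mul_of_nonneg_left ?_ hC.le
        exact mul_le_mul_of_nonneg_right h9 (inv_nonneg.2 hx2.le)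
    _ = _ := by ring

end FinN

/-- almost all `k` have no extension at all, with a power saving -/
def FinalA : Prop :=
  ∀ ε : ℝ, 0 < ε → ∃ C : ℝ, 0 < C ∧ ∀ X : ℕ, 1 ≤ X →
    ({k : ℕ | 1 ≤ k ∧ k ≤ X ∧ ∃ d : ℤ, Extends k d}.ncard : ℝ) ≤ C * (X : ℝ) ^ (1 / 4 + ε)

/-- large extensions are still rarer -/
def FinalB : Prop :=
  ∀ (M : ℕ) (ε : ℝ), 2 ≤ M → 0 < ε → ∃ C : ℝ, 0 < C ∧ ∀ X : ℕ, 1 ≤ X →
    ({k : ℕ | 1 ≤ k ∧ k ≤ X ∧ ∃ d : ℤ, (k : ℤ) ^ (2 * M) ≤ d ∧ Extends k d}.ncard : ℝ) ≤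
      C * (X : ℝ) ^ (1 / (2 * (M : ℝ)) + ε)

theorem final_A (hC : StmtClass) (hB : StmtBlock) (hF : StmtFew) : FinalA := by
  classical
  intro ε hε
  obtain ⟨C, hC0, hT⟩ := hB 2 ε le_rfl hε
  have hexp : (1 : ℝ) / (2 * ((2 : ℕ) : ℝ)) + ε = 1 / 4 + ε := by norm_num
  rw [hexp] at hT
  refine FinN.dyadic _ (5 + C) (1 / 4 + ε) (by linarith) (by linarith) fun Z T hZ h => ?_
  set T1 := T.filter Deg
  set T2 := T.filter (fun k => IsSquare (7 * k ^ 2 + 4 * k + 1))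
  set T3 := T.filter (fun k => ¬ Deg k ∧ ∃ (s : ℤ) (m x : ℕ), Sol k s m x ∧ 2 ≤ m)
  have hsub : T ⊆ T1 ∪ (T2 ∪ T3) := by
    intro k hk
    obtain ⟨-, -, hk1, d, hd⟩ := h k hk
    rw [mem_union, mem_union]
    by_cases h1 : Deg k
    · exact Or.inl (mem_filter.2 ⟨hk, h1⟩)
    · right
      by_cases h2 : d = 8 * (k : ℤ) ^ 2 + 4 * k + 1
      · left
        refine mem_filter.2 ⟨hk, ?_⟩
        have h3 := hd.2.2.2.2.1
        rw [h2] at h3
        obtain ⟨r, hr⟩ := h3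
        refine ⟨r.natAbs, ?_⟩
        have h4 : ((7 * k ^ 2 + 4 * k + 1 : ℕ) : ℤ) = ((r.natAbs * r.natAbs : ℕ) : ℤ) := by
          rw [Int.natCast_mul, Int.natAbs_mul_self', ← hr]
          push_cast
          ring
        exact_mod_cast h4
      · right
        obtain ⟨s, m, x, hs, -⟩ := hC k d hk1 hd h2
        exact mem_filter.2 ⟨hk, h1, s, m, x, hs, hs.hm⟩
  have hc1 : T1.card ≤ 2 := hF.1 Z T1 fun k hk => by
    have h1 := mem_filter.1 hk
    exact ⟨(h k h1.1).1, (h k h1.1).2.1, h1.2⟩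
  have hc2 : T2.card ≤ 3 := hF.2 Z T2 fun k hk => by
    have h1 := mem_filter.1 hk
    exact ⟨(h k h1.1).1, (h k h1.1).2.1, (h k h1.1).2.2.1, h1.2⟩
  have hc3 : (T3.card : ℝ) ≤ C * (Z : ℝ) ^ (1 / 4 + ε) := hT Z T3 hZ fun k hk => by
    have h1 := mem_filter.1 hk
    exact ⟨(h k h1.1).1, (h k h1.1).2.1, h1.2.1, h1.2.2⟩
  have hcard : T.card ≤ T1.card + (T2.card + T3.card) :=
    (card_le_card hsub).trans ((card_union_le _ _).trans
      (Nat.add_le_add_left (card_union_le _ _) _))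
  have hcard' : (T.card : ℝ) ≤ T1.card + (T2.card + T3.card) := by exact_mod_cast hcard
  have h1' : (T1.card : ℝ) ≤ 2 := by exact_mod_cast hc1
  have h2' : (T2.card : ℝ) ≤ 3 := by exact_mod_cast hc2
  have hZ1 : (1 : ℝ) ≤ (Z : ℝ) ^ (1 / 4 + ε) :=
    Real.one_le_rpow (by exact_mod_cast hZ) (by linarith)
  nlinarith

theorem final_B (hC : StmtClass) (hB : StmtBlock) (hF : StmtFew) (hS : StmtSmall) : FinalB := by
  classical
  intro M ε hM hε
  obtain ⟨C, hC0, hT⟩ := hB M ε hM hε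
  have hMr : (0 : ℝ) < M := by exact_mod_cast (by omega : 0 < M)
  have hβ : 0 < 1 / (2 * (M : ℝ)) + ε := by positivity
  refine FinN.dyadic _ ((7 ^ M + 1 : ℕ) + 2 + C) (1 / (2 * (M : ℝ)) + ε) (by positivity) hβ
    fun Z T hZ h => ?_
  set T1 := T.filter Deg
  set T2 := T.filter (fun k => k ≤ 7 ^ M)
  set T3 := T.filter (fun k => ¬ Deg k ∧ ∃ (s : ℤ) (m x : ℕ), Sol k s m x ∧ M ≤ m)
  have hsub : T ⊆ T1 ∪ (T2 ∪ T3) := by
    intro k hk
    obtain ⟨-, -, hk1, d, hdM, hd⟩ := h k hk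
    rw [mem_union, mem_union]
    by_cases h1 : Deg k
    · exact Or.inl (mem_filter.2 ⟨hk, h1⟩)
    · right
      by_cases h2 : k ≤ 7 ^ M
      · left
        exact mem_filter.2 ⟨hk, h2⟩
      · right
        push Not at h2
        have h49 : 49 < k := by
          calc 49 = 7 ^ 2 := by norm_num
            _ ≤ 7 ^ M := Nat.pow_le_pow_right (by norm_num) hM
            _ < k := h2
        have hk49 : (49 : ℤ) < k := by exact_mod_cast h49
        have hd8 : d ≠ 8 * (k : ℤ) ^ 2 + 4 * k + 1 := by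
          intro h3
          have h4 : (k : ℤ) ^ 4 ≤ (k : ℤ) ^ (2 * M) :=
            pow_le_pow_right₀ (by linarith) (by omega)
          have h5 : (k : ℤ) ^ 4 ≤ 8 * (k : ℤ) ^ 2 + 4 * k + 1 := by
            rw [← h3]; exact h4.trans hdM
          have h6 : (49 : ℤ) * 49 * (k : ℤ) ^ 2 ≤ (k : ℤ) ^ 4 := by
            have : (49 : ℤ) * 49 ≤ (k : ℤ) ^ 2 := by nlinarith
            nlinarith [sq_nonneg (k : ℤ)]
          nlinarith
        obtain ⟨s, m, x, hs, hdy⟩ := hC k d hk1 hd hd8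
        refine mem_filter.2 ⟨hk, h1, s, m, x, hs, ?_⟩
        by_contra hmM
        push Not at hmM
        have h3 := hS k s m x d hs hdy
        have h4 : (7 * (k : ℤ)) ^ (2 * m) ≤ (7 * (k : ℤ)) ^ (2 * (M - 1)) :=
          pow_le_pow_right₀ (by linarith) (by omega)
        have h5 : (7 * (k : ℤ)) ^ (2 * (M - 1)) < (k : ℤ) ^ (2 * M) := by
          have h6 : (k : ℤ) ^ (2 * M) = (k : ℤ) ^ (2 * (M - 1)) * (k : ℤ) ^ 2 := by
            rw [← pow_add]
            congr 1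
            omega
          rw [h6, mul_pow, mul_comm]
          have h7 : (7 : ℤ) ^ (2 * (M - 1)) < (k : ℤ) ^ 2 := by
            have h8 : (7 : ℤ) ^ M < k := by exact_mod_cast h2
            calc (7 : ℤ) ^ (2 * (M - 1)) ≤ (7 : ℤ) ^ (M * 2) :=
                  pow_le_pow_right₀ (by norm_num) (by omega)
              _ = ((7 : ℤ) ^ M) ^ 2 := pow_mul _ _ _
              _ < (k : ℤ) ^ 2 := by
                  have : (0 : ℤ) ≤ 7 ^ M := by positivity
                  nlinarith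
          exact mul_lt_mul_of_pos_left h7 (by positivity)
        linarith
  have hc1 : T1.card ≤ 2 := hF.1 Z T1 fun k hk => by
    have h1 := mem_filter.1 hk
    exact ⟨(h k h1.1).1, (h k h1.1).2.1, h1.2⟩
  have hc2 : T2.card ≤ 7 ^ M + 1 := by
    have h1 : T2 ⊆ range (7 ^ M + 1) := fun k hk => by
      have := (mem_filter.1 hk).2
      rw [mem_range]
      omega
    simpa using card_le_card h1
  have hc3 : (T3.card : ℝ) ≤ C * (Z : ℝ) ^ (1 / (2 * (M : ℝ)) + ε) := hT Z T3 hZ fun k hk => by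
    have h1 := mem_filter.1 hk
    exact ⟨(h k h1.1).1, (h k h1.1).2.1, h1.2.1, h1.2.2⟩
  have hcard : T.card ≤ T1.card + (T2.card + T3.card) :=
    (card_le_card hsub).trans ((card_union_le _ _).trans
      (Nat.add_le_add_left (card_union_le _ _) _))
  have hcard' : (T.card : ℝ) ≤ T1.card + (T2.card + T3.card) := by exact_mod_cast hcard
  have h1' : (T1.card : ℝ) ≤ 2 := by exact_mod_cast hc1
  have h2' : (T2.card : ℝ) ≤ ((7 ^ M + 1 : ℕ) : ℝ) := by exact_mod_cast hc2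
  have hZ1 : (1 : ℝ) ≤ (Z : ℝ) ^ (1 / (2 * (M : ℝ)) + ε) :=
    Real.one_le_rpow (by exact_mod_cast hZ) hβ.le
  have h7 : (0 : ℝ) ≤ ((7 ^ M + 1 : ℕ) : ℝ) := Nat.cast_nonneg _
  nlinarith

end Pool.Agent.DKP
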