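import Pool.Agent.DKP.St

/-!
# MP_a79b85_nt: exceptional set `X^ε`: statements, part P (fixed index)

For a fixed index `m` the curve `(2x)² = F_m(2k+1)` has `O(X^ε)` integral points up to `X` (elementary: class
number and units), and for `m ≥ M` the counting of `St.lean` gives `X^(1/(2M)+ε)`.  Together: for every `ε > 0` at
most `C X^ε` of the `k ≤ X` have an extension.
-/

set_option autoImplicit false

open NumberField IsDedekindDomain Polynomial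

namespace Pool.Agent.DKP

/-- **Sel.** Elements with even valuations outside `d` are in finitely many classes modulo squares.  PROOF.
`H = {x ∈ Kˣ : v(x) is a square for all v with d ∉ v}` (a subgroup).  There are finitely many `v ∋ d`, so finitely many parity vectors; for
each parity vector that occurs take a representative `t ∈ H`: `x/t` has all valuations square.  If all valuations of `x` are squares then
`(x) = I²` for a fractional ideal `I` (`FractionalIdeal` factorization).  Finite class group: for each class that occurs choose `x' = x'(class)`, `(x') = I'²`,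
`I = (y) I'`: then `(x) = (y² x')`, `x = u y² x'` with `u ∈ (𝓞 K)ˣ`.  `(𝓞 K)ˣ` is finitely generated, so units modulo squares are finite:
`u = u_j w²`.  `Γ = {t x' u_j}`. -/
def StmtSel : Prop :=
  ∀ (K : Type) [Field K] [NumberField K] (d : 𝓞 K), d ≠ 0 →
    ∃ Γ : Finset K, (∀ γ ∈ Γ, γ ≠ 0) ∧ ∀ x : K, x ≠ 0 →
      (∀ v : HeightOneSpectrum (𝓞 K), d ∉ v.asIdeal → IsSquare (v.valuation K x)) →
      ∃ γ ∈ Γ, ∃ y : K, x = γ * y ^ 2

/-- **Par.** Parity of the valuations of `N - θ`.  PROOF.  Take `d ≠ 0` such that for `d ∉ v`: `v(θ) ≤ 1`, `v(g) ≤ 1` for the coefficients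
`g` of `G`, `v(G(θ)) = 1` (`d` = product of denominators and of the numerator of `G(θ)`; `v.valuation_le_one`, `valuation_lt_one_iff_mem`).
Then `v(N - θ) ≤ 1`; if it is `1`, it is a square; if it is `< 1`: `N - θ` divides `G(N) - G(θ)` with a quotient of valuation `≤ 1`, so
`v(G(N)) = 1`, and `v(N-θ)^e = v(F(N)) = v(y)²`, `e = 2j+1`: `v(N-θ) = (v(y)/v(N-θ)^j)²`. -/
def StmtPar : Prop :=
  ∀ (K : Type) [Field K] [NumberField K] (F : ℤ[X]) (θ : K) (e : ℕ) (G : K[X]), Odd e →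
    F.map (algebraMap ℤ K) = (X - C θ) ^ e * G → G.eval θ ≠ 0 →
    ∃ d : 𝓞 K, d ≠ 0 ∧ ∀ N : ℤ, IsSquare (F.eval N) → F.eval N ≠ 0 →
      ∀ v : HeightOneSpectrum (𝓞 K), d ∉ v.asIdeal → IsSquare (v.valuation K ((N : K) - θ))

/-- **Fld.** One number field in which `N - θ₁` and `N - θ₂` are squares for all `N` with `F(N)` a square.  PROOF (from `StmtSel, StmtPar`).
`K₀` = splitting field of `F` over `ℚ`; `F = a ∏ (X - α)^(e_α)`.  If all `e_α` are even, `F = a H²` over `K₀`, and over `ℂ` by an embedding: excluded.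
`∑ e_α = natDegree F` is even, so at least two `α` have `e_α` odd: `θ₁ ≠ θ₂`.  `StmtPar` and `StmtSel` give finite sets `Γ₁, Γ₂ ⊂ K₀ˣ` with
`N - θᵢ = γ y²`, `γ ∈ Γᵢ`.  `K` = splitting field over `K₀` of `∏_{γ ∈ Γ₁ ∪ Γ₂} (X² - γ)`: a number field (tower), and every `γ` is a square in `K`. -/
def StmtFld : Prop :=
  ∀ F : ℤ[X], F ≠ 0 → Even F.natDegree →
    (¬ ∃ (c : ℂ) (G : ℂ[X]), F.map (algebraMap ℤ ℂ) = C c * G ^ 2) →
    ∃ (K : Type) (_ : Field K) (_ : NumberField K) (θ₁ θ₂ : K), θ₁ ≠ θ₂ ∧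
      ∀ N : ℤ, IsSquare (F.eval N) → F.eval N ≠ 0 →
        IsSquare ((N : K) - θ₁) ∧ IsSquare ((N : K) - θ₂)

/-- **Dvc.** Divisors of a fixed element with bounded conjugates.  PROOF.  `ℓ ≥ [K:ℚ]/ε`.  Finitely many ideals divide `(κ)` and
`(𝓞 K)ˣ` modulo `ℓ`-th powers is finite (finitely generated): so there is a finite list of `z_i ≠ 0` such that every divisor `z` of `κ` is
`z_i η^ℓ` with a unit `η`.  `‖σ η‖^ℓ = ‖σ z‖/‖σ z_i‖ ≤ C₁ B`, so `‖σ η‖ ≤ C₂ B^(1/ℓ)` for all `σ`.  The number of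
`η ∈ 𝓞 K` with all `‖σ η‖ ≤ R` is at most `(2 C₃ R + 1)^[K:ℚ]`: the coordinates in an integral basis are linear in the conjugates (or via the dual basis
and the trace), so they are `≤ C₃ R`.  Total `≤ C B^([K:ℚ]/ℓ)`. -/
def StmtDvc : Prop :=
  ∀ (K : Type) [Field K] [NumberField K] (κ : 𝓞 K) (ε : ℝ), κ ≠ 0 → 0 < ε →
    ∃ C : ℝ, 0 < C ∧ ∀ (B : ℝ) (T : Finset (𝓞 K)), 1 ≤ B →
      (∀ z ∈ T, z ∣ κ ∧ ∀ σ : K →+* ℂ, ‖σ (z : K)‖ ≤ B) → (T.card : ℝ) ≤ C * B ^ ε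

/-- **Hyp.** Few integral points on `y² = F(N)`.  PROOF (from `StmtFld, StmtDvc`).  At most `natDegree F` of the `N` have `F(N) = 0`.  For the others
`N - θᵢ = δᵢ²`, `δᵢ ∈ K`.  Let `a ≠ 0` be an integer with `a θᵢ` integral; `(a δᵢ)² = a² N - a² θᵢ`, so `a δᵢ ∈ 𝓞 K`.
`z = a δ₁ + a δ₂`, `z' = a δ₁ - a δ₂`, `z z' = a² (θ₂ - θ₁) = κ ≠ 0`.  `‖σ z‖ ≤ 2 |a| √(X + ‖σ θ‖) ≤ C √X`.
`N` is determined by `z`: `a δ₁ = (z + κ/z)/2`, `N = θ₁ + δ₁²`.  So `#T ≤ natDegree F + C (C √X)^ε`. -/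
def StmtHyp : Prop :=
  ∀ (F : ℤ[X]) (ε : ℝ), F ≠ 0 → Even F.natDegree →
    (¬ ∃ (c : ℂ) (G : ℂ[X]), F.map (algebraMap ℤ ℂ) = C c * G ^ 2) → 0 < ε →
    ∃ C : ℝ, 0 < C ∧ ∀ (X : ℕ) (T : Finset ℤ), 1 ≤ X →
      (∀ N ∈ T, |N| ≤ X ∧ IsSquare (F.eval N)) → (T.card : ℝ) ≤ C * (X : ℝ) ^ ε

/-- **Fixed.** Few solutions of a fixed index.  PROOF (from `StmtHyp`).  `F = FF (C s) X m ∈ ℤ[X]`, `m ≥ 2`, `s = ±1` (`s = 1`, `m` even or `s = -1`, `m` odd, otherwise no `Sol`),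
`(2x)² = F(2k+1)` (as `y² - 2x² = 2k²-1`).  `w = YY (C s) X m` has degree `m` and leading coefficient `2^m`, so `natDegree F = 2m`.
If `F = c G²` over `ℂ`: `A B = (X-1)² - 2` where `A, B = √2 w ∓ √c G`, `A + B = 2√2 w` has degree `m`, so one of `A, B` has degree `≥ m`; `A, B ≠ 0`,
`deg A + deg B = 2`, so `m = 2`, `s = 1`, `w = 4X²+2X+1`, one of them is a constant `e ≠ 0` and `2√2 w = e + ((X-1)²-2)/e`: coefficients of `X²` and `X`:
`8√2 = 1/e`, `4√2 = -2/e`, contradiction.  Then `StmtHyp` for `N = 2k+1 ≤ 3X`. -/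
def StmtFixed : Prop :=
  ∀ (s : ℤ) (m : ℕ) (ε : ℝ), 2 ≤ m → 0 < ε → ∃ C : ℝ, 0 < C ∧ ∀ (X : ℕ) (T : Finset ℕ), 1 ≤ X →
    (∀ k ∈ T, k ≤ X ∧ ∃ x : ℕ, Sol k s m x) → (T.card : ℝ) ≤ C * (X : ℝ) ^ ε

/-- **IndexD.** The index is at most `C_δ (log k)^(1+δ)`.  PROOF: as `StmtIndex`: the proof there gives `m ≤ 5·10^24 L^6 H` (+ small) with
`L = ⌈48 log m⌉ + 300` as soon as `m` is larger than `10^22 L^5 H` (and `m ≥ H` for the condition `16 log(28000 L H m) ≤ L`),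
`H ≤ 3 log(2k+1)`; and `L^6 ≤ C₁ m^(δ/(1+δ))`, so `m^(1/(1+δ)) ≤ C₂ H`. -/
def StmtIndexD : Prop :=
  ∀ δ : ℝ, 0 < δ → ∃ C : ℝ, 0 < C ∧ ∀ (k : ℕ) (s : ℤ) (m x : ℕ), ¬ Deg k → Sol k s m x →
    (m : ℝ) ≤ C * Real.log (2 * k + 1) ^ (1 + δ)

end Pool.Agent.DKP
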