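import Pool.Agent.DKP.Fin
import Pool.Agent.DKP.St2

/-!
# MP_a79b85_nt: exceptional set `X^ε`, final assembly
-/

set_option autoImplicit false

open Finset

namespace Pool.Agent.DKP

/-- for every `ε > 0` at most `C X^ε` of the `k ≤ X` have any extension -/
def FinalC : Prop :=
  ∀ ε : ℝ, 0 < ε → ∃ C : ℝ, 0 < C ∧ ∀ X : ℕ, 1 ≤ X →
    ({k : ℕ | 1 ≤ k ∧ k ≤ X ∧ ∃ d : ℤ, Extends k d}.ncard : ℝ) ≤ C * (X : ℝ) ^ ε

theorem final_C (hC : StmtClass) (hB : StmtBlock) (hF : StmtFew) (hX : StmtFixed) : FinalC := by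
  classical
  intro ε hε
  obtain ⟨M0, hM0⟩ := exists_nat_gt (1 / ε)
  set M : ℕ := max 2 M0 with hM
  have hM2 : 2 ≤ M := le_max_left _ _
  have hMr : (0 : ℝ) < M := by exact_mod_cast (by omega : 0 < M)
  have hMε : 1 / (2 * (M : ℝ)) ≤ ε / 2 := by
    have h1 : (1 : ℝ) / ε ≤ M := hM0.le.trans (by exact_mod_cast le_max_right 2 M0)
    rw [div_le_iff₀ hε] at h1
    rw [div_le_div_iff₀ (by positivity) (by norm_num)]
    nlinarith
  obtain ⟨C, hC0, hT⟩ := hB M (ε / 2) hM2 (by linarith)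
  have hfix : ∀ (s : ℤ) (m : ℕ), ∃ C : ℝ, 0 < C ∧ (2 ≤ m → ∀ (X : ℕ) (T : Finset ℕ), 1 ≤ X →
      (∀ k ∈ T, k ≤ X ∧ ∃ x : ℕ, Sol k s m x) → (T.card : ℝ) ≤ C * (X : ℝ) ^ ε) := by
    intro s m
    by_cases hm : 2 ≤ m
    · obtain ⟨C, h1, h2⟩ := hX s m ε hm hε
      exact ⟨C, h1, fun _ => h2⟩
    · exact ⟨1, one_pos, fun h => absurd h hm⟩
  choose D hD0 hD using hfix
  set E : ℝ := ∑ i ∈ range M, (D 1 i + D (-1) i) with hE
  have hE0 : 0 ≤ E := sum_nonneg fun i _ => (add_pos (hD0 1 i) (hD0 (-1) i)).le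
  refine FinN.dyadic _ (5 + C + E) ε (by linarith) hε fun Z T hZ h => ?_
  set T1 := T.filter Deg
  set T2 := T.filter (fun k => IsSquare (7 * k ^ 2 + 4 * k + 1))
  set T3 := T.filter (fun k => ¬ Deg k ∧ ∃ (s : ℤ) (m x : ℕ), Sol k s m x ∧ M ≤ m)
  set U : ℤ → ℕ → Finset ℕ := fun s m => T.filter (fun k => 2 ≤ m ∧ ∃ x : ℕ, Sol k s m x)
  set T4 := (range M).biUnion (fun m => U 1 m ∪ U (-1) m)
  have hsub : T ⊆ T1 ∪ (T2 ∪ (T3 ∪ T4)) := by
    intro k hk
    obtain ⟨-, -, hk1, d, hd⟩ := h k hk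
    rw [mem_union, mem_union, mem_union]
    by_cases h1 : Deg k
    · exact Or.inl (mem_filter.2 ⟨hk, h1⟩)
    · right
      by_cases h2 : d = 8 * (k : ℤ) ^ 2 + 4 * k + 1
      · left
        refine mem_filter.2 ⟨hk, ?_⟩
        have h3 := hd.2.2.2.2.1
        rw [h2] at h3
        obtain ⟨r, hr⟩ := h3
        refine ⟨r.natAbs, ?_⟩
        have h4 : ((7 * k ^ 2 + 4 * k + 1 : ℕ) : ℤ) = ((r.natAbs * r.natAbs : ℕ) : ℤ) := by
          rw [Int.natCast_mul, Int.natAbs_mul_self', ← hr]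
          push_cast
          ring
        exact_mod_cast h4
      · right
        obtain ⟨s, m, x, hs, -⟩ := hC k d hk1 hd h2
        by_cases hm : M ≤ m
        · exact Or.inl (mem_filter.2 ⟨hk, h1, s, m, x, hs, hm⟩)
        · right
          rw [mem_biUnion]
          refine ⟨m, mem_range.2 (by omega), ?_⟩
          rw [mem_union]
          rcases hs.hs with ⟨rfl, -⟩ | ⟨rfl, -⟩
          · exact Or.inl (mem_filter.2 ⟨hk, hs.hm, x, hs⟩)
          · exact Or.inr (mem_filter.2 ⟨hk, hs.hm, x, hs⟩)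
  have hc1 : T1.card ≤ 2 := hF.1 Z T1 fun k hk => by
    have h1 := mem_filter.1 hk
    exact ⟨(h k h1.1).1, (h k h1.1).2.1, h1.2⟩
  have hc2 : T2.card ≤ 3 := hF.2 Z T2 fun k hk => by
    have h1 := mem_filter.1 hk
    exact ⟨(h k h1.1).1, (h k h1.1).2.1, (h k h1.1).2.2.1, h1.2⟩
  have hZ0 : (1 : ℝ) ≤ Z := by exact_mod_cast hZ
  have hc3 : (T3.card : ℝ) ≤ C * (Z : ℝ) ^ ε := by
    refine (hT Z T3 hZ fun k hk => ?_).trans ?_
    · have h1 := mem_filter.1 hk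
      exact ⟨(h k h1.1).1, (h k h1.1).2.1, h1.2.1, h1.2.2⟩
    · refine mul_le_mul_of_nonneg_left ?_ hC0.le
      exact Real.rpow_le_rpow_of_exponent_le hZ0 (by linarith)
  have hU : ∀ (s : ℤ) (m : ℕ), ((U s m).card : ℝ) ≤ D s m * (Z : ℝ) ^ ε := by
    intro s m
    by_cases hm : 2 ≤ m
    · refine hD s m hm Z (U s m) hZ fun k hk => ?_
      have h1 := mem_filter.1 hk
      have h2 := (h k h1.1).2.1
      exact ⟨by omega, h1.2.2⟩
    · have h1 : U s m = ∅ := filter_eq_empty_iff.2 fun k _ h2 => hm h2.1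
      rw [h1, card_empty, Nat.cast_zero]
      exact mul_nonneg (hD0 s m).le (Real.rpow_nonneg (Nat.cast_nonneg _) _)
  have hc4 : (T4.card : ℝ) ≤ E * (Z : ℝ) ^ ε := by
    have h1 : T4.card ≤ ∑ m ∈ range M, ((U 1 m).card + (U (-1) m).card) :=
      card_biUnion_le.trans (sum_le_sum fun m _ => card_union_le _ _)
    have h2 : (T4.card : ℝ) ≤ ∑ m ∈ range M, (((U 1 m).card : ℝ) + ((U (-1) m).card : ℝ)) := by
      exact_mod_cast h1
    refine h2.trans ?_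
    rw [hE, sum_mul]
    refine sum_le_sum fun m _ => ?_
    rw [add_mul]
    exact add_le_add (hU 1 m) (hU (-1) m)
  have hcard : T.card ≤ T1.card + (T2.card + (T3.card + T4.card)) :=
    (card_le_card hsub).trans ((card_union_le _ _).trans
      (Nat.add_le_add_left ((card_union_le _ _).trans
        (Nat.add_le_add_left (card_union_le _ _) _)) _))
  have hcard' : (T.card : ℝ) ≤ T1.card + (T2.card + (T3.card + T4.card)) := by exact_mod_cast hcard
  have h1' : (T1.card : ℝ) ≤ 2 := by exact_mod_cast hc1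
  have h2' : (T2.card : ℝ) ≤ 3 := by exact_mod_cast hc2
  have hZ1 : (1 : ℝ) ≤ (Z : ℝ) ^ ε := Real.one_le_rpow hZ0 hε.le
  nlinarith

end Pool.Agent.DKP
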