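import Pool.Agent.DKP.Fin2

/-!
# MP_a79b85_nt: the two clauses of the final theorem
-/

set_option autoImplicit false

open Finset

namespace Pool.Agent.DKP

/-- the degenerate `k` -/
def StmtDegIdx : Prop := ∀ (k : ℕ) (s : ℤ) (m x : ℕ), Deg k → Sol k s m x → m ≤ 2

/-- at most `C X^ε` pairs `(k, d)` with `k ≤ X` -/
def FinalD : Prop :=
  ∀ ε : ℝ, 0 < ε → ∃ C : ℝ, 0 < C ∧ ∀ X : ℕ, 1 ≤ X →
    {p : ℕ × ℤ | 1 ≤ p.1 ∧ p.1 ≤ X ∧ Extends p.1 p.2}.Finite ∧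
    ({p : ℕ × ℤ | 1 ≤ p.1 ∧ p.1 ≤ X ∧ Extends p.1 p.2}.ncard : ℝ) ≤ C * (X : ℝ) ^ ε

/-- every extension is at most `exp(C (log (k+1))^(2+δ))` -/
def FinalE : Prop :=
  ∀ δ : ℝ, 0 < δ → ∃ C : ℝ, 0 < C ∧ ∀ (k : ℕ) (d : ℤ), 1 ≤ k → Extends k d →
    Real.log d ≤ C * Real.log (k + 1) ^ (2 + δ)

namespace Fin3

theorem log_facts (k : ℕ) (hk : 1 ≤ k) : Real.log 2 ≤ Real.log (k + 1) ∧
    Real.log (2 * k + 1) ≤ 2 * Real.log (k + 1) ∧ Real.log (7 * k) ≤ 4 * Real.log (k + 1) := by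
  have hk' : (1 : ℝ) ≤ k := by exact_mod_cast hk
  have h2 : Real.log 2 ≤ Real.log (k + 1) := Real.log_le_log (by norm_num) (by linarith)
  refine ⟨h2, ?_, ?_⟩
  · have : Real.log (2 * k + 1) ≤ Real.log ((k + 1) ^ 2) :=
      Real.log_le_log (by linarith) (by nlinarith)
    rwa [Real.log_pow, Nat.cast_ofNat] at this
  · have : Real.log (7 * k) ≤ Real.log ((k + 1) ^ 4) := by
      refine Real.log_le_log (by linarith) ?_
      nlinarith [pow_le_pow_left₀ (by norm_num : (0 : ℝ) ≤ 1) hk' 2,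
        pow_le_pow_left₀ (by norm_num : (0 : ℝ) ≤ 1) hk' 3, pow_nonneg (by linarith : (0 : ℝ) ≤ k) 4,
        mul_nonneg (by linarith : (0 : ℝ) ≤ k) (by linarith : (0 : ℝ) ≤ (k : ℝ) - 1)]
    rwa [Real.log_pow, Nat.cast_ofNat] at this

/-- a uniform bound for the index -/
theorem index_all (hI : StmtIndexD) (hG : StmtDegIdx) (δ : ℝ) (hδ : 0 < δ) :
    ∃ C : ℝ, 0 < C ∧ ∀ (k : ℕ) (s : ℤ) (m x : ℕ), Sol k s m x →
      (m : ℝ) ≤ C * Real.log (k + 1) ^ (1 + δ) := by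
  obtain ⟨C, hC, h⟩ := hI δ hδ
  have hl2 : (0 : ℝ) < Real.log 2 := Real.log_pos (by norm_num)
  have hp : (0 : ℝ) < (2 : ℝ) ^ (1 + δ) := Real.rpow_pos_of_pos (by norm_num) _
  have hq : (0 : ℝ) < Real.log 2 ^ (1 + δ) := Real.rpow_pos_of_pos hl2 _
  refine ⟨C * 2 ^ (1 + δ) + 2 / Real.log 2 ^ (1 + δ), by positivity, fun k s m x hs => ?_⟩
  obtain ⟨h1, h2, -⟩ := log_facts k hs.hk
  have hk0 : 0 < Real.log (k + 1) := hl2.trans_le h1
  have hr : 0 < Real.log (k + 1) ^ (1 + δ) := Real.rpow_pos_of_pos hk0 _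
  by_cases hd : Deg k
  · have h3 : (m : ℝ) ≤ 2 := by exact_mod_cast hG k s m x hd hs
    have h4 : Real.log 2 ^ (1 + δ) ≤ Real.log (k + 1) ^ (1 + δ) :=
      Real.rpow_le_rpow hl2.le h1 (by linarith)
    have h5 : 2 ≤ 2 / Real.log 2 ^ (1 + δ) * Real.log (k + 1) ^ (1 + δ) := by
      rw [div_mul_eq_mul_div, le_div_iff₀ hq]
      linarith
    have h6 : 0 < C * 2 ^ (1 + δ) * Real.log (k + 1) ^ (1 + δ) := by positivity
    rw [add_mul]
    linarith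
  · have h3 := h k s m x hd hs
    have hk' : (1 : ℝ) ≤ k := by exact_mod_cast hs.hk
    have h7 : (0 : ℝ) ≤ Real.log (2 * k + 1) := Real.log_nonneg (by linarith)
    have h4 : Real.log (2 * k + 1) ^ (1 + δ) ≤ (2 * Real.log (k + 1)) ^ (1 + δ) :=
      Real.rpow_le_rpow h7 h2 (by linarith)
    rw [Real.mul_rpow (by norm_num) hk0.le] at h4
    have h5 : C * Real.log (2 * k + 1) ^ (1 + δ) ≤ C * (2 ^ (1 + δ) * Real.log (k + 1) ^ (1 + δ)) :=
      mul_le_mul_of_nonneg_left h4 hC.le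
    have h6 : 0 < 2 / Real.log 2 ^ (1 + δ) * Real.log (k + 1) ^ (1 + δ) := by positivity
    rw [add_mul]
    nlinarith

end Fin3

theorem final_E (hC : StmtClass) (hI : StmtIndexD) (hG : StmtDegIdx) (hS : StmtSmall) :
    FinalE := by
  intro δ hδ
  obtain ⟨C, hC0, h⟩ := Fin3.index_all hI hG δ hδ
  have hl2 : (0 : ℝ) < Real.log 2 := Real.log_pos (by norm_num)
  have hq : (0 : ℝ) < Real.log 2 ^ (1 + δ) := Real.rpow_pos_of_pos hl2 _
  refine ⟨8 * C + 8 / Real.log 2 ^ (1 + δ), by positivity, fun k d hk hd => ?_⟩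
  obtain ⟨h1, h2, h3⟩ := Fin3.log_facts k hk
  have hk0 : 0 < Real.log (k + 1) := hl2.trans_le h1
  have hr : 0 < Real.log (k + 1) ^ (1 + δ) := Real.rpow_pos_of_pos hk0 _
  have hsplit : Real.log (k + 1) ^ (2 + δ) =
      Real.log (k + 1) ^ (1 + δ) * Real.log (k + 1) := by
    rw [show (2 : ℝ) + δ = (1 + δ) + 1 by ring, Real.rpow_add hk0, Real.rpow_one]
  have hk' : (1 : ℝ) ≤ k := by exact_mod_cast hk
  have hd0 : (0 : ℝ) < d := by exact_mod_cast hd.1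
  have hA : 0 < 8 * C * (Real.log (k + 1) ^ (1 + δ) * Real.log (k + 1)) := by positivity
  have hB : 0 < 8 / Real.log 2 ^ (1 + δ) * (Real.log (k + 1) ^ (1 + δ) * Real.log (k + 1)) := by
    positivity
  rw [hsplit, add_mul]
  by_cases h8 : d = 8 * (k : ℤ) ^ 2 + 4 * k + 1
  · have h9 : (d : ℝ) ≤ (7 * k) ^ 2 := by
      rw [h8]
      push_cast
      nlinarith
    have h10 : Real.log d ≤ 2 * Real.log (7 * k) := by
      have := Real.log_le_log hd0 h9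
      rwa [Real.log_pow, Nat.cast_ofNat] at this
    have h11 : Real.log 2 ^ (1 + δ) ≤ Real.log (k + 1) ^ (1 + δ) :=
      Real.rpow_le_rpow hl2.le h1 (by linarith)
    have h12 : 8 * Real.log (k + 1) ≤
        8 / Real.log 2 ^ (1 + δ) * (Real.log (k + 1) ^ (1 + δ) * Real.log (k + 1)) := by
      rw [div_mul_eq_mul_div, le_div_iff₀ hq]
      nlinarith [mul_le_mul_of_nonneg_right h11 hk0.le]
    linarith
  · obtain ⟨s, m, x, hs, hdy⟩ := hC k d hk hd h8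
    have h9 := hS k s m x d hs hdy
    have h10 : (d : ℝ) ≤ (7 * k) ^ (2 * m) := by exact_mod_cast h9
    have h11 : Real.log d ≤ (2 * m : ℕ) * Real.log (7 * k) := by
      have := Real.log_le_log hd0 h10
      rwa [Real.log_pow] at this
    have h12 := h k s m x hs
    have h13 : (0 : ℝ) ≤ Real.log (7 * k) := Real.log_nonneg (by linarith)
    push_cast at h11
    have h14 : 2 * (m : ℝ) * Real.log (7 * k) ≤
        2 * (C * Real.log (k + 1) ^ (1 + δ)) * (4 * Real.log (k + 1)) := by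
      refine mul_le_mul (by linarith) h3 h13 (by positivity)
    nlinarith

theorem final_D (hC : StmtClass) (hI : StmtIndexD) (hG : StmtDegIdx) (hF : FinalC) : FinalD := by
  classical
  intro ε hε
  obtain ⟨C1, hC1, h1⟩ := Fin3.index_all hI hG 1 one_pos
  obtain ⟨C2, hC2, h2⟩ := hF (ε / 2) (by linarith)
  -- the polylogarithmic factor
  have hlog : ∃ C3 : ℝ, 0 < C3 ∧ ∀ X : ℕ, 1 ≤ X →
      2 * (C1 * Real.log (X + 1) ^ (1 + (1 : ℝ)) + 2) ≤ C3 * (X : ℝ) ^ (ε / 2) := by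
    have hη : 0 < ε / 4 := by linarith
    refine ⟨2 * C1 * (2 ^ (ε / 4) / (ε / 4)) ^ 2 + 4, by positivity, fun X hX => ?_⟩
    have hX' : (1 : ℝ) ≤ X := by exact_mod_cast hX
    have h3 : Real.log (X + 1) ≤ (2 ^ (ε / 4) / (ε / 4)) * (X : ℝ) ^ (ε / 4) := by
      have h4 := Real.log_le_rpow_div (x := (X : ℝ) + 1) (by linarith) hη
      have h5 : ((X : ℝ) + 1) ^ (ε / 4) ≤ (2 * X) ^ (ε / 4) :=
        Real.rpow_le_rpow (by linarith) (by linarith) hη.le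
      rw [Real.mul_rpow (by norm_num) (by linarith)] at h5
      calc Real.log (X + 1) ≤ ((X : ℝ) + 1) ^ (ε / 4) / (ε / 4) := h4
        _ ≤ (2 ^ (ε / 4) * (X : ℝ) ^ (ε / 4)) / (ε / 4) := by gcongr
        _ = _ := by ring
    have h6 : (0 : ℝ) ≤ Real.log (X + 1) := Real.log_nonneg (by linarith)
    have h7 : Real.log (X + 1) ^ (1 + (1 : ℝ)) = Real.log (X + 1) ^ 2 := by
      rw [show (1 : ℝ) + 1 = ((2 : ℕ) : ℝ) by norm_num, Real.rpow_natCast]
    have h8 : ((X : ℝ) ^ (ε / 4)) ^ 2 = (X : ℝ) ^ (ε / 2) := by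
      rw [← Real.rpow_natCast, ← Real.rpow_mul (by linarith)]
      congr 1
      push_cast
      ring
    have h9 : Real.log (X + 1) ^ 2 ≤
        (2 ^ (ε / 4) / (ε / 4)) ^ 2 * (X : ℝ) ^ (ε / 2) := by
      rw [← h8, ← mul_pow]
      exact pow_le_pow_left₀ h6 h3 2
    have h10 : (1 : ℝ) ≤ (X : ℝ) ^ (ε / 2) := Real.one_le_rpow hX' (by linarith)
    rw [h7]
    nlinarith [mul_le_mul_of_nonneg_left h9 hC1.le]
  obtain ⟨C3, hC3, h3⟩ := hlog
  refine ⟨C2 * C3, by positivity, fun X hX => ?_⟩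
  have hX' : (1 : ℝ) ≤ X := by exact_mod_cast hX
  set S : Set (ℕ × ℤ) := {p : ℕ × ℤ | 1 ≤ p.1 ∧ p.1 ≤ X ∧ Extends p.1 p.2} with hS
  set K : Set ℕ := {k : ℕ | 1 ≤ k ∧ k ≤ X ∧ ∃ d : ℤ, Extends k d} with hK
  have hKf : K.Finite := (Set.finite_Iic X).subset fun k hk => hk.2.1
  set M : ℕ := ⌊C1 * Real.log (X + 1) ^ (1 + (1 : ℝ))⌋₊ + 1 with hM
  set W : Finset (ℕ × ℤ × ℕ) := hKf.toFinset ×ˢ (({1, -1} : Finset ℤ) ×ˢ range (M + 1)) with hW
  set φ : ℕ × ℤ × ℕ → ℕ × ℤ := fun p =>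
    (p.1, (YY p.2.1 (2 * (p.1 : ℤ) + 1) p.2.2 ^ 2 + 1) / 2) with hφ
  have hlogX : 0 ≤ Real.log ((X : ℝ) + 1) := Real.log_nonneg (by linarith)
  have hsub : S ⊆ ((W.image φ : Finset (ℕ × ℤ)) : Set (ℕ × ℤ)) := by
    rintro ⟨k, d⟩ ⟨hk1, hkX, hd⟩
    rw [coe_image, Set.mem_image]
    have hkK : k ∈ hKf.toFinset := by
      rw [Set.Finite.mem_toFinset]
      exact ⟨hk1, hkX, d, hd⟩
    by_cases h8 : d = 8 * (k : ℤ) ^ 2 + 4 * k + 1
    · refine ⟨(k, -1, 1), ?_, ?_⟩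
      · rw [hW, mem_coe, mem_product, mem_product]
        exact ⟨hkK, by simp, by
          change 1 ∈ range (M + 1)
          rw [mem_range, hM]
          omega⟩
      · simp only [hφ, YY, Prod.mk.injEq, true_and]
        rw [h8, show (2 * (2 * (k : ℤ) + 1) + -1) ^ 2 + 1 = (8 * (k : ℤ) ^ 2 + 4 * k + 1) * 2 by
          ring]
        exact Int.mul_ediv_cancel _ (by norm_num)
    · obtain ⟨s, m, x, hs, hdy⟩ := hC k d hk1 hd h8
      refine ⟨(k, s, m), ?_, ?_⟩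
      · rw [hW, mem_coe, mem_product, mem_product]
        refine ⟨hkK, ?_, ?_⟩
        · rcases hs.hs with ⟨rfl, -⟩ | ⟨rfl, -⟩ <;> simp
        · change m ∈ range (M + 1)
          rw [mem_range, hM]
          have h4 := h1 k s m x hs
          have h5 : C1 * Real.log (k + 1) ^ (1 + (1 : ℝ)) ≤
              C1 * Real.log (X + 1) ^ (1 + (1 : ℝ)) := by
            have hkX' : (k : ℝ) ≤ X := by exact_mod_cast hkX
            have hk1' : (1 : ℝ) ≤ k := by exact_mod_cast hk1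
            have h6 : Real.log (k + 1) ≤ Real.log (X + 1) :=
              Real.log_le_log (by linarith) (by linarith)
            exact mul_le_mul_of_nonneg_left (Real.rpow_le_rpow
              (Real.log_nonneg (by linarith)) h6 (by norm_num)) hC1.le
          have h6 : m ≤ ⌊C1 * Real.log (X + 1) ^ (1 + (1 : ℝ))⌋₊ := Nat.le_floor (h4.trans h5)
          omega
      · simp only [hφ, Prod.mk.injEq, true_and]
        rw [← hdy, mul_comm]
        exact Int.mul_ediv_cancel _ (by norm_num)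
  have hSf : S.Finite := (W.image φ).finite_toSet.subset hsub
  refine ⟨hSf, ?_⟩
  have h4 : S.ncard ≤ W.card := by
    calc S.ncard ≤ ((W.image φ : Finset (ℕ × ℤ)) : Set (ℕ × ℤ)).ncard :=
          Set.ncard_le_ncard hsub (finite_toSet _)
      _ = (W.image φ).card := Set.ncard_coe_finset _
      _ ≤ W.card := card_image_le
  have h5 : W.card = K.ncard * (2 * (M + 1)) := by
    rw [hW, card_product, card_product, card_range, Set.ncard_eq_toFinset_card K hKf]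
    rfl
  have h6 : (K.ncard : ℝ) ≤ C2 * (X : ℝ) ^ (ε / 2) := h2 X hX
  have h7 : ((2 * (M + 1) : ℕ) : ℝ) ≤ C3 * (X : ℝ) ^ (ε / 2) := by
    refine le_trans ?_ (h3 X hX)
    have h8 : (⌊C1 * Real.log (X + 1) ^ (1 + (1 : ℝ))⌋₊ : ℝ) ≤
        C1 * Real.log (X + 1) ^ (1 + (1 : ℝ)) :=
      Nat.floor_le (mul_nonneg hC1.le (Real.rpow_nonneg hlogX _))
    push_cast [hM]
    linarith
  have h8 : (S.ncard : ℝ) ≤ (K.ncard : ℝ) * ((2 * (M + 1) : ℕ) : ℝ) := by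
    rw [h5] at h4
    exact_mod_cast h4
  have h9 : (X : ℝ) ^ ε = (X : ℝ) ^ (ε / 2) * (X : ℝ) ^ (ε / 2) := by
    rw [← Real.rpow_add (by linarith)]
    congr 1
    ring
  calc (S.ncard : ℝ) ≤ (K.ncard : ℝ) * ((2 * (M + 1) : ℕ) : ℝ) := h8
    _ ≤ (C2 * (X : ℝ) ^ (ε / 2)) * (C3 * (X : ℝ) ^ (ε / 2)) := by
        exact mul_le_mul h6 h7 (Nat.cast_nonneg _) (by positivity)
    _ = C2 * C3 * (X : ℝ) ^ ε := by rw [h9]; ring

end Pool.Agent.DKP
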