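import Pool.Agent.DKP.St2

/-!
Elements with even valuations outside `d` are in finitely many classes modulo squares.
-/

set_option autoImplicit false

open NumberField IsDedekindDomain Polynomial
open scoped nonZeroDivisors

namespace Pool.Agent.DKP

namespace SelX

/-- representatives -/
lemma reps {α β : Type} [Finite β] (P : α → Prop) (f : α → β) :
    ∃ T : Finset α, (∀ t ∈ T, P t) ∧ ∀ x, P x → ∃ t ∈ T, f x = f t := by
  classical
  have : Fintype β := Fintype.ofFinite β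
  let B : Finset β := Finset.univ.filter (fun b => ∃ x, P x ∧ f x = b)
  have hB : ∀ b : B, ∃ x, P x ∧ f x = (b : β) := fun b => (Finset.mem_filter.mp b.2).2
  choose g hg using hB
  refine ⟨Finset.univ.image g, ?_, ?_⟩
  · intro t ht
    obtain ⟨b, _, rfl⟩ := Finset.mem_image.mp ht
    exact (hg b).1
  · intro x hx
    have hb : f x ∈ B := Finset.mem_filter.mpr ⟨Finset.mem_univ _, x, hx, rfl⟩
    exact ⟨g ⟨f x, hb⟩, Finset.mem_image_of_mem g (Finset.mem_univ _), (hg ⟨f x, hb⟩).2.symm⟩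

/-- squares in the value group -/
lemma isSquare_iff_even {a : WithZero (Multiplicative ℤ)} (ha : a ≠ 0) :
    IsSquare a ↔ Even (WithZero.log a) := by
  constructor
  · rintro ⟨b, rfl⟩
    have hb : b ≠ 0 := fun h => ha (by rw [h, mul_zero])
    exact ⟨WithZero.log b, WithZero.log_mul hb hb⟩
  · rintro ⟨k, hk⟩
    refine ⟨WithZero.exp k, ?_⟩
    rw [← WithZero.exp_add, ← hk, WithZero.exp_log ha]

lemma isSquare_div {a b : WithZero (Multiplicative ℤ)} (ha : a ≠ 0) (hb : b ≠ 0)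
    (h : IsSquare a ↔ IsSquare b) : IsSquare (a / b) := by
  rw [isSquare_iff_even ha, isSquare_iff_even hb] at h
  rw [isSquare_iff_even (div_ne_zero ha hb), WithZero.log_div ha hb, Int.even_sub]
  exact h

variable {K : Type} [Field K] [NumberField K]

/-- An integer with even valuations generates the square of an ideal. -/
lemma exists_sq (w : 𝓞 K) (hw : w ≠ 0)
    (h : ∀ v : HeightOneSpectrum (𝓞 K), IsSquare (v.valuation K (algebraMap (𝓞 K) K w))) :
    ∃ I : Ideal (𝓞 K), I ≠ 0 ∧ Ideal.span {w} = I ^ 2 := by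
  classical
  have hs : (Ideal.span {w} : Ideal (𝓞 K)) ≠ 0 := by
    rw [Ne, Ideal.zero_eq_bot, Ideal.span_singleton_eq_bot]
    exact hw
  have hmk : Associates.mk (Ideal.span {w} : Ideal (𝓞 K)) ≠ 0 := Associates.mk_ne_zero.mpr hs
  obtain ⟨b, hb⟩ := Associates.is_pow_of_dvd_count (k := 2) hmk (by
    intro p hp
    obtain ⟨P, rfl⟩ := Associates.mk_surjective p
    rw [Associates.irreducible_mk] at hp
    have hpr : Prime P := irreducible_iff_prime.mp hp
    let v : HeightOneSpectrum (𝓞 K) := ⟨P, Ideal.isPrime_of_prime hpr, hpr.ne_zero⟩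
    have h1 := h v
    rw [v.valuation_of_algebraMap, isSquare_iff_even (v.intValuation_ne_zero w hw),
      v.intValuation_if_neg hw, WithZero.log_exp, even_neg, Int.even_coe_nat] at h1
    exact h1.two_dvd)
  obtain ⟨I, rfl⟩ := Associates.mk_surjective b
  rw [← Associates.mk_pow, Associates.mk_eq_mk_iff_associated, associated_iff_eq] at hb
  refine ⟨I, ?_, hb⟩
  rintro rfl
  apply hs
  rw [hb]
  exact zero_pow two_ne_zero

/-- The class group is finite. -/
lemma exists_cls : ∃ T : Finset (𝓞 K), (∀ w ∈ T, w ≠ 0) ∧ ∀ w : 𝓞 K, w ≠ 0 →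
    (∀ v : HeightOneSpectrum (𝓞 K), IsSquare (v.valuation K (algebraMap (𝓞 K) K w))) →
    ∃ w' ∈ T, ∃ u : (𝓞 K)ˣ, ∃ a b : 𝓞 K, a ≠ 0 ∧ b ≠ 0 ∧ a ^ 2 * w * u = b ^ 2 * w' := by
  classical
  have hW : ∀ w : 𝓞 K, ∃ I : (Ideal (𝓞 K))⁰, (w ≠ 0 ∧
      ∀ v : HeightOneSpectrum (𝓞 K), IsSquare (v.valuation K (algebraMap (𝓞 K) K w))) →
      Ideal.span {w} = (I : Ideal (𝓞 K)) ^ 2 := by
    intro w
    by_cases h : w ≠ 0 ∧ ∀ v : HeightOneSpectrum (𝓞 K),
        IsSquare (v.valuation K (algebraMap (𝓞 K) K w))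
    · obtain ⟨I, hI, h2⟩ := exists_sq w h.1 h.2
      exact ⟨⟨I, mem_nonZeroDivisors_iff_ne_zero.mpr hI⟩, fun _ => h2⟩
    · exact ⟨1, fun h' => absurd h' h⟩
  choose I hI using hW
  obtain ⟨T, hT, hT2⟩ := reps (fun w : 𝓞 K => w ≠ 0 ∧
      ∀ v : HeightOneSpectrum (𝓞 K), IsSquare (v.valuation K (algebraMap (𝓞 K) K w)))
      (fun w => ClassGroup.mk0 (I w))
  refine ⟨T, fun w hw => (hT w hw).1, ?_⟩
  intro w hw hv
  obtain ⟨w', hw', hf⟩ := hT2 w ⟨hw, hv⟩
  rw [ClassGroup.mk0_eq_mk0_iff] at hf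
  obtain ⟨x, y, hx, hy, hxy⟩ := hf
  have h1 : Ideal.span {x ^ 2 * w} = (Ideal.span {y ^ 2 * w'} : Ideal (𝓞 K)) := by
    rw [← Ideal.span_singleton_mul_span_singleton, ← Ideal.span_singleton_mul_span_singleton,
      ← Ideal.span_singleton_pow, ← Ideal.span_singleton_pow, hI w ⟨hw, hv⟩, hI w' (hT w' hw'),
      ← mul_pow, ← mul_pow, hxy]
  rw [Ideal.span_singleton_eq_span_singleton] at h1
  obtain ⟨u, hu⟩ := h1
  exact ⟨w', hw', u, x, y, hx, hy, hu⟩

/-- The units modulo squares are finite. -/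
lemma exists_units : ∃ U : Finset (𝓞 K)ˣ, ∀ u : (𝓞 K)ˣ, ∃ u' ∈ U, ∃ ω : (𝓞 K)ˣ,
    u = u' * ω ^ 2 := by
  classical
  have hfg : Group.FG (𝓞 K)ˣ := Group.fg_iff_monoid_fg.mpr inferInstance
  have hfin : Finite ((𝓞 K)ˣ ⧸ (powMonoidHom (α := (𝓞 K)ˣ) 2).range) :=
    Subgroup.finiteIndex_iff_finite_quotient.mp
      (Subgroup.finiteIndex_range_powMonoidHom_of_fg (𝓞 K)ˣ two_ne_zero)
  obtain ⟨U, _, hU⟩ := reps (fun _ : (𝓞 K)ˣ => True)
    (fun u => (QuotientGroup.mk u : (𝓞 K)ˣ ⧸ (powMonoidHom (α := (𝓞 K)ˣ) 2).range))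
  refine ⟨U, fun u => ?_⟩
  obtain ⟨u', hu', h⟩ := hU u trivial
  rw [QuotientGroup.eq] at h
  obtain ⟨ω, hω⟩ := h
  refine ⟨u', hu', ω⁻¹, ?_⟩
  have h1 : ω ^ 2 = u⁻¹ * u' := hω
  rw [inv_pow, h1]
  group

end SelX

open SelX in
theorem t_Sel : StmtSel := by
  classical
  intro K _ _ d hd
  have hS : {v : HeightOneSpectrum (𝓞 K) | d ∈ v.asIdeal}.Finite := by
    have h1 : (Ideal.span {d} : Ideal (𝓞 K)) ≠ 0 := by
      rw [Ne, Ideal.zero_eq_bot, Ideal.span_singleton_eq_bot]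
      exact hd
    refine (Ideal.finite_factors h1).subset ?_
    intro v hv
    exact Ideal.dvd_span_singleton.mpr hv
  have : Finite {v : HeightOneSpectrum (𝓞 K) // d ∈ v.asIdeal} := hS.to_subtype
  obtain ⟨T, hT, hT2⟩ := reps (fun x : K => x ≠ 0 ∧
      ∀ v : HeightOneSpectrum (𝓞 K), d ∉ v.asIdeal → IsSquare (v.valuation K x))
      (fun x => fun v : {v : HeightOneSpectrum (𝓞 K) // d ∈ v.asIdeal} =>
        IsSquare (v.1.valuation K x))
  obtain ⟨U, hU⟩ := exists_units (K := K)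
  obtain ⟨W, hW, hW2⟩ := exists_cls (K := K)
  refine ⟨(T ×ˢ (U ×ˢ W)).image
    (fun p => p.1 * (algebraMap (𝓞 K) K (p.2.1 : 𝓞 K)) * algebraMap (𝓞 K) K p.2.2), ?_, ?_⟩
  · intro γ hγ
    obtain ⟨⟨t, u, w⟩, hp, rfl⟩ := Finset.mem_image.mp hγ
    simp only [Finset.mem_product] at hp
    refine mul_ne_zero (mul_ne_zero (hT t hp.1).1 ?_) ?_
    · rw [Ne, map_eq_zero_iff _ (IsFractionRing.injective (𝓞 K) K)]
      exact u.ne_zero
    · rw [Ne, map_eq_zero_iff _ (IsFractionRing.injective (𝓞 K) K)]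
      exact hW w hp.2.2
  · intro x hx hv
    obtain ⟨t, ht, hf⟩ := hT2 x ⟨hx, hv⟩
    have ht0 := (hT t ht).1
    -- all the valuations of `x / t` are squares
    have hz : ∀ v : HeightOneSpectrum (𝓞 K), IsSquare (v.valuation K (x / t)) := by
      intro v
      rw [map_div₀]
      have hx0 : v.valuation K x ≠ 0 := (Valuation.ne_zero_iff _).mpr hx
      have ht1 : v.valuation K t ≠ 0 := (Valuation.ne_zero_iff _).mpr ht0
      apply isSquare_div hx0 ht1
      by_cases hdv : d ∈ v.asIdeal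
      · exact iff_of_eq (congrFun hf ⟨v, hdv⟩)
      · exact iff_of_true (hv v hdv) ((hT t ht).2 v hdv)
    obtain ⟨a, b, hb, hab⟩ := IsFractionRing.div_surjective (A := 𝓞 K) (x / t)
    have hb0 : b ≠ 0 := nonZeroDivisors.ne_zero hb
    have hbK : algebraMap (𝓞 K) K b ≠ 0 := by
      rw [Ne, map_eq_zero_iff _ (IsFractionRing.injective (𝓞 K) K)]
      exact hb0
    have hxt : x / t ≠ 0 := div_ne_zero hx ht0
    have ha0 : a ≠ 0 := by
      rintro rfl
      rw [map_zero, zero_div] at hab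
      exact hxt hab.symm
    have hwz : algebraMap (𝓞 K) K (a * b) = x / t * (algebraMap (𝓞 K) K b * algebraMap (𝓞 K) K b) := by
      rw [← hab, map_mul]
      field_simp
    obtain ⟨w', hw', u, c, e, hc, he, hrel⟩ := hW2 (a * b) (mul_ne_zero ha0 hb0) (by
      intro v
      rw [hwz, map_mul, map_mul]
      exact (hz v).mul ⟨_, rfl⟩)
    obtain ⟨u', hu', ω, hω⟩ := hU u⁻¹
    refine ⟨t * algebraMap (𝓞 K) K (u' : 𝓞 K) * algebraMap (𝓞 K) K w', ?_,
      algebraMap (𝓞 K) K (ω : 𝓞 K) * algebraMap (𝓞 K) K e /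
        (algebraMap (𝓞 K) K c * algebraMap (𝓞 K) K b), ?_⟩
    · apply Finset.mem_image.mpr
      exact ⟨(t, u', w'), by simp only [Finset.mem_product]; exact ⟨ht, hu', hw'⟩, rfl⟩
    · have hcK : algebraMap (𝓞 K) K c ≠ 0 := by
        rw [Ne, map_eq_zero_iff _ (IsFractionRing.injective (𝓞 K) K)]
        exact hc
      -- `c ^ 2 * (a * b) = u⁻¹ * e ^ 2 * w'`
      have h1 : c ^ 2 * (a * b) = (u⁻¹ : (𝓞 K)ˣ) * (e ^ 2 * w') := by
        rw [← hrel]
        have : ((u⁻¹ : (𝓞 K)ˣ) : 𝓞 K) * u = 1 := Units.inv_mul u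
        calc c ^ 2 * (a * b) = 1 * (c ^ 2 * (a * b)) := (one_mul _).symm
          _ = _ := by rw [← this]; ring
      rw [hω, Units.val_mul, Units.val_pow_eq_pow_val] at h1
      have h2 := congrArg (algebraMap (𝓞 K) K) h1
      rw [map_mul, map_pow, hwz] at h2
      simp only [map_mul, map_pow] at h2
      have h3 : x / t = algebraMap (𝓞 K) K (u' : 𝓞 K) * algebraMap (𝓞 K) K w' *
          (algebraMap (𝓞 K) K (ω : 𝓞 K) * algebraMap (𝓞 K) K e /
            (algebraMap (𝓞 K) K c * algebraMap (𝓞 K) K b)) ^ 2 := by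
        rw [div_pow, mul_pow, mul_pow, mul_div_assoc',
          eq_div_iff (mul_ne_zero (pow_ne_zero 2 hcK) (pow_ne_zero 2 hbK))]
        linear_combination h2
      have h4 : x = t * (x / t) := by
        field_simp
      rw [h4, h3]
      ring

end Pool.Agent.DKP
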