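import Mathlib

/-!
# MP_a79b85_nt: power saving for the extensions of `{1, 2k², 2k²+2k+1}`: statements

Architect: helper39 (with helper93).

Target: for every `ε > 0` at most `C X^(1/4+ε)` of the `k ≤ X` have any extension, and for every
`M ≥ 2` at most `C X^(1/(2M)+ε)` of them have an extension `d ≥ k^(2M)`.

Parts:
* `Class`  : extensions <-> `YY s (2k+1) m` (Pell equation by descent);
* `DD, Interp, Zero, Up, Lio, TL` : lower bound for linear forms in two logarithms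
  (Laurent's interpolation determinants);
* `Ring, G, Lam, Data, Index` : the index `m` is at most `C (log k)^2`;
* `An, Lin, Short, Block` : counting for a fixed index (interpolation determinants);
* `Few` : two sparse sets; `Small` : sizes.
-/

set_option autoImplicit false

open Finset

namespace Pool.Agent.DKP

/-! ## definitions -/

/-- `YY s x 0 = 1`, `YY s x 1 = 2x+s`, `YY s x (m+2) = 2x YY s x (m+1) + YY s x m` -/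
def YY {R : Type} [CommRing R] (s x : R) : ℕ → R
  | 0 => 1
  | 1 => 2 * x + s
  | m + 2 => 2 * x * YY s x (m + 1) + YY s x m

/-- `FF s x m = 2 (YY s x m)^2 - (x-1)^2 + 2` -/
def FF {R : Type} [CommRing R] (s x : R) (m : ℕ) : R := 2 * YY s x m ^ 2 - (x - 1) ^ 2 + 2

/-- `d` extends `{1, 2k², 2k²+2k+1}` to a `D(-k²)`-quadruple. -/
def Extends (k d : ℤ) : Prop :=
  0 < d ∧ d ≠ 1 ∧ d ≠ 2 * k ^ 2 ∧ d ≠ 2 * k ^ 2 + 2 * k + 1 ∧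
    IsSquare (1 * d - k ^ 2) ∧ IsSquare (2 * k ^ 2 * d - k ^ 2) ∧
      IsSquare ((2 * k ^ 2 + 2 * k + 1) * d - k ^ 2)

/-- a solution of index `m` and sign `s`: `y² - 2x² = 2k²-1` with `y = YY s (2k+1) m` -/
structure Sol (k : ℕ) (s : ℤ) (m x : ℕ) : Prop where
  hk : 1 ≤ k
  hs : (s = 1 ∧ Even m) ∨ (s = -1 ∧ Odd m)
  hm : 2 ≤ m
  heq : YY s (2 * (k : ℤ) + 1) m ^ 2 - 2 * (x : ℤ) ^ 2 = 2 * (k : ℤ) ^ 2 - 1

/-- `y + x √2 = (a + b √2) (3 + 2√2)^n` -/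
def Lab (k : ℕ) (s : ℤ) (m x n : ℕ) (a b : ℤ) : Prop :=
  ((YY s (2 * (k : ℤ) + 1) m : ℤ) : ℝ) + x * √2 = (a + b * √2) * (3 + 2 * √2) ^ n

/-- normalisation of the label -/
structure LabN (k : ℕ) (s : ℤ) (m x n : ℕ) (a b : ℤ) : Prop where
  lab : Lab k s m x n a b
  h1 : √(2 * (k : ℝ) ^ 2 - 1) ≤ a + b * √2
  h2 : (a : ℝ) + b * √2 < (3 + 2 * √2) * √(2 * (k : ℝ) ^ 2 - 1)

/-- `α = N + √(N²+1)`, `N = 2k+1` -/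
noncomputable def al (k : ℕ) : ℝ := (2 * k + 1) + √((2 * (k : ℝ) + 1) ^ 2 + 1)

/-- the linear form in logarithms -/
noncomputable def Lam (k : ℕ) (s : ℤ) (m n : ℕ) (a b : ℤ) : ℝ :=
  m * Real.log (al k) - n * Real.log (3 + 2 * √2) +
    Real.log ((al k + s) / (√((2 * (k : ℝ) + 1) ^ 2 + 1) * (a + b * √2)))

/-- the degenerate `k`: `(2k+1)² + 1 = 2t²` -/
def Deg (k : ℕ) : Prop := ∃ t : ℕ, (2 * k + 1) ^ 2 + 1 = 2 * t ^ 2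

/-! ## Part C : classification -/

/-- **Class.** PROOF. `Extends k d`: `d - k² = x²`, `2k²d - k² = k²(2d-1)` is a square, so
`2d - 1 = y²` with `y > 0` (`k ≠ 0`; `2d - 1 > 0`), and `(2k²+2k+1) d - k² = z²`.  Put `N = 2k+1`, `D = N²+1`.
Then `(2z)² = D y² + 2N` and `y² - 2x² = 2k²-1`.  Solve `w² = D y² + 2N σ`, `σ = ±1`, `w ≥ 0`, `y > 0`, by descent on
`y` (compare `descent` in `Pool/Agent/Results/MP_a79b85_nt/AlmostAll.lean`): if `y > 1` then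
`y₁ = w - N y` satisfies `0 < y₁ < y`, `w₁ = |D y - N w|` and `w₁² = D y₁² - 2N σ`; inversely `y = |± w₁ + N y₁|`.
At `y = 1`: `w = N + σ` for `N > 1`.  So by induction on `y` every solution `(w, y)` has `y = YY 1 N j` or `y = YY (-1) N j`
with `w` the matching value (prove the pair statement: `(w, y) = (W s N j, YY s N j)` with
`W s N 0 = N + s`, `W s N (j+1) = N W s N j + D YY s N j`, `YY s N (j+1) = W s N j + N YY s N j`), and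
`σ = s (-1)^j`.  For `σ = 1`: `s = 1` and `j` even, or `s = -1` and `j` odd.  `j = 0, s = 1` gives `y = 1, d = 1`, excluded;
`j = 1, s = -1` gives `y = 4k+1`, `d = 8k²+4k+1`, excluded.  So `j ≥ 2`. -/
def StmtClass : Prop :=
  ∀ (k : ℕ) (d : ℤ), 1 ≤ k → Extends k d → d ≠ 8 * (k : ℤ) ^ 2 + 4 * k + 1 →
    ∃ (s : ℤ) (m x : ℕ), Sol k s m x ∧ 2 * d = YY s (2 * (k : ℤ) + 1) m ^ 2 + 1

/-! ## Part T : two logarithms -/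

/-- **DD.** Divided differences of an analytic function.  PROOF.
`∏_j (z - x_j)⁻¹ = ∑_i (z - x_i)⁻¹ ∏_{j≠i} (x_i - x_j)⁻¹` for `z` on the sphere
(`Lagrange.sum_nodalWeight_mul_inv_sub_ne_zero`, `Lagrange.eval_interpolate_not_at_node` with all values `1`), and
`f x_i = (2πi)⁻¹ ∮ (z - x_i)⁻¹ f z` (`DiffContOnCl.circleIntegral_sub_inv_smul` and variants).  So the sum is
`(2πi)⁻¹ ∮ f z ∏_j (z - x_j)⁻¹`; there `‖z - x_j‖ ≥ r - θ`; use `circleIntegral.norm_integral_le_of_norm_le_const`. -/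
def StmtDD : Prop :=
  ∀ (n : ℕ) (f : ℂ → ℂ) (c : ℂ) (r θ M : ℝ) (x : Fin (n + 1) → ℂ),
    0 ≤ θ → θ < r → DiffContOnCl ℂ f (Metric.ball c r) → (∀ z ∈ Metric.sphere c r, ‖f z‖ ≤ M) →
    Function.Injective x → (∀ i, dist (x i) c ≤ θ) →
    ‖∑ i, f (x i) * ∏ j ∈ univ.erase i, (x i - x j)⁻¹‖ ≤ M * r / (r - θ) ^ (n + 1)

/-- **Interp.** Interpolation determinants, with some arbitrary rows.  PROOF (from `StmtDD`).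
`T : Matrix (Fin n) (Fin n) ℂ`, `T i j = ∏_{l ≤ i, l ≠ j} (x_j - x_l)⁻¹` for `j ≤ i`, `0` for `j > i`: lower triangular,
`det T = ∏_i ∏_{l<i} (x_i - x_l)⁻¹`, `1/|det T| ≤ (2θ)^(n(n-1)/2)`.  Let `B = fromBlocks T 0 0 1`; `det B = det T`.
The rows of `G = B * A`: row `inl i` is the divided difference of `f φ` at `x_0, …, x_i`, norm
`≤ M φ * r/(r-θ)^(i+1)` by `StmtDD`; row `inr b` is the old row, `≤ δ M φ`.
A determinant with `|G j φ| ≤ ρ j * M φ` is `≤ (card)! ∏ ρ ∏ M` (expand over permutations).  So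
`|det A| = |det G|/|det T| ≤ card! ∏ M ∏_{i<n} r/(r-θ)^(i+1) δ^card β (2θ)^(n(n-1)/2)`. -/
def StmtInterp : Prop :=
  ∀ (n : ℕ) (β : Type) [Fintype β] [DecidableEq β] (f : Fin n ⊕ β → ℂ → ℂ) (c : ℂ) (r θ δ : ℝ)
    (M : Fin n ⊕ β → ℝ) (x : Fin n → ℂ) (A : Matrix (Fin n ⊕ β) (Fin n ⊕ β) ℂ),
    0 < θ → θ < r → 0 ≤ δ → (∀ φ, 0 ≤ M φ) → (∀ φ, DiffContOnCl ℂ (f φ) (Metric.ball c r)) →
    (∀ φ, ∀ z ∈ Metric.sphere c r, ‖f φ z‖ ≤ M φ) → Function.Injective x →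
    (∀ i, dist (x i) c ≤ θ) → (∀ i φ, A (Sum.inl i) φ = f φ (x i)) →
    (∀ b φ, ‖A (Sum.inr b) φ‖ ≤ δ * M φ) →
    ‖A.det‖ ≤ ((Fintype.card (Fin n ⊕ β)).factorial : ℝ) * (∏ φ, M φ) * (r / (r - θ)) ^ n *
      (2 * θ / (r - θ)) ^ (n * (n - 1) / 2) * δ ^ Fintype.card β

/-- **Zero.** Zero estimate.  PROOF.  Let `P_l = ∑_k p k l X^k`, `𝓛 = {l | P_l ≠ 0}`, and suppose `𝓛` is not empty, `L' = #𝓛 ≤ L`.
The numbers `a^j`, `j < L`, are distinct (`a > 0`, `a ≠ 1`), so the Vandermonde matrix `((a^j)^l)_{j<L, l<L}` is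
invertible, its columns `l ∈ 𝓛` are independent, so there are `L'` rows `j ∈ 𝓙` with `det ((a^j)^l)_{j∈𝓙, l∈𝓛} ≠ 0`
(`exists_minor` in `Pool/Agent/MMCI/K_MIN.lean`; or: `𝓙 = 𝓛`-many first rows by Descartes).
Let `δ(X) = det (P_l(X + j) (a^j)^l)_{j∈𝓙, l∈𝓛} ∈ ℝ[X]`.  Its coefficient at `∑_{l∈𝓛} deg P_l` is
`∏ lc(P_l) * det ((a^j)^l) ≠ 0`, and its degree is `≤ (K-1) L' ≤ (K-1) L`.  For `r < R`, `s < S` put `x = s - q r`,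
`θ = a^s b^r ≠ 0`: the hypothesis at `(r, s+j)` is `∑_l P_l(x+j) (a^j)^l θ^l = 0`, so the vector `(θ^l)_{l∈𝓛} ≠ 0` is in the
kernel of the matrix at `X = x`, and `δ(x) = 0`.  The `R S` numbers `s - q r` are distinct (`S ≤ q`), more than the
degree: contradiction. -/
def StmtZero : Prop :=
  ∀ (K L R S q : ℕ) (a b : ℝ) (p : Fin K → Fin L → ℝ), 1 ≤ K → 0 < a → a ≠ 1 → 0 < b → S ≤ q →
    (K - 1) * L < R * S →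
    (∀ r s : ℕ, r < R → s < S + L →
      ∑ k, ∑ l, p k l * ((s : ℝ) - q * r) ^ (k : ℕ) * (a ^ s * b ^ r) ^ (l : ℕ) = 0) →
    p = 0

/-- the interpolation matrix -/
noncomputable def EM (K L : ℕ) (q : ℕ) (X a b : ℝ) (rr ss : Fin K × Fin L → ℕ) :
    Matrix (Fin K × Fin L) (Fin K × Fin L) ℝ :=
  Matrix.of fun j φ => (((ss j : ℝ) - q * rr j) / X) ^ (φ.1 : ℕ) *
    (a ^ ss j * b ^ rr j) ^ (φ.2 : ℕ)

/-- **Up.** The analytic upper bound.  PROOF (from `StmtInterp`).  `n = K L`, `c = log a`, `Λ = q c + log b`,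
`x_j = ss j - q rr j`, `|x_j| ≤ X`, all distinct (`ss j < S ≤ q`).  `a^(ss) b^(rr) = exp(c x_j + rr_j Λ)`.  So the matrix is
`P + Q`, `P j φ = f_φ(x_j)`, `f_{(k,l)}(z) = (z/X)^k exp(l c z)`, `Q j φ = P j φ (exp(l rr_j Λ) - 1)`,
`|Q j φ| ≤ M * δ`, `M = 16^K exp(16 L |c| X)`, `δ = exp(-2n)` (as `|exp t - 1| ≤ 2|t|` for `|t| ≤ 1`).
Expand the determinant over the rows (`MultilinearMap.map_add_univ` for `Matrix.detRowAlternating`): `2^n` terms; for a set `J` of rows from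
`Q`, `t = #J`, `n' = n - t`: reindex the rows to `Fin n' ⊕ Fin t` (and the columns by the same kind of equivalence; the absolute value of the
determinant does not change) and use `StmtInterp` with centre `0`, `θ = X`, `r = 16 X`:
`|term| ≤ n! M^n (16/15)^n' (2/15)^(n'(n'-1)/2) δ^t`, and `(2/15) ≤ exp(-2)`, `n'(n'-1) + 2 n t = n(n-1) + t² + t`. -/
def StmtUp : Prop :=
  ∀ (K L R S q : ℕ) (a b X : ℝ) (rr ss : Fin K × Fin L → ℕ), 1 ≤ K → 1 ≤ L → 0 < a → 0 < b →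
    0 < X → (∀ j, rr j < R ∧ ss j < S) → S ≤ q → (∀ i j, rr i = rr j → ss i = ss j → i = j) →
    (q : ℝ) * R + S ≤ X →
    2 * (L : ℝ) * R * |q * Real.log a + Real.log b| ≤ Real.exp (-(2 * (K * L : ℕ))) →
    |(EM K L q X a b rr ss).det| ≤
      2 ^ (K * L) * ((K * L).factorial : ℝ) *
        (16 ^ (K + 1) * Real.exp (16 * (L * |Real.log a| * X))) ^ (K * L) *
        Real.exp (-((K * L : ℕ) * ((K * L : ℕ) - 1 : ℝ)))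

/-- **Lio.** The arithmetic lower bound.  PROOF.  In the ring `Fin 4 → ℝ` let `G j φ = x_j^k u^(l ss_j) v^(l rr_j) w^((L-1-l) rr_j)`,
`x_j = ss_j - q rr_j ∈ ℤ`, `φ = (k, l)`; all entries are in `O`, so `z = det G ∈ O` and `z i = det (G · · i)` (`RingHom.map_det` with `Pi.evalRingHom`).
`z 0 = ∏_j (w 0)^((L-1) rr_j) * X^(∑_φ k) * det EM ≠ 0` (row scaling, column scaling: `Matrix.det_mul_row`, `Matrix.det_mul_column`), so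
`1 ≤ ∏ |z i|`.  `|z 0| ≤ exp(H2 L R n) X^(K n) |det EM|`, and for `i ≠ 0`
`|z i| ≤ n! ∏_j (X^K exp(L (R H2 + S H1)))` (permutation expansion), `n = K L`. -/
def StmtLio : Prop :=
  ∀ (O : Subring (Fin 4 → ℝ)), (∀ z ∈ O, z ≠ 0 → 1 ≤ |∏ i, z i|) →
    ∀ (u v w : Fin 4 → ℝ), u ∈ O → v ∈ O → w ∈ O → 0 < u 0 → 0 < v 0 → 0 < w 0 →
    ∀ (K L R S q H1 H2 : ℕ) (X : ℝ) (rr ss : Fin K × Fin L → ℕ), 1 ≤ K → 1 ≤ L → 1 ≤ X →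
    (∀ i, |u i| ≤ Real.exp H1 ∧ |v i| ≤ Real.exp H2 ∧ |w i| ≤ Real.exp H2) →
    (∀ j, rr j < R ∧ ss j < S) → (q : ℝ) * R + S ≤ X →
    (EM K L q X (u 0) (v 0 / w 0) rr ss).det ≠ 0 →
    1 ≤ |(EM K L q X (u 0) (v 0 / w 0) rr ss).det| * X ^ (4 * K * (K * L)) *
      ((K * L).factorial : ℝ) ^ 3 * Real.exp (4 * (K * L) * L * (R * H2 + S * H1) : ℕ)

/-- **TL.** Lower bound for a linear form in two logarithms.  PROOF (from `StmtZero, StmtUp, StmtLio`, and `exists_minor` of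
`Pool/Agent/MMCI/K_MIN.lean`).  Suppose `|Λ| < exp(-3n)`, `Λ = q log(u 0) + log(v 0/w 0)`, `n = K L`,
`K = 10^6 L H1 H2`, `n = 10^6 L² H1 H2`, `R = 1000 L H1`, `S = 1000 L H2`, `R S = K L`, `a = u 0`, `b = v 0/w 0`,
`X = 4000 L H1 q`; `S + L ≤ 2000 L H2 ≤ q`, `q R + S + L ≤ X`.  By `StmtZero` the rows `φ = (k,l)` of the matrix
`(x^k (a^s b^r)^l)_{φ, (r,s)}`, `r < R`, `s < S + L`, are independent, so there are `n` points `(rr j, ss j)`, distinct, with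
`det EM ≠ 0` (transpose; scaling by powers of `X`).  `StmtUp` (with `S + L`; `2 L R exp(-3n) ≤ exp(-2n)`) and `StmtLio` (with `S + L`) give
`0 ≤ n log 2 + 4 log n! + n (K+1) log 16 + 16 n L |c| X - n(n-1) + 4 K n log X + 4 n L (R H2 + (S+L) H1)`, `c = log a`.
Here `|c| ≤ (H2 + 1)/q`, `L |c| X ≤ 8000 L² H1 H2 = 8n/1000`, `L (R H2 + (S+L) H1) ≤ 3n/1000`, `K = n/L ≤ n/100`,
`K log X ≤ n/16`, `log n! ≤ n log n`.  Divide by `n`: `n - 1 ≤ 0.42 n + 4 log n + 4`, false since `n ≥ 10^10`. -/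
def StmtTL : Prop :=
  ∀ (O : Subring (Fin 4 → ℝ)), (∀ z ∈ O, z ≠ 0 → 1 ≤ |∏ i, z i|) →
    ∀ (u v w : Fin 4 → ℝ), u ∈ O → v ∈ O → w ∈ O → 0 < u 0 → u 0 ≠ 1 → 0 < v 0 → 0 < w 0 →
    ∀ (H1 H2 L q : ℕ), 1 ≤ H1 → 1 ≤ H2 → 100 ≤ L → 1 ≤ q →
    (∀ i, |u i| ≤ Real.exp H1 ∧ |v i| ≤ Real.exp H2 ∧ |w i| ≤ Real.exp H2) →
    |Real.log (v 0 / w 0)| ≤ H2 →
    2000 * L * H2 ≤ q → 16 * Real.log (4000 * L * H1 * q) ≤ L →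
    Real.exp (-(3 * 10 ^ 6 * (L : ℝ) ^ 2 * H1 * H2)) ≤
      |q * Real.log (u 0) + Real.log (v 0 / w 0)|

/-! ## Part A : application -/

/-- the conjugates of `√2` -/
noncomputable def e2 : Fin 4 → ℝ := ![√2, -√2, √2, -√2]

/-- the conjugates of `√D`, `D = (2k+1)²+1` -/
noncomputable def eD (k : ℕ) : Fin 4 → ℝ :=
  ![√((2 * (k : ℝ) + 1) ^ 2 + 1), √((2 * (k : ℝ) + 1) ^ 2 + 1),
    -√((2 * (k : ℝ) + 1) ^ 2 + 1), -√((2 * (k : ℝ) + 1) ^ 2 + 1)]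

/-- `ℤ[√2, √D]`, as tuples of conjugates -/
noncomputable def OO (k : ℕ) : Subring (Fin 4 → ℝ) := Subring.closure {e2, eD k}

/-- **Ring.** PROOF.  The elements of `OO k` are `a + b e2 + c eD + d e2 eD`, `a b c d ∈ ℤ` (this set is a subring containing `e2, eD`:
`Subring.closure_le`).  The product of the four coordinates is `A² - 2B²`, where `A = a² + 2b² - D(c² + 2d²)`, `B = 2ab - 2Dcd`,
`D = (2k+1)²+1`: an integer.  If it is `0` then `A = B = 0` (`√2` irrational), i.e. `(a + b√2)² = D (c + d√2)²` ; if `(c,d) = 0` then `a = b = 0`.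
Otherwise `D = (p + r√2)²`, `p, r ∈ ℚ`, so `p r = 0` and `D = p²` or `D = 2r²`: `D` is not a square (`(2k+1)² < D < (2k+2)²`), and
`D = 2r²` with `r` rational gives `r` integer (`D` is even, `(2r)² = 2D`), excluded by `¬ Deg k`. -/
def StmtRing : Prop :=
  ∀ k : ℕ, ¬ Deg k → ∀ z ∈ OO k, z ≠ 0 → 1 ≤ |∏ i, z i|

/-- **G.** PROOF.  `y = YY s (2k+1) m > 0`, `P = 2k²-1 ≥ 1`, `ξ = y + x√2`, `ξ' = y - x√2`, `ξ ξ' = P`, so `0 < ξ' ≤ ξ`, `ξ ≥ √P`.  Take the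
largest `n` with `(3+2√2)^n √P ≤ ξ` and `a + b√2 = ξ (3-2√2)^n`. -/
def StmtG : Prop :=
  ∀ (k : ℕ) (s : ℤ) (m x : ℕ), Sol k s m x → ∃ (n : ℕ) (a b : ℤ), LabN k s m x n a b

/-- **Lam.** PROOF.  `N = 2k+1 ≥ 3`, `α = N + √D`, `α' = N - √D = -1/α`, `α ≥ 6`, `2√D y = (α+s) α^m - (α'+s) α'^m` (induction on `m`, for `y = YY s N m`),
`ξ = y + x√2 = (a + b√2) ε^n`, `ξ' = y - x√2 = P/ξ`, `P = 2k²-1`, `√D ξ = 2√D y - √D ξ' = (α+s)α^m (1 - η)`,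
`η = ((α'+s)α'^m + √D P/ξ)/((α+s)α^m)`; `(α'+s) α'^m > 0` in both cases (`s = 1`, `m` even; `s = -1`, `m` odd), so `η > 0`;
`D ≤ 0.27 α²`, `P ≤ α²/8`, `(α+s)² ≥ 0.69 α²`, `ξ ≥ y ≥ (α+s)α^m/(4√D)`: `η ≤ α^(2-2m) ≤ 1/36`.
`Lam = log((α+s)α^m/(√D ξ)) = -log(1-η) ∈ (0, 2η]`.
`ξ ≤ 2y ≤ (α+1)α^m/√D ≤ α^(m+1)` and `ε^n ≤ ξ` (`a + b√2 ≥ √P ≥ 1`), `log ε ≥ 1`: `n ≤ (m+1) log α`. -/
def StmtLam : Prop :=
  ∀ (k : ℕ) (s : ℤ) (m x n : ℕ) (a b : ℤ), Sol k s m x → LabN k s m x n a b →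
    0 < Lam k s m n a b ∧ Lam k s m n a b ≤ 2 * (al k) ^ (2 - 2 * (m : ℤ)) ∧
    (n : ℝ) ≤ (m + 1) * Real.log (al k)

/-- `α ^ a1 ε^(-a2)` -/
noncomputable def tu (k a1 a2 : ℕ) : Fin 4 → ℝ :=
  fun i => (2 * k + 1 + eD k i) ^ a1 * (3 - 2 * e2 i) ^ a2

/-- `(α + s) α^r1 ε^(-r2)` -/
noncomputable def tv (k : ℕ) (s : ℤ) (r1 : ℕ) (r2 : ℤ) : Fin 4 → ℝ :=
  fun i => (2 * k + 1 + eD k i + s) * (2 * k + 1 + eD k i) ^ r1 * (3 - 2 * e2 i) ^ r2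

/-- `√D (a + b √2)` -/
noncomputable def tw (k : ℕ) (a b : ℤ) : Fin 4 → ℝ := fun i => eD k i * (a + b * e2 i)

/-- **Data.** All the data for the theorem on two logarithms.  PROOF (from `StmtLam` for `n ≤ (m+1) log α ≤ (3/2) m H`, and `StmtRing` for `u 0 ≠ 1`).
`log α ≥ log 6 > 1`, so `H ≥ 2`.  Dirichlet (`Real.exists_int_int_abs_mul_sub_le` or `Real.exists_nat_abs_mul_sub_round_le`):
`1 ≤ a1 ≤ T`, `a2 ≥ 0` with `|a1 n/m - a2| ≤ 1/(T+1)`.  `q = m / a1`, `r1 = m % a1`, `r2 = n - q a2`.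
`u = tu k a1 a2`, `v = tv k s r1 r2`, `w = tw k a b` (members of `OO k`, as `(3-2e2)(3+2e2) = 1`).  `a2 ≤ (3/2) a1 H + 1 ≤ 2 a1 H`;
`|u i| ≤ α^a1 ε^a2 ≤ exp(a1 H + 2·2 a1 H)` (`ε = 3+2√2 ≤ exp 2`, really `log ε < 1.763`);
`r2 = n r1/m + q (a1 n/m - a2)`, so `|r2| ≤ (3/2) a1 H + m/(a1 T) ≤ (3/2) a1 H + d + 1`, `d = m / (a1*T)` (natural division);
`|v i| ≤ (α+1) α^r1 ε^|r2|`, `log ≤ H + 0.2 + (a1 - 1) H + 1.763 |r2|`; the same bound for `|log (v 0)|`;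
`|w i| ≤ √D max(g, P/g) ≤ √D ε √P ≤ 1.1 α²`, `g = a + b√2 ∈ [√P, ε√P)`, conjugate `a - b√2 = P/g` (take norms in `Lab`), `w 0 ≥ 1`.
`u 0 ≠ 1`: otherwise `u - 1 ∈ OO k` has product `0`, so `u = 1` by `StmtRing`, but `|u 2| = α^(-a1) ε^(-a2) < 1`.
The identity: `m = q a1 + r1`, `n = q a2 + r2`. -/
def StmtData : Prop :=
  ∀ (k : ℕ) (s : ℤ) (m x n : ℕ) (a b : ℤ) (H T : ℕ), ¬ Deg k → Sol k s m x →
    LabN k s m x n a b → Real.log (al k) ≤ H → 1 ≤ T →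
    ∃ (a1 : ℕ) (u v w : Fin 4 → ℝ), 1 ≤ a1 ∧ a1 ≤ T ∧
      u ∈ OO k ∧ v ∈ OO k ∧ w ∈ OO k ∧ 0 < u 0 ∧ u 0 ≠ 1 ∧ 0 < v 0 ∧ 0 < w 0 ∧
      (∀ i, |u i| ≤ Real.exp (7 * a1 * H : ℕ) ∧
        |v i| ≤ Real.exp (11 * a1 * H + 2 * (m / (a1 * T)) + 2 : ℕ) ∧
        |w i| ≤ Real.exp (11 * a1 * H + 2 * (m / (a1 * T)) + 2 : ℕ)) ∧
      |Real.log (v 0 / w 0)| ≤ (11 * a1 * H + 2 * (m / (a1 * T)) + 2 : ℕ) ∧
      (m / a1 : ℕ) * Real.log (u 0) + Real.log (v 0 / w 0) = Lam k s m n a b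

/-- **Index.** The index is small.  PROOF (from `StmtG, StmtLam, StmtRing, StmtTL, StmtData`).  `H = ⌈log α⌉`, `log α ≤ H ≤ 2 log α`, `H ≤ 3 log(2k+1)`.
Suppose `m > C (log (2k+1))² `; `L = ⌈48 log m⌉ + 300`, `T = 10^8 L²`, `q = m / a1`, `H1 = 7 a1 H`, `H2 = 11 a1 H + 2 (m/(a1 T)) + 2`.
Conditions of `StmtTL`: `2000 L H2 ≤ q` holds as `4000 L/T ≤ 1/4` and `m ≥ 10^22 L^5 H`; `16 log(4000 L H1 q) ≤ 16 log (28000 L H m) ≤ L`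
since `L, H ≤ m`.  Conclusion with `StmtLam` (`Lam ≤ 2 α^(2-2m)`, `log α ≥ H/2`):
`(m-1) H ≤ log 2 + 3·10^6 L² H1 H2 ≤ 1 + 3·10^6 L² (84 a1² H² + 14 H m/T)`, `a1 ≤ T`, so
`m - 1 ≤ 1 + 2.52·10^8 L² T² H + 4.2·10^7 L² m/T`, `m ≤ 5·10^24 L^6 H` (+ small).  As `H ≤ 3 √(m/C)`, `m/H ≥ √(C m)/3`,
and `L^6 ≤ C₁ √m` for all `m ≥ 1`: contradiction for `C` large. -/
def StmtIndex : Prop :=
  ∃ C : ℝ, 0 < C ∧ ∀ (k : ℕ) (s : ℤ) (m x : ℕ), ¬ Deg k → Sol k s m x →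
    (m : ℝ) ≤ C * Real.log (2 * k + 1) ^ 2

/-! ## Part N : counting -/

/-- **An.** Analytic continuation of the coordinates `a`, `b`.  PROOF.  `N₀ = 2k₀+1 ≥ 80 m ≥ 160`, closed ball `|z - N₀| ≤ N₀/(8m) ≤ N₀/16`
(so `|z| ≥ 75 m`).  `ρ = YY s z m/(2z)^m`: `ρ_0 = 1`, `ρ_1 = 1 + s/(2z)`, `ρ_{j+2} = ρ_{j+1} + ρ_j/(4z²)`, so
`|ρ_m - 1| ≤ 1/100`.  `κ = FF s z m/(2 (2z)^(2m)) = ρ² - ((z-1)²-2)/(2(2z)^(2m))`, `|κ - 1| ≤ 1/40`, `√κ := κ^(1/2)` (principal branch, analytic,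
`|√κ - 1| ≤ 1/40`).  `h(z) = (2z)^m (ρ + √κ)` (this is `y + x√2` at a solution: `2x = √(FF)`, `x ≥ 0`), `1.95 |2z|^m ≤ |h| ≤ 2.05 |2z|^m`, and
`|z/N₀|^m ∈ [7/8, 1.14]`.  `g = h (3+2√2)^(-n)`, `g(N₀) = a₀ + b₀√2 ∈ [√P₀, (3+2√2)√P₀)`, `P₀ = 2k₀²-1`, `0.70 N₀ ≤ √P₀ ≤ 0.7072 N₀`:
`0.58 N₀ ≤ |g| ≤ 4.95 N₀`.  `P(z) = ((z-1)²-2)/2`, `|P| ≤ 0.58 N₀²`, `g' = P/g`, `|g'| ≤ N₀`.  `fa = (g + g')/2`, `fb = (g - g')/(2√2)`.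
At a solution `k` with `Lab k s m x n a b`: `g = a + b√2`, and `(a + b√2)(a - b√2) = 2k²-1 = P(2k+1)` (conjugate `Lab`), so `g' = a - b√2`. -/
def StmtAn : Prop :=
  ∀ (k₀ : ℕ) (s : ℤ) (m x₀ n : ℕ) (a₀ b₀ : ℤ), Sol k₀ s m x₀ → LabN k₀ s m x₀ n a₀ b₀ →
    80 * m ≤ 2 * k₀ + 1 →
    ∃ fa fb : ℂ → ℂ,
      DiffContOnCl ℂ fa (Metric.ball (2 * k₀ + 1) ((2 * k₀ + 1) / (8 * m))) ∧
      DiffContOnCl ℂ fb (Metric.ball (2 * k₀ + 1) ((2 * k₀ + 1) / (8 * m))) ∧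
      (∀ z ∈ Metric.sphere (2 * k₀ + 1 : ℂ) ((2 * k₀ + 1) / (8 * m)),
        ‖fa z‖ ≤ 4 * (2 * k₀ + 1) ∧ ‖fb z‖ ≤ 4 * (2 * k₀ + 1)) ∧
      ∀ (k x : ℕ) (a b : ℤ), |2 * (k : ℝ) - 2 * k₀| ≤ (2 * k₀ + 1) / (16 * m) →
        Sol k s m x → Lab k s m x n a b → fa (2 * k + 1) = a ∧ fb (2 * k + 1) = b

/-- **Lin.** Few points on an auxiliary curve.  PROOF.  `T ≠ ∅`, so `s = ±1`.  `(3+2√2)^n = c + d√2`, `c² - 2d² = 1`, integers.  At a point of `T`,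
`N = 2k+1`, `y = w(N)`, `w = YY s X m ∈ ℤ[X]`, `Y = 2x`, `Y² = F(N)`, `F = FF s X m`: `a = c y - d Y`, `b = (c/2) Y - d y`.
In the ring `ℚ[X][Y]/(Y²-F)` (pairs `(A,B) ↔ A + B Y`) put `𝐚 = c w - d Y`, `𝐛 = -d w + (c/2) Y`, and
`Φ = ∑ φ_{i,ε,j} X^i 𝐚^ε 𝐛^j = A + B Y`.  Degrees: `𝐚^ε 𝐛^j` has `A`-part of degree `≤ m(ε+j)` and `B`-part of degree `≤ m(ε+j-1)`.
`(A,B) ≠ (0,0)`: let `x → ∞` on the reals, `Y = √(F(x))`: `𝐚 ~ τ (2x)^m`, `𝐛 ~ (τ/√2) (2x)^m`, `τ = c - d√2 ≠ 0`; take the largest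
`i + m t` (`t = ε + j`, `i < M ≤ m`, so `(i,t)` is unique) with `φ ≠ 0`: the leading coefficient is `τ^t 2^{-t/2}(φ_{i,0,t} + √2 φ_{i,1,t-1})`, not zero since
`√2` is irrational.  (Or algebraically: leading coefficients in `ℚ(√2)` of `A + B √2 w`-type.)  `E = A² - F B² ∈ ℚ[X]` is not zero, because the leading coefficient of `F` is `2·4^m`
(`m ≥ 2`), not a square times...: if `B ≠ 0` then `A² = F B²` contradicts the irrationality of `√2`.  `deg E ≤ 2(M-1) + 2m(J+1)`, and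
`E(N) = 0` for all `N = 2k+1`, `k ∈ T`. -/
def StmtLin : Prop :=
  ∀ (M J m n : ℕ) (s : ℤ) (φ : Fin M × Fin 2 × Fin (J + 1) → ℚ) (T : Finset ℕ),
    2 ≤ M → M ≤ m → φ ≠ 0 →
    (∀ k ∈ T, ∃ (x : ℕ) (a b : ℤ), Sol k s m x ∧ Lab k s m x n a b ∧
      ∑ i, φ i * (2 * (k : ℚ) + 1) ^ (i.1 : ℕ) * (a : ℚ) ^ (i.2.1 : ℕ) *
        (b : ℚ) ^ (i.2.2 : ℕ) = 0) →
    T.card ≤ 2 * M + 2 * m * (J + 1)

/-- **Short.** Points of a short interval.  PROOF (from `StmtInterp, StmtAn, StmtLin`).  `T ≠ ∅`; fix `k₀ ∈ T`, `N₀ = 2k₀+1`, `r = N₀/(8m)`, `n' = 2M(J+1)`; the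
hypothesis gives `64 n' m ℓ < Z ≤ N₀`, so `ℓ ≤ r/2`.  `fa, fb` from `StmtAn`; for `k ∈ T` choose `x_k, a_k, b_k`; `fa(2k+1) = a_k`, `fb(2k+1) = b_k`.
The vectors `v_k = ((2k+1)^i a_k^ε b_k^j)_{(i,ε,j)}` are integral.  For any `n'` elements of `T` (distinct) the determinant is an integer and by `StmtInterp`
(`β = Fin 0`, `θ = ℓ`, centre `N₀`, `M φ = (4N₀)^(i+ε+j)`; `n'(n'-1)/2 =: E`, `∑_φ (i+ε+j) = (J+1) M (M+J) = E (M+J)/(n'-1)`) at most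
`n'! 2^n' (4N₀)^(E(M+J)/(n'-1)) (32 m ℓ/N₀)^E ≤ (2n' (8Z)^((M+J)/(n'-1)) 32 m ℓ/Z)^E < 1`, so it is `0`.
Hence the columns of the matrix `(v_k φ)` are dependent over `ℚ` (`exists_minor` of `Pool/Agent/MMCI/K_MIN.lean`), and `StmtLin` applies. -/
def StmtShort : Prop :=
  ∀ (M J m n ℓ Z : ℕ) (s : ℤ) (T : Finset ℕ), 2 ≤ M → M ≤ m → 80 * m ≤ Z → 1 ≤ ℓ →
    64 * (2 * M * (J + 1) : ℝ) * m * ℓ *
      (8 * Z : ℝ) ^ (((M + J : ℕ) : ℝ) / (2 * M * (J + 1) - 1)) < Z →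
    (∀ k ∈ T, Z ≤ 2 * k + 1 ∧ 2 * k + 1 < 2 * Z ∧
      ∃ (x : ℕ) (a b : ℤ), Sol k s m x ∧ LabN k s m x n a b) →
    (∀ k ∈ T, ∀ k' ∈ T, |2 * (k : ℤ) - 2 * k'| ≤ ℓ) →
    T.card ≤ 2 * M + 2 * m * (J + 1)

/-- **Block.** Dyadic blocks.  PROOF (from `StmtIndex, StmtG, StmtLam, StmtShort`).  We may take `ε ≤ 1/8`; `J` with
`(M+J)/(2M(J+1)-1) ≤ 1/(2M) + ε/4`; for `Z` below a bound depending on `M, ε` the trivial bound `#T ≤ Z` is enough.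
For `k ∈ T`: `m ≤ m₁ = C log(2Z)²`, `n ≤ (m+1) log α ≤ n₁ = C (log 2Z)³`; `80 m₁ ≤ Z`.  `ℓ = ⌊Z^(1 - 1/(2M) - ε/2)⌋`; the numerical condition of `StmtShort` holds for
large `Z`.  For fixed `(s, m, n)`: group the `k` by `(2k+1)/ℓ`: at most `Z/ℓ + 2` groups, each of at most `2M + 2m(J+1)` elements by `StmtShort`.  Sum over
`s, m ≤ m₁, n ≤ n₁`: polylog times `Z^(1/(2M)+ε/2)`. -/
def StmtBlock : Prop :=
  ∀ (M : ℕ) (ε : ℝ), 2 ≤ M → 0 < ε → ∃ C : ℝ, 0 < C ∧ ∀ (Z : ℕ) (T : Finset ℕ), 1 ≤ Z →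
    (∀ k ∈ T, Z ≤ 2 * k + 1 ∧ 2 * k + 1 < 2 * Z ∧ ¬ Deg k ∧
      ∃ (s : ℤ) (m x : ℕ), Sol k s m x ∧ M ≤ m) →
    (T.card : ℝ) ≤ C * (Z : ℝ) ^ (1 / (2 * (M : ℝ)) + ε)

/-! ## Part F : the two sparse sets and the sizes -/

/-- **Few.** PROOF.  (1) `N² + 1 = 2t²`, two solutions `N₁ < N₂`: `|N₁t₂ - N₂t₁| ≥ 1` (distinct, coprime) and `|N₁/t₁ - N₂/t₂| ≤ 1/(2t₁²)`
(`N/t = √(2 - 1/t²)`), so `t₂ ≥ 2t₁`, `N₂ > 2N₁`.  (2) `U = 7k+2`, `U² + 3 = 7v²`; two solutions: `|U₁v₂ - U₂v₁| ≥ 1`,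
`|U₁/v₁ - U₂/v₂| ≤ 3/(4v₁²)`, so `v₂ ≥ (4/3) v₁`; four solutions in the block: `v₄ ≥ (64/27) v₁`, `k₄ > 2k₁ + 1/2`, contradiction with
`2k₄+1 < 2Z ≤ 2(2k₁+1)`. -/
def StmtFew : Prop :=
  (∀ (Z : ℕ) (T : Finset ℕ), (∀ k ∈ T, Z ≤ 2 * k + 1 ∧ 2 * k + 1 < 2 * Z ∧ Deg k) →
    T.card ≤ 2) ∧
  (∀ (Z : ℕ) (T : Finset ℕ), (∀ k ∈ T, Z ≤ 2 * k + 1 ∧ 2 * k + 1 < 2 * Z ∧ 1 ≤ k ∧
    IsSquare (7 * k ^ 2 + 4 * k + 1)) → T.card ≤ 3)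

/-- **Small.** The size of an extension of index `m`: `YY s N m ≤ (2N+1)^m ≤ (7k)^m`. -/
def StmtSmall : Prop :=
  ∀ (k : ℕ) (s : ℤ) (m x : ℕ) (d : ℤ), Sol k s m x →
    2 * d = YY s (2 * (k : ℤ) + 1) m ^ 2 + 1 → d ≤ (7 * (k : ℤ)) ^ (2 * m)

end Pool.Agent.DKP
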